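import Pool.Agent.MP_bd9604_nt.Inf.CSpec

attribute [-instance] IdemSemiring.toCanonicallyOrderedAdd AddQuantale.instAddLeftMono
  Fintype.decidableForallFintype IdemSemiring.toMulLeftMono IsOrderedMonoid.toMulLeftMono
  NumberField.to_charZero Quantale.instMulLeftMono AddQuantale.instAddRightMono RKHS.instFunLike
  covariant_swap_mul_of_covariant_mul LinearOrderedCommMonoidWithZero.toPosMulStrictMono
  Finset.decidableDforallFinset Quantale.instMulRightMono Multiset.decidableDforallMultiset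
  Vector.instDecidableForallForallMemOfDecidablePred CanonicallyOrderedAdd.toMulLeftMono
  Array.instDecidableForallForallMemOfDecidablePred Option.decidableForallMem
  IsOrderedRing.toIsStrictOrderedRing Group.IsPerfect.subsingleton_of_isMulCommutative
  Int.decidableLTLE Int.decidableLELE CompletePartialOrder.toPartialOrder Int.decidableLTLT instCoeT
  instCoeTOfCoeDep Int.decidableLELT AddCommGroup.toAddGroup NeZero.of_gt' Field.toDivisionRing
  NormedDivisionRing.toDivisionRing forall_prop_decidable CommRing.toRing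
  TestFunctionClass.toDFunLike ContDiffMapSupportedInClass.toDFunLike
  CanonicallyOrderedMul.toMulLeftMono instCoeHTCTOfCoeHTC

-- part MP_bd9604_nt.Inf.ChkA
section

/-! From packed numbers to slots.

Use pk W k f = sum over i < k of f i * 2 ^ (W * i). Linear operations act slotwise with no side condition
(sum, product with a scalar; difference if g i <= f i). Key lemma: if g i < 2 ^ W for all i < k then for ANY
number Y, Y &&& pk W k g = pk W k (fun i => (Y >>> (W * i)) &&& g i) (Nat.eq_of_testBit_eq; testBit of pk at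
W * i + r, r < W, is testBit (g i) r; or induction on k with Nat.testBit_two_pow_mul_add). ones W k = pk W k 1
(geometric sum). (Z >>> t) &&& ones = pk of the bits lbit S Z i t. For bounded f, (pk f >>> (W * i)) &&& g = f i &&& g
when g < 2 ^ W. wloop with fuel f started at place t, p = pwr S X t calls its continuation with the packed values of
seen i = [some bit t' in [t, t + f) is 1], acc i = sum of bit t' * pwr t' over t <= t' < n i, P i = pwr (n i) (0 if not seen),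
E i = [n i = t], n i the last place < t + f with bit 1 (state it as: wloop ... k = k (pk ..) (pk ..) (pk ..) (pk ..)).
sel with Q = pk q, q i < 2 ^ W, adds pk (q i * (sl * lam + cl)), pk (q i * (sh * lam + ch)) for the leaf Tb.get (lbit S Z i) tb t.
Final comparison: all values are < 2 ^ (W - 1) = 32 * 4 ^ S (pwr t <= (3/5)^t 2^S, lam <= 3/2 2^S, entries bounded by tbok,
so lval <= 11 * 4 ^ S, mg <= 4 ^ S), G + HI - LO = pk (2 ^ (W-1) + hi i - lo i) and the bit W - 1 of each slot is set.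
The raw Nat.add, Nat.mul, Nat.land, Nat.shiftLeft ... are definitionally + * &&& <<< (Nat.add_eq, Nat.mul_eq, Nat.land_eq,
Nat.shiftLeft_eq', Nat.shiftRight_eq, Nat.shiftLeft_eq, Nat.shiftRight_eq_div_pow). -/

namespace Pool.Agent.KExp

open Finset

/-- packed numbers -/
def pk (W k : ℕ) (f : ℕ → ℕ) : ℕ := ∑ i ∈ range k, f i * 2 ^ (W * i)

section pk
variable {W k : ℕ} {f g : ℕ → ℕ}

lemma pk_congr (h : ∀ i < k, f i = g i) : pk W k f = pk W k g :=
  sum_congr rfl fun i hi => by rw [h i (mem_range.1 hi)]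

lemma pk_zero (h : ∀ i < k, f i = 0) : pk W k f = 0 :=
  sum_eq_zero fun i hi => by rw [h i (mem_range.1 hi), zero_mul]

lemma pk_add : pk W k f + pk W k g = pk W k fun i => f i + g i := by
  simp only [pk, add_mul, sum_add_distrib]

lemma pk_mul (c : ℕ) : pk W k f * c = pk W k fun i => f i * c := by
  simp only [pk, sum_mul, mul_right_comm]

lemma pk_sub (h : ∀ i < k, g i ≤ f i) : pk W k f - pk W k g = pk W k fun i => f i - g i := by
  refine Nat.sub_eq_of_eq_add ?_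
  rw [pk_add]
  exact pk_congr fun i hi => (Nat.sub_add_cancel (h i hi)).symm

lemma pk_head (f : ℕ → ℕ) : pk W (k + 1) f = 2 ^ W * pk W k (fun i => f (i + 1)) + f 0 := by
  simp only [pk, sum_range_succ', mul_sum, mul_zero, pow_zero, mul_one, mul_add, pow_add]
  exact congrArg (· + f 0) (sum_congr rfl fun i _ => by ring)

lemma pk_tail (f : ℕ → ℕ) : pk W (k + 1) f = pk W k f + f k * 2 ^ (W * k) := sum_range_succ _ _

lemma pk_testBit (h : ∀ i < k, f i < 2 ^ W) (i : ℕ) {r : ℕ} (hr : r < W) :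
    (pk W k f).testBit (W * i + r) = (decide (i < k) && (f i).testBit r) := by
  induction k generalizing f i with
  | zero => simp [pk]
  | succ k ih =>
    rw [pk_head, Nat.testBit_two_pow_mul_add _ (h 0 k.succ_pos)]
    rcases i with _ | i
    · simp [hr]
    · rw [if_neg (by rw [mul_add]; omega), show W * (i + 1) + r - W = W * i + r by rw [mul_add]; omega,
        ih fun j hj => h (j + 1) (by omega)]
      simp

lemma pk_ext (hW : 0 < W) {A B : ℕ}
    (h : ∀ i r, r < W → A.testBit (W * i + r) = B.testBit (W * i + r)) : A = B :=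
  Nat.eq_of_testBit_eq fun j => by
    rw [← Nat.div_add_mod j W]
    exact h _ _ (Nat.mod_lt _ hW)

lemma land_pk (hW : 0 < W) (Y : ℕ) (hg : ∀ i < k, g i < 2 ^ W) :
    Y &&& pk W k g = pk W k fun i => Y >>> (W * i) &&& g i :=
  pk_ext hW fun i r hr => by
    rw [Nat.testBit_and, pk_testBit hg i hr,
      pk_testBit (fun j hj => Nat.and_le_right.trans_lt (hg j hj)) i hr, Nat.testBit_and,
      Nat.testBit_shiftRight]
    cases decide (i < k) <;> simp

lemma pk_land (hW : 0 < W) (hf : ∀ i < k, f i < 2 ^ W) (hg : ∀ i < k, g i < 2 ^ W) :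
    pk W k f &&& pk W k g = pk W k fun i => f i &&& g i :=
  pk_ext hW fun i r hr => by
    rw [Nat.testBit_and, pk_testBit hf i hr, pk_testBit hg i hr,
      pk_testBit (fun j hj => Nat.and_le_right.trans_lt (hg j hj)) i hr, Nat.testBit_and]
    cases decide (i < k) <;> simp

lemma pk_inj (hf : ∀ i < k, f i < 2 ^ W) (hg : ∀ i < k, g i < 2 ^ W)
    (h : pk W k f = pk W k g) {i : ℕ} (hi : i < k) : f i = g i :=
  Nat.eq_of_testBit_eq fun r => by
    by_cases hr : r < W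
    · have := pk_testBit hf i hr
      rw [h, pk_testBit hg i hr] at this
      simpa [hi] using this.symm
    · have h2 : 2 ^ W ≤ 2 ^ r := Nat.pow_le_pow_right two_pos (not_lt.1 hr)
      rw [Nat.testBit_lt_two_pow ((hf i hi).trans_le h2), Nat.testBit_lt_two_pow ((hg i hi).trans_le h2)]

lemma ones_eq_ChkA (hW : 0 < W) (k : ℕ) : ones W k = pk W k fun _ => 1 := by
  have h : 2 ≤ 2 ^ W := Nat.le_self_pow hW.ne' 2
  have := Nat.geomSum_eq h k
  simp only [← pow_mul] at this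
  simp only [pk, one_mul, this]
  change (1 <<< (W * k) - 1) / (1 <<< W - 1) = _
  rw [Nat.one_shiftLeft, Nat.one_shiftLeft]

lemma pk_bits (hW : 0 < W) (Z t : ℕ) :
    Z >>> t &&& pk W k (fun _ => 1) = pk W k fun i => (Z.testBit (W * i + t)).toNat := by
  rw [land_pk hW _ fun _ _ => Nat.one_lt_two_pow hW.ne']
  refine pk_congr fun i _ => ?_
  rw [Nat.and_one_is_mod, Nat.toNat_testBit, ← Nat.shiftRight_add, Nat.shiftRight_eq_div_pow,
    add_comm]

lemma pk_mask (hW : 0 < W) (hf : ∀ i < k, f i < 2 ^ W) (p : ℕ → Prop) [DecidablePred p]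
    (hg : ∀ i < k, g i = if p i then 1 else 0) :
    pk W k f &&& pk W k g * (2 ^ W - 1) = pk W k fun i => if p i then f i else 0 := by
  have h0 : 0 < 2 ^ W := by positivity
  rw [pk_mul, pk_land hW hf fun i hi => by rw [hg i hi]; split_ifs <;> omega]
  refine pk_congr fun i hi => ?_
  rw [hg i hi]
  split_ifs
  · rw [one_mul, Nat.and_two_pow_sub_one_eq_mod, Nat.mod_eq_of_lt (hf i hi)]
  · simp

end pk

/-- a bit was seen from place `t` on -/
def sA_ChkA (N : ℕ) (b : ℕ → Bool) (t : ℕ) : ℕ := if b (llen N b) = true ∧ t ≤ llen N b then 1 else 0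

/-- the last bit is at place `t` -/
def eA_ChkA (N : ℕ) (b : ℕ → Bool) (t : ℕ) : ℕ := if b (llen N b) = true ∧ t = llen N b then 1 else 0

/-- the accumulated sum -/
def aA_ChkA (S X N : ℕ) (b : ℕ → Bool) (t : ℕ) : ℕ :=
  ∑ u ∈ Ico t (llen N b), (b u).toNat * pwr S X u

lemma lane_ChkA (S X : ℕ) {N t : ℕ} (b : ℕ → Bool) (ht : t ≤ N) :
    (b t).toNat - ((b t).toNat &&& sA_ChkA N b (t + 1)) = eA_ChkA N b t ∧
    sA_ChkA N b (t + 1) + eA_ChkA N b t = sA_ChkA N b t ∧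
    aA_ChkA S X N b (t + 1) + ((b t).toNat &&& sA_ChkA N b (t + 1)) * pwr S X t = aA_ChkA S X N b t ∧
    sA_ChkA N b (t + 1) * pwr S X (llen N b) + eA_ChkA N b t * pwr S X t = sA_ChkA N b t * pwr S X (llen N b) := by
  unfold sA_ChkA eA_ChkA aA_ChkA
  rcases lt_trichotomy t (llen N b) with h | h | h
  · have h1 : b (llen N b) = true :=
      Nat.findGreatest_of_ne_zero (P := fun t => b t = true) rfl (show llen N b ≠ 0 by omega)
    rw [if_pos ⟨h1, h⟩, if_neg fun h' => h.ne h'.2, if_pos ⟨h1, h.le⟩, sum_eq_sum_Ico_succ_bot h]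
    cases b t <;> simp only [Bool.toNat_false, Nat.and_one_is_mod, Nat.zero_mod, tsub_self, add_comm, zero_add, zero_mul, one_mul, and_self, Bool.toNat_true, Nat.and_self, Nat.add_left_cancel_iff]
  · rw [← h]
    cases b t <;> simp only [Bool.toNat_false, Bool.false_eq_true, add_le_iff_nonpos_right, nonpos_iff_eq_zero, one_ne_zero, and_self, ↓ reduceIte, Nat.and_self, tsub_self, and_true, add_zero, Std.le_refl, le_add_iff_nonneg_right, zero_le, Ico_eq_empty_of_le, sum_empty, zero_mul, Bool.toNat_true, and_false, Nat.and_zero, tsub_zero, zero_add, one_mul]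
  · have h1 : b t = false := by
      by_contra h'
      exact h.not_ge (Nat.le_findGreatest (P := fun t => b t = true) ht (by simpa using h'))
    rw [if_neg (by omega), if_neg (by omega), if_neg (by omega), Ico_eq_empty_of_le h.le,
      Ico_eq_empty_of_le (by omega), h1]
    simp

lemma sA_lt_ChkA (N : ℕ) (b : ℕ → Bool) (t : ℕ) {W : ℕ} (hW : 0 < W) : sA_ChkA N b t < 2 ^ W := by
  have := Nat.one_lt_two_pow hW.ne'
  unfold sA_ChkA
  split_ifs <;> omega

lemma wloop_eq_ChkA (S X Z N k f : ℕ) : ∀ (t : ℕ) (K : ℕ → ℕ → ℕ → ℕ → Bool), t + f = N + 1 →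
    wloop S X Z (pk (2 * S + 6) k fun _ => 1) f t (pwr S X t) K =
      K (pk (2 * S + 6) k fun i => sA_ChkA N (lbit S Z i) t) (pk (2 * S + 6) k fun i => aA_ChkA S X N (lbit S Z i) t)
        (pk (2 * S + 6) k fun i => sA_ChkA N (lbit S Z i) t * pwr S X (llen N (lbit S Z i)))
        (pk (2 * S + 6) k fun i => eA_ChkA N (lbit S Z i) t) := by
  have hW : 0 < 2 * S + 6 := by omega
  induction f with
  | zero =>
    intro t K ht
    have h : ∀ i, llen N (lbit S Z i) < t := fun i =>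
      (Nat.findGreatest_le N).trans_lt (by omega)
    have h1 : ∀ i, sA_ChkA N (lbit S Z i) t = 0 := fun i => if_neg fun h' => (h i).not_ge h'.2
    rw [pk_zero fun i _ => h1 i, pk_zero (f := fun i => aA_ChkA S X N (lbit S Z i) t) fun i _ => by
      rw [aA_ChkA, Ico_eq_empty_of_le (h i).le, sum_empty],
      pk_zero (f := fun i => sA_ChkA N (lbit S Z i) t * _) fun i _ => by rw [h1, zero_mul],
      pk_zero (f := fun i => eA_ChkA N (lbit S Z i) t) fun i _ => if_neg fun h' => (h i).ne' h'.2]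
    rfl
  | succ f ih =>
    intro t K ht
    have hl := fun i => lane_ChkA S X (lbit S Z i) (show t ≤ N by omega)
    change wloop S X Z _ f (t + 1) ((pwr S X t * X) >>> S) (fun seen acc P _ =>
      K (seen + ((Z >>> t &&& _) - (Z >>> t &&& _ &&& seen)))
        (acc + (Z >>> t &&& _ &&& seen) * pwr S X t)
        (P + ((Z >>> t &&& _) - (Z >>> t &&& _ &&& seen)) * pwr S X t)
        ((Z >>> t &&& _) - (Z >>> t &&& _ &&& seen))) = _
    rw [Nat.shiftRight_eq_div_pow, show pwr S X t * X / 2 ^ S = pwr S X (t + 1) from rfl,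
      ih (t + 1) _ (by omega), pk_bits hW,
      pk_land hW (fun i _ => (Bool.toNat_le _).trans_lt (Nat.one_lt_two_pow hW.ne'))
        fun i _ => sA_lt_ChkA _ _ _ hW, pk_sub fun i _ => Nat.and_le_left, pk_mul, pk_mul, pk_add, pk_add,
      pk_add]
    congr 1
    · exact pk_congr fun i _ => (congrArg (_ + ·) (hl i).1).trans (hl i).2.1
    · exact pk_congr fun i _ => (hl i).2.2.1
    · exact pk_congr fun i _ => (congrArg (_ + · * _) (hl i).1).trans (hl i).2.2.2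
    · exact pk_congr fun i _ => (hl i).1

lemma sel_eq_ChkA (S Z k lam : ℕ) (tb : Tb) : ∀ (t : ℕ) (q : ℕ → ℕ) (lo hi : ℕ) (K : ℕ → ℕ → Bool),
    (∀ i < k, q i < 2 ^ (2 * S + 6)) →
    sel lam Z (pk (2 * S + 6) k fun _ => 1) (2 ^ (2 * S + 6) - 1) tb t (pk (2 * S + 6) k q) lo hi K =
      K (lo + pk (2 * S + 6) k fun i =>
          q i * ((tb.get (lbit S Z i) t).1 * lam + (tb.get (lbit S Z i) t).2.1))
        (hi + pk (2 * S + 6) k fun i =>
          q i * ((tb.get (lbit S Z i) t).2.2.1 * lam + (tb.get (lbit S Z i) t).2.2.2)) := by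
  have hW : 0 < 2 * S + 6 := by omega
  have h0 : 0 < 2 ^ (2 * S + 6) := by positivity
  induction tb with
  | leaf sl cl sh ch =>
    intro t q lo hi K _
    change K (lo + _ * (sl * lam + cl)) (hi + _ * (sh * lam + ch)) = _
    rw [pk_mul, pk_mul]
    rfl
  | node l r il ir =>
    intro t q lo hi K hq
    change sel lam Z _ _ l (t + 1) (_ - (_ &&& (Z >>> t &&& _) * _)) lo hi (fun lo' hi' =>
      sel lam Z _ _ r (t + 1) (_ &&& (Z >>> t &&& _) * _) lo' hi' K) = _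
    rw [pk_bits hW, pk_mask hW hq (fun i => lbit S Z i t = true) fun i _ => by
        unfold lbit; cases Z.testBit _ <;> rfl,
      pk_sub fun i _ => by split_ifs <;> omega,
      il _ _ _ _ _ fun i hi => (Nat.sub_le _ _).trans_lt (hq i hi),
      ir _ _ _ _ _ fun i hi => by have := hq i hi; split_ifs <;> omega, add_assoc, add_assoc, pk_add,
      pk_add]
    congr 2 <;> refine pk_congr fun i _ => ?_ <;> rw [Tb.get] <;> split_ifs <;> simp

lemma pwr_sum_ChkA {S X : ℕ} (hX : 5 * X ≤ 3 * 2 ^ S) (n : ℕ) :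
    2 * ∑ t ∈ range n, pwr S X t + 5 * pwr S X n ≤ 5 * 2 ^ S := by
  induction n with
  | zero => simp [pwr]
  | succ n ih =>
    have h1 : pwr S X (n + 1) * 2 ^ S ≤ pwr S X n * X := Nat.div_mul_le_self _ _
    have h2 : 5 * pwr S X (n + 1) ≤ 3 * pwr S X n :=
      Nat.le_of_mul_le_mul_right (c := 2 ^ S) (by linarith only [Nat.mul_le_mul_left (pwr S X n) hX, h1])
        (by positivity)
    rw [sum_range_succ]
    omega

lemma lval_le_ChkA {S X : ℕ} (hX : 5 * X ≤ 3 * 2 ^ S) (b : ℕ → Bool) (n : ℕ) {s c : ℕ} (hs : s ≤ 2)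
    (hc : c ≤ 3 * 2 ^ S) : lval S X b n s c ≤ 11 * 4 ^ S := by
  have h1 := pwr_sum_ChkA hX n
  have h2 : ∑ t ∈ range n, (b t).toNat * pwr S X t ≤ ∑ t ∈ range n, pwr S X t :=
    sum_le_sum fun t _ => by cases b t <;> simp
  have h3 : lamv S X * (2 ^ S - X) ≤ X * 2 ^ S := Nat.div_mul_le_self _ _
  have h4 : 2 * 2 ^ S ≤ 5 * (2 ^ S - X) := by omega
  have h5 : 2 * lamv S X ≤ 3 * 2 ^ S :=
    Nat.le_of_mul_le_mul_right (c := 2 ^ S)
      (by linarith only [Nat.mul_le_mul_left (lamv S X) h4, Nat.mul_le_mul_right (2 ^ S) hX, h3])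
      (by positivity)
  have h6 : s * lamv S X + c ≤ 6 * 2 ^ S := by linarith only [Nat.mul_le_mul_right (lamv S X) hs, hc, h5]
  have h7 := Nat.mul_le_mul (show pwr S X n ≤ 2 ^ S by omega) h6
  have h8 := Nat.mul_le_mul_right (2 ^ S)
    (show 2 * ∑ t ∈ range n, (b t).toNat * pwr S X t ≤ 5 * 2 ^ S by omega)
  rw [lval, show (4 : ℕ) ^ S = 2 ^ S * 2 ^ S from mul_pow 2 2 S, pow_succ]
  linarith only [h7, h8]

lemma tbok_get_ChkA {S : ℕ} (b : ℕ → Bool) (tb : Tb) : ∀ t, tbok S tb = true →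
    (tb.get b t).1 ≤ 2 ∧ (tb.get b t).2.1 ≤ 3 * 2 ^ S ∧ (tb.get b t).2.2.1 ≤ 2 ∧
      (tb.get b t).2.2.2 ≤ 3 * 2 ^ S := by
  induction tb with
  | leaf sl cl sh ch =>
    intro t h
    change (Nat.ble sl 2 && Nat.ble sh 2 && Nat.ble cl (3 <<< S) && Nat.ble ch (3 <<< S)) = true at h
    simp only [Bool.and_eq_true, Nat.ble_eq, Nat.shiftLeft_eq] at h
    exact ⟨h.1.1.1, h.1.2, h.1.1.2, h.2⟩
  | node l r il ir =>
    intro t h
    change (tbok S l && tbok S r) = true at h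
    rw [Bool.and_eq_true] at h
    rw [Tb.get]
    split_ifs
    exacts [ir _ h.2, il _ h.1]

theorem endck_lane {S N k Z mg : ℕ} {ts tt : Tb} {sa ca sb cb X : ℕ}
    (h : endck S N k Z mg ts tt sa ca sb cb X = true) (hX : 5 * X ≤ 3 * 2 ^ S) (hmg : mg ≤ 4 ^ S)
    (h1 : tbok S ts = true) (h2 : tbok S tt = true) (h3 : tbok S (Tb.leaf sa ca sb cb) = true) :
    ∀ i ≤ k, loV S X N k Z ts tt sb cb i + mg ≤ hiV S X N Z ts tt sa ca i := by
  have hW : 0 < 2 * S + 6 := by omega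
  have hp : ∀ n, pwr S X n < 2 ^ (2 * S + 6) := fun n => by
    have := pwr_sum_ChkA hX n
    have := Nat.pow_lt_pow_right one_lt_two (show S < 2 * S + 6 by omega)
    omega
  change wloop S X Z (ones (2 * S + 6) k) (N + 1) 0 (1 <<< S) (fun seen acc P E =>
    sel (X <<< S / (1 <<< S - X)) Z (ones (2 * S + 6) k) (1 <<< (2 * S + 6) - 1) ts (N + 1)
      (P &&& E * (1 <<< (2 * S + 6) - 1)) (acc <<< (S + 1)) (acc <<< (S + 1)) fun lo1 hi1 =>
    sel (X <<< S / (1 <<< S - X)) Z (ones (2 * S + 6) k) (1 <<< (2 * S + 6) - 1) tt (N + 1)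
      (P - (P &&& E * (1 <<< (2 * S + 6) - 1))) lo1 hi1 fun lo hi =>
    Nat.beq seen (ones (2 * S + 6) k) && Nat.beq
      (((ones (2 * S + 6) k <<< (2 * S + 6) + 1) <<< (2 * S + 5) +
        (hi <<< (2 * S + 6) + (sa * (X <<< S / (1 <<< S - X)) + ca) <<< S) -
        (lo + mg * (ones (2 * S + 6) k <<< (2 * S + 6) + 1) +
          ((sb * (X <<< S / (1 <<< S - X)) + cb) <<< S) <<< ((2 * S + 6) * k))) &&&
        (ones (2 * S + 6) k <<< (2 * S + 6) + 1) <<< (2 * S + 5))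
      ((ones (2 * S + 6) k <<< (2 * S + 6) + 1) <<< (2 * S + 5))) = true at h
  have hs : ∀ i, sA_ChkA N (lbit S Z i) 0 * pwr S X (llen N (lbit S Z i)) < 2 ^ (2 * S + 6) := fun i => by
    have := hp (llen N (lbit S Z i))
    unfold sA_ChkA
    split_ifs <;> omega
  simp only [Nat.shiftLeft_eq, one_mul, ones_eq_ChkA hW] at h
  rw [← lamv, show 2 ^ S = pwr S X 0 from rfl, wloop_eq_ChkA S X Z N k _ _ _ (zero_add _),
    pk_mask (g := fun i => eA_ChkA N (lbit S Z i) 0) hW (fun i _ => hs i) (fun i => lbit S Z i (llen N (lbit S Z i)) = true ∧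
      0 = llen N (lbit S Z i)) fun i _ => rfl, pk_sub fun i _ => by split_ifs <;> omega,
    sel_eq_ChkA _ _ _ _ _ _ _ _ _ _ fun i _ => by have := hs i; split_ifs <;> omega,
    sel_eq_ChkA _ _ _ _ _ _ _ _ _ _ fun i _ => (Nat.sub_le _ _).trans_lt (hs i), Bool.and_eq_true,
    Nat.beq_eq, Nat.beq_eq, pk_mul (2 ^ (S + 1)), pk_add, pk_add, pk_add, pk_add] at h
  obtain ⟨hseen, hfin⟩ := h
  have hb : ∀ i < k, lbit S Z i (llen N (lbit S Z i)) = true := fun i hi => by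
    have := pk_inj (fun i _ => sA_lt_ChkA _ _ _ hW) (fun _ _ => Nat.one_lt_two_pow hW.ne') hseen hi
    by_contra h'
    exact zero_ne_one ((if_neg fun h'' => h' h''.1).symm.trans this)
  have key : ∀ (u v : ℕ × ℕ × ℕ × ℕ → ℕ), ∀ i < k, aA_ChkA S X N (lbit S Z i) 0 * 2 ^ (S + 1) +
      (if lbit S Z i (llen N (lbit S Z i)) = true ∧ 0 = llen N (lbit S Z i) then
        sA_ChkA N (lbit S Z i) 0 * pwr S X (llen N (lbit S Z i)) else 0) *
        (u (ts.get (lbit S Z i) (N + 1)) * lamv S X + v (ts.get (lbit S Z i) (N + 1))) +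
      (sA_ChkA N (lbit S Z i) 0 * pwr S X (llen N (lbit S Z i)) -
        if lbit S Z i (llen N (lbit S Z i)) = true ∧ 0 = llen N (lbit S Z i) then
          sA_ChkA N (lbit S Z i) 0 * pwr S X (llen N (lbit S Z i)) else 0) *
        (u (tt.get (lbit S Z i) (N + 1)) * lamv S X + v (tt.get (lbit S Z i) (N + 1))) =
      lval S X (lbit S Z i) (llen N (lbit S Z i)) (u (lent N ts tt (lbit S Z i)))
        (v (lent N ts tt (lbit S Z i))) := fun u v i hi => by
    rw [show sA_ChkA N (lbit S Z i) 0 = 1 from if_pos ⟨hb i hi, Nat.zero_le _⟩, one_mul, lval, lent, aA_ChkA, ← range_eq_Ico]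
    by_cases h0 : llen N (lbit S Z i) = 0
    · rw [if_pos ⟨hb i hi, h0.symm⟩, if_pos h0, Nat.sub_self, zero_mul, add_zero]
    · rw [if_neg fun h' => h0 h'.2.symm, if_neg h0, Nat.sub_zero, zero_mul, add_zero]
  have hent := fun i => tbok_get_ChkA (lbit S Z i) (if llen N (lbit S Z i) = 0 then ts else tt) (N + 1)
    (show tbok S _ = true by split_ifs <;> assumption)
  have h4 := tbok_get_ChkA (fun _ => false) _ 0 h3
  have hlo : ∀ i, loV S X N k Z ts tt sb cb i ≤ 11 * 4 ^ S := fun i => by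
    unfold loV
    split_ifs
    exacts [lval_le_ChkA hX _ _ (hent i).1 (hent i).2.1, lval_le_ChkA hX _ _ h4.2.2.1 h4.2.2.2]
  have hhi : ∀ i, hiV S X N Z ts tt sa ca i ≤ 11 * 4 ^ S := by
    rintro (_ | i)
    exacts [lval_le_ChkA hX _ _ h4.1 h4.2.1, lval_le_ChkA hX _ _ (hent i).2.2.1 (hent i).2.2.2]
  have e0 : ∀ s c, (s * lamv S X + c) * pwr S X 0 = lval S X (fun _ => false) 0 s c := fun s c => by
    rw [lval, sum_range_zero, zero_mul, zero_add, mul_comm]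
  have e1 : pk (2 * S + 6) k (fun _ => 1) * 2 ^ (2 * S + 6) + 1 = pk (2 * S + 6) (k + 1) fun _ => 1 := by
    rw [pk_head, mul_comm]
  have e2 : 2 ^ (2 * S + 5) = 32 * 4 ^ S := by rw [pow_add, pow_mul]; ring
  have e3 : 2 ^ (2 * S + 6) = 64 * 4 ^ S := by rw [pow_add, pow_mul]; ring
  have e4 : 0 < 4 ^ S := by positivity
  rw [pk_congr (key (·.1) (·.2.1)), pk_congr (key (·.2.2.1) (·.2.2.2)), e0, e0, e1,
    mul_comm (pk _ k _) (2 ^ (2 * S + 6)), mul_comm mg, add_right_comm (pk _ k _)] at hfin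
  change (_ + (_ * pk _ k (fun i => hiV S X N Z ts tt sa ca (i + 1)) + hiV S X N Z ts tt sa ca 0) -
    _) &&& _ = _ at hfin
  rw [← pk_head, pk_congr (g := loV S X N k Z ts tt sb cb) fun i hi => (if_pos hi).symm,
    show lval S X (fun _ => false) 0 sb cb = loV S X N k Z ts tt sb cb k from
      (if_neg (lt_irrefl k)).symm, ← pk_tail, pk_mul, pk_mul, pk_add, pk_add,
    pk_sub fun i _ => by have := hlo i; omega,
    pk_land hW (fun i _ => by have := hhi i; omega) fun i _ => by omega] at hfin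
  intro i hi
  have h5 := pk_inj (fun i _ => Nat.and_le_right.trans_lt (by omega)) (fun i _ => by omega) hfin
    (Nat.lt_succ_of_le hi)
  have h6 := h5.ge.trans Nat.and_le_left
  have := hlo i
  omega

end Pool.Agent.KExp

end

-- part MP_bd9604_nt.Inf.ChkB
section

/-! From slots to real numbers.

lval_le, lval_ge: 0 <= 2^S x^t - pwr t <= 1 / (1 - x) <= 5/2 (induction), 0 <= 2^S x/(1-x) - lamv <= 1, s <= 2, c <= 3 * 2^S.
chord: as a function of x on [x1, x2] (inside [0, 3/5]) lreal is convex (sum of c * x^t and x^n * x / (1 - x); e.g.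
ConvexOn, or the algebraic induction below) and lies at most 12 (x2 - x1)^2 below its chord. One way: write lreal by Horner,
h = a + x * g; with ch f = the affine interpolation of f at x1, x2, ch (x * g) x - x * g x =
x * (ch g x - g x) + (x - x1) (x2 - x) (g x2 - g x1) / (x2 - x1); keep 0 <= g <= 7, 0 <= g x2 - g x1 <= 19 (x2 - x1),
0 <= ch g - g <= 48 (x - x1) (x2 - x) (true for s x / (1 - x) + c: slope <= 12.5, gap constant <= 31.25).
chain0_sound: endck_lane at X1 and X2 give lo (i) + 12 (x2 - x1)^2 <= hi (i) for the real values at both ends, so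
lo (i) <= hi (i) at x. y + 1 / (1 - x) = lreal x S b n s c iff y = ev x w (pt x S s c) for the word w of the digits
2 * b t - 1, t < n. Take the least i with y + 1/(1-x) <= hi (i + 1) (or i = k, impossible unless ...): then y lies in the slot i,
y = ev x w z with z between the two ends of the entry (ev_lin), which is a leaf of ts if n = 0 (then z = y) and a leaf of tt
otherwise (SR.of_ev). If y + 1/(1-x) = hi 0 use lo 0 <= hi 0. For k = 0 note mg > 0 or argue with strict inequalities: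
lo i < hi i at x since the margin 5 N + 30 exceeds the rounding error 5 N + 20. -/

namespace Pool.Agent.KExp
open Finset

lemma div_ChkB (a b : ℕ) (hb : 0 < b) :
    ((a / b : ℕ) : ℝ) ≤ a / b ∧ (a : ℝ) / b ≤ (a / b : ℕ) + 1 := by
  refine ⟨Nat.cast_div_le, ?_⟩
  have h1 : (0 : ℝ) < b := by exact_mod_cast hb
  rw [div_le_iff₀ h1]
  have h2 : a ≤ (a / b + 1) * b := by
    have := Nat.div_add_mod a b
    have := Nat.mod_lt a hb
    nlinarith
  exact_mod_cast h2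

lemma x_ChkB {S X : ℕ} (hX : 5 * X ≤ 3 * 2 ^ S) :
    (0 : ℝ) ≤ X / 2 ^ S ∧ (X : ℝ) / 2 ^ S ≤ 3 / 5 := by
  refine ⟨by positivity, ?_⟩
  rw [div_le_iff₀ (by positivity)]
  have : (5 : ℝ) * X ≤ 3 * 2 ^ S := by exact_mod_cast hX
  linarith only [this]

lemma pwr_ChkB {S X : ℕ} (hX : 5 * X ≤ 3 * 2 ^ S) (t : ℕ) :
    (pwr S X t : ℝ) ≤ 2 ^ S * (X / 2 ^ S) ^ t ∧
      (2 : ℝ) ^ S * (X / 2 ^ S) ^ t ≤ pwr S X t + 5 / 2 := by
  obtain ⟨h0, h1⟩ := x_ChkB hX
  induction t with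
  | zero => simp [pwr]; norm_num
  | succ t ih =>
    obtain ⟨h2, h3⟩ := div_ChkB (pwr S X t * X) (2 ^ S) (by positivity)
    rw [pwr, pow_succ, ← mul_assoc]
    push_cast at h2 h3
    rw [mul_div_assoc] at h2 h3
    have h4 := mul_le_mul_of_nonneg_right ih.1 h0
    have h5 := mul_le_mul_of_nonneg_right ih.2 h0
    constructor <;> linarith only [h2, h4, h1, h3, h5]

lemma lam_ChkB {x : ℝ} (h0 : 0 ≤ x) (h1 : x ≤ 3 / 5) : 0 ≤ x / (1 - x) ∧ x / (1 - x) ≤ 3 / 2 := by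
  have h : 0 < 1 - x := by linarith
  refine ⟨by positivity, ?_⟩
  rw [div_le_iff₀ h]; linarith

lemma lamv_ChkB {S X : ℕ} (hX : 5 * X ≤ 3 * 2 ^ S) :
    (lamv S X : ℝ) ≤ 2 ^ S * ((X / 2 ^ S) / (1 - X / 2 ^ S)) ∧
      (2 : ℝ) ^ S * ((X / 2 ^ S) / (1 - X / 2 ^ S)) ≤ lamv S X + 1 := by
  have hp : 0 < 2 ^ S := by positivity
  have hl : X < 2 ^ S := by omega
  have h := div_ChkB (X * 2 ^ S) (2 ^ S - X) (by omega)
  have hl' : (X : ℝ) < 2 ^ S := by exact_mod_cast hl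
  have e : ((X * 2 ^ S : ℕ) : ℝ) / ((2 ^ S - X : ℕ) : ℝ) =
      2 ^ S * ((X / 2 ^ S) / (1 - X / 2 ^ S)) := by
    rw [Nat.cast_sub hl.le]
    push_cast
    have : (2 : ℝ) ^ S - X ≠ 0 := by linarith only [hl']
    field_simp
  rw [e] at h
  exact h

lemma four_ChkB (S : ℕ) : (4 : ℝ) ^ S = 2 ^ S * 2 ^ S := by
  rw [← mul_pow]; norm_num

lemma lreal_mul_ChkB (x : ℝ) (S : ℕ) (b : ℕ → Bool) (n s c : ℕ) :
    4 ^ S * lreal x S b n s c = (∑ t ∈ range n, ((b t).toNat : ℝ) * (2 ^ S * x ^ t)) * (2 ^ S * 2) +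
      2 ^ S * x ^ n * (s * (2 ^ S * (x / (1 - x))) + c) := by
  have e : ∑ t ∈ range n, ((b t).toNat : ℝ) * (2 ^ S * x ^ t) =
      2 ^ S * ∑ t ∈ range n, ((b t).toNat : ℝ) * x ^ t := by
    rw [mul_sum]; exact sum_congr rfl fun t _ => by ring
  rw [e, lreal, four_ChkB]
  generalize x / (1 - x) = l
  field_simp

theorem lval_le {S X : ℕ} (hX : 5 * X ≤ 3 * 2 ^ S) (b : ℕ → Bool) (n s c : ℕ) :
    (lval S X b n s c : ℝ) ≤ 4 ^ S * lreal (X / 2 ^ S) S b n s c := by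
  rw [lreal_mul_ChkB, lval]
  push_cast
  rw [pow_succ]
  have h1 := fun t => (pwr_ChkB hX t).1
  have h2 := (lamv_ChkB hX).1
  gcongr with t _
  · exact h1 t
  · exact h1 n

theorem lval_ge {S X : ℕ} (hX : 5 * X ≤ 3 * 2 ^ S) (b : ℕ → Bool) {n s c : ℕ} (hs : s ≤ 2)
    (hc : c ≤ 3 * 2 ^ S) :
    4 ^ S * lreal (X / 2 ^ S) S b n s c ≤ (lval S X b n s c : ℝ) + (5 * n + 20) * 2 ^ S := by
  rw [lreal_mul_ChkB, lval]
  push_cast
  rw [pow_succ]
  obtain ⟨h0, h1⟩ := x_ChkB hX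
  have a1 : ∑ t ∈ range n, ((b t).toNat : ℝ) * (2 ^ S * (X / 2 ^ S) ^ t) ≤
      ∑ t ∈ range n, ((b t).toNat : ℝ) * pwr S X t + n * (5 / 2) := by
    have : (n : ℝ) * (5 / 2) = ∑ _t ∈ range n, (5 / 2 : ℝ) := by simp
    rw [this, ← sum_add_distrib]
    refine sum_le_sum fun t _ => ?_
    have := (pwr_ChkB hX t).2
    cases b t <;> simp only [Bool.toNat_false, CharP.cast_eq_zero, zero_mul, zero_add, ge_iff_le, Bool.toNat_true, Nat.cast_one, one_mul] <;> linarith only [this]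
  obtain ⟨a2, a3⟩ := pwr_ChkB hX n
  obtain ⟨a4, a5⟩ := lamv_ChkB hX
  obtain ⟨a6, a7⟩ := lam_ChkB h0 h1
  have hu : (0 : ℝ) < 2 ^ S := by positivity
  have a8 : (pwr S X n : ℝ) ≤ 2 ^ S := by
    have := pow_le_one₀ (n := n) h0 (by linarith only [h1])
    nlinarith only [a2, hu, this]
  have hs' : (s : ℝ) ≤ 2 := by exact_mod_cast hs
  have hc' : (c : ℝ) ≤ 3 * 2 ^ S := by exact_mod_cast hc
  have hs0 : (0 : ℝ) ≤ s := by positivity
  have hc0 : (0 : ℝ) ≤ c := by positivity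
  have hp0 : (0 : ℝ) ≤ pwr S X n := by positivity
  generalize (X : ℝ) / 2 ^ S / (1 - X / 2 ^ S) = l at *
  generalize (2 : ℝ) ^ S * (X / 2 ^ S) ^ n = P at *
  generalize (2 : ℝ) ^ S = u at *
  have b1 : 0 ≤ u * l := by positivity
  have b2 : u * l ≤ u * (3 / 2) := by gcongr
  have b3 : (s : ℝ) * (u * l) ≤ 2 * (u * (3 / 2)) := by gcongr
  have b4 : P * (s * (u * l) + c) ≤ (pwr S X n + 5 / 2) * (s * (u * l) + c) := by gcongr
  have b5 : (pwr S X n : ℝ) * (s * (u * l)) ≤ pwr S X n * (s * (lamv S X + 1)) := by gcongr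
  have b6 : (pwr S X n : ℝ) * s ≤ u * 2 := by gcongr
  have b7 := mul_le_mul_of_nonneg_right a1 (by positivity : (0 : ℝ) ≤ u * 2)
  linarith only [hc', b3, b4, b5, b6, b7]

lemma lreal_succ_ChkB (x : ℝ) (S : ℕ) (b : ℕ → Bool) (n s c : ℕ) :
    lreal x S b (n + 1) s c = 2 * ((b 0).toNat : ℝ) + x * lreal x S (fun t => b (t + 1)) n s c := by
  have e : ∑ t ∈ range n, ((b (t + 1)).toNat : ℝ) * x ^ (t + 1) =
      x * ∑ t ∈ range n, ((b (t + 1)).toNat : ℝ) * x ^ t := by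
    rw [mul_sum]; exact sum_congr rfl fun t _ => by ring
  rw [lreal, lreal, sum_range_succ', e]
  ring

lemma inv_ChkB {x1 x2 x : ℝ} (h0 : 0 ≤ x1) (h1 : x1 ≤ x) (h2 : x ≤ x2) (h3 : x2 ≤ 3 / 5) (S : ℕ)
    {s c : ℕ} (hs : s ≤ 2) (hc : c ≤ 3 * 2 ^ S) (n : ℕ) : ∀ b : ℕ → Bool,
    (0 ≤ lreal x1 S b n s c ∧ lreal x1 S b n s c ≤ 7) ∧
    (0 ≤ lreal x2 S b n s c - lreal x1 S b n s c ∧
      lreal x2 S b n s c - lreal x1 S b n s c ≤ 19 * (x2 - x1)) ∧
    (0 ≤ (x2 - x) * lreal x1 S b n s c + (x - x1) * lreal x2 S b n s c -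
        (x2 - x1) * lreal x S b n s c ∧
      (x2 - x) * lreal x1 S b n s c + (x - x1) * lreal x2 S b n s c -
        (x2 - x1) * lreal x S b n s c ≤ 48 * ((x - x1) * (x2 - x) * (x2 - x1))) := by
  have d1 : 0 ≤ x - x1 := by linarith only [h1]
  have d2 : 0 ≤ x2 - x := by linarith only [h2]
  have d3 : 0 ≤ x2 - x1 := by linarith only [h1, h2]
  have hK : 0 ≤ (x - x1) * (x2 - x) := by positivity
  induction n with
  | zero =>
    intro b
    simp only [lreal, range_zero, sum_empty, pow_zero, mul_zero, zero_add, one_mul]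
    have hs' : (s : ℝ) ≤ 2 := by exact_mod_cast hs
    have hs0 : (0 : ℝ) ≤ s := by positivity
    have hc0 : (0 : ℝ) ≤ c / 2 ^ S := by positivity
    have hc' : (c : ℝ) / 2 ^ S ≤ 3 := by
      rw [div_le_iff₀ (by positivity)]; exact_mod_cast hc
    generalize (c : ℝ) / 2 ^ S = γ at *
    obtain ⟨l1, l2⟩ := lam_ChkB h0 (by linarith only [h1, h2, h3])
    have p1 : 0 < 1 - x1 := by linarith only [h1, h2, h3]
    have p2 : 0 < 1 - x2 := by linarith only [h3]
    have p0 : 0 < 1 - x := by linarith only [h2, h3]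
    have q : ∀ z : ℝ, z ≤ 3 / 5 → 0 ≤ 1 / (1 - z) ∧ 1 / (1 - z) ≤ 5 / 2 := fun z hz => by
      have : 0 < 1 - z := by linarith only [hz]
      refine ⟨by positivity, ?_⟩
      rw [div_le_iff₀ this]; linarith only [hz]
    obtain ⟨q1, q1'⟩ := q x1 (by linarith only [h1, h2, h3])
    obtain ⟨q2, q2'⟩ := q x2 h3
    obtain ⟨q0, q0'⟩ := q x (by linarith only [h2, h3])
    have e1 : (s * (x2 / (1 - x2)) + γ) - (s * (x1 / (1 - x1)) + γ) =
        s * (1 / (1 - x1)) * (1 / (1 - x2)) * (x2 - x1) := by field_simp; ring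
    have e2 : (x2 - x) * (s * (x1 / (1 - x1)) + γ) + (x - x1) * (s * (x2 / (1 - x2)) + γ) -
        (x2 - x1) * (s * (x / (1 - x)) + γ) =
        s * (1 / (1 - x1)) * (1 / (1 - x2)) * (1 / (1 - x)) * ((x - x1) * (x2 - x) * (x2 - x1)) := by
      field_simp; ring
    rw [e1, e2]
    have b1 : (s : ℝ) * (x1 / (1 - x1)) ≤ 2 * (3 / 2) := by gcongr
    have b2 : (s : ℝ) * (1 / (1 - x1)) * (1 / (1 - x2)) ≤ 2 * (5 / 2) * (5 / 2) := by gcongr
    have b3 : (s : ℝ) * (1 / (1 - x1)) * (1 / (1 - x2)) * (1 / (1 - x)) ≤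
        2 * (5 / 2) * (5 / 2) * (5 / 2) := by gcongr
    refine ⟨⟨by positivity, by linarith only [hc', b1]⟩, ⟨by positivity, ?_⟩, by positivity, ?_⟩
    · exact mul_le_mul_of_nonneg_right (by linarith only [b2]) d3
    · exact mul_le_mul_of_nonneg_right (by linarith only [b3]) (by positivity)
  | succ n ih =>
    intro b
    obtain ⟨⟨a1, a2⟩, ⟨a3, a4⟩, a5, a6⟩ := ih fun t => b (t + 1)
    simp only [lreal_succ_ChkB]
    have hb0 : (0 : ℝ) ≤ (b 0).toNat := by positivity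
    have hb1 : ((b 0).toNat : ℝ) ≤ 1 := by cases b 0 <;> simp
    generalize ((b 0).toNat : ℝ) = a at *
    generalize lreal x1 S (fun t => b (t + 1)) n s c = g1 at *
    generalize lreal x2 S (fun t => b (t + 1)) n s c = g2 at *
    generalize lreal x S (fun t => b (t + 1)) n s c = g0 at *
    have e1 : (2 * a + x2 * g2) - (2 * a + x1 * g1) = x2 * (g2 - g1) + (x2 - x1) * g1 := by ring
    have e2 : (x2 - x) * (2 * a + x1 * g1) + (x - x1) * (2 * a + x2 * g2) -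
        (x2 - x1) * (2 * a + x * g0) =
        x * ((x2 - x) * g1 + (x - x1) * g2 - (x2 - x1) * g0) + (x - x1) * (x2 - x) * (g2 - g1) := by
      ring
    rw [e1, e2]
    have hx : 0 ≤ x := by linarith only [h0, h1]
    have hx2 : 0 ≤ x2 := by linarith only [h0, h1, h2]
    have b1 : x1 * g1 ≤ 3 / 5 * 7 := by gcongr; linarith only [h1, h2, h3]
    have b2 : x2 * (g2 - g1) ≤ 3 / 5 * (19 * (x2 - x1)) := by gcongr
    have b3 : (x2 - x1) * g1 ≤ (x2 - x1) * 7 := by gcongr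
    have b4 : x * ((x2 - x) * g1 + (x - x1) * g2 - (x2 - x1) * g0) ≤
        3 / 5 * (48 * ((x - x1) * (x2 - x) * (x2 - x1))) := by gcongr; linarith only [h2, h3]
    have b5 : (x - x1) * (x2 - x) * (g2 - g1) ≤ (x - x1) * (x2 - x) * (19 * (x2 - x1)) := by gcongr
    have b6 : 0 ≤ (x - x1) * (x2 - x) * (x2 - x1) := by positivity
    refine ⟨⟨by positivity, by linarith only [hb1, b1]⟩, ⟨by positivity, by linarith only [h1, h2, b2, b3]⟩, by positivity, ?_⟩
    linarith only [a5, a6, b4, b5]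

theorem chord {x1 x2 x : ℝ} (h0 : 0 ≤ x1) (h1 : x1 ≤ x) (h2 : x ≤ x2) (h3 : x2 ≤ 3 / 5) (S : ℕ)
    {b b' : ℕ → Bool} {n s c n' s' c' : ℕ} (hs : s ≤ 2) (hc : c ≤ 3 * 2 ^ S) (hs' : s' ≤ 2)
    (hc' : c' ≤ 3 * 2 ^ S)
    (e1 : lreal x1 S b n s c + 12 * (x2 - x1) ^ 2 < lreal x1 S b' n' s' c')
    (e2 : lreal x2 S b n s c + 12 * (x2 - x1) ^ 2 < lreal x2 S b' n' s' c') :
    lreal x S b n s c < lreal x S b' n' s' c' := by
  rcases eq_or_lt_of_le (h1.trans h2) with h | h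
  · have hx : x = x1 := le_antisymm (h ▸ h2) h1
    rw [hx]
    linarith only [sq_nonneg (x2 - x1), e1]
  have a1 := (inv_ChkB h0 h1 h2 h3 S hs hc n b).2.2.1
  have a2 := (inv_ChkB h0 h1 h2 h3 S hs' hc' n' b').2.2.2
  generalize lreal x1 S b n s c = f1 at *
  generalize lreal x2 S b n s c = f2 at *
  generalize lreal x S b n s c = f0 at *
  generalize lreal x1 S b' n' s' c' = g1 at *
  generalize lreal x2 S b' n' s' c' = g2 at *
  generalize lreal x S b' n' s' c' = g0 at *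
  have d1 : 0 ≤ x - x1 := by linarith only [h1]
  have d2 : 0 ≤ x2 - x := by linarith only [h2]
  have d3 : 0 < x2 - x1 := by linarith only [h]
  obtain ⟨m, hm, m1, m2⟩ : ∃ m, 0 < m ∧ f1 + 12 * (x2 - x1) ^ 2 + m ≤ g1 ∧
      f2 + 12 * (x2 - x1) ^ 2 + m ≤ g2 := by
    refine ⟨min (g1 - (f1 + 12 * (x2 - x1) ^ 2)) (g2 - (f2 + 12 * (x2 - x1) ^ 2)),
      lt_min (by linarith only [e1]) (by linarith only [e2]), ?_, ?_⟩
    · linarith only [min_le_left (g1 - (f1 + 12 * (x2 - x1) ^ 2)) (g2 - (f2 + 12 * (x2 - x1) ^ 2))]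
    · linarith only [min_le_right (g1 - (f1 + 12 * (x2 - x1) ^ 2)) (g2 - (f2 + 12 * (x2 - x1) ^ 2))]
  have b1 := mul_le_mul_of_nonneg_left m1 d2
  have b2 := mul_le_mul_of_nonneg_left m2 d1
  have b3 : 48 * ((x - x1) * (x2 - x) * (x2 - x1)) ≤ 12 * (x2 - x1) ^ 2 * (x2 - x1) := by
    have : 48 * ((x - x1) * (x2 - x)) ≤ 12 * (x2 - x1) ^ 2 := by
      linarith only [sq_nonneg (x - x1 - (x2 - x))]
    nlinarith only [h1, h2, this]
  have b4 : 0 < m * (x2 - x1) := by positivity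
  have b5 : (x2 - x1) * f0 < (x2 - x1) * g0 := by linarith only [a1, a2, b1, b2, b3, b4]
  exact lt_of_mul_lt_mul_left b5 d3.le

lemma word_ChkB {x : ℝ} (hx : x < 1) (S n : ℕ) : ∀ b : ℕ → Bool, ∃ w : List ℤ, w.length = n ∧
    (∀ r ∈ w, r = 1 ∨ r = -1) ∧
    ∀ s c, lreal x S b n s c = ev x w (pt x S s c) + 1 / (1 - x) := by
  have p : 1 - x ≠ 0 := by linarith
  induction n with
  | zero =>
    refine fun b => ⟨[], rfl, by simp, fun s c => ?_⟩
    simp only [lreal, ev, pt, range_zero, sum_empty, pow_zero]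
    generalize (c : ℝ) / 2 ^ S = γ
    field_simp; ring
  | succ n ih =>
    intro b
    obtain ⟨w, h1, h2, h3⟩ := ih fun t => b (t + 1)
    refine ⟨(2 * (b 0).toNat - 1) :: w, by simp [h1], fun r hr => ?_, fun s c => ?_⟩
    · rcases List.mem_cons.1 hr with rfl | hr
      · cases b 0 <;> simp
      · exact h2 r hr
    · rw [lreal_succ_ChkB, h3, ev]
      push_cast
      field_simp; ring

lemma get_ok_ChkB {S : ℕ} (b : ℕ → Bool) (tb : Tb) : tbok S tb = true → ∀ t,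
    ((tb.get b t).1 ≤ 2 ∧ (tb.get b t).2.1 ≤ 3 * 2 ^ S) ∧
      (tb.get b t).2.2.1 ≤ 2 ∧ (tb.get b t).2.2.2 ≤ 3 * 2 ^ S := by
  induction tb with
  | leaf sl cl sh ch =>
    intro h t
    have h' : (Nat.ble sl 2 && Nat.ble sh 2 && Nat.ble cl (3 <<< S) && Nat.ble ch (3 <<< S)) = true := h
    simp only [Bool.and_eq_true, Nat.ble_eq, Nat.shiftLeft_eq] at h'
    exact ⟨⟨h'.1.1.1, h'.1.2⟩, h'.1.1.2, h'.2⟩
  | node l r il ir =>
    intro h t
    have h' : (tbok S l && tbok S r) = true := h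
    rw [Bool.and_eq_true] at h'
    rw [Tb.get]
    split_ifs
    · exact ir h'.2 _
    · exact il h'.1 _

lemma get_mem_ChkB {x z : ℝ} {S : ℕ} (b : ℕ → Bool) (tb : Tb) : ∀ t,
    pt x S (tb.get b t).1 (tb.get b t).2.1 ≤ z → z ≤ pt x S (tb.get b t).2.2.1 (tb.get b t).2.2.2 →
      tb.mem x S z := by
  induction tb with
  | leaf sl cl sh ch => exact fun t h1 h2 => ⟨h1, h2⟩
  | node l r il ir =>
    intro t
    rw [Tb.get]
    split_ifs
    · exact fun h1 h2 => Or.inr (ir _ h1 h2)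
    · exact fun h1 h2 => Or.inl (il _ h1 h2)

lemma end_ChkB {S X N D : ℕ} (hX : 5 * X ≤ 3 * 2 ^ S) {b b' : ℕ → Bool} {n s c n' s' c' : ℕ}
    (hn : n ≤ N) (hs : s ≤ 2) (hc : c ≤ 3 * 2 ^ S)
    (h : lval S X b n s c + ((5 * N + 30) * 2 ^ S + 12 * (D * D)) ≤ lval S X b' n' s' c') :
    lreal (X / 2 ^ S) S b n s c + 12 * ((D : ℝ) / 2 ^ S) ^ 2 < lreal (X / 2 ^ S) S b' n' s' c' := by
  have a1 := lval_ge hX b (n := n) hs hc
  have a2 := lval_le hX b' n' s' c'
  have a3 : (lval S X b n s c : ℝ) + ((5 * N + 30) * 2 ^ S + 12 * (D * D)) ≤ lval S X b' n' s' c' := by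
    exact_mod_cast h
  have hu : (0 : ℝ) < 2 ^ S := by positivity
  have hn' : (n : ℝ) * 2 ^ S ≤ N * 2 ^ S := by gcongr
  have e : (4 : ℝ) ^ S * (12 * ((D : ℝ) / 2 ^ S) ^ 2) = 12 * (D * D) := by
    rw [four_ChkB]; field_simp
  refine lt_of_mul_lt_mul_left (a := (4 : ℝ) ^ S) ?_ (by positivity)
  rw [mul_add, e]
  linarith only [a1, a2, a3, hu, hn']

lemma slot_ChkB {x y : ℝ} (h0 : 0 < x) (h1 : x < 1) {S N : ℕ} {ts tt : Tb} (b : ℕ → Bool)
    (lo : lreal x S b (llen N b) (lent N ts tt b).1 (lent N ts tt b).2.1 ≤ y + 1 / (1 - x))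
    (hi : y + 1 / (1 - x) ≤ lreal x S b (llen N b) (lent N ts tt b).2.2.1 (lent N ts tt b).2.2.2) :
    ts.mem x S y ∨ ∃ z, tt.mem x S z ∧ SR x y z := by
  obtain ⟨w, w1, w2, w3⟩ := word_ChkB h1 S (llen N b) b
  rw [w3, add_le_add_iff_right] at lo hi
  cases w with
  | nil =>
    have hn : llen N b = 0 := w1.symm
    simp only [lent, hn, if_true, ev] at lo hi
    exact Or.inl (get_mem_ChkB b ts _ lo hi)
  | cons r w =>
    have hn : llen N b ≠ 0 := by rw [← w1]; simp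
    simp only [lent, hn, if_false] at lo hi
    rw [ev_lin] at lo hi
    have hp : 0 < x ^ (r :: w).length := pow_pos h0 _
    refine Or.inr ⟨(y - ev x (r :: w) 0) / x ^ (r :: w).length, get_mem_ChkB b tt (N + 1) ?_ ?_, ?_⟩
    · rw [le_div_iff₀ hp]; linarith only [lo]
    · rw [div_le_iff₀ hp]; linarith only [hi]
    · have := SR.of_ev h0 w2 ((y - ev x (r :: w) 0) / x ^ (r :: w).length)
      rwa [ev_lin, mul_div_cancel₀ _ hp.ne', add_sub_cancel] at this

theorem chain0_sound {S X1 X2 N k L w D : ℕ} {ts tt : Tb} {sa ca sb cb : ℕ}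
    (h : chain0 S X1 X2 N k L w D ts tt sa ca sb cb = true)
    (h1 : tbok S ts = true) (h2 : tbok S tt = true) (h3 : tbok S (Tb.leaf sa ca sb cb) = true)
    {x : ℝ} (x1 : (X1 : ℝ) / 2 ^ S ≤ x) (x2 : x ≤ (X2 : ℝ) / 2 ^ S) :
    (1 / 2 ≤ x ∧ x ≤ 3 / 5) ∧ ∀ y, pt x S sa ca ≤ y → y ≤ pt x S sb cb →
      ts.mem x S y ∨ ∃ z, tt.mem x S z ∧ SR x y z := by
  obtain ⟨Z, mg, hmg, h'⟩ : ∃ Z mg : ℕ, mg = (5 * N + 30) <<< S + 12 * ((X2 - X1) * (X2 - X1)) ∧
      (Nat.ble X1 X2 && Nat.ble (5 * X2) (3 <<< S) && Nat.ble (1 <<< S) (2 * X1) &&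
        Nat.ble mg (1 <<< (2 * S)) && endck S N k Z mg ts tt sa ca sb cb X1 &&
        endck S N k Z mg ts tt sa ca sb cb X2) = true := ⟨_, _, rfl, h⟩
  clear h
  simp only [Bool.and_eq_true, Nat.ble_eq, Nat.shiftLeft_eq, one_mul] at h' hmg
  obtain ⟨⟨⟨⟨⟨c1, c2⟩, c3⟩, c4⟩, c5⟩, c6⟩ := h'
  have c4' : mg ≤ 4 ^ S := by rwa [pow_mul] at c4
  have c7 : 5 * X1 ≤ 3 * 2 ^ S := by omega
  have l1 := endck_lane c5 c7 c4' h1 h2 h3
  have l2 := endck_lane c6 c2 c4' h1 h2 h3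
  have hu : (0 : ℝ) < 2 ^ S := by positivity
  have r1 : (1 : ℝ) / 2 ≤ X1 / 2 ^ S := by
    rw [le_div_iff₀ hu]
    have : (2 : ℝ) ^ S ≤ 2 * X1 := by exact_mod_cast c3
    linarith only [this]
  have r2 := (x_ChkB c2).2
  refine ⟨⟨by linarith only [x1, r1], by linarith only [x2, r2]⟩, fun y y1 y2 => ?_⟩
  have hx0 : 0 < x := by linarith only [x1, r1]
  have hx1 : x < 1 := by linarith only [x2, r2]
  have eD : ((X2 - X1 : ℕ) : ℝ) / 2 ^ S = X2 / 2 ^ S - X1 / 2 ^ S := by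
    rw [Nat.cast_sub c1, sub_div]
  have step : ∀ {b b' : ℕ → Bool} {n s c n' s' c' : ℕ}, n ≤ N → s ≤ 2 ∧ c ≤ 3 * 2 ^ S →
      s' ≤ 2 ∧ c' ≤ 3 * 2 ^ S → lval S X1 b n s c + mg ≤ lval S X1 b' n' s' c' →
      lval S X2 b n s c + mg ≤ lval S X2 b' n' s' c' →
      lreal x S b n s c < lreal x S b' n' s' c' := by
    intro b b' n s c n' s' c' hn hs hs' e1 e2
    rw [hmg] at e1 e2
    have f1 := end_ChkB c7 hn hs.1 hs.2 e1
    have f2 := end_ChkB c2 hn hs.1 hs.2 e2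
    rw [eD] at f1 f2
    exact chord (x_ChkB c7).1 x1 x2 r2 S hs.1 hs.2 hs'.1 hs'.2 f1 f2
  have ok : ∀ b, ((lent N ts tt b).1 ≤ 2 ∧ (lent N ts tt b).2.1 ≤ 3 * 2 ^ S) ∧
      (lent N ts tt b).2.2.1 ≤ 2 ∧ (lent N ts tt b).2.2.2 ≤ 3 * 2 ^ S := fun b => by
    unfold lent
    split_ifs
    · exact get_ok_ChkB b ts h1 _
    · exact get_ok_ChkB b tt h2 _
  have ok3 := get_ok_ChkB (fun _ => false) _ h3 0
  simp only [Tb.get] at ok3
  have hl : ∀ b, llen N b ≤ N := fun b => Nat.findGreatest_le _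
  have e0 : ∀ s c, lreal x S (fun _ => false) 0 s c = pt x S s c + 1 / (1 - x) := fun s c => by
    obtain ⟨w, w1, -, w3⟩ := word_ChkB hx1 S 0 fun _ => false
    rw [w3, List.length_eq_zero_iff.1 w1, ev]
  let hi : ℕ → ℝ := fun i => match i with
    | 0 => lreal x S (fun _ => false) 0 sa ca
    | i + 1 => lreal x S (lbit S Z i) (llen N (lbit S Z i)) (lent N ts tt (lbit S Z i)).2.2.1
        (lent N ts tt (lbit S Z i)).2.2.2
  have cmp : ∀ i {b : ℕ → Bool} {n s c : ℕ}, n ≤ N → s ≤ 2 ∧ c ≤ 3 * 2 ^ S →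
      lval S X1 b n s c + mg ≤ hiV S X1 N Z ts tt sa ca i →
      lval S X2 b n s c + mg ≤ hiV S X2 N Z ts tt sa ca i → lreal x S b n s c < hi i := by
    intro i b n s c hn hs e1 e2
    cases i with
    | zero => exact step hn hs ok3.1 e1 e2
    | succ i => exact step hn hs (ok _).2 e1 e2
  by_contra hc
  have key : ∀ j ≤ k, hi j ≤ y + 1 / (1 - x) := by
    intro j
    induction j with
    | zero => intro _; show lreal _ _ _ _ _ _ ≤ _; rw [e0]; linarith only [y1]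
    | succ j ih =>
      intro hj
      have m1 := l1 j (by omega)
      have m2 := l2 j (by omega)
      rw [loV, if_pos (by omega)] at m1 m2
      have := cmp j (hl _) (ok _).1 m1 m2
      by_contra hlt
      exact hc (slot_ChkB hx0 hx1 (lbit S Z j) (by linarith only [ih (by omega), this]) (not_le.1 hlt).le)
  have m1 := l1 k le_rfl
  have m2 := l2 k le_rfl
  rw [loV, if_neg (lt_irrefl k)] at m1 m2
  have := cmp k (Nat.zero_le N) ok3.2 m1 m2
  rw [e0] at this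
  linarith only [key k le_rfl, y2, this]

end Pool.Agent.KExp

end

-- part MP_bd9604_nt.Inf.ChkC
section

/-! Traps and covers from chains.

pt x S 1 (2^S + c) = c / 2^S, pt x S 2 0 = kap x, pt x S 0 (2 * 2^S) = - kap x, and (2 - s, 2 * 2^S - c) codes the negative of
(s, c). srt gives the bounds needed for tbok of mkS and mkT, and: a point z of a leaf of mkT u G lo s c satisfies
lo / 2^S <= |z| <= pt s c (for lo = 0 the first leaf is symmetric), |z| is in no gap of G (induction on G with the bounds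
a <= l <= h <= b of srt), and |z| <= kap x (left ends l <= kfl S X1 <= 2^S kap x by kap_mono). A point of a leaf of mkS u G t is in a
gap of G or in t. trap (Base) with V = Vs x S G; use SR.neg for negative points (Vs depends on |z| only).
vck: the chain covers [- kap x, kap x]; the extra static leaf is [- kap x + 2^-S, - 2^-S]; the gaps have l >= 1, so the
point - kap x is not static (kap x > 0 as srt gives 1 <= l <= kfl if there is a gap) and reaches the trap.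
In the case kap x = 0 (x = 1/2) check that the argument still works or use 1 <= l <= kfl. -/

namespace Pool.Agent.KExp

lemma sl_ChkC (a S : ℕ) : Nat.shiftLeft a S = a * 2 ^ S := Nat.shiftLeft_eq a S

lemma srt_ChkC {K : ℕ} {L R : Gt} {l h a b : ℕ} (e : srt K (.node L l h R) a b = true) :
    a ≤ l ∧ l ≤ h ∧ h ≤ b ∧ l ≤ K ∧ srt K L a l = true ∧ srt K R h b = true := by
  have e' : (Nat.ble a l && Nat.ble l h && Nat.ble h b && Nat.ble l K && srt K L a l && srt K R h b) = true := e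
  simp only [Bool.and_eq_true, Nat.ble_eq] at e'
  tauto

lemma tbl_ChkC {S sl cl sh ch : ℕ} (h1 : sl ≤ 2) (h2 : cl ≤ 3 * 2 ^ S) (h3 : sh ≤ 2) (h4 : ch ≤ 3 * 2 ^ S) :
    tbok S (.leaf sl cl sh ch) = true := by
  change (Nat.ble sl 2 && Nat.ble sh 2 && Nat.ble cl (Nat.shiftLeft 3 S) &&
    Nat.ble ch (Nat.shiftLeft 3 S)) = true
  simp only [Bool.and_eq_true, Nat.ble_eq, sl_ChkC]
  tauto

lemma tbn_ChkC {S : ℕ} {l r : Tb} (h1 : tbok S l = true) (h2 : tbok S r = true) :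
    tbok S (.node l r) = true := by
  change (tbok S l && tbok S r) = true
  rw [h1, h2]; rfl

lemma mkTn_ChkC (u : ℕ) (L R : Gt) (l h lo s c : ℕ) : mkT u (.node L l h R) lo s c =
    .node (mkT u L lo 1 (u + l - 1)) (mkT u R (h + 1) s c) := rfl

lemma mkT0_ChkC (u lo s c : ℕ) : mkT u .nil lo s c =
    .node (cond (Nat.beq lo 0) (.leaf (2 - s) (2 * u - c) s c) (.leaf 1 (u + lo) s c))
      (.leaf (2 - s) (2 * u - c) 1 (u - lo)) := rfl

lemma mkSn_ChkC (u : ℕ) (L R : Gt) (l h : ℕ) (t : Tb) : mkS u (.node L l h R) t =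
    .node (mkS u L (.leaf 1 (u + l) 1 (u + h))) (mkS u R t) := rfl

lemma okT_ChkC {S K : ℕ} (G : Gt) : ∀ {a b lo s c : ℕ}, srt K G a b = true → b ≤ 2 ^ S → lo ≤ 2 ^ S + 1 →
    s ≤ 2 → c ≤ 2 * 2 ^ S → tbok S (mkT (2 ^ S) G lo s c) = true := by
  have u1 : 1 ≤ 2 ^ S := Nat.one_le_two_pow
  induction G with
  | nil =>
    intro a b lo s c _ _ h1 h2 h3
    rw [mkT0_ChkC]
    refine tbn_ChkC ?_ (tbl_ChkC (by omega) (by omega) (by omega) (by omega))
    cases Nat.beq lo 0 <;> exact tbl_ChkC (by omega) (by omega) (by omega) (by omega)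
  | node L l h R il ir =>
    intro a b lo s c e hb h1 h2 h3
    obtain ⟨e1, e2, e3, e4, e5, e6⟩ := srt_ChkC e
    rw [mkTn_ChkC]
    exact tbn_ChkC (il e5 (by omega) h1 (by omega) (by omega)) (ir e6 hb (by omega) h2 h3)

lemma okS_ChkC {S K : ℕ} (G : Gt) : ∀ {a b : ℕ} {t : Tb}, srt K G a b = true → b ≤ 2 * 2 ^ S →
    tbok S t = true → tbok S (mkS (2 ^ S) G t) = true := by
  induction G with
  | nil => intro a b t _ _ h; exact h
  | node L l h R il ir =>
    intro a b t e hb ht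
    obtain ⟨e1, e2, e3, e4, e5, e6⟩ := srt_ChkC e
    rw [mkSn_ChkC]
    exact tbn_ChkC (il e5 (by omega) (tbl_ChkC (by omega) (by omega) (by omega) (by omega))) (ir e6 hb ht)

lemma pt1_ChkC (x : ℝ) (S c : ℕ) : pt x S 1 (2 ^ S + c) = c / 2 ^ S := by
  unfold pt; push_cast; field_simp; ring

lemma pt1'_ChkC (x : ℝ) (S : ℕ) {c : ℕ} (h : c ≤ 2 ^ S) : pt x S 1 (2 ^ S - c) = -(c / 2 ^ S) := by
  unfold pt; rw [Nat.cast_sub h]; push_cast; field_simp; ring

lemma pt2_ChkC {x : ℝ} (h : x < 1) (S : ℕ) : pt x S 2 0 = kap x := by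
  have : 1 - x ≠ 0 := by linarith
  unfold pt kap; push_cast; field_simp; ring

lemma ptn_ChkC (x : ℝ) (S : ℕ) {s c : ℕ} (h1 : s ≤ 2) (h2 : c ≤ 2 * 2 ^ S) :
    pt x S (2 - s) (2 * 2 ^ S - c) = -pt x S s c := by
  unfold pt; rw [Nat.cast_sub h1, Nat.cast_sub h2]; push_cast
  have : (2 * 2 ^ S - c : ℝ) / 2 ^ S = 2 - c / 2 ^ S := by field_simp
  rw [this]; ring

lemma dv_ChkC (S : ℕ) {a b : ℕ} (h : a ≤ b) : (a : ℝ) / 2 ^ S ≤ b / 2 ^ S := by gcongr

lemma dv'_ChkC (S : ℕ) {a b : ℕ} (h : a < b) : (a : ℝ) / 2 ^ S < b / 2 ^ S := by gcongr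

lemma mem_ChkC {S K : ℕ} (G : Gt) {y : ℝ} : ∀ {a b : ℕ}, srt K G a b = true → G.mem S y →
    (a : ℝ) / 2 ^ S ≤ y ∧ y ≤ (b : ℝ) / 2 ^ S := by
  induction G with
  | nil => intro a b _ h; exact h.elim
  | node L l h R il ir =>
    intro a b e hm
    obtain ⟨e1, e2, e3, e4, e5, e6⟩ := srt_ChkC e
    have d1 := dv_ChkC S e1
    have d2 := dv_ChkC S e2
    have d3 := dv_ChkC S e3
    rcases hm with hm | hm | hm
    · have := il e5 hm; exact ⟨this.1, by linarith only [this.2, d2, d3]⟩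
    · exact ⟨by linarith only [hm.1, d1], by linarith only [hm.2, d3]⟩
    · have := ir e6 hm; exact ⟨by linarith only [this.1, d1, d2], this.2⟩

lemma memS_ChkC {x : ℝ} {S : ℕ} (G : Gt) {z : ℝ} : ∀ {t : Tb}, (mkS (2 ^ S) G t).mem x S z →
    G.mem S z ∨ t.mem x S z := by
  induction G with
  | nil => intro t h; exact Or.inr h
  | node L l h R il ir =>
    intro t hm
    rw [mkSn_ChkC] at hm
    rcases hm with hm | hm
    · rcases il hm with hm | hm
      · exact Or.inl (Or.inl hm)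
      · simp only [Tb.mem, pt1_ChkC] at hm
        exact Or.inl (Or.inr (Or.inl hm))
    · exact (ir hm).imp (fun hm => Or.inr (Or.inr hm)) id

lemma memT_ChkC {x : ℝ} {S K : ℕ} (G : Gt) {z : ℝ} : ∀ {a b lo s c : ℕ}, srt K G a b = true → 1 ≤ a →
    lo ≤ a + 1 → b ≤ 2 ^ S → s ≤ 2 → c ≤ 2 * 2 ^ S → pt x S s c < 1 →
    (∀ l : ℕ, l + 1 ≤ b → l + 1 ≤ K → (l : ℝ) / 2 ^ S ≤ pt x S s c) → (mkT (2 ^ S) G lo s c).mem x S z →
    (lo : ℝ) / 2 ^ S ≤ |z| ∧ |z| ≤ pt x S s c ∧ ¬ G.mem S |z| := by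
  induction G with
  | nil =>
    intro a b lo s c _ _ _ _ h1 h2 h3 _ hm
    rw [mkT0_ChkC] at hm
    have p0 : (0 : ℝ) ≤ lo / 2 ^ S := by positivity
    have key : (lo : ℝ) / 2 ^ S ≤ |z| ∧ |z| ≤ pt x S s c := by
      rcases hm with hm | hm
      · rcases lo with _ | lo
        · have hm' : (Tb.leaf (2 - s) (2 * 2 ^ S - c) s c).mem x S z := hm
          simp only [Tb.mem, ptn_ChkC x S h1 h2] at hm'
          exact ⟨by simp, abs_le.2 hm'⟩
        · have hm' : (Tb.leaf 1 (2 ^ S + (lo + 1)) s c).mem x S z := hm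
          simp only [Tb.mem, pt1_ChkC] at hm'
          rwa [abs_of_nonneg (p0.trans hm'.1)]
      · simp only [Tb.mem, ptn_ChkC x S h1 h2] at hm
        rcases le_total lo (2 ^ S) with h4 | h4
        · rw [pt1'_ChkC x S h4] at hm
          rw [abs_of_nonpos (by linarith only [hm.2, p0])]
          exact ⟨by linarith only [hm.2], by linarith only [hm.1]⟩
        · rw [Nat.sub_eq_zero_of_le h4] at hm
          have : pt x S 1 0 = -1 := by simp [pt]
          linarith only [hm.1, hm.2, h3, this]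
    exact ⟨key.1, key.2, id⟩
  | node L l h R il ir =>
    intro a b lo s c e a1 h0 hb h1 h2 h3 h4 hm
    obtain ⟨e1, e2, e3, e4, e5, e6⟩ := srt_ChkC e
    rw [mkTn_ChkC] at hm
    have d2 := dv_ChkC S e2
    rcases hm with hm | hm
    · obtain ⟨l, rfl⟩ : ∃ l', l = l' + 1 := ⟨l - 1, by omega⟩
      rw [show 2 ^ S + (l + 1) - 1 = 2 ^ S + l by omega] at hm
      have d1 := h4 l (by omega) e4
      have d3 := dv'_ChkC S (lt_add_one l)
      obtain ⟨k1, k2, k3⟩ := il e5 a1 h0 (by omega) (by omega) (by omega) (by rw [pt1_ChkC]; linarith only [h3, d1])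
        (fun l' f1 _ => by rw [pt1_ChkC]; exact dv_ChkC S (by omega)) hm
      rw [pt1_ChkC] at k2
      refine ⟨k1, k2.trans d1, ?_⟩
      rintro (f | f | f)
      · exact k3 f
      · linarith only [f.1, d3, k2]
      · linarith only [(mem_ChkC R e6 f).1, d2, d3, k2]
    · obtain ⟨k1, k2, k3⟩ := ir e6 (by omega) le_rfl hb h1 h2 h3 h4 hm
      have d3 := dv'_ChkC S (lt_add_one h)
      refine ⟨(dv_ChkC S (by omega)).trans k1, k2, ?_⟩
      rintro (f | f | f)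
      · linarith only [(mem_ChkC L e5 f).2, d2, k1, d3]
      · linarith only [f.2, k1, d3]
      · exact k3 f

lemma kap_ChkC {x : ℝ} (h0 : 1 / 2 ≤ x) (h1 : x ≤ 3 / 5) : 0 ≤ kap x ∧ kap x < 1 := by
  unfold kap
  exact ⟨div_nonneg (by linarith) (by linarith only [h1]), by rw [div_lt_one (by linarith)]; linarith⟩

lemma kfl_ChkC {S X1 : ℕ} {x : ℝ} (h0 : 1 / 2 ≤ x) (h1 : x ≤ 3 / 5) (x1 : (X1 : ℝ) / 2 ^ S ≤ x) :
    (kfl S X1 : ℝ) / 2 ^ S ≤ kap x := by
  have e : kfl S X1 = (2 * X1 - 2 ^ S) * 2 ^ S / (2 ^ S - X1) := by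
    unfold kfl; simp only [sl_ChkC, one_mul]; rfl
  rcases le_total (2 * X1) (2 ^ S) with h | h
  · rw [e, Nat.sub_eq_zero_of_le h]; simpa only [zero_mul, Nat.zero_div, CharP.cast_eq_zero, zero_div, ge_iff_le] using (kap_ChkC h0 h1).1
  have u0 : (0 : ℝ) < 2 ^ S := by positivity
  have h2 : (X1 : ℝ) < 2 ^ S := by
    have := (div_le_iff₀ u0).1 (x1.trans h1); linarith only [u0, this]
  have h3 : X1 ≤ 2 ^ S := by exact_mod_cast h2.le
  refine le_trans ?_ (kap_mono x1 (by linarith only [h1]))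
  rw [e, div_le_iff₀ u0]
  refine Nat.cast_div_le.trans (le_of_eq ?_)
  rw [Nat.cast_mul, Nat.cast_sub h, Nat.cast_sub h3]
  push_cast
  have : (2 : ℝ) ^ S - X1 ≠ 0 := by linarith only [h2]
  unfold kap
  field_simp

lemma vs_ChkC {S X1 : ℕ} {G : Gt} (e : srt (kfl S X1) G 1 (2 ^ S) = true) {x : ℝ} (h0 : 1 / 2 ≤ x)
    (h1 : x ≤ 3 / 5) (x1 : (X1 : ℝ) / 2 ^ S ≤ x) {z : ℝ} (hm : (mkT (2 ^ S) G 0 2 0).mem x S z) :
    Vs x S G z := by
  have p := pt2_ChkC (show x < 1 by linarith only [h1]) S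
  have := memT_ChkC G e le_rfl (by omega) le_rfl le_rfl (by omega) (by rw [p]; exact (kap_ChkC h0 h1).2)
    (fun l _ f => by rw [p]; exact (dv_ChkC S (by omega)).trans (kfl_ChkC h0 h1 x1)) hm
  rw [p] at this
  exact this.2

lemma sym_ChkC {x y : ℝ} {S : ℕ} {G : Gt} (h : ∃ z, Vs x S G z ∧ SR x |y| z) :
    ∃ z, Vs x S G z ∧ SR x y z := by
  obtain ⟨z, h1, h2⟩ := h
  rcases abs_choice y with e | e <;> rw [e] at h2
  · exact ⟨z, h1, h2⟩
  · exact ⟨-z, by simpa only [Vs, abs_neg] using h1, by simpa using h2.neg⟩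

lemma emp_ChkC {x z : ℝ} {S : ℕ} : ¬ (Tb.leaf 1 (2 ^ S + 1) 1 (2 ^ S)).mem x S z := fun h => by
  have e := pt1_ChkC x S 0
  rw [add_zero] at e
  simp only [Tb.mem, pt1_ChkC, e] at h
  linarith only [h.1, h.2, dv'_ChkC S zero_lt_one]

theorem vck_sound {S X1 X2 N k L w D lo : ℕ} {G : Gt} (h : vck S X1 X2 N k L w D lo G = true) {x : ℝ}
    (x1 : (X1 : ℝ) / 2 ^ S ≤ x) (x2 : x ≤ (X2 : ℝ) / 2 ^ S) : Inft x (kap x) := by
  have h' : (srt (kfl S X1) G (lo + 1) (Nat.shiftLeft 1 S) && Nat.blt lo (Nat.shiftLeft 1 S) &&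
      chain0 S X1 X2 N k L w D
      (mkS (Nat.shiftLeft 1 S) G (Tb.leaf 0 (2 * Nat.shiftLeft 1 S + 1) 1 (Nat.shiftLeft 1 S + lo - 1)))
      (mkT (Nat.shiftLeft 1 S) G lo 2 0) 0 (2 * Nat.shiftLeft 1 S) 2 0) = true := h
  simp only [sl_ChkC, one_mul, Bool.and_eq_true, Nat.blt_eq] at h'
  obtain ⟨⟨e, el⟩, hc⟩ := h'
  have u1 : 1 ≤ 2 ^ S := Nat.one_le_two_pow
  obtain ⟨⟨h0, h1⟩, hy⟩ := chain0_sound hc
    (okS_ChkC G e (by omega) (tbl_ChkC (by omega) (by omega) (by omega) (by omega)))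
    (okT_ChkC G e le_rfl (by omega) le_rfl (by omega))
    (tbl_ChkC (by omega) (by omega) (by omega) (by omega)) x1 x2
  have p := pt2_ChkC (show x < 1 by linarith only [h1]) S
  have p' : pt x S 0 (2 * 2 ^ S) = -kap x := by
    rw [← p]; exact ptn_ChkC x S (s := 2) (c := 0) le_rfl (by omega)
  have p1 : pt x S 0 (2 * 2 ^ S + 1) = -kap x + 1 / 2 ^ S := by
    rw [← p']; unfold pt; push_cast; ring
  have p2 : pt x S 1 (2 ^ S + lo - 1) = lo / 2 ^ S - 1 / 2 ^ S := by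
    unfold pt; rw [Nat.cast_sub (by omega)]; push_cast; field_simp; ring
  have p3 : (0 : ℝ) < 1 / 2 ^ S := by positivity
  have k0 := (kap_ChkC h0 h1).1
  rw [p, p'] at hy
  have vs : ∀ z, (mkT (2 ^ S) G lo 2 0).mem x S z → (lo : ℝ) / 2 ^ S ≤ |z| ∧ Vs x S G z := fun z hm => by
    have := memT_ChkC G e (by omega) (by omega) le_rfl le_rfl (by omega)
      (by rw [p]; exact (kap_ChkC h0 h1).2)
      (fun l _ f => by rw [p]; exact (dv_ChkC S (by omega)).trans (kfl_ChkC h0 h1 x1)) hm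
    rwa [p] at this
  have tr : ∀ z, ((lo : ℝ) / 2 ^ S ≤ |z| ∧ Vs x S G z) → Inft x z :=
    trap h0 (by linarith only [h1]) fun y hv => ⟨hv.2.1, by
    rcases hy |y| (by linarith only [abs_nonneg y, k0]) hv.2.1 with f | ⟨z, f, g⟩
    · rcases memS_ChkC G f with f | f
      · exact absurd f hv.2.2
      · simp only [Tb.mem, p2] at f
        linarith only [f.2, hv.1, p3]
    · have a := vs z f
      rcases abs_choice y with b | b <;> rw [b] at g
      · exact ⟨z, g, a⟩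
      · exact ⟨-z, by simpa using g.neg, by simpa only [Vs, abs_neg] using a⟩⟩
  rcases hy (-kap x) le_rfl (by linarith only [k0]) with f | ⟨z, f, g⟩
  · rcases memS_ChkC G f with f | f
    · have := (mem_ChkC G e f).1
      have : (0 : ℝ) < ((lo + 1 : ℕ) : ℝ) / 2 ^ S := by positivity
      linarith
    · simp only [Tb.mem, p1] at f
      linarith only [f.1, p3]
  · exact inft_neg.1 (g.inft (by linarith only [h0]) (by linarith only [h1]) (tr z (vs z f)))

theorem tck_sound {S X1 X2 N k L w D : ℕ} {G : Gt} (h : tck S X1 X2 N k L w D G = true) {x : ℝ}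
    (x1 : (X1 : ℝ) / 2 ^ S ≤ x) (x2 : x ≤ (X2 : ℝ) / 2 ^ S) : ∀ z, Vs x S G z → Inft x z := by
  have h' : (srt (kfl S X1) G 1 (Nat.shiftLeft 1 S) && chain0 S X1 X2 N k L w D
      (mkS (Nat.shiftLeft 1 S) G (Tb.leaf 1 (Nat.shiftLeft 1 S + 1) 1 (Nat.shiftLeft 1 S)))
      (mkT (Nat.shiftLeft 1 S) G 0 2 0) 1 (Nat.shiftLeft 1 S) 2 0) = true := h
  simp only [sl_ChkC, one_mul, Bool.and_eq_true] at h'
  obtain ⟨e, hc⟩ := h'
  have u1 : 1 ≤ 2 ^ S := Nat.one_le_two_pow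
  obtain ⟨⟨h0, h1⟩, hy⟩ := chain0_sound hc
    (okS_ChkC G e (by omega) (tbl_ChkC (by omega) (by omega) (by omega) (by omega)))
    (okT_ChkC G e le_rfl (by omega) le_rfl (by omega))
    (tbl_ChkC (by omega) (by omega) (by omega) (by omega)) x1 x2
  have p := pt2_ChkC (show x < 1 by linarith only [h1]) S
  have p' := pt1_ChkC x S 0
  rw [add_zero, Nat.cast_zero, zero_div] at p'
  rw [p, p'] at hy
  exact trap h0 (by linarith only [h1]) fun y hv => ⟨hv.1, by
    rcases hy |y| (abs_nonneg y) hv.1 with f | ⟨z, f, g⟩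
    · exact ((memS_ChkC G f).elim hv.2 emp_ChkC).elim
    · obtain ⟨z, a, b⟩ := sym_ChkC ⟨z, vs_ChkC e h0 h1 x1 f, g⟩
      exact ⟨z, b, a⟩⟩

theorem qck_sound {S X1 X2 N k L w D : ℕ} {G Q : Gt} {b : ℕ}
    (h : qck S X1 X2 N k L w D G Q b = true) {x : ℝ} (x1 : (X1 : ℝ) / 2 ^ S ≤ x)
    (x2 : x ≤ (X2 : ℝ) / 2 ^ S) : (1 / 2 ≤ x ∧ x ≤ 3 / 5) ∧
      ∀ y, |y| ≤ (b : ℝ) / 2 ^ S → ¬ Q.mem S |y| → ∃ z, Vs x S G z ∧ SR x y z := by
  have h' : (srt (kfl S X1) G 1 (Nat.shiftLeft 1 S) &&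
      srt (2 * Nat.shiftLeft 1 S) Q 0 (2 * Nat.shiftLeft 1 S) && Nat.ble b (2 * Nat.shiftLeft 1 S) &&
      chain0 S X1 X2 N k L w D
      (mkS (Nat.shiftLeft 1 S) Q (Tb.leaf 1 (Nat.shiftLeft 1 S + 1) 1 (Nat.shiftLeft 1 S)))
      (mkT (Nat.shiftLeft 1 S) G 0 2 0) 1 (Nat.shiftLeft 1 S) 1 (Nat.shiftLeft 1 S + b)) = true := h
  simp only [sl_ChkC, one_mul, Bool.and_eq_true, Nat.ble_eq] at h'
  obtain ⟨⟨⟨e, e'⟩, hb⟩, hc⟩ := h'
  have u1 : 1 ≤ 2 ^ S := Nat.one_le_two_pow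
  obtain ⟨⟨h0, h1⟩, hy⟩ := chain0_sound hc
    (okS_ChkC Q e' le_rfl (tbl_ChkC (by omega) (by omega) (by omega) (by omega)))
    (okT_ChkC G e le_rfl (by omega) le_rfl (by omega))
    (tbl_ChkC (by omega) (by omega) (by omega) (by omega)) x1 x2
  have p' := pt1_ChkC x S 0
  rw [add_zero, Nat.cast_zero, zero_div] at p'
  rw [pt1_ChkC, p'] at hy
  refine ⟨⟨h0, h1⟩, fun y y1 y2 => ?_⟩
  rcases hy |y| (abs_nonneg y) y1 with f | ⟨z, f, g⟩
  · exact ((memS_ChkC Q f).elim y2 emp_ChkC).elim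
  · exact sym_ChkC ⟨z, vs_ChkC e h0 h1 x1 f, g⟩

theorem vall_sound {l : List ℕ} {a b : ℕ} (h : vall l a b = true) {x : ℝ}
    (x1 : (a : ℝ) / 2 ^ 128 < x) (x2 : x ≤ (b : ℝ) / 2 ^ 128) : Inft x (kap x) := by
  induction l generalizing a with
  | nil =>
    have h' : Nat.ble b a = true := h
    linarith [dv_ChkC 128 (Nat.ble_eq ▸ h' : b ≤ a)]
  | cons c l ih =>
    obtain ⟨S, X1, X2, N, k, L, w, D, lo, G, h'⟩ : ∃ S X1 X2 N k L w D lo G, (Nat.ble S 128 &&
        Nat.ble (Nat.shiftLeft X1 (128 - S)) a && vck S X1 X2 N k L w D lo G &&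
        vall l (Nat.shiftLeft X2 (128 - S)) b) = true := ⟨_, _, _, _, _, _, _, _, _, _, h⟩
    simp only [sl_ChkC, Bool.and_eq_true, Nat.ble_eq] at h'
    obtain ⟨⟨⟨e1, e2⟩, e3⟩, e4⟩ := h'
    have key : ∀ X : ℕ, ((X * 2 ^ (128 - S) : ℕ) : ℝ) / 2 ^ 128 = X / 2 ^ S := fun X => by
      obtain ⟨T, hT⟩ := Nat.exists_eq_add_of_le e1
      rw [hT, Nat.add_sub_cancel_left, pow_add]
      push_cast
      field_simp
    rcases le_or_gt x (X2 / 2 ^ S) with f | f
    · exact vck_sound e3 (by rw [← key]; exact (dv_ChkC 128 e2).trans x1.le) f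
    · exact ih e4 (by rw [key]; exact f)

end Pool.Agent.KExp

end
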