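import Pool.Agent.MP_bd9604_nt.Mg.Inf_EData2

/-! The runs of the symbolic checker, part 3. -/

set_option linter.defProp false

namespace Pool.Agent.KExp

def eBB : eng regB1 = true := by decide +kernel
def eA4 : eng regA4 = true := by decide +kernel
def eAA : eng regA2 = true := by decide +kernel

end Pool.Agent.KExp
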