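import Pool.Agent.MP_bd9604_nt.Levels

attribute [-instance] Fintype.decidableForallFintype Finset.decidableDforallFinset
  Multiset.decidableDforallMultiset Vector.instDecidableForallForallMemOfDecidablePred
  Option.decidableForallMem Array.instDecidableForallForallMemOfDecidablePred Int.decidableLTLE
  littleWedderburn Int.decidableLELE Int.decidableLTLT Int.decidableLELT AddQuantale.instAddRightMono
  AddQuantale.instAddLeftMono CompletePartialOrder.toPartialOrder Fintype.decidableExistsFintype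
  NeZero.of_gt' Group.IsPerfect.subsingleton_of_isMulCommutative Quantale.instMulRightMono
  instIsBotZeroClass LieAdmissibleRing.toNonUnitalNonAssocRing Invertible.toNeZero Field.toSemifield
  NormedCommRing.toCommRing

-- part MP_bd9604_nt.Inf.FDefs
section

/-! The formal system of words: definitions and first facts. -/

namespace Pool.Agent.KExp

def sh (u : ℕ → ℤ) (j : ℕ) : ℕ → ℤ := fun i => u (i + j)

/-- `v` is lexicographically below `a`, the first difference being at place `j` -/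
def LtAt (v a : ℕ → ℤ) (j : ℕ) : Prop := (∀ i < j, v i = a i) ∧ v j = -1 ∧ a j = 1

/-- the side word of the node `v` -/
def om (a v : ℕ → ℤ) (j : ℕ) : ℕ → ℤ := fun i => a (i + j) - v (i + j) - a i

/-- the suffix from place `k`, with its sign chosen so that it starts with `1` -/
def nrm (u : ℕ → ℤ) (k : ℕ) : ℕ → ℤ := fun i => u k * u (i + k)

structure FSys (a : ℕ → ℤ) (S : (ℕ → ℤ) → Prop) (μ : (ℕ → ℤ) → ℕ) : Prop where
  sa : Sg a
  sg : ∀ u, S u → Sg u
  neg : ∀ u, S u → S (fun i => - u i) ∧ μ (fun i => - u i) = μ u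
  root : S (sh a 1)
  shift : ∀ u, S u → S (sh u 1) ∧ μ (sh u 1) ≤ μ u
  nota : ¬ S a
  node : ∀ v j, S v → v 0 = 1 → LtAt v a j →
    Sg (om a v j) ∧ S (sh (om a v j) 1) ∧ μ (sh (om a v j) 1) < μ v ∧ μ (sh v 1) < μ v

/-- constant tail -/
def T0 (u : ℕ → ℤ) : Prop := ∃ (N : ℕ) (s : ℤ), ∀ i, u (i + N) = s
/-- alternating tail -/
def T1 (u : ℕ → ℤ) : Prop := ∃ N : ℕ, ∀ i, u (i + N + 1) = - u (i + N)
/-- tail in the image of the square of `phi` -/
def T2 (u : ℕ → ℤ) : Prop := ∃ (N : ℕ) (z : ℕ → ℤ), Sg z ∧ ∀ i, u (i + N) = phi (phi z) i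
/-- tail in the image of `phi` -/
def TP (u : ℕ → ℤ) : Prop := ∃ (N : ℕ) (z : ℕ → ℤ), Sg z ∧ ∀ i, u (i + N) = phi z i
def IsPhi (u : ℕ → ℤ) : Prop := ∀ k, u (2 * k + 1) = - u (2 * k)

/-- twice the Cesaro mean of the sums of the first digits is `c`, with a bounded error -/
def HasC (u : ℕ → ℤ) (c : ℤ) : Prop :=
  ∃ B : ℤ, ∀ n : ℕ, |2 * (∑ t ∈ Finset.range n, ∑ i ∈ Finset.range t, u i) - c * n| ≤ B

/-- the word `1 (-1)^m phi V` -/
def vw (m : ℕ) (V : ℕ → ℤ) (i : ℕ) : ℤ :=
  if i = 0 then 1 else if i ≤ m then -1 else phi V (i - m - 1)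
/-- the word `1^(m-1) phi W` -/
def ow (m : ℕ) (W : ℕ → ℤ) (i : ℕ) : ℤ := if i + 1 < m then 1 else phi W (i + 1 - m)

/-- what is known about a minimal node outside the image of `phi` -/
structure Core (a V W : ℕ → ℤ) (S : (ℕ → ℤ) → Prop) (μ : (ℕ → ℤ) → ℕ) (m j p d : ℕ) : Prop where
  sys : FSys a S μ
  tma : LtAt tm a d
  t2 : T2 a
  a1 : a 1 = -1
  a2 : a 2 = -1
  a3 : a 3 = 1
  sv : Sg V
  sw : Sg W
  m2 : 2 ≤ m
  lt : LtAt (vw m V) a j
  eq : ∀ i, om a (vw m V) j i = ow m W i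
  SV : S (phi V)
  SW : S (phi W)
  tV : TP V
  tW : TP W
  pre : ∀ k < p, a (2 * k + 1) = - a (2 * k)
  brk : a (2 * p + 1) = a (2 * p)
  KV : ∀ k e, e ≤ p → ¬ LtAt (nrm V k) (fun i => a (2 * i)) e
  KW : ∀ k e, e ≤ p → ¬ LtAt (nrm W k) (fun i => a (2 * i)) e

lemma sh_sh (u : ℕ → ℤ) (j k : ℕ) : sh (sh u j) k = sh u (k + j) := by
  funext i; simp [sh, Nat.add_assoc]

lemma sh_zero (u : ℕ → ℤ) : sh u 0 = u := by funext i; simp [sh]

lemma Sg.sh {u : ℕ → ℤ} (h : Sg u) (j : ℕ) : Sg (sh u j) := fun _ => h _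

lemma Sg.nrm {u : ℕ → ℤ} (h : Sg u) (k : ℕ) : Sg (nrm u k) := fun i => by
  unfold KExp.nrm; rcases h k with a | a <;> rcases h (i + k) with b | b <;> simp [a, b]

lemma Sg.nrm_zero {u : ℕ → ℤ} (h : Sg u) (k : ℕ) : KExp.nrm u k 0 = 1 := by
  unfold KExp.nrm; rcases h k with a | a <;> simp [a]

lemma Sg.nrm_eq {u : ℕ → ℤ} (h : Sg u) (k : ℕ) :
    KExp.nrm u k = KExp.sh u k ∨ KExp.nrm u k = fun i => - KExp.sh u k i := by
  rcases h k with a | a
  · left; funext i; simp [KExp.nrm, KExp.sh, a]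
  · right; funext i; simp [KExp.nrm, KExp.sh, a]

lemma LtAt.trans {u v w : ℕ → ℤ} {f e : ℕ} (h : LtAt u v f) (h' : LtAt v w e) :
    LtAt u w (min f e) := by
  obtain ⟨a1, a2, a3⟩ := h
  obtain ⟨b1, b2, b3⟩ := h'
  rcases lt_trichotomy f e with c | c | c
  · rw [min_eq_left c.le]
    exact ⟨fun i hi => (a1 i hi).trans (b1 i (by omega)), a2, by rw [← b1 f c, a3]⟩
  · subst c; omega
  · rw [min_eq_right c.le]
    exact ⟨fun i hi => (a1 i (by omega)).trans (b1 i hi), by rw [a1 e c, b2], b3⟩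

lemma LtAt.irrefl {u : ℕ → ℤ} {f : ℕ} (h : LtAt u u f) : False := by
  obtain ⟨-, a2, a3⟩ := h; omega

lemma LtAt.asymm {u v : ℕ → ℤ} {f e : ℕ} (h : LtAt u v f) (h' : LtAt v u e) : False :=
  (h.trans h').irrefl

lemma lt_tri {u v : ℕ → ℤ} (hu : Sg u) (hv : Sg v) :
    u = v ∨ (∃ j, LtAt u v j) ∨ ∃ j, LtAt v u j := by
  classical
  by_cases h : ∃ i, u i ≠ v i
  · right
    have h1 := Nat.find_spec h
    have h2 : ∀ i < Nat.find h, u i = v i := fun i hi => by
      simpa using Nat.find_min h hi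
    rcases hu (Nat.find h) with a | a <;> rcases hv (Nat.find h) with b | b
    · exact absurd (a.trans b.symm) h1
    · exact Or.inr ⟨_, fun i hi => (h2 i hi).symm, b, a⟩
    · exact Or.inl ⟨_, h2, a, b⟩
    · exact absurd (a.trans b.symm) h1
  · left; funext i; by_contra hc; exact h ⟨i, hc⟩

namespace FSys
variable {a : ℕ → ℤ} {S : (ℕ → ℤ) → Prop} {μ : (ℕ → ℤ) → ℕ} (F : FSys a S μ)
include F

lemma shifts {u : ℕ → ℤ} (h : S u) : ∀ k, S (sh u k) ∧ μ (sh u k) ≤ μ u
  | 0 => by rw [sh_zero]; exact ⟨h, le_rfl⟩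
  | k + 1 => by
    obtain ⟨h1, h2⟩ := shifts h k
    have := F.shift _ h1
    rw [sh_sh, Nat.add_comm] at this
    exact ⟨this.1, this.2.trans h2⟩

lemma nrms {u : ℕ → ℤ} (h : S u) (k : ℕ) : S (nrm u k) ∧ μ (nrm u k) = μ (sh u k) := by
  rcases (F.sg u h).nrm_eq k with e | e <;> rw [e]
  · exact ⟨(F.shifts h k).1, rfl⟩
  · exact F.neg _ (F.shifts h k).1

lemma nrm_le {u : ℕ → ℤ} (h : S u) (k : ℕ) : μ (nrm u k) ≤ μ u := by
  rw [(F.nrms h k).2]; exact (F.shifts h k).2

/-- a normalised suffix is a node or lies above `a` -/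
lemma nrm_cases {u : ℕ → ℤ} (h : S u) (k : ℕ) :
    (∃ j, LtAt (nrm u k) a j) ∨ ∃ e, LtAt a (nrm u k) e := by
  rcases lt_tri ((F.sg u h).nrm k) F.sa with e | e | e
  · exact absurd (e ▸ (F.nrms h k).1) F.nota
  · exact Or.inl e
  · exact Or.inr e

/-- the measure drops at a node -/
lemma drop {u : ℕ → ℤ} (h : S u) {k j : ℕ} (hj : LtAt (nrm u k) a j) :
    μ (sh u (k + 1)) < μ (sh u k) := by
  have h1 := (F.node _ j (F.nrms h k).1 ((F.sg u h).nrm_zero k) hj).2.2.2
  rw [(F.nrms h k).2] at h1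
  rcases (F.sg u h).nrm_eq k with e | e <;> rw [e] at h1
  · rwa [sh_sh, Nat.add_comm] at h1
  · have := (F.neg _ (F.shifts h (k + 1)).1).2
    have e2 : sh (fun i => - sh u k i) 1 = fun i => - sh u (k + 1) i := by
      funext i; simp [sh, Nat.add_assoc, Nat.add_comm 1 k]
    rwa [e2, this] at h1

/-- a node is not periodic, even up to sign -/
lemma not_per {v : ℕ → ℤ} (h : S v) (h0 : v 0 = 1) {j : ℕ} (hj : LtAt v a j) {n : ℕ}
    (hn : 0 < n) : sh v n ≠ v ∧ sh v n ≠ fun i => - v i := by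
  have h1 := (F.node v j h h0 hj).2.2.2
  have h2 := (F.shifts (F.shift v h).1 (n - 1)).2
  rw [sh_sh, show n - 1 + 1 = n by omega] at h2
  constructor
  · intro e; rw [e] at h2; omega
  · intro e; rw [e, (F.neg v h).2] at h2; omega

/-- no shift of `a` is `a` or its negative -/
lemma a_not_per {n : ℕ} (hn : 0 < n) : sh a n ≠ a ∧ sh a n ≠ fun i => - a i := by
  have h2 := (F.shifts F.root (n - 1)).1
  rw [sh_sh, show n - 1 + 1 = n by omega] at h2
  constructor
  · intro e; rw [e] at h2; exact F.nota h2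
  · intro e; rw [e] at h2
    have := (F.neg _ h2).1
    simp only [neg_neg] at this
    exact F.nota this

/-- every word of the system has a tail without nodes -/
lemma clean_tail {u : ℕ → ℤ} (h : S u) : ∃ N, ∀ k, N ≤ k → ∃ e, LtAt a (nrm u k) e := by
  classical
  have hex : ∃ c, ∃ N, μ (sh u N) = c := ⟨_, 0, rfl⟩
  obtain ⟨N, hN⟩ := Nat.find_spec hex
  refine ⟨N, fun k hk => ?_⟩
  rcases F.nrm_cases h k with ⟨j, hj⟩ | e
  · have h1 := F.drop h hj
    have h2 := (F.shifts (F.shifts h N).1 (k - N)).2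
    rw [sh_sh, show k - N + N = k by omega, hN] at h2
    exact absurd ⟨k + 1, rfl⟩ (Nat.find_min hex (lt_of_lt_of_le h1 h2))
  · exact e

end FSys

end Pool.Agent.KExp

end

-- part MP_bd9604_nt.Inf.FCore0
section

/-! Common facts for the cases of the core argument. -/

namespace Pool.Agent.KExp

lemma tm_first : tm 0 = 1 ∧ tm 1 = -1 ∧ tm 2 = -1 ∧ tm 3 = 1 ∧ tm 4 = -1 ∧ tm 5 = 1 ∧
    tm 6 = 1 ∧ tm 7 = -1 := by
  have h0 := tm_zero
  have h1 := tm_odd 0
  have h2 := tm_even 1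
  have h3 := tm_odd 1
  have h4 := tm_even 2
  have h5 := tm_odd 2
  have h6 := tm_even 3
  have h7 := tm_odd 3
  norm_num at h1 h2 h3 h4 h5 h6 h7
  omega

/-- first digits of a word above the Thue-Morse word -/
lemma above_tm {a : ℕ → ℤ} (ha : Sg a) {d : ℕ} (h : LtAt tm a d) :
    a 0 = 1 ∧ (a 1 = -1 → a 2 = -1 → a 3 = 1 ∧ (a 4 = -1 → a 5 = 1 ∧ a 6 = 1)) := by
  obtain ⟨t0, t1, t2, t3, t4, t5, t6, t7⟩ := tm_first
  obtain ⟨h1, h2, h3⟩ := h
  have g : ∀ i, i < d → a i = tm i := fun i hi => (h1 i hi).symm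
  have d0 : d ≠ 0 := by rintro rfl; omega
  refine ⟨by rw [g 0 (by omega), t0], fun a1 a2 => ?_⟩
  have d1 : d ≠ 1 := by rintro rfl; omega
  have d2 : d ≠ 2 := by rintro rfl; omega
  have d3 : d ≠ 3 := by rintro rfl; omega
  refine ⟨by rw [g 3 (by omega), t3], fun a4 => ?_⟩
  have d4 : d ≠ 4 := by rintro rfl; omega
  have d5 : d ≠ 5 := by rintro rfl; omega
  have d6 : d ≠ 6 := by rintro rfl; omega
  exact ⟨by rw [g 5 (by omega), t5], by rw [g 6 (by omega), t6]⟩

/-- a triple preceded somewhere by the opposite digit gives a suffix `+ - - -` -/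
lemma cube {w : ℕ → ℤ} (hw : Sg w) {i k : ℕ} (hik : i < k) (h0 : w i = - w k)
    (h1 : w (k + 1) = w k) (h2 : w (k + 2) = w k) :
    ∃ t, nrm w t 0 = 1 ∧ nrm w t 1 = -1 ∧ nrm w t 2 = -1 ∧ nrm w t 3 = -1 := by
  induction k with
  | zero => omega
  | succ k ih =>
    by_cases hk : w k = w (k + 1)
    · have : i ≠ k := by rintro rfl; rcases hw i with c | c <;> omega
      exact ih (by omega) (by omega) hk.symm (by rw [show k + 2 = k + 1 + 1 by ring]; omega)
    · refine ⟨k, ?_⟩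
      simp only [nrm, zero_add, show 1 + k = k + 1 by ring, show 2 + k = k + 1 + 1 by ring,
        show 3 + k = k + 1 + 2 by ring, h1, h2]
      rcases hw k with c | c <;> rcases hw (k + 1) with c' | c' <;> simp_all

lemma cube_lt {y : ℕ → ℤ} (h : y 0 = 1 ∧ y 1 = -1 ∧ y 2 = -1 ∧ y 3 = -1) : LtAt y tm 3 := by
  obtain ⟨t0, t1, t2, t3, -⟩ := tm_first
  refine ⟨fun i hi => ?_, h.2.2.2, t3⟩
  interval_cases i <;> omega

namespace Core
variable {a V W : ℕ → ℤ} {S : (ℕ → ℤ) → Prop} {μ : (ℕ → ℤ) → ℕ} {m j p d : ℕ}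
  (C : Core a V W S μ m j p d)
include C

lemma a0 : a 0 = 1 := (above_tm C.sys.sa C.tma).1

lemma a56 (h : a 4 = -1) : a 5 = 1 ∧ a 6 = 1 := ((above_tm C.sys.sa C.tma).2 C.a1 C.a2).2 h

lemma p2 : 2 ≤ p := by
  have := C.brk
  have := C.a0; have := C.a1; have := C.a2; have := C.a3
  by_contra hc
  interval_cases p <;> simp_all

/-- the digit equation -/
lemma eq' (i : ℕ) : a (i + j) - a i = ow m W i + vw m V (i + j) := by
  have := C.eq i; unfold om at this; omega

lemma neg_lt (hs : a (2 * p) = -1) : ∃ e < p, LtAt tm (fun i => a (2 * i)) e := by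
  obtain ⟨h1, h2, h3⟩ := C.tma
  have hb := C.brk
  have d1 : d < 2 * p := by
    by_contra hc
    have e1 : d ≠ 2 * p := by rintro rfl; omega
    have e2 : d ≠ 2 * p + 1 := by rintro rfl; omega
    have := h1 (2 * p) (by omega)
    have := h1 (2 * p + 1) (by omega)
    have := tm_even p
    have := tm_odd p
    omega
  obtain ⟨e, rfl | rfl⟩ := Nat.even_or_odd' d
  · refine ⟨e, by omega, fun i hi => ?_, by rw [← tm_even, h2], h3⟩
    rw [← tm_even, h1 _ (by omega)]
  · have := C.pre e (by omega)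
    have := h1 (2 * e) (by omega)
    have := tm_even e
    have := tm_odd e
    omega

/-- for a break with digit `-1`, no suffix of `V` or `W` is below the Thue-Morse word -/
lemma Kneg (hs : a (2 * p) = -1) (k f : ℕ) :
    ¬ LtAt (nrm V k) tm f ∧ ¬ LtAt (nrm W k) tm f := by
  obtain ⟨e, he, h⟩ := C.neg_lt hs
  exact ⟨fun c => C.KV k _ (by omega) (c.trans h), fun c => C.KW k _ (by omega) (c.trans h)⟩

lemma cases : (m = 2 ∧ (j = 3 ∨ j = 4 ∨ j = 5 ∨ j = 6)) ∨ (3 ≤ m ∧ j = 3) := by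
  obtain ⟨h1, h2, h3⟩ := C.lt
  have a0 := C.a0; have a1 := C.a1; have a2 := C.a2; have a3 := C.a3
  have m2 := C.m2
  have j0 : j ≠ 0 := by rintro rfl; simp [vw] at h2
  have j1 : j ≠ 1 := by rintro rfl; omega
  have j2 : j ≠ 2 := by rintro rfl; omega
  by_cases hm : m = 2
  · left; refine ⟨hm, ?_⟩
    subst hm
    by_contra hc
    have b3 := h1 3 (by omega)
    have b4 := h1 4 (by omega)
    have b5 := h1 5 (by omega)
    have b6 := h1 6 (by omega)
    simp only [vw, OfNat.ofNat_ne_zero, ↓ reduceIte, Nat.reduceLeDiff, phi, Nat.reduceSub, tsub_self, Nat.zero_mod, Nat.zero_div, Nat.add_one_sub_one, Nat.mod_succ, one_ne_zero, Nat.reduceDiv, Nat.mod_self, Order.lt_two_iff, zero_le, Nat.div_self, Nat.reduceMod] at b3 b4 b5 b6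
    have := C.a56 (by omega)
    omega
  · right; refine ⟨by omega, ?_⟩
    by_contra hc
    have b3 := h1 3 (by omega)
    simp [vw, show 3 ≤ m by omega] at b3
    omega

end Core

end Pool.Agent.KExp

end

-- part MP_bd9604_nt.Inf.FTail
section

/-! Words all of whose normalised suffixes are above the Thue-Morse word.

PROOF of good_class. Let l0 >= 1 be the first place with u l0 != u 0 (exists, u is not constant).
A double is a place k >= l0 - 1 with u k = u (k+1) (l0 - 1 itself is not one).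
Let i0 be the least k with IsPhi (sh u k), if there is one. If i0 <= l0 take l = i0,
w t = u (i0 + 2 t). Otherwise all k < i0 (all k if there is no i0) have nrm u k above tm.
Claim A: if u (k-1) != u k = u (k+1) and nrm u (k-1) is above tm = + - - + - + + -, then
the next double is at k + 2 or at k + 4 (digits of y = nrm u (k-1): y3 = +, and y4 = + or
(y4, y5, y6) = (-, +, +); use above_tm, or LtAt.asymm). Doubles k >= i0 have k = i0 + 1 mod 2.
Hence by induction all doubles have the same parity; choose l in {l0 - 1, l0} of the other parity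
(any if there is no double): IsPhi (sh u l), w t = u (l + 2 t).
PROOF of tail_tri. If not T0, good_class applied to sh u N gives u (i + N + l) = phi w i.
nrm u (N + l + 2 k) = phi (nrm w k) and tm = phi tm (tm_even, tm_odd), so nrm w k is above tm too
(first difference at half the place). If T0 w then T1 u, else good_class for w gives T2 u. -/

namespace Pool.Agent.KExp

lemma parity_FTail {u : ℕ → ℤ} (hu : Sg u)
    (h : ∀ k, (∃ e, LtAt tm (nrm u k) e) ∨ IsPhi (sh u k)) (j : ℕ) :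
    ∀ k, u k ≠ u (k + 1) → u (k + 1) = u (k + 2) → u (k + 2 * j) ≠ u (k + 2 * j + 1) := by
  induction j using Nat.strong_induction_on with
  | _ j ih =>
    intro k h1 h2
    rcases h k with ⟨e, he⟩ | hp
    · have a := (above_tm (hu.nrm k) he).2
      simp only [nrm, Nat.add_comm _ k] at a
      have s0 := hu k
      have s1 := hu (k + 1)
      have s3 := hu (k + 3)
      have s4 := hu (k + 4)
      have s5 := hu (k + 5)
      have s6 := hu (k + 6)
      have b : u (k + 2) ≠ u (k + 3) ∧ (u (k + 3) = u (k + 4) ∨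
          u (k + 4) ≠ u (k + 5) ∧ u (k + 5) = u (k + 6)) := by
        rcases s0 with c | c <;> rw [c] at a h1 <;> omega
      rcases j with _ | _ | j
      · exact h1
      · exact b.1
      · rcases b.2 with c | c
        · have := ih (j + 1) (by omega) (k + 2) b.1 c
          rwa [show k + 2 + 2 * (j + 1) = k + 2 * (j + 1 + 1) by ring] at this
        · have := ih j (by omega) (k + 4) c.1 c.2
          rwa [show k + 4 + 2 * j = k + 2 * (j + 1 + 1) by ring] at this
    · have a := hp j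
      simp only [sh] at a
      rw [show 2 * j + 1 + k = k + 2 * j + 1 by ring, Nat.add_comm _ k] at a
      have := hu (k + 2 * j)
      omega

lemma phi_sh_FTail (w : ℕ → ℤ) (l i : ℕ) : phi w (i + 2 * l) = phi (sh w l) i := by
  obtain ⟨t, rfl | rfl⟩ := Nat.even_or_odd' i
  · rw [← Nat.mul_add, phi_even, phi_even, sh]
  · rw [show 2 * t + 1 + 2 * l = 2 * (t + l) + 1 by ring, phi_odd, phi_odd, sh]

theorem good_class {u : ℕ → ℤ} (hu : Sg u) (h0 : ¬ T0 u)
    (h : ∀ k, (∃ e, LtAt tm (nrm u k) e) ∨ IsPhi (sh u k)) :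
    ∃ (l : ℕ) (s : ℤ) (w : ℕ → ℤ), (s = 1 ∨ s = -1) ∧ Sg w ∧ (∀ i < l, u i = s) ∧
      ∀ i, u (i + l) = phi w i := by
  classical
  have hex : ∃ k, u k ≠ u (k + 1) := by
    by_contra hc
    refine h0 ⟨0, u 0, fun i => ?_⟩
    induction i with
    | zero => rfl
    | succ i ih =>
      by_contra c
      exact hc ⟨i, fun e => c (e.symm.trans ih)⟩
  obtain ⟨m, hm, hm'⟩ : ∃ m, u m ≠ u (m + 1) ∧ ∀ i ≤ m, u i = u 0 := by
    refine ⟨Nat.find hex, Nat.find_spec hex, fun i hi => ?_⟩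
    induction i with
    | zero => rfl
    | succ i ih =>
      have := Nat.find_min hex (show i < Nat.find hex by omega)
      rw [← ih (by omega)]
      exact (not_not.1 this).symm
  obtain ⟨l, hl, hl'⟩ : ∃ l ≤ m + 1, ∀ j, u (l + 2 * j) ≠ u (l + 2 * j + 1) := by
    by_cases hd : ∃ k, u (m + k + 1) = u (m + k + 2)
    · obtain ⟨k, hk, hk'⟩ : ∃ k, u (m + k + 1) = u (m + k + 2) ∧
          ∀ i ≤ k, u (m + i) ≠ u (m + i + 1) := by
        refine ⟨Nat.find hd, Nat.find_spec hd, fun i hi => ?_⟩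
        rcases i with _ | i
        · exact hm
        · exact Nat.find_min hd (show i < Nat.find hd by omega)
      refine ⟨m + k % 2, by omega, fun j => ?_⟩
      by_cases c : k % 2 + 2 * j ≤ k
      · have := hk' _ c
        rwa [← Nat.add_assoc] at this
      · have := parity_FTail hu h (j - k / 2) (m + k) (hk' k le_rfl) hk
        rwa [show m + k + 2 * (j - k / 2) = m + k % 2 + 2 * j by omega] at this
    · refine ⟨m + 1, le_rfl, fun j e => hd ⟨2 * j, ?_⟩⟩
      rwa [show m + 1 + 2 * j = m + 2 * j + 1 by ring] at e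
  refine ⟨l, u 0, fun t => u (l + 2 * t), hu 0, fun t => hu _, fun i hi => hm' i (by omega),
    fun i => ?_⟩
  obtain ⟨t, rfl | rfl⟩ := Nat.even_or_odd' i
  · rw [phi_even, Nat.add_comm]
  · rw [phi_odd, show 2 * t + 1 + l = l + 2 * t + 1 by ring]
    have := hl' t
    have := hu (l + 2 * t)
    have := hu (l + 2 * t + 1)
    omega

theorem tail_tri {u : ℕ → ℤ} (hu : Sg u) {N : ℕ}
    (h : ∀ k, N ≤ k → ∃ e, LtAt tm (nrm u k) e) : T0 u ∨ T1 u ∨ T2 u := by
  by_cases h0 : T0 u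
  · exact Or.inl h0
  right
  obtain ⟨l, -, w, -, hw, -, e⟩ := good_class (hu.sh N)
    (fun ⟨M, s, hs⟩ => h0 ⟨M + N, s, fun i => by rw [← hs i, sh, Nat.add_assoc]⟩)
    fun k => Or.inl (by
      have : nrm (sh u N) k = nrm u (k + N) := by
        funext i
        simp only [nrm, sh, Nat.add_assoc]
      rw [this]
      exact h _ (by omega))
  have e' : ∀ k i, u (i + (2 * k + (l + N))) = phi (sh w k) i := fun k i => by
    rw [← phi_sh_FTail, ← e, sh]
    congr 1
    ring
  by_cases h1 : T0 w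
  · obtain ⟨M, s, hs⟩ := h1
    refine Or.inl ⟨2 * M + (l + N), fun i => ?_⟩
    rw [Nat.add_right_comm, e', e']
    obtain ⟨t, rfl | rfl⟩ := Nat.even_or_odd' i
    · rw [phi_even, phi_odd]
    · rw [phi_odd, show 2 * t + 1 + 1 = 2 * (t + 1) by ring, phi_even, sh, sh, hs, hs, neg_neg]
  obtain ⟨l', -, z, -, hz, -, e2⟩ := good_class hw h1 fun k => Or.inl (by
    obtain ⟨d, h2, h3, h4⟩ := h (2 * k + (l + N)) (by omega)
    have a : u (2 * k + (l + N)) = w k := by
      have := e' k 0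
      rwa [Nat.zero_add, ← Nat.mul_zero 2, phi_even, sh, Nat.zero_add] at this
    have b : ∀ t, nrm u (2 * k + (l + N)) (2 * t) = nrm w k t := fun t => by
      rw [nrm, nrm, a, e', phi_even, sh]
    have c : ∀ t, nrm u (2 * k + (l + N)) (2 * t + 1) = - nrm w k t := fun t => by
      rw [nrm, nrm, a, e', phi_odd, sh, mul_neg]
    obtain ⟨t, rfl | rfl⟩ := Nat.even_or_odd' d
    · refine ⟨t, fun i hi => ?_, by rw [← tm_even, h3], by rw [← b, h4]⟩
      rw [← b, ← tm_even, h2 _ (by omega)]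
    · have := h2 (2 * t) (by omega)
      rw [tm_even, b] at this
      rw [tm_odd] at h3
      rw [c] at h4
      omega)
  exact Or.inr ⟨2 * l' + (l + N), z, hz, fun i => by rw [e', show sh w l' = phi z from funext e2]⟩

end Pool.Agent.KExp

end

-- part MP_bd9604_nt.Inf.FZero
section

/-! No constant tails.

PROOF. Step 1: no word u of S with a constant tail is non-constant. Otherwise at the last change
the normalised suffix is v0 = + - - - ... (v0 0 = 1, v0 i = -1 for i >= 1) and S v0 (F.nrms).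
v0 is below tm, hence below a (LtAt.trans), say LtAt v0 a j, j >= 1, a j = 1, a i = -1 for
0 < i < j. With w = om a v0 j: w i = a (i+j) + 1 - a i is a sign, so a (i+j) <= a i for all i, and
w i = -1 iff a i = 1, a (i+j) = -1. The residue classes 1..j-1 mod j of a are constant -1. If the
class 0 is constant 1 then sh a j = a, against F.a_not_per. Otherwise it switches once, at
i0 = (k-1) j with k >= 2 (so i0 >= 1), and w = -1 exactly at i0, so nrm (sh w 1) (i0 - 1) = v0 while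
mu of it is <= mu (sh w 1) < mu v0 (F.nrm_le, F.node): contradiction.
Step 2: T0 a: sh a 1 is in S with a constant tail so it is constant: a = + + + ... (sh a 1 = a,
F.a_not_per) or a = v0 (below tm, LtAt.asymm).
Step 3: a node v has v 0 = 1, v j = -1, so it is not constant: not T0 v.
Step 4: if T0 w for w = om a v j then sh w 1 (in S) is constant s. For i >= 1,
a (i+j) - a i = s + v (i+j). If s = 1, a is non-decreasing along each class mod j (j >= 1) and
v (i+j) = 1 only where a class switches, which happens finitely often (e.g. the window sum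
B n = sum of a (n + t), t < j, satisfies B (n+1) - B n = 1 + v (n+j) >= 0 and is bounded), so T0 v.
Same for s = -1. This contradicts step 3. -/

namespace Pool.Agent.KExp

/-- the word `+ - - - ...` -/
def v0_FZero (i : ℕ) : ℤ := if i = 0 then 1 else -1

lemma last_FZero {u : ℕ → ℤ} (hu : Sg u) {s : ℤ} :
    ∀ N, (∀ i, u (i + N) = s) → (∀ i, u i = s) ∨ ∃ k, nrm u k = v0_FZero
  | 0, h => Or.inl h
  | N + 1, h => by
    by_cases hN : u N = s
    · refine last_FZero hu N fun i => ?_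
      cases i with
      | zero => simpa using hN
      | succ i => rw [← h i]; congr 1; ring
    · refine Or.inr ⟨N, funext fun i => ?_⟩
      cases i with
      | zero => exact hu.nrm_zero N
      | succ i =>
        have h1 := h i
        rw [show i + (N + 1) = i + 1 + N by ring] at h1
        simp only [nrm, v0_FZero, Nat.succ_ne_zero, if_false]
        rcases hu N with c | c <;> rcases hu (i + 1 + N) with c' | c' <;> rw [c, c'] <;> omega

lemma win_FZero {a : ℕ → ℤ} (ha : Sg a) (j : ℕ) (h : ∀ i, a (i + 1 + j) ≤ a (i + 1)) :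
    ∃ N, ∀ i, a (i + N + 1 + j) = a (i + N + 1) := by
  let B : ℕ → ℤ := fun n => ∑ t ∈ Finset.range j, a (n + 1 + t)
  have h1 : ∀ n, B (n + 1) = B n + (a (n + 1 + j) - a (n + 1)) := fun n => by
    have e1 := Finset.sum_range_succ (fun t => a (n + 1 + t)) j
    have e2 := Finset.sum_range_succ' (fun t => a (n + 1 + t)) j
    have e3 : B (n + 1) = ∑ t ∈ Finset.range j, a (n + 1 + (t + 1)) :=
      Finset.sum_congr rfl fun t _ => by congr 1; ring
    simp only [add_zero] at e2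
    change _ = B n + _ at e1
    omega
  have h2 : Antitone B := antitone_nat_of_succ_le fun n => by have := h n; rw [h1]; omega
  obtain ⟨_, ⟨N, rfl⟩, hN⟩ := Int.exists_least_of_bdd (P := fun z => ∃ n, B n = z)
    ⟨∑ _t ∈ Finset.range j, -1, by
      rintro _ ⟨n, rfl⟩
      exact Finset.sum_le_sum fun t _ => by rcases ha (n + 1 + t) with c | c <;> omega⟩ ⟨_, 0, rfl⟩
  refine ⟨N, fun i => ?_⟩
  have a1 := h1 (i + N)
  have a2 := h2 (show N ≤ i + N by omega)
  have a3 := hN _ ⟨i + N + 1, rfl⟩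
  have a4 := h (i + N)
  omega

lemma v0_lt_FZero : LtAt v0_FZero tm 3 := cube_lt (by simp [v0_FZero])

lemma T0.sh_FZero {u : ℕ → ℤ} (h : T0 u) : T0 (sh u 1) := by
  obtain ⟨N, s, h⟩ := h
  exact ⟨N, s, fun i => by rw [← h (i + 1)]; simp only [sh]; congr 1; ring⟩

lemma FSys.nv0_FZero {a : ℕ → ℤ} {S : (ℕ → ℤ) → Prop} {μ : (ℕ → ℤ) → ℕ} (F : FSys a S μ) {d : ℕ}
    (hd : LtAt tm a d) : ¬ S v0_FZero := fun h => by
  have h1 := v0_lt_FZero.trans hd
  generalize min 3 d = j at h1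
  have j0 : j ≠ 0 := by
    rintro rfl
    simpa [v0_FZero] using h1.2.1
  obtain ⟨n1, n2, n3, -⟩ := F.node _ j h rfl h1
  have e : ∀ i, sh (om a v0_FZero j) 1 i = a (i + 1 + j) + 1 - a (i + 1) := fun i => by
    simp [sh, om, v0_FZero]
  obtain ⟨N, hN⟩ := win_FZero F.sa j fun i => by
    have := e i
    rcases F.sg _ n2 i with c | c <;> omega
  rcases last_FZero (F.sg _ n2) (s := 1) N (fun i => by rw [e, hN]; ring) with c | ⟨k, c⟩
  · refine (F.a_not_per (Nat.pos_of_ne_zero j0)).1 (funext fun i => ?_)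
    cases i with
    | zero => simpa [sh, h1.2.2] using (above_tm F.sa hd).1.symm
    | succ i =>
      have := e i
      rw [c] at this
      simp only [sh]
      omega
  · have := F.nrm_le n2 k
    rw [c] at this
    omega

theorem FSys.noT0 {a : ℕ → ℤ} {S : (ℕ → ℤ) → Prop} {μ : (ℕ → ℤ) → ℕ} (F : FSys a S μ) {d : ℕ}
    (hd : LtAt tm a d) :
    ¬ T0 a ∧ ∀ v j, S v → v 0 = 1 → LtAt v a j → ¬ T0 v ∧ ¬ T0 (om a v j) := by
  have key : ∀ u, S u → T0 u → ∃ s, ∀ i, u i = s := by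
    rintro u hu ⟨N, s, h⟩
    rcases last_FZero (F.sg u hu) N h with c | ⟨k, c⟩
    · exact ⟨s, c⟩
    · exact absurd (c ▸ (F.nrms hu k).1) (F.nv0_FZero hd)
  have a0 := (above_tm F.sa hd).1
  refine ⟨fun h => ?_, fun v j hv v0 hj => ?_⟩
  · obtain ⟨s, hs⟩ := key _ F.root h.sh_FZero
    rcases F.sg _ F.root 0 with c | c <;> rw [hs 0] at c
    · refine (F.a_not_per one_pos).1 (funext fun i => ?_)
      cases i with
      | zero => rw [hs, c, a0]
      | succ i => rw [hs, ← hs i]; rfl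
    · have : a = v0_FZero := funext fun i => by
        cases i with
        | zero => exact a0
        | succ i => exact (hs i).trans c
      exact v0_lt_FZero.asymm (this ▸ hd)
  have h3 : ¬ T0 v := fun h => by
    obtain ⟨s, hs⟩ := key v hv h
    have := hs 0
    have := hs j
    have := hj.2.1
    omega
  refine ⟨h3, fun h => h3 ?_⟩
  obtain ⟨-, n2, -⟩ := F.node v j hv v0 hj
  obtain ⟨s, hs⟩ := key _ n2 h.sh_FZero
  have e : ∀ i, a (i + 1 + j) - v (i + 1 + j) - a (i + 1) = s := hs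
  rcases F.sg _ n2 0 with c | c <;> rw [hs 0] at c
  · obtain ⟨N, hN⟩ := win_FZero (a := fun i => - a i)
      (fun i => by rcases F.sa i with c | c <;> simp [c]) j fun i => by
        have := e i
        rcases F.sg v hv (i + 1 + j) with c | c <;> omega
    refine ⟨N + 1 + j, -1, fun i => ?_⟩
    have h1 := e (i + N)
    have h2 := hN i
    rw [show i + (N + 1 + j) = i + N + 1 + j by ring]
    omega
  · obtain ⟨N, hN⟩ := win_FZero F.sa j fun i => by
      have := e i
      rcases F.sg v hv (i + 1 + j) with c | c <;> omega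
    refine ⟨N + 1 + j, 1, fun i => ?_⟩
    have h1 := e (i + N)
    have h2 := hN i
    rw [show i + (N + 1 + j) = i + N + 1 + j by ring]
    omega

end Pool.Agent.KExp

end

-- part MP_bd9604_nt.Inf.FCes
section

/-! The Cesaro constant of a word.

Write s u t for the sum of u i, i < t, and D u n for the sum of s u t, t < n. HasC u c says that
2 D u n - c n is bounded.
HasC.om: summing om i + v (i+j) = a (i+j) - a i over i < n and using s v j = s a j gives
s om n + s v (n+j) = s a (n+j) - s a n; sum again over n < N: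
D om N + D v (N+j) - D v j = D a (N+j) - D a j - D a N.
HasC.of_sh: s u (t + l) = s u l + s (sh u l) t.
phi_tail: if phi w (i + N) = phi (phi z) i then N is even, since phi (phi z) 1 = phi (phi z) 2
while phi w (2 k + 1) = - phi w (2 k); then w (i + N / 2) = phi z i.
HasC.phi0: s (phi w) (2 k) = 0, s (phi w) (2 k + 1) = w k, and the sums of w are bounded when TP w.
-/

namespace Pool.Agent.KExp

/-- the sum of the first digits -/
def s_FCes (u : ℕ → ℤ) (t : ℕ) : ℤ := ∑ i ∈ Finset.range t, u i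

/-- the error term -/
def E_FCes (u : ℕ → ℤ) (c : ℤ) (n : ℕ) : ℤ := 2 * (∑ t ∈ Finset.range n, s_FCes u t) - c * n

lemma s_succ_FCes (u : ℕ → ℤ) (t : ℕ) : s_FCes u (t + 1) = s_FCes u t + u t :=
  Finset.sum_range_succ _ _

lemma E_succ_FCes (u : ℕ → ℤ) (c : ℤ) (n : ℕ) :
    E_FCes u c (n + 1) = E_FCes u c n + 2 * s_FCes u n - c := by
  simp only [E_FCes, Finset.sum_range_succ]
  push_cast
  ring

lemma E_zero_FCes (u : ℕ → ℤ) (c : ℤ) : E_FCes u c 0 = 0 := by simp [E_FCes]

lemma s_zero_FCes (u : ℕ → ℤ) : s_FCes u 0 = 0 := rfl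

lemma bdd_FCes (f : ℕ → ℤ) (l : ℕ) (B : ℤ) (h : ∀ n, |f (n + l)| ≤ B) : ∃ B', ∀ n, |f n| ≤ B' := by
  refine ⟨B + ∑ n ∈ Finset.range l, |f n|, fun n => ?_⟩
  have h0 : 0 ≤ B := (abs_nonneg _).trans (h 0)
  rcases lt_or_ge n l with c | c
  · have := Finset.single_le_sum (f := fun n => |f n|) (fun n _ => abs_nonneg _)
      (Finset.mem_range.2 c)
    linarith only [h0, this]
  · have h1 := h (n - l)
    rw [Nat.sub_add_cancel c] at h1
    have : 0 ≤ ∑ n ∈ Finset.range l, |f n| := Finset.sum_nonneg fun n _ => abs_nonneg _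
    linarith only [h1, this]

lemma s_sh_FCes (u : ℕ → ℤ) (l t : ℕ) : s_FCes u (t + l) = s_FCes u l + s_FCes (sh u l) t := by
  induction t with
  | zero => simp [s_zero_FCes]
  | succ t ih => rw [Nat.add_right_comm, s_succ_FCes, s_succ_FCes, ih, sh, add_assoc]

lemma s_phi_FCes (w : ℕ → ℤ) (k : ℕ) :
    s_FCes (phi w) (2 * k) = 0 ∧ s_FCes (phi w) (2 * k + 1) = w k := by
  have h : s_FCes (phi w) (2 * k) = 0 := by
    induction k with
    | zero => rfl
    | succ k ih => rw [Nat.mul_succ, s_succ_FCes, s_succ_FCes, ih, phi_even, phi_odd]; ring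
  exact ⟨h, by rw [s_succ_FCes, h, phi_even, zero_add]⟩

theorem HasC.unique {u : ℕ → ℤ} {c c' : ℤ} (h : HasC u c) (h' : HasC u c') : c = c' := by
  obtain ⟨B, h⟩ := h
  obtain ⟨B', h'⟩ := h'
  have h1 := abs_le.1 (h ((B + B').toNat + 1))
  have h2 := abs_le.1 (h' ((B + B').toNat + 1))
  have h3 : B + B' < ((B + B').toNat + 1 : ℕ) := by omega
  have h4 : (0 : ℤ) ≤ ((B + B').toNat + 1 : ℕ) := Int.natCast_nonneg _
  generalize (((B + B').toNat + 1 : ℕ) : ℤ) = n at *
  by_contra hc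
  rcases lt_or_gt_of_ne hc with a | a
  · have := mul_le_mul_of_nonneg_right (show c + 1 ≤ c' from a) h4
    linarith [h1.2, h2.1]
  · have := mul_le_mul_of_nonneg_right (show c' + 1 ≤ c from a) h4
    linarith [h1.1, h2.2]

theorem HasC.of_sh {u : ℕ → ℤ} {l : ℕ} {c : ℤ} (h : HasC (sh u l) c) :
    HasC u (c + 2 * ∑ i ∈ Finset.range l, u i) := by
  obtain ⟨B, h⟩ := h
  have h1 : ∀ n, E_FCes u (c + 2 * s_FCes u l) (n + l) =
      E_FCes u (c + 2 * s_FCes u l) l + E_FCes (sh u l) c n := fun n => by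
    induction n with
    | zero => simp [E_zero_FCes]
    | succ n ih => rw [Nat.add_right_comm, E_succ_FCes, E_succ_FCes, ih, s_sh_FCes]; ring
  refine bdd_FCes (E_FCes u (c + 2 * s_FCes u l)) l
    (|E_FCes u (c + 2 * s_FCes u l) l| + B) fun n => ?_
  rw [h1]
  exact (abs_add_le _ _).trans (add_le_add le_rfl (h n))

theorem HasC.om {a v : ℕ → ℤ} {j : ℕ} {ca cv : ℤ} (hj : LtAt v a j) (ha : HasC a ca)
    (hv : HasC v cv) : HasC (om a v j) (-cv) := by
  obtain ⟨A, ha⟩ := ha
  obtain ⟨B, hv⟩ := hv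
  have h0 : s_FCes v j = s_FCes a j :=
    Finset.sum_congr rfl fun i hi => hj.1 i (Finset.mem_range.1 hi)
  have h1 : ∀ n, s_FCes (KExp.om a v j) n = s_FCes a (n + j) - s_FCes a n - s_FCes v (n + j) :=
    fun n => by
      induction n with
      | zero => simp [s_zero_FCes, h0]
      | succ n ih =>
        rw [Nat.add_right_comm, s_succ_FCes, s_succ_FCes, s_succ_FCes, s_succ_FCes, ih, KExp.om]
        ring
  have h2 : ∀ n, E_FCes (KExp.om a v j) (-cv) n = E_FCes a ca (n + j) - E_FCes a ca j -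
      E_FCes a ca n - E_FCes v cv (n + j) + E_FCes v cv j := fun n => by
    induction n with
    | zero => simp [E_zero_FCes]
    | succ n ih =>
      rw [Nat.add_right_comm, E_succ_FCes, E_succ_FCes, E_succ_FCes, E_succ_FCes, ih, h1]
      ring
  refine ⟨3 * A + 2 * B, fun n => ?_⟩
  have a1 : _ ∧ E_FCes a ca (n + j) ≤ A := abs_le.1 (ha (n + j))
  have a2 : _ ∧ E_FCes a ca j ≤ A := abs_le.1 (ha j)
  have a3 : _ ∧ E_FCes a ca n ≤ A := abs_le.1 (ha n)
  have a4 : _ ∧ E_FCes v cv (n + j) ≤ B := abs_le.1 (hv (n + j))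
  have a5 : _ ∧ E_FCes v cv j ≤ B := abs_le.1 (hv j)
  have b1 : -A ≤ E_FCes a ca (n + j) := a1.1
  have b2 : -A ≤ E_FCes a ca j := a2.1
  have b3 : -A ≤ E_FCes a ca n := a3.1
  have b4 : -B ≤ E_FCes v cv (n + j) := a4.1
  have b5 : -B ≤ E_FCes v cv j := a5.1
  change |E_FCes (KExp.om a v j) (-cv) n| ≤ _
  rw [h2, abs_le]
  constructor <;> linarith only [a1.2, a2.2, a3.2, a4.2, a5.2, a1, a5, a2, a3, a4]

theorem HasC.alt {u : ℕ → ℤ} (h : ∀ i, u (i + 1) = - u i) : HasC u (u 0) := by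
  have h1 : ∀ n, (u n = u 0 ∧ s_FCes u n = 0 ∧ E_FCes u (u 0) n = 0) ∨
      (u n = - u 0 ∧ s_FCes u n = u 0 ∧ E_FCes u (u 0) n = - u 0) := fun n => by
    induction n with
    | zero => exact Or.inl ⟨rfl, rfl, E_zero_FCes _ _⟩
    | succ n ih =>
      rw [h, s_succ_FCes, E_succ_FCes]
      omega
  refine ⟨|u 0|, fun n => ?_⟩
  change |E_FCes u (u 0) n| ≤ _
  rcases h1 n with ⟨-, -, e⟩ | ⟨-, -, e⟩ <;> simp [e]

theorem HasC.phi0 {w : ℕ → ℤ} (hw : Sg w) (h : TP w) : HasC (phi w) 0 := by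
  obtain ⟨N, z, hz, h⟩ := h
  obtain ⟨B, hB⟩ := bdd_FCes (s_FCes w) N (|s_FCes w N| + 1) fun n => by
    rw [s_sh_FCes, show sh w N = phi z from funext h]
    refine (abs_add_le _ _).trans (add_le_add le_rfl ?_)
    obtain ⟨k, rfl | rfl⟩ := Nat.even_or_odd' n
    · simp [(s_phi_FCes z k).1]
    · rcases hz k with e | e <;> simp [(s_phi_FCes z k).2, e]
  have h1 : ∀ k, E_FCes (phi w) 0 (2 * k) = 2 * s_FCes w k := fun k => by
    induction k with
    | zero => simp [E_zero_FCes, s_zero_FCes]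
    | succ k ih =>
      rw [Nat.mul_succ, E_succ_FCes, E_succ_FCes, ih, (s_phi_FCes w k).1, (s_phi_FCes w k).2,
        s_succ_FCes]
      ring
  refine ⟨2 * B, fun n => ?_⟩
  change |E_FCes (phi w) 0 n| ≤ _
  obtain ⟨k, rfl | rfl⟩ := Nat.even_or_odd' n
  · rw [h1, abs_mul, abs_two]
    linarith only [hB k]
  · rw [E_succ_FCes, h1, (s_phi_FCes w k).1, mul_zero, add_zero, sub_zero, abs_mul, abs_two]
    linarith [hB k]

theorem phi_tail {w : ℕ → ℤ} (hw : Sg w) (h : T2 (phi w)) : TP w := by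
  obtain ⟨N, z, hz, h⟩ := h
  obtain ⟨M, rfl | rfl⟩ := Nat.even_or_odd' N
  · refine ⟨M, z, hz, fun i => ?_⟩
    have h1 := h (2 * i)
    rwa [← Nat.mul_add, phi_even, phi_even] at h1
  · have h1 := h (2 * 0 + 1)
    have h2 := h (2 * (2 * 0 + 1))
    rw [phi_odd, show 2 * 0 + 1 + (2 * M + 1) = 2 * (M + 1) by ring, phi_even] at h1
    rw [phi_even, phi_odd, show 2 * (2 * 0 + 1) + (2 * M + 1) = 2 * (M + 1) + 1 by ring,
      phi_odd] at h2
    have h3 := phi_even z 0
    rw [Nat.mul_zero] at h3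
    rcases hz 0 with e | e <;> omega

theorem T1.hasC {u : ℕ → ℤ} (hu : Sg u) (h : T1 u) : ∃ c, Odd c ∧ HasC u c := by
  obtain ⟨N, h⟩ := h
  have h1 : HasC (sh u N) (sh u N 0) := HasC.alt fun i => by
    rw [sh, sh, Nat.add_right_comm, h]
  refine ⟨_, Odd.add_even ?_ (even_two_mul _), h1.of_sh⟩
  rcases hu.sh N 0 with e | e <;> simp [e]

theorem T2.hasC {u : ℕ → ℤ} (h : T2 u) : ∃ c, Even c ∧ HasC u c := by
  obtain ⟨N, z, hz, h⟩ := h
  have h1 : HasC (sh u N) 0 := by
    rw [show sh u N = phi (phi z) from funext h]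
    exact HasC.phi0 hz.phi ⟨0, z, hz, fun _ => rfl⟩
  exact ⟨_, Even.add Even.zero (even_two_mul _), h1.of_sh⟩

end Pool.Agent.KExp

end

-- part MP_bd9604_nt.Inf.FOne
section

/-! No alternating tails.

PROOF of noG. (G m is a node with an alternating tail.) Take a counterexample m with minimal
mu (G m). alt = (+ -)^oo, alt i = (-1)^i, is a normalised suffix of G m, so S alt; it is periodic so it
is not a node (F.not_per), hence a < alt (F.nrm_cases). G m < tm < a, so LtAt (G m) a j.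
Every word of S has a tail T0, T1 or T2 (F.clean_tail, LtAt.trans with hd, tail_tri); T0 is excluded
for a and for w = om a (G m) j (noT0). So a has a constant HasC, G m has the constant 3 - 2 m
(HasC.of_sh, HasC.alt), w has 2 m - 3 (HasC.om), odd, so w is T1 (T2.hasC, HasC.unique).
By alt_class, sh w 1 is pure (a suffix G m' would have smaller mu, F.nrm_le); w 0 = 1; comparing
constants gives w = +^(m-1) (- +)^oo, i.e. w i = 1 for i < m - 1, w i = (-1)^(i+m) for i >= m - 2.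
Now a (i+j) - a i = w i + G m (i+j). tm < a < alt gives a 0 = 1, a 1 = -1 and (above_tm)
j = 2 (a 2 = 1), or a = + - - + and j = 3 (m >= 3), j = 4 or 6 (m = 2).
j = 2, 4, 6: the right side is 0 for all i, so sh a j = a (F.a_not_per). j = 3: a (i+3) = a i for
i <= m - 3 and a i = -(-1)^(i+m), a (i+3) = (-1)^(i+m) for i >= m - 2. m = 3: a 2 = 1, false. m = 4:
a 4 = -1, a 6 = -1, false by above_tm. m >= 5: a 4 = a 5 = -1, false by above_tm.
PROOF of allT2. If T1 a then sh a 1 is pure (alt_class, noG), alt is in S so a < alt as above, so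
a 1 = -1 and a = alt (sh a 2 = a) or a = G l < tm: false. So T2 a. A suffix nrm a (N + 4 t) = + - - + ...
is above a for large t (F.clean_tail for sh a 1), so tm < a < y with tm, y both starting + - - +,
so both first differences are > 3 (LtAt.trans) and a starts with + - - +. A node v that is T1 is pure,
v 0 = 1, so v = +^l (- +)^oo >= alt > a: false (v 1 = 1 > a 1, or v = alt periodic).
So v is T2, its constant is even, so is the one of om a v j, which is then T2 (not T0, not T1). -/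

namespace Pool.Agent.KExp

/-- the word `1 (-1)^m (1, -1)^oo` -/
def GG (m i : ℕ) : ℤ := if i = 0 then 1 else if i ≤ m then -1 else (-1) ^ (i + m + 1)

theorem alt_pow_FOne {u : ℕ → ℤ} {N : ℕ} (h : ∀ i, u (i + N + 1) = - u (i + N)) (i : ℕ) :
    u (i + N) = u N * (-1) ^ i := by
  induction i with
  | zero => simp
  | succ i ih => rw [Nat.add_right_comm, h, ih]; ring

theorem alt_aux_FOne {u : ℕ → ℤ} (hu : Sg u) (k : ℕ) : ∀ m, 1 ≤ m → (∀ i < m, u (i + k) = u k) →
    (∀ i, u (i + m + k) = u k * (-1) ^ (i + 1)) →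
    (∃ l : ℕ, 1 ≤ l ∧ (∀ i < l, u i = u 0) ∧ ∀ i, u (i + l) = u 0 * (-1) ^ (i + 1)) ∨
      ∃ k m, 2 ≤ m ∧ nrm u k = GG m := by
  induction k with
  | zero => exact fun m h1 h2 h3 => Or.inl ⟨m, h1, h2, h3⟩
  | succ k ih =>
    intro m h1 h2 h3
    by_cases e : u (k + 1) = u k
    · refine ih (m + 1) (by omega) (fun i hi => ?_) fun i => ?_
      · rcases i with _ | i
        · rw [zero_add]
        · rw [← e, ← h2 i (by omega)]; congr 1; omega
      · rw [← e, ← h3 i]; congr 1; omega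
    have e' : u (k + 1) = - u k := by
      rcases hu k with a | a <;> rcases hu (k + 1) with b | b <;> omega
    have sq : u k * u k = 1 := by rcases hu k with a | a <;> simp [a]
    rcases h1.eq_or_lt with rfl | h1
    · refine ih 1 le_rfl (fun i hi => by rw [show i = 0 by omega, zero_add]) fun i => ?_
      rcases i with _ | i
      · rw [zero_add, add_comm, e']; ring
      · rw [show i + 1 + 1 + k = i + 1 + (k + 1) by omega, h3, e']; ring
    · refine Or.inr ⟨k, m, h1, funext fun i => ?_⟩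
      unfold nrm GG
      split_ifs with a b
      · rw [a, zero_add, sq]
      · rw [show i + k = i - 1 + (k + 1) by omega, h2 _ (by omega), e', mul_neg, sq]
      · obtain ⟨t, rfl⟩ : ∃ t, i = t + m + 1 := ⟨i - m - 1, by omega⟩
        rw [show t + m + 1 + k = t + m + (k + 1) by omega, h3, e',
          show t + m + 1 + m + 1 = t + 2 * (m + 1) by omega, pow_add, pow_add, pow_mul]
        linear_combination (-1) ^ t * sq

theorem alt_class {u : ℕ → ℤ} (hu : Sg u) (h : T1 u) :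
    (∃ l : ℕ, 1 ≤ l ∧ (∀ i < l, u i = u 0) ∧ ∀ i, u (i + l) = u 0 * (-1) ^ (i + 1)) ∨
      ∃ k m, 2 ≤ m ∧ nrm u k = GG m := by
  obtain ⟨N, hN⟩ := h
  exact alt_aux_FOne hu N 1 le_rfl (fun i hi => by rw [show i = 0 by omega, zero_add])
    fun i => alt_pow_FOne hN (i + 1)

theorem GG_tail_FOne (m t : ℕ) : GG m (t + (m + 1)) = (-1) ^ t := by
  unfold GG
  rw [if_neg (by omega), if_neg (by omega), show t + (m + 1) + m + 1 = t + 2 * (m + 1) by omega,
    pow_add, pow_mul]
  simp only [Int.reduceNeg, even_two, Even.neg_pow, one_pow, mul_one]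

theorem GG_mid_FOne {m i : ℕ} (h0 : 0 < i) (h : i ≤ m) : GG m i = -1 := by
  unfold GG
  rw [if_neg (by omega), if_pos h]

theorem GG_lt_FOne {m : ℕ} (hm : 2 ≤ m) : ∃ e, LtAt (GG m) tm e := by
  rcases hm.eq_or_lt with rfl | hm
  · obtain ⟨t0, t1, t2, t3, t4, t5, t6, -⟩ := tm_first
    refine ⟨6, fun i hi => ?_, by simp only [GG, OfNat.ofNat_ne_zero, ↓ reduceIte, Nat.reduceLeDiff, Int.reduceNeg, Nat.reduceAdd, Int.reducePow], t6⟩
    interval_cases i <;> simp only [GG, ↓ reduceIte, t0, one_ne_zero, Nat.one_le_ofNat, Int.reduceNeg, t1, OfNat.ofNat_ne_zero, Std.le_refl, t2, Nat.reduceLeDiff, Nat.reduceAdd, Int.reducePow, t3, t4, t5]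
  · exact ⟨3, cube_lt ⟨rfl, GG_mid_FOne (by omega) (by omega), GG_mid_FOne (by omega) (by omega),
      GG_mid_FOne (by omega) (by omega)⟩⟩

theorem GG_hasC_FOne (m : ℕ) : HasC (GG m) (3 - 2 * m) := by
  have h := (HasC.alt (u := sh (GG m) (m + 1)) fun i => by
    simp only [sh, GG_tail_FOne]; ring).of_sh
  rw [Finset.sum_range_succ', Finset.sum_congr rfl fun i hi =>
    GG_mid_FOne (Nat.succ_pos i) (Finset.mem_range.1 hi)] at h
  convert h using 1
  simp only [sh, GG_tail_FOne]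
  simp [GG]
  ring

theorem T1.sh_FOne {u : ℕ → ℤ} (h : T1 u) : T1 (sh u 1) := by
  obtain ⟨N, hN⟩ := h
  exact ⟨N, fun i => by simpa [sh, Nat.add_right_comm] using hN (i + 1)⟩

theorem pure_hasC_FOne {u : ℕ → ℤ} {l : ℕ} (h1 : ∀ i < l, u i = u 0)
    (h2 : ∀ i, u (i + l) = u 0 * (-1) ^ (i + 1)) : HasC u ((2 * l - 1) * u 0) := by
  have h := (HasC.alt (u := sh u l) fun i => by simp only [sh, h2]; ring).of_sh
  rw [Finset.sum_congr rfl fun i hi => h1 i (Finset.mem_range.1 hi)] at h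
  convert h using 1
  simp only [sh, h2]
  simp
  ring

namespace FSys
variable {a : ℕ → ℤ} {S : (ℕ → ℤ) → Prop} {μ : (ℕ → ℤ) → ℕ} (F : FSys a S μ) {d : ℕ}
  (hd : LtAt tm a d)
include F hd

theorem tri_FOne {u : ℕ → ℤ} (h : S (sh u 1)) (h0 : ¬ T0 u) : T1 u ∨ T2 u := by
  obtain ⟨N, hN⟩ := F.clean_tail h
  rcases tail_tri (F.sg _ h) (N := N) (fun k hk => (hN k hk).elim fun e he => ⟨_, hd.trans he⟩)
    with ⟨M, s, hM⟩ | ⟨M, hM⟩ | ⟨M, z, hz, hM⟩
  · exact absurd ⟨M + 1, s, hM⟩ h0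
  · exact Or.inl ⟨M + 1, hM⟩
  · exact Or.inr ⟨M + 1, z, hz, hM⟩

theorem a1_FOne {u : ℕ → ℤ} (h : S u) (h1 : T1 u) : a 1 = -1 := by
  obtain ⟨N, hN⟩ := h1
  have e : ∀ i, nrm u N i = (-1) ^ i := fun i => by
    rw [nrm, alt_pow_FOne hN]
    rcases F.sg u h N with b | b <;> simp only [b, Int.reduceNeg, one_mul, neg_mul, mul_neg, neg_neg]
  rcases F.nrm_cases h N with ⟨j, hj⟩ | ⟨j, h2, h3, h4⟩
  · exact absurd (funext fun i => by simp only [sh, e]; ring)
      (F.not_per (F.nrms h N).1 ((F.sg u h).nrm_zero N) hj two_pos).1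
  · have a0 := (above_tm F.sa hd).1
    have := e 1
    rcases j with _ | _ | j
    · omega
    · omega
    · rw [h2 1 (by omega), this, pow_one]

theorem ahasC_FOne : ∃ c, HasC a c :=
  (F.tri_FOne hd F.root (F.noT0 hd).1).elim (fun h => (h.hasC F.sa).imp fun _ h => h.2)
    fun h => h.hasC.imp fun _ h => h.2

end FSys

theorem FSys.noG {a : ℕ → ℤ} {S : (ℕ → ℤ) → Prop} {μ : (ℕ → ℤ) → ℕ} (F : FSys a S μ) {d : ℕ}
    (hd : LtAt tm a d) {m : ℕ} (hm : 2 ≤ m) : ¬ S (GG m) := by
  induction hμ : μ (GG m) using Nat.strong_induction_on generalizing m with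
  | _ n ih =>
  intro hS
  obtain ⟨e, he⟩ := GG_lt_FOne hm
  obtain ⟨j, hj⟩ : ∃ j, LtAt (GG m) a j := ⟨_, he.trans hd⟩
  obtain ⟨w1, w2, w3, -⟩ := F.node _ j hS rfl hj
  obtain ⟨ca, hca⟩ := F.ahasC_FOne hd
  have hC := HasC.om hj hca (GG_hasC_FOne m)
  obtain ⟨a0, a3⟩ := above_tm F.sa hd
  have a1 := F.a1_FOne hd hS ⟨m + 1, fun i => by
    rw [Nat.add_right_comm, GG_tail_FOne, GG_tail_FOne]; ring⟩
  have hw : ∀ i, a (i + j) - a i = om a (GG m) j i + GG m (i + j) := fun i => by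
    unfold om; ring
  have w0 : om a (GG m) j 0 = 1 := by
    simp only [om, zero_add, hj.2.1, hj.2.2, a0]; norm_num
  have hT : T1 (om a (GG m) j) := (F.tri_FOne hd w2 ((F.noT0 hd).2 _ j hS rfl hj).2).elim id
    fun h => by
      obtain ⟨c, ⟨r, hr⟩, hc⟩ := h.hasC
      have := hC.unique hc
      omega
  generalize om a (GG m) j = w at *
  obtain ⟨l, l1, l2, l3⟩ := (alt_class (w1.sh 1) hT.sh_FOne).resolve_right (by
    rintro ⟨k, m', hm', e⟩
    exact ih _ (hμ ▸ e ▸ (F.nrm_le w2 k).trans_lt w3) hm' rfl (e ▸ (F.nrms w2 k).1))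
  have hc := hC.unique (pure_hasC_FOne l2 l3).of_sh
  simp only [sh, zero_add, Finset.sum_range_one, w0] at hc l2 l3
  obtain ⟨r, rfl⟩ : ∃ r, m = r + 2 := ⟨m - 2, by omega⟩
  have hw' : (∀ i ≤ r, w i = 1) ∧ ∀ i, w (i + (r + 1)) = (-1) ^ (i + 1) := by
    rcases w1 1 with b | b <;> rw [b] at hc l2 l3 <;> push_cast at hc
    · obtain rfl : l = r := by omega
      refine ⟨fun i hi => ?_, fun i => by rw [← add_assoc, l3, one_mul]⟩
      rcases i with _ | i
      · exact w0
      · exact l2 i (by omega)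
    · obtain rfl : l = 1 := by omega
      obtain rfl : r = 0 := by omega
      refine ⟨fun i hi => by rw [show i = 0 by omega, w0], fun i => ?_⟩
      rcases i with _ | i
      · simpa using b
      · rw [zero_add, l3]; ring
  obtain ⟨v1, v2⟩ := hw'
  obtain ⟨j1, j2, j3⟩ := hj
  have G0 : GG (r + 2) 0 = 1 := rfl
  have G2 : GG (r + 2) 2 = -1 := GG_mid_FOne (by omega) (by omega)
  have per : ∀ s, j = 2 * s + 2 → s = 0 ∨ r = 0 → False := fun s hs hr => by
    refine (F.a_not_per (n := j) (by omega)).1 (funext fun i => ?_)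
    have h := hw i
    suffices w i + GG (r + 2) (i + j) = 0 by unfold sh; omega
    rcases le_or_gt i r with c | c
    · rw [v1 i c]
      rcases s with _ | s
      · rw [GG_mid_FOne (by omega) (by omega)]; rfl
      · rw [show i + j = (2 * s + 1) + (r + 2 + 1) by omega, GG_tail_FOne, pow_succ, pow_mul]
        simp only [Int.reduceNeg, even_two, Even.neg_pow, one_pow, mul_neg, mul_one, add_neg_cancel]
    · obtain ⟨t, rfl⟩ : ∃ t, i = t + (r + 1) := ⟨i - r - 1, by omega⟩
      rw [v2, show t + (r + 1) + j = t + 2 * s + (r + 2 + 1) by omega, GG_tail_FOne, pow_add,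
        pow_add, pow_mul]
      simp only [Int.reduceNeg, pow_one, mul_neg, mul_one, even_two, Even.neg_pow, one_pow, neg_add_cancel]
  have j0 : j ≠ 0 := by rintro rfl; omega
  have j1' : j ≠ 1 := by rintro rfl; omega
  by_cases c2 : j = 2
  · exact per 0 c2 (Or.inl rfl)
  obtain ⟨a3, a4⟩ := a3 a1 ((j1 2 (by omega)).symm.trans G2)
  have a2 := (j1 2 (by omega)).symm.trans G2
  rcases r with _ | r
  · have g3 : GG (0 + 2) 3 = 1 := by simp only [GG, OfNat.ofNat_ne_zero, ↓ reduceIte, zero_add, Nat.reduceLeDiff, Int.reduceNeg, Nat.reduceAdd, Int.reducePow]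
    have g4 : GG (0 + 2) 4 = -1 := by simp only [GG, OfNat.ofNat_ne_zero, ↓ reduceIte, zero_add, Nat.reduceLeDiff, Int.reduceNeg, Nat.reduceAdd, Int.reducePow]
    have g5 : GG (0 + 2) 5 = 1 := by simp only [GG, OfNat.ofNat_ne_zero, ↓ reduceIte, zero_add, Nat.reduceLeDiff, Int.reduceNeg, Nat.reduceAdd, Int.reducePow]
    have g6 : GG (0 + 2) 6 = -1 := by simp only [GG, OfNat.ofNat_ne_zero, ↓ reduceIte, zero_add, Nat.reduceLeDiff, Int.reduceNeg, Nat.reduceAdd, Int.reducePow]
    have : j ≠ 3 := by rintro rfl; omega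
    by_cases c4 : j = 4
    · exact per 1 c4 (Or.inr rfl)
    have : j ≠ 5 := by rintro rfl; omega
    by_cases c6 : j = 6
    · exact per 2 c6 (Or.inr rfl)
    have := j1 4 (by omega)
    have := j1 6 (by omega)
    omega
  obtain rfl : j = 3 := by
    by_contra c
    have := j1 3 (by omega)
    rw [GG_mid_FOne (by omega) (by omega)] at this
    omega
  rcases r with _ | _ | r
  · have h := hw 2
    have := v2 0
    have := F.sa 5
    simp only [Int.reduceNeg, ne_eq, OfNat.ofNat_ne_zero, not_false_eq_true, OfNat.ofNat_ne_one, Nat.succ_ne_self, zero_add, Nat.reduceAdd, Nat.reduceLeDiff, Nat.cast_ofNat, Int.reduceMul, Int.reduceSub, neg_neg, mul_one, GG, ↓ reduceIte, Nat.add_eq_zero_iff, and_false, add_le_iff_nonpos_left, nonpos_iff_eq_zero, Std.le_refl, Nat.reduceEqDiff, mul_eq_one, false_and, one_ne_zero, or_false, imp_false, IsEmpty.forall_iff, implies_true, Int.reducePow, pow_one] at *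
    omega
  · have h := hw 3
    have h' := hw 4
    have := v2 0
    have := v2 1
    have := F.sa 4
    have := F.sa 7
    simp only [Int.reduceNeg, ne_eq, OfNat.ofNat_ne_zero, not_false_eq_true, OfNat.ofNat_ne_one, Nat.succ_ne_self, zero_add, Nat.reduceAdd, Nat.reduceLeDiff, Nat.cast_ofNat, Int.reduceMul, Int.reduceSub, neg_neg, mul_one, GG, ↓ reduceIte, Nat.add_eq_zero_iff, and_false, Nat.reduceEqDiff, mul_eq_one, false_and, or_false, imp_false, IsEmpty.forall_iff, implies_true, Int.reducePow, pow_one, even_two, Even.neg_pow, one_pow] at *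
    omega
  · have h := hw 1
    have h' := hw 2
    rw [v1 _ (by omega), GG_mid_FOne (by omega) (by omega)] at h h'
    norm_num at h h'
    omega

theorem FSys.allT2 {a : ℕ → ℤ} {S : (ℕ → ℤ) → Prop} {μ : (ℕ → ℤ) → ℕ} (F : FSys a S μ) {d : ℕ}
    (hd : LtAt tm a d) : T2 a ∧ a 1 = -1 ∧ a 2 = -1 ∧ a 3 = 1 ∧
      ∀ v j, S v → v 0 = 1 → LtAt v a j → T2 v ∧ T2 (om a v j) := by
  have pure : ∀ {u}, S u → T1 u → ∃ l : ℕ, 1 ≤ l ∧ (∀ i < l, u i = u 0) ∧
      ∀ i, u (i + l) = u 0 * (-1) ^ (i + 1) := fun {u} h h1 =>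
    (alt_class (F.sg u h) h1).resolve_right (by
      rintro ⟨k, m, hm, e⟩
      exact F.noG hd hm (e ▸ (F.nrms h k).1))
  obtain ⟨a0, a3⟩ := above_tm F.sa hd
  have hT : T2 a := (F.tri_FOne hd F.root (F.noT0 hd).1).resolve_left fun h => by
    have a1 := F.a1_FOne hd F.root h.sh_FOne
    obtain ⟨l, l1, l2, l3⟩ := pure F.root h.sh_FOne
    simp only [sh, zero_add, a1] at l2 l3
    rcases l1.eq_or_lt with rfl | l1
    · refine (F.a_not_per two_pos).1 (funext fun i => ?_)
      rcases i with _ | _ | i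
      · rw [sh, a0]; simpa using l3 0
      · rw [sh, zero_add, a1]; simpa only [Nat.reduceAdd, Int.reduceNeg, even_two, Even.neg_pow, one_pow, mul_one] using l3 1
      · rw [sh, l3 i, show i + 1 + 1 + 2 = i + 2 + 1 + 1 by omega, l3]; ring
    · obtain ⟨b3, b4⟩ := a3 a1 (l2 1 l1)
      obtain rfl : l = 2 := by
        by_contra c
        have := l2 2 (by omega)
        norm_num at this
        omega
      have h1 := l3 1
      have h2 := l3 3
      norm_num at h1 h2
      omega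
  have a12 : a 1 = -1 ∧ a 2 = -1 := by
    obtain ⟨N, z, hz, hN⟩ := hT
    obtain ⟨M, hM⟩ := F.clean_tail F.root
    obtain ⟨e, e1, e2, e3⟩ := hM (4 * M + 3 + N) (by omega)
    have p0 := hN (2 * (2 * (M + 1)))
    have p1 := hN (2 * (2 * (M + 1)) + 1)
    have p2 := hN (2 * (2 * (M + 1) + 1))
    simp only [phi_even, phi_odd] at p0 p1 p2
    have sq : z (M + 1) * z (M + 1) = 1 := by rcases hz (M + 1) with b | b <;> simp [b]
    have y1 : nrm (sh a 1) (4 * M + 3 + N) 1 = -1 := by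
      rw [nrm, sh, sh, show 4 * M + 3 + N + 1 = 2 * (2 * (M + 1)) + N by omega,
        show 1 + (4 * M + 3 + N) + 1 = 2 * (2 * (M + 1)) + 1 + N by omega, p0, p1, mul_neg, sq]
    have y2 : nrm (sh a 1) (4 * M + 3 + N) 2 = -1 := by
      rw [nrm, sh, sh, show 4 * M + 3 + N + 1 = 2 * (2 * (M + 1)) + N by omega,
        show 2 + (4 * M + 3 + N) + 1 = 2 * (2 * (M + 1) + 1) + N by omega, p0, p2, mul_neg, sq]
    have : e ≠ 0 := by rintro rfl; omega
    have : e ≠ 1 := by rintro rfl; omega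
    have : e ≠ 2 := by rintro rfl; omega
    exact ⟨(e1 1 (by omega)).trans y1, (e1 2 (by omega)).trans y2⟩
  refine ⟨hT, a12.1, a12.2, (a3 a12.1 a12.2).1, fun v j hv v0 hj => ?_⟩
  obtain ⟨n1, n2⟩ := (F.noT0 hd).2 v j hv v0 hj
  obtain ⟨w1, w2, -⟩ := F.node v j hv v0 hj
  have hv2 : T2 v := (F.tri_FOne hd (F.shift v hv).1 n1).resolve_left fun h => by
    obtain ⟨l, l1, l2, l3⟩ := pure hv h
    rw [v0] at l2 l3
    rcases l1.eq_or_lt with rfl | l1
    · refine (F.not_per hv v0 hj two_pos).1 (funext fun i => ?_)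
      rcases i with _ | i
      · rw [sh, v0]; simpa only [zero_add, Nat.reduceAdd, Int.reduceNeg, even_two, Even.neg_pow, one_pow, mul_one] using l3 1
      · rw [sh, l3 i, show i + 1 + 2 = i + 2 + 1 by omega, l3]; ring
    · obtain ⟨j1, j2, j3⟩ := hj
      have := l2 1 l1
      have : j ≠ 0 := by rintro rfl; omega
      have : j ≠ 1 := by rintro rfl; omega
      have := j1 1 (by omega)
      omega
  refine ⟨hv2, (F.tri_FOne hd w2 n2).resolve_left fun h => ?_⟩
  obtain ⟨c, ⟨r, hr⟩, hc⟩ := hv2.hasC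
  obtain ⟨c', ⟨r', hr'⟩, hc'⟩ := h.hasC w1
  obtain ⟨ca, hca⟩ := F.ahasC_FOne hd
  have := (HasC.om hj hca hc).unique hc'
  omega

end Pool.Agent.KExp

end

-- part MP_bd9604_nt.Inf.FMin
section

/-! The minimal node outside the image of `phi`.

Call u in S good if every normalised suffix nrm u k that is a node (LtAt (nrm u k) a j) is IsPhi.
For a good word, every k has nrm u k above a (so above tm, LtAt.trans) or IsPhi (sh u k)
(F.nrm_cases), so good_class applies when u is T2 (T2 excludes T0): u = s^l phi w.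
PROOF of odd_node. w1 = om a v j and v are T2 (allT2). v = phi y with y t = v (2 t), TP y (phi_tail),
so HasC v 0 (HasC.phi0); a is T2 so HasC w1 0 (HasC.om). sh w1 1 = s^l phi W1 (good_class), TP W1
(phi_tail; T2 passes to suffixes), w1 0 = 1, so 0 = 2 (1 + s l): s = -1, l = 1 and w1 is IsPhi.
If j = 2 e then sigma k = a (2 k) + a (2 k + 1) satisfies sigma (k + e) = sigma k (add the equations
a (i+j) - a i = w1 i + v (i+j) for i = 2 k, 2 k + 1), e > 0. sigma p != 0 for some p (a is not IsPhi),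
sigma 0 = sigma 1 = 0. T2 a with place N: if N is even sigma is eventually 0, against sigma (p + t e);
if N is odd, of two consecutive k one has sigma k != 0 (phi (phi z) (4 t + 1) = phi (phi z) (4 t + 2)),
against sigma (t e) = sigma (t e + 1) = 0.
PROOF of exists_core. sh a 1 is not good: else a = + s^l phi w with a = + - - +: l = 0 gives
a 1 != a 2; l = 1 gives IsPhi a; l = 2 gives w 0 = 1, a 4 = -1, a 5 = 1, a 6 = -1 against above_tm; l >= 3
gives a 3 = -1. So there is a node that is not IsPhi; take one, v, with minimal mu. Then sh v 1 and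
sh (om a v j) 1 are good. v = + s^m phi V; v 1 = -1 (v < a); m = 0 gives v 2 = 1 (v > a), m = 1 gives
IsPhi v; so s = -1, m >= 2, v = vw m V, HasC v (2 - 2 m). om = + s'^l phi W has the constant
2 + 2 s' l = 2 m - 2, so om = ow m W. p is the least k with a (2 k + 1) != - a (2 k).
KV: if LtAt (nrm V k) b e, e <= p, b i = a (2 i), then LtAt (phi (nrm V k)) a (2 e), and
phi (nrm V k) = nrm v (m + 1 + 2 k) is in S with mu smaller than mu v, so all nodes below it are IsPhi
and odd_node gives that 2 e is odd. KW: phi W = sh om (m - 1), m - 1 >= 1. -/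

namespace Pool.Agent.KExp

lemma phi_sh_FMin (u : ℕ → ℤ) (k : ℕ) : phi (sh u k) = sh (phi u) (2 * k) := by
  funext i
  obtain ⟨t, rfl | rfl⟩ := Nat.even_or_odd' i
  · rw [phi_even]; unfold sh; rw [show 2 * t + 2 * k = 2 * (t + k) by ring, phi_even]
  · rw [phi_odd]; unfold sh; rw [show 2 * t + 1 + 2 * k = 2 * (t + k) + 1 by ring, phi_odd]

lemma phi_nrm_FMin (u : ℕ → ℤ) (k : ℕ) : phi (nrm u k) = nrm (phi u) (2 * k) := by
  funext i
  obtain ⟨t, rfl | rfl⟩ := Nat.even_or_odd' i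
  · rw [phi_even]; unfold nrm; rw [show 2 * t + 2 * k = 2 * (t + k) by ring, phi_even, phi_even]
  · rw [phi_odd]; unfold nrm
    rw [show 2 * t + 1 + 2 * k = 2 * (t + k) + 1 by ring, phi_odd, phi_even]; ring

lemma isPhi_phi_FMin (u : ℕ → ℤ) : IsPhi (phi u) := fun k => by rw [phi_odd, phi_even]

lemma IsPhi.eq_FMin {v : ℕ → ℤ} (h : IsPhi v) : v = phi (fun i => v (2 * i)) := by
  funext i
  obtain ⟨t, rfl | rfl⟩ := Nat.even_or_odd' i
  · rw [phi_even]
  · rw [phi_odd, h]

lemma T2.sh_FMin {u : ℕ → ℤ} (h : T2 u) (k : ℕ) : T2 (sh u k) := by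
  obtain ⟨N, z, hz, h⟩ := h
  refine ⟨N + 3 * k, sh z k, hz.sh k, fun i => ?_⟩
  rw [phi_sh_FMin, phi_sh_FMin]
  unfold sh
  rw [← h]
  congr 1
  ring

lemma T2.not0_FMin {u : ℕ → ℤ} (h : T2 u) : ¬ T0 u := by
  obtain ⟨N, z, hz, h⟩ := h
  rintro ⟨M, s, h'⟩
  have h1 := h (2 * M)
  have h2 := h (2 * M + 1)
  rw [phi_even, show 2 * M + N = M + N + M by ring, h'] at h1
  rw [phi_odd, show 2 * M + 1 + N = M + N + 1 + M by ring, h'] at h2
  rcases hz.phi M with c | c <;> omega

/-- a word that starts with two opposite digits followed by a word `phi w` -/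
lemma isPhi_of_FMin {u w : ℕ → ℤ} (h1 : u 1 = - u 0) (h : ∀ i, sh u 1 (i + 1) = phi w i) :
    IsPhi u := by
  intro k
  cases k with
  | zero => simpa using h1
  | succ t =>
    have e1 := h (2 * t)
    have e2 := h (2 * t + 1)
    rw [phi_even] at e1
    rw [phi_odd] at e2
    unfold sh at e1 e2
    rw [show 2 * (t + 1) + 1 = 2 * t + 1 + 1 + 1 by ring, show 2 * (t + 1) = 2 * t + 1 + 1 by ring,
      e1, e2]

lemma FSys.good_FMin {a : ℕ → ℤ} {S : (ℕ → ℤ) → Prop} {μ : (ℕ → ℤ) → ℕ} (F : FSys a S μ) {d : ℕ}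
    (hd : LtAt tm a d) {u : ℕ → ℤ} (hu : S (sh u 1)) (ht : T2 u)
    (hg : ∀ y i, S y → y 0 = 1 → LtAt y a i → μ y ≤ μ (sh u 1) → IsPhi y) :
    ∃ (l : ℕ) (s : ℤ) (w : ℕ → ℤ), (s = 1 ∨ s = -1) ∧ Sg w ∧ (∀ i < l, sh u 1 i = s) ∧
      (∀ i, sh u 1 (i + l) = phi w i) ∧ TP w ∧ HasC u (2 * (l * s) + 2 * u 0) ∧
      S (phi w) ∧ μ (phi w) ≤ μ (sh u 1) := by
  have su := F.sg _ hu
  obtain ⟨l, s, w, hs, hw, h1, h2⟩ := good_class su (ht.sh_FMin 1).not0_FMin fun k => by
    rcases F.nrm_cases hu k with ⟨j, hj⟩ | ⟨e, he⟩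
    · right
      have h3 := hg _ j (F.nrms hu k).1 (su.nrm_zero k) hj (F.nrm_le hu k)
      rcases su.nrm_eq k with e | e <;> rw [e] at h3
      · exact h3
      · intro t
        have := h3 t
        simp only at this
        omega
    · exact Or.inl ⟨_, hd.trans he⟩
  have e : sh (sh u 1) l = phi w := funext h2
  have tw : TP w := phi_tail hw (e ▸ (ht.sh_FMin 1).sh_FMin l)
  have c0 : HasC (sh (sh u 1) l) 0 := e ▸ HasC.phi0 hw tw
  have c1 := c0.of_sh.of_sh
  rw [Finset.sum_congr rfl fun i hi => h1 i (Finset.mem_range.1 hi)] at c1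
  refine ⟨l, s, w, hs, hw, h1, h2, tw, by simpa using c1, ?_⟩
  rw [← e]
  exact F.shifts hu l

theorem FSys.odd_node {a : ℕ → ℤ} {S : (ℕ → ℤ) → Prop} {μ : (ℕ → ℤ) → ℕ} (F : FSys a S μ) {d : ℕ}
    (hd : LtAt tm a d) (hn : ¬ IsPhi a) {v : ℕ → ℤ} {j : ℕ} (hv : S v) (h0 : v 0 = 1)
    (hj : LtAt v a j) (hp : IsPhi v)
    (hg : ∀ u i, S u → u 0 = 1 → LtAt u a i → μ u < μ v → IsPhi u) : Odd j := by
  obtain ⟨ta, a1, a2, a3, hT⟩ := F.allT2 hd
  have a0 := (above_tm F.sa hd).1
  obtain ⟨tv, tw⟩ := hT v j hv h0 hj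
  obtain ⟨-, n2, n3, -⟩ := F.node v j hv h0 hj
  have sy : Sg fun i => v (2 * i) := fun i => F.sg v hv _
  have cv : HasC v 0 := by
    rw [hp.eq_FMin] at tv ⊢
    exact HasC.phi0 sy (phi_tail sy tv)
  obtain ⟨ca, -, hca⟩ := ta.hasC
  have cw := HasC.om hj hca cv
  obtain ⟨l, s, w, hs, -, h1, h2, -, h3, -⟩ := F.good_FMin hd n2 tw
    fun y i y1 y2 y3 y4 => hg y i y1 y2 y3 (y4.trans_lt n3)
  have w0 : om a v j 0 = 1 := by
    have := hj.2.1; have := hj.2.2
    simp only [om, zero_add]; omega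
  have h4 := cw.unique h3
  rw [w0] at h4
  obtain ⟨rfl, rfl⟩ : s = -1 ∧ l = 1 := by rcases hs with rfl | rfl <;> omega
  have pw : IsPhi (om a v j) :=
    isPhi_of_FMin (by have := h1 0 (by omega); simp only [sh, zero_add] at this; omega) h2
  obtain ⟨e, rfl | rfl⟩ := Nat.even_or_odd' j
  swap
  · exact ⟨e, rfl⟩
  exfalso
  have e0 : 0 < e := by
    rcases Nat.eq_zero_or_pos e with rfl | c
    · have := hj.2.1; simp only [mul_zero] at this; omega
    · exact c
  have per1 : ∀ k, a (2 * (k + e)) + a (2 * (k + e) + 1) = a (2 * k) + a (2 * k + 1) := fun k => by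
    have b1 := pw k
    have b2 := hp (k + e)
    unfold om at b1
    rw [show 2 * k + 1 + 2 * e = 2 * (k + e) + 1 by ring,
      show 2 * k + 2 * e = 2 * (k + e) by ring] at b1
    omega
  have per : ∀ t k, a (2 * (k + t * e)) + a (2 * (k + t * e) + 1) = a (2 * k) + a (2 * k + 1) := by
    intro t
    induction t with
    | zero => simp
    | succ t ih => intro k; rw [← ih k, ← per1 (k + t * e)]; congr 2 <;> ring
  obtain ⟨p, hp'⟩ : ∃ p, a (2 * p + 1) ≠ - a (2 * p) := not_forall.1 hn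
  obtain ⟨N, z, hz, hN⟩ := ta
  obtain ⟨M, rfl | rfl⟩ := Nat.even_or_odd' N
  · obtain ⟨r, hr⟩ : ∃ r, p + M * e = r + M :=
      ⟨p + M * e - M, by have := Nat.le_mul_of_pos_right M e0; omega⟩
    have b1 := per M p
    have b2 := hN (2 * r)
    have b3 := hN (2 * r + 1)
    rw [phi_even, show 2 * r + 2 * M = 2 * (r + M) by ring] at b2
    rw [phi_odd, show 2 * r + 1 + 2 * M = 2 * (r + M) + 1 by ring] at b3
    rw [hr] at b1
    omega
  · obtain ⟨r, hr⟩ : ∃ r, (M + 1) * e = r + M + 1 :=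
      ⟨(M + 1) * e - (M + 1), by have := Nat.le_mul_of_pos_right (M + 1) e0; omega⟩
    have b0 := per (M + 1) 0
    have b1 := per (M + 1) 1
    have b2 := hN (2 * r + 1)
    have b3 := hN (2 * (r + 1))
    have b4 := hN (2 * (r + 1) + 1)
    have b5 := hN (2 * (r + 1 + 1))
    rw [phi_odd, show 2 * r + 1 + (2 * M + 1) = 2 * (0 + (r + M + 1)) by ring] at b2
    rw [phi_even, show 2 * (r + 1) + (2 * M + 1) = 2 * (0 + (r + M + 1)) + 1 by ring] at b3
    rw [phi_odd, show 2 * (r + 1) + 1 + (2 * M + 1) = 2 * (1 + (r + M + 1)) by ring] at b4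
    rw [phi_even, show 2 * (r + 1 + 1) + (2 * M + 1) = 2 * (1 + (r + M + 1)) + 1 by ring] at b5
    rw [hr] at b0 b1
    simp only [mul_zero, zero_add, mul_one, show 2 + 1 = 3 by rfl] at b0 b1 b2 b3
    have c1 : phi z (r + 1) = phi z r := by omega
    have c2 : phi z (r + 1 + 1) = phi z (r + 1) := by omega
    obtain ⟨q, rfl | rfl⟩ := Nat.even_or_odd' r
    · rw [phi_odd, phi_even] at c1
      rcases hz q with c | c <;> omega
    · rw [show 2 * q + 1 + 1 = 2 * (q + 1) by ring, phi_odd, phi_even] at c2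
      rcases hz (q + 1) with c | c <;> omega

lemma FSys.exists_node_FMin {a : ℕ → ℤ} {S : (ℕ → ℤ) → Prop} {μ : (ℕ → ℤ) → ℕ} (F : FSys a S μ)
    {d : ℕ} (hd : LtAt tm a d) (hn : ¬ IsPhi a) :
    ∃ v j, S v ∧ v 0 = 1 ∧ LtAt v a j ∧ ¬ IsPhi v := by
  by_contra hc
  obtain ⟨ta, a1, a2, a3, -⟩ := F.allT2 hd
  obtain ⟨a0, a4⟩ := above_tm F.sa hd
  obtain ⟨l, s, w, -, -, h1, h2, -⟩ := F.good_FMin hd F.root ta fun y i y1 y2 y3 _ => by
    by_contra y4
    exact hc ⟨y, i, y1, y2, y3, y4⟩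
  rcases (by omega : l = 0 ∨ l = 1 ∨ l = 2 ∨ 3 ≤ l) with rfl | rfl | rfl | hl
  · have b0 := h2 0
    have b1 := h2 1
    simp [sh, phi] at b0 b1
    omega
  · exact hn (isPhi_of_FMin (by omega) h2)
  · have b0 := h2 0
    have b1 := h2 1
    have b2 := h2 2
    have b3 := h2 3
    simp only [sh, zero_add, Nat.reduceAdd, phi, Nat.zero_mod, ↓ reduceIte, Nat.zero_div, Nat.mod_succ, one_ne_zero, Nat.reduceDiv, Nat.mod_self, Order.lt_two_iff, zero_le, Nat.div_self, Nat.reduceMod] at b0 b1 b2 b3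
    have := (a4 a1 a2).2 (by omega)
    omega
  · have b0 := h1 0 (by omega)
    have b2 := h1 2 (by omega)
    simp [sh] at b0 b2
    omega

theorem FSys.exists_core {a : ℕ → ℤ} {S : (ℕ → ℤ) → Prop} {μ : (ℕ → ℤ) → ℕ} (F : FSys a S μ)
    {d : ℕ} (hd : LtAt tm a d) (hn : ¬ IsPhi a) :
    ∃ V W m j p, Core a V W S μ m j p d := by
  classical
  obtain ⟨ta, a1, a2, a3, hT⟩ := F.allT2 hd
  have a0 := (above_tm F.sa hd).1
  have hex : ∃ c, ∃ v j, S v ∧ v 0 = 1 ∧ LtAt v a j ∧ ¬ IsPhi v ∧ μ v = c := by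
    obtain ⟨v, j, h1, h2, h3, h4⟩ := F.exists_node_FMin hd hn
    exact ⟨_, v, j, h1, h2, h3, h4, rfl⟩
  obtain ⟨v, j, hv, h0, hj, hp, hc⟩ := Nat.find_spec hex
  have hg : ∀ u i, S u → u 0 = 1 → LtAt u a i → μ u < μ v → IsPhi u := fun u i y1 y2 y3 y4 => by
    by_contra y5
    exact Nat.find_min hex (hc ▸ y4) ⟨u, i, y1, y2, y3, y5, rfl⟩
  obtain ⟨tv, tw⟩ := hT v j hv h0 hj
  obtain ⟨-, n2, n3, n4⟩ := F.node v j hv h0 hj
  obtain ⟨m, s, V, -, sV, v1, v2, tV, cv, SV, mV⟩ := F.good_FMin hd (F.shift v hv).1 tv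
    fun y i y1 y2 y3 y4 => hg y i y1 y2 y3 (y4.trans_lt n4)
  obtain ⟨l, s', W, hs', sW, w1, w2, tW, cw, SW, mW⟩ := F.good_FMin hd n2 tw
    fun y i y1 y2 y3 y4 => hg y i y1 y2 y3 (y4.trans_lt n3)
  obtain ⟨j1, j2, j3⟩ := id hj
  have j0 : 3 ≤ j := by
    by_contra c
    have : j = 0 ∨ j = 1 ∨ j = 2 := by omega
    rcases this with rfl | rfl | rfl <;> omega
  have b1 : v 1 = -1 := by rw [j1 1 (by omega), a1]
  have b2 : v 2 = -1 := by rw [j1 2 (by omega), a2]
  have m2 : 2 ≤ m := by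
    by_contra c
    have : m = 0 ∨ m = 1 := by omega
    rcases this with rfl | rfl
    · have c0 := v2 0
      have c1 := v2 1
      simp [sh, phi] at c0 c1
      omega
    · exact hp (isPhi_of_FMin (by omega) v2)
  obtain rfl : s = -1 := by
    have := v1 0 (by omega)
    simp only [sh, zero_add] at this
    omega
  have ev : v = vw m V := by
    funext i
    unfold vw
    split_ifs with c1 c2
    · rw [c1, h0]
    · have := v1 (i - 1) (by omega)
      unfold sh at this
      rwa [show i - 1 + 1 = i by omega] at this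
    · have := v2 (i - m - 1)
      unfold sh at this
      rwa [show i - m - 1 + m + 1 = i by omega] at this
  have w0 : om a v j 0 = 1 := by simp only [om, zero_add]; omega
  obtain ⟨ca, -, hca⟩ := ta.hasC
  have h4 := (HasC.om hj hca cv).unique cw
  rw [w0, h0] at h4
  have hl : l + 2 = m ∧ (0 < l → s' = 1) := by rcases hs' with rfl | rfl <;> omega
  have ew : ∀ i, om a v j i = ow m W i := fun i => by
    unfold ow
    split_ifs with c1
    · rcases Nat.eq_zero_or_pos i with rfl | c2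
      · exact w0
      · have := w1 (i - 1) (by omega)
        unfold sh at this
        rwa [show i - 1 + 1 = i by omega, hl.2 (by omega)] at this
    · have := w2 (i + 1 - m)
      unfold sh at this
      rwa [show i + 1 - m + l + 1 = i by omega] at this
  have hpx : ∃ p, a (2 * p + 1) ≠ - a (2 * p) := not_forall.1 hn
  have pre : ∀ k < Nat.find hpx, a (2 * k + 1) = - a (2 * k) := fun k hk =>
    not_not.1 (Nat.find_min hpx hk)
  have K : ∀ U, S (phi U) → μ (phi U) < μ v → ∀ k e, e ≤ Nat.find hpx →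
      ¬ LtAt (nrm U k) (fun i => a (2 * i)) e := fun U SU mU k e he h => by
    have l1 : LtAt (phi (nrm U k)) a (2 * e) := by
      refine ⟨fun i hi => ?_, by rw [phi_even, h.2.1], h.2.2⟩
      obtain ⟨t, rfl | rfl⟩ := Nat.even_or_odd' i
      · rw [phi_even, h.1 t (by omega)]
      · rw [phi_odd, h.1 t (by omega), pre t (by omega)]
    have l2 := isPhi_phi_FMin (nrm U k)
    rw [phi_nrm_FMin] at l1 l2
    have := F.odd_node hd hn (F.nrms SU _).1 ((F.sg _ SU).nrm_zero _) l1 l2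
      fun y i y1 y2 y3 y4 => hg y i y1 y2 y3 ((y4.trans_le (F.nrm_le SU _)).trans mU)
    exact absurd this (by simp only [Nat.not_odd_iff_even, even_two, Even.mul_right])
  refine ⟨V, W, m, j, Nat.find hpx, F, hd, ta, a1, a2, a3, sV, sW, m2, ev ▸ hj, ev ▸ ew, SV, SW,
    tV, tW, pre, ?_, K V SV (mV.trans_lt n4), K W SW (mW.trans_lt n3)⟩
  have := Nat.find_spec hpx
  rcases F.sa (2 * Nat.find hpx) with c | c <;> rcases F.sa (2 * Nat.find hpx + 1) with c' | c' <;>
    omega

end Pool.Agent.KExp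

end

-- part MP_bd9604_nt.Inf.FCoreA
section

/-! Core cases `m = 2`, `j = 3, 4, 6`. Notation: b i = a (2 i), s = a (2 p) = a (2 p + 1), p >= 2 (C.p2),
a (2 k + 1) = - b k for k < p. C.eq' : a (i + j) - a i = ow m W i + vw m V (i + j).

m = 2: vw (3 + 2 k) = V k, vw (4 + 2 k) = - V k, ow 0 = 1, ow (1 + 2 k) = W k, ow (2 + 2 k) = - W k.
j = 3: B i = a i + a (i+1) + a (i+2). By induction B (2 k + 1) = V k, B (2 k + 2) = W k (B 0 = -1,
V 0 = -1). So no three equal consecutive digits in a. V k = - b k for k <= p - 2; at k = p - 1: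
b (p-1) = s and V (p-1) = s. If s = 1: nrm V 0 = - V has LtAt (nrm V 0) b (p - 1), against C.KV.
If s = -1: W (k-1) = b (k+1) for 1 <= k <= p - 1, a (2 p + 2) = 1, W (p-1) = -1. C.neg_lt gives
e < p with tm e = -1, b e = 1, so 2 <= e <= p - 2; W (e - 2) = 1 and W = -1 at p-3, p-2, p-1:
cube, cube_lt, C.Kneg.
j = 4: a 4 = 1. tau k = a (2 k + 1) + a (2 k + 2) has tau (k + 2) = tau k (add the equations for
i = 2 k + 1, 2 k + 2), tau 0 = -2, tau 1 = 2, so sh a 4 = a, against C.sys.a_not_per.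
j = 6: a = + - - + - + +; tau (k + 3) = tau k, tau 0 = -2, tau 2 = 2, so for all t
a (6 t + 1) = a (6 t + 2) = -1, a (6 t + 5) = a (6 t + 6) = 1. This contradicts C.t2: in phi (phi z)
equal neighbours sit at places (4 t + 1, 4 t + 2) with value - z t, and at (4 t + 3, 4 t + 4) iff
z t = z (t+1), with value z t; take i = 6 t + 1 or 6 t + 7 that is 1 mod 4 relative to N (it is odd
relative to N), then z t = 1, z (t+1) = -1 (place i + 4), z (t+2) = -1 (i + 6), z (t+2) = 1 (i + 10). -/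

namespace Pool.Agent.KExp

lemma vw_odd_FCoreA (V : ℕ → ℤ) (k : ℕ) : vw 2 V (2 * k + 3) = V k := by
  unfold vw
  rw [if_neg (by omega), if_neg (by omega), show 2 * k + 3 - 2 - 1 = 2 * k by omega, phi_even]

lemma vw_even_FCoreA (V : ℕ → ℤ) (k : ℕ) : vw 2 V (2 * k + 4) = - V k := by
  unfold vw
  rw [if_neg (by omega), if_neg (by omega), show 2 * k + 4 - 2 - 1 = 2 * k + 1 by omega, phi_odd]

lemma ow_odd_FCoreA (W : ℕ → ℤ) (k : ℕ) : ow 2 W (2 * k + 1) = W k := by
  unfold ow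
  rw [if_neg (by omega), show 2 * k + 1 + 1 - 2 = 2 * k by omega, phi_even]

lemma ow_even_FCoreA (W : ℕ → ℤ) (k : ℕ) : ow 2 W (2 * k + 2) = - W k := by
  unfold ow
  rw [if_neg (by omega), show 2 * k + 2 + 1 - 2 = 2 * k + 1 by omega, phi_odd]

/-- for even `j` the sums of the pairs at places `2 k + 1`, `2 k + 2` are periodic -/
lemma Core.tau_FCoreA {a V W : ℕ → ℤ} {S : (ℕ → ℤ) → Prop} {μ : (ℕ → ℤ) → ℕ} {p d j r : ℕ}
    (C : Core a V W S μ 2 j p d) (hj : j = 2 * r + 2) (k : ℕ) :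
    a (2 * k + 1 + j) + a (2 * k + 2 + j) = a (2 * k + 1) + a (2 * k + 2) := by
  have e1 := C.eq' (2 * k + 1)
  have e2 := C.eq' (2 * k + 2)
  have v1 := vw_odd_FCoreA V (k + r)
  have v2 := vw_even_FCoreA V (k + r)
  rw [show 2 * (k + r) + 3 = 2 * k + 1 + j by omega] at v1
  rw [show 2 * (k + r) + 4 = 2 * k + 2 + j by omega] at v2
  rw [ow_odd_FCoreA, v1] at e1
  rw [ow_even_FCoreA, v2] at e2
  omega

theorem Core.c23 {a V W : ℕ → ℤ} {S : (ℕ → ℤ) → Prop} {μ : (ℕ → ℤ) → ℕ} {p d : ℕ}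
    (C : Core a V W S μ 2 3 p d) : False := by
  have a0 := C.a0; have a1 := C.a1; have a2 := C.a2; have a3 := C.a3
  have sa := C.sys.sa
  have p2 := C.p2
  have V0 : V 0 = -1 := by
    have h := C.lt.2.1
    have v := vw_odd_FCoreA V 0
    simp only [Nat.mul_zero, Nat.zero_add] at v
    omega
  have stepW : ∀ k, a (2 * k + 1) + a (2 * k + 2) + a (2 * k + 3) = V k →
      a (2 * k + 2) + a (2 * k + 3) + a (2 * k + 4) = W k := by
    intro k h
    have e1 := C.eq' (2 * k + 1)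
    rw [ow_odd_FCoreA, show 2 * k + 1 + 3 = 2 * k + 4 by omega, vw_even_FCoreA] at e1
    omega
  have BV : ∀ k, a (2 * k + 1) + a (2 * k + 2) + a (2 * k + 3) = V k := by
    intro k
    induction k with
    | zero => simp only [Nat.mul_zero, Nat.zero_add]; omega
    | succ k ih =>
      have h := stepW k ih
      have e2 := C.eq' (2 * k + 2)
      rw [ow_even_FCoreA, show 2 * k + 2 + 3 = 2 * (k + 1) + 3 by omega, vw_odd_FCoreA] at e2
      rw [show 2 * (k + 1) + 1 = 2 * k + 3 by omega, show 2 * (k + 1) + 2 = 2 * k + 4 by omega]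
      omega
  have BW : ∀ k, a (2 * k + 2) + a (2 * k + 3) + a (2 * k + 4) = W k := fun k => stepW k (BV k)
  have pre' : ∀ k, k + 1 < p → a (2 * k + 3) = - a (2 * k + 2) := by
    intro k hk
    have := C.pre (k + 1) hk
    rwa [show 2 * (k + 1) + 1 = 2 * k + 3 by omega, show 2 * (k + 1) = 2 * k + 2 by omega] at this
  have Vk : ∀ k, k + 1 < p → V k = - a (2 * k) := by
    intro k hk
    have h1 := BV k
    have h2 := pre' k hk
    have h3 := C.pre k (by omega)
    omega
  have Wk : ∀ k, k + 1 < p → W k = a (2 * (k + 2)) := by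
    intro k hk
    have h1 := BW k
    have h2 := pre' k hk
    rw [show 2 * (k + 2) = 2 * k + 4 by omega]
    omega
  obtain ⟨q, rfl⟩ : ∃ q, p = q + 1 := ⟨p - 1, by omega⟩
  have hb := C.brk
  have hq := C.pre q (by omega)
  have h1 := BV q
  have h2 := BW q
  rw [show 2 * (q + 1) + 1 = 2 * q + 3 by omega, show 2 * (q + 1) = 2 * q + 2 by omega] at hb
  rcases sa (2 * q + 2) with hs | hs
  · refine C.KV 0 q (by omega) ⟨fun i hi => ?_, ?_, ?_⟩
    · have := Vk i (by omega)
      simp only [nrm, Nat.add_zero, V0, this]; ring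
    · simp only [nrm, Nat.add_zero, V0]
      rcases C.sv q with c | c <;> rcases sa (2 * q) with c' | c' <;> omega
    · show a (2 * q) = 1
      rcases C.sv q with c | c <;> rcases sa (2 * q) with c' | c' <;> omega
  · have hs' : a (2 * (q + 1)) = -1 := by rw [show 2 * (q + 1) = 2 * q + 2 by omega]; exact hs
    have bq : a (2 * q) = -1 := by
      rcases C.sv q with c | c <;> rcases sa (2 * q) with c' | c' <;> omega
    have Wq : W q = -1 := by
      rcases C.sw q with c | c <;> rcases sa (2 * q + 4) with c' | c' <;> omega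
    obtain ⟨e, he, -, g2, g3⟩ := C.neg_lt hs'
    have g3' : a (2 * e) = 1 := g3
    have e0 : e ≠ 0 := by rintro rfl; have := tm_zero; omega
    have e1 : e ≠ 1 := by rintro rfl; simp only [Nat.mul_one] at g3'; omega
    have eq : e ≠ q := by rintro rfl; omega
    obtain ⟨f, rfl⟩ : ∃ f, e = f + 2 := ⟨e - 2, by omega⟩
    obtain ⟨r, rfl⟩ : ∃ r, q = r + 2 := ⟨q - 2, by omega⟩
    have w0 := Wk f (by omega)
    have w1 := Wk r (by omega)
    have w2 := Wk (r + 1) (by omega)
    rw [show r + 1 + 2 = r + 2 + 1 by omega] at w2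
    obtain ⟨t, ht⟩ := cube C.sw (i := f) (k := r) (by omega) (by omega) (by omega) (by omega)
    exact (C.Kneg hs' t 3).2 (cube_lt ht)

theorem Core.c24 {a V W : ℕ → ℤ} {S : (ℕ → ℤ) → Prop} {μ : (ℕ → ℤ) → ℕ} {p d : ℕ}
    (C : Core a V W S μ 2 4 p d) : False := by
  have a0 := C.a0; have a1 := C.a1; have a2 := C.a2; have a3 := C.a3
  have a4 : a 4 = 1 := C.lt.2.2
  have sa := C.sys.sa
  have tau := C.tau_FCoreA (r := 1) rfl
  have same : ∀ k, a (2 * k + 1) = a (2 * k + 2) ∧ a (2 * k + 3) = a (2 * k + 4) := by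
    intro k
    induction k with
    | zero => simp only [Nat.mul_zero, Nat.zero_add]; omega
    | succ k ih =>
      have h := tau k
      rw [show 2 * (k + 1) + 1 = 2 * k + 3 by omega, show 2 * (k + 1) + 2 = 2 * k + 4 by omega,
        show 2 * (k + 1) + 3 = 2 * k + 1 + 4 by omega, show 2 * (k + 1) + 4 = 2 * k + 2 + 4 by omega]
      refine ⟨ih.2, ?_⟩
      have := ih.1
      rcases sa (2 * k + 1) with c | c <;> rcases sa (2 * k + 1 + 4) with c1 | c1 <;>
        rcases sa (2 * k + 2 + 4) with c2 | c2 <;> omega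
  refine (C.sys.a_not_per (n := 4) (by omega)).1 ?_
  funext i
  show a (i + 4) = a i
  rcases Nat.eq_zero_or_pos i with rfl | hi
  · simp only [Nat.zero_add]; omega
  · obtain ⟨k, hk⟩ : ∃ k, i = 2 * k + 1 ∨ i = 2 * k + 2 := ⟨(i - 1) / 2, by omega⟩
    have h := tau k
    have h1 := (same k).1
    have h2 := (same (k + 2)).1
    rw [show 2 * (k + 2) + 1 = 2 * k + 1 + 4 by omega,
      show 2 * (k + 2) + 2 = 2 * k + 2 + 4 by omega] at h2
    rcases hk with rfl | rfl <;> omega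

lemma phi2_FCoreA (z : ℕ → ℤ) (u : ℕ) : phi (phi z) (4 * u) = z u ∧ phi (phi z) (4 * u + 1) = - z u ∧
    phi (phi z) (4 * u + 2) = - z u ∧ phi (phi z) (4 * u + 3) = z u := by
  refine ⟨?_, ?_, ?_, ?_⟩
  · rw [show 4 * u = 2 * (2 * u) by omega, phi_even, phi_even]
  · rw [show 4 * u + 1 = 2 * (2 * u) + 1 by omega, phi_odd, phi_even]
  · rw [show 4 * u + 2 = 2 * (2 * u + 1) by omega, phi_even, phi_odd]
  · rw [show 4 * u + 3 = 2 * (2 * u + 1) + 1 by omega, phi_odd, phi_odd, neg_neg]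

theorem Core.c26 {a V W : ℕ → ℤ} {S : (ℕ → ℤ) → Prop} {μ : (ℕ → ℤ) → ℕ} {p d : ℕ}
    (C : Core a V W S μ 2 6 p d) : False := by
  have a0 := C.a0; have a1 := C.a1; have a2 := C.a2; have a3 := C.a3
  have a6 : a 6 = 1 := C.lt.2.2
  have a5 : a 5 = 1 := by
    have h5 := C.lt.1 5 (by omega)
    have h6 := C.lt.2.1
    have v1 := vw_odd_FCoreA V 1
    have v2 := vw_even_FCoreA V 1
    simp only [Nat.mul_one, Nat.reduceAdd] at v1 v2
    omega
  have sa := C.sys.sa
  have tau := C.tau_FCoreA (r := 2) rfl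
  have per : ∀ t, (a (6 * t + 1) = -1 ∧ a (6 * t + 2) = -1) ∧
      (a (6 * t + 5) = 1 ∧ a (6 * t + 6) = 1) := by
    intro t
    induction t with
    | zero => simp only [Nat.mul_zero, Nat.zero_add]; omega
    | succ t ih =>
      have h1 := tau (3 * t)
      have h2 := tau (3 * t + 2)
      rw [show 2 * (3 * t) + 1 + 6 = 6 * (t + 1) + 1 by omega,
        show 2 * (3 * t) + 2 + 6 = 6 * (t + 1) + 2 by omega,
        show 2 * (3 * t) + 1 = 6 * t + 1 by omega, show 2 * (3 * t) + 2 = 6 * t + 2 by omega] at h1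
      rw [show 2 * (3 * t + 2) + 1 + 6 = 6 * (t + 1) + 5 by omega,
        show 2 * (3 * t + 2) + 2 + 6 = 6 * (t + 1) + 6 by omega,
        show 2 * (3 * t + 2) + 1 = 6 * t + 5 by omega,
        show 2 * (3 * t + 2) + 2 = 6 * t + 6 by omega] at h2
      obtain ⟨⟨i1, i2⟩, i3, i4⟩ := ih
      constructor
      · rcases sa (6 * (t + 1) + 1) with c | c <;> rcases sa (6 * (t + 1) + 2) with c1 | c1 <;>
          omega
      · rcases sa (6 * (t + 1) + 5) with c | c <;> rcases sa (6 * (t + 1) + 6) with c1 | c1 <;>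
          omega
  obtain ⟨N, z, hz, hy⟩ := C.t2
  have key : ∀ t u, 6 * t + 1 = 4 * u + 1 + N → False := by
    intro t u h
    have y1 := hy (4 * (u + 2))
    have y2 := hy (4 * (u + 2) + 3)
    rw [(phi2_FCoreA z (u + 2)).1, show 4 * (u + 2) + N = 6 * (t + 1) + 2 by omega] at y1
    rw [(phi2_FCoreA z (u + 2)).2.2.2, show 4 * (u + 2) + 3 + N = 6 * (t + 1) + 5 by omega] at y2
    have := per (t + 1)
    omega
  obtain ⟨u, hu⟩ : ∃ u, 6 * N + 1 = 4 * u + N ∨ 6 * N + 1 = 4 * u + 1 + N ∨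
      6 * N + 1 = 4 * u + 2 + N ∨ 6 * N + 1 = 4 * u + 3 + N := ⟨(5 * N + 1) / 4, by omega⟩
  have hN := (per N).1
  rcases hu with h | h | h | h
  · have y1 := hy (4 * u)
    have y2 := hy (4 * u + 1)
    rw [(phi2_FCoreA z u).1, ← h] at y1
    rw [(phi2_FCoreA z u).2.1, show 4 * u + 1 + N = 6 * N + 2 by omega] at y2
    omega
  · exact key N u h
  · have y1 := hy (4 * u + 2)
    have y2 := hy (4 * u + 3)
    rw [(phi2_FCoreA z u).2.2.1, ← h] at y1
    rw [(phi2_FCoreA z u).2.2.2, show 4 * u + 3 + N = 6 * N + 2 by omega] at y2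
    omega
  · exact key (N + 1) (u + 2) (by omega)

end Pool.Agent.KExp

end

-- part MP_bd9604_nt.Inf.FCoreB
section

/-! Core cases `m = 2, j = 5`, `m = 3` and `m >= 5`. Notation: b i = a (2 i), s = a (2 p) = a (2 p + 1),
p >= 2 (C.p2), a (2 k + 1) = - b k for k < p. C.eq' : a (i + j) - a i = ow m W i + vw m V (i + j).

m = 2, j = 5: V 0 = 1, V 1 = -1, a = + - - + - + + (C.lt, C.a56), b = + - - +, p >= 3.
B i = a i + ... + a (i+4), B 0 = -1; by induction B (2 k + 1) = V (k + 1), B (2 k + 2) = W k, all signs.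
V (k+1) = - b k for k <= p - 3, b (p-2) = s, V (p-1) = s. If s = 1, nrm V 1 = - sh V 1 has
LtAt (nrm V 1) b (p - 2), against C.KV. Let s = -1. W k = b (k + 3) for k <= p - 3, a (2 p + 2) = 1,
W (p-2) = -1, W 0 = b 3 = 1; b (p-2) = b p = -1 so p >= 4 and p != 5; C.neg_lt gives p >= 5 (tm e = -1,
b e = 1 forces e >= 4). No suffix of V, W is below tm (C.Kneg), in particular a triple of -1 after a
1 is impossible (cube, cube_lt). If b (p-1) = -1: W = -1 at p-5, p-4, p-3 (p > 5): false.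
If b (p-1) = 1: W (p-1) = B (2 p) = 1 (else triple), so a (2 p + 3) = a (2 p + 4) = 1, V p = B (2 p - 1) = -1,
V (p-1) = -1, V 0 = 1, so V (p-2) = 1, b (p-3) = -1, p >= 7, W (p-6) = W (p-5) = -1, so W (p-7) = 1
(triple W (p-7..p-5), with W 0 = 1), and nrm W (p-7) = + - - + - - is below tm at place 5: false.
m = 3, j = 3: B i = a i + a (i+1) + a (i+2); B 0 = B 1 = -1, B (2 k + 2) = V k, B (2 k + 3) = W k; no three
equal consecutive digits in a (from place 0). V k = b (k + 2) for k + 2 <= p, b (p-1) = s (from B (2 p - 1)),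
a (2 p + 2) = - s, V (p-1) = s. If s = -1: C.neg_lt gives e with 2 <= e <= p - 2, V (e-2) = 1, and V = -1 at
p-3, p-2, p-1: cube. If s = 1: p >= 3 (b 1 = -1), b 2 = 1 or (b 2 = -1 and b 3 = 1, C.a56), so a word
starting + - - - is LtAt b at place 2 or 3 <= p; V = 1 at p-3, p-2, p-1, so by cube and C.KV V k = 1
for k <= p - 1, so b 2 = b 3 = 1. With C.tV, y = nrm V N starts + - and y 3 = - y 2, so LtAt y b 2 or
LtAt y b 3, against C.KV.
m >= 5, j = 3: a (i + 3) = a i for i <= 2, so a 4 = a 5 = -1 against C.a56. -/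

namespace Pool.Agent.KExp

lemma B25_FCoreB {a V W : ℕ → ℤ} {S : (ℕ → ℤ) → Prop} {μ : (ℕ → ℤ) → ℕ} {p d : ℕ}
    (C : Core a V W S μ 2 5 p d) (h4 : a 4 = -1) (k : ℕ) :
    a (2 * k + 1) + a (2 * k + 2) + a (2 * k + 3) + a (2 * k + 4) + a (2 * k + 5) = V (k + 1) ∧
    a (2 * k + 2) + a (2 * k + 3) + a (2 * k + 4) + a (2 * k + 5) + a (2 * k + 6) = W k := by
  have a0 := C.a0; have a1 := C.a1; have a2 := C.a2; have a3 := C.a3
  have odd : ∀ k, a (2 * k + 6) - a (2 * k + 1) = W k - V (k + 1) := fun k => by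
    have e := C.eq' (2 * k + 1)
    rw [ow, if_neg (by omega), vw, if_neg (by omega), if_neg (by omega),
      show 2 * k + 1 + 1 - 2 = 2 * k by omega,
      show 2 * k + 1 + 5 - 2 - 1 = 2 * (k + 1) + 1 by omega, phi_even, phi_odd] at e
    rw [show 2 * k + 6 = 2 * k + 1 + 5 by ring]; omega
  have even : ∀ k, a (2 * k + 7) - a (2 * k + 2) = V (k + 2) - W k := fun k => by
    have e := C.eq' (2 * k + 2)
    rw [ow, if_neg (by omega), vw, if_neg (by omega), if_neg (by omega),
      show 2 * k + 2 + 1 - 2 = 2 * k + 1 by omega,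
      show 2 * k + 2 + 5 - 2 - 1 = 2 * (k + 2) by omega, phi_even, phi_odd] at e
    rw [show 2 * k + 7 = 2 * k + 2 + 5 by ring]; omega
  have first : ∀ k, a (2 * k + 1) + a (2 * k + 2) + a (2 * k + 3) + a (2 * k + 4) + a (2 * k + 5)
      = V (k + 1) := by
    intro k
    induction k with
    | zero =>
      have e := C.eq' 0
      rw [ow, if_pos (by omega), vw, if_neg (by omega), if_neg (by omega),
        show 0 + 5 - 2 - 1 = 2 * 1 by omega, phi_even] at e
      norm_num at e ⊢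
      omega
    | succ k ih =>
      have e1 := odd k
      have e2 := even k
      rw [show 2 * (k + 1) + 1 = 2 * k + 3 by ring, show 2 * (k + 1) + 2 = 2 * k + 4 by ring,
        show 2 * (k + 1) + 3 = 2 * k + 5 by ring, show 2 * (k + 1) + 4 = 2 * k + 6 by ring,
        show 2 * (k + 1) + 5 = 2 * k + 7 by ring, show k + 1 + 1 = k + 2 by ring]
      omega
  have e1 := first k
  have e2 := odd k
  exact ⟨e1, by omega⟩

theorem Core.c25 {a V W : ℕ → ℤ} {S : (ℕ → ℤ) → Prop} {μ : (ℕ → ℤ) → ℕ} {p d : ℕ}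
    (C : Core a V W S μ 2 5 p d) : False := by
  have a0 := C.a0; have a1 := C.a1; have a2 := C.a2; have a3 := C.a3
  have sa := C.sys.sa
  obtain ⟨t0, t1, t2, t3, t4, t5, t6, t7⟩ := tm_first
  obtain ⟨l1, l2, l3⟩ := C.lt
  have b3 := l1 3 (by omega)
  have b4 := l1 4 (by omega)
  simp only [vw, OfNat.ofNat_ne_zero, ↓ reduceIte, Nat.reduceLeDiff, phi, Nat.reduceSub, tsub_self, Nat.zero_mod, Nat.zero_div, Nat.add_one_sub_one, Nat.mod_succ, one_ne_zero, Nat.reduceDiv, Nat.mod_self, Order.lt_two_iff, zero_le, Nat.div_self, Int.reduceNeg] at b3 b4 l2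
  have V0 : V 0 = 1 := by omega
  have a4 : a 4 = -1 := by omega
  obtain ⟨a5, a6⟩ := C.a56 a4
  have p3 : 3 ≤ p := by
    have := C.p2
    have hb := C.brk
    by_contra hc
    have : p = 2 := by omega
    subst this
    norm_num at hb
    omega
  have B := B25_FCoreB C a4
  have pre1 : ∀ k, k + 1 < p → a (2 * k + 3) = - a (2 * k + 2) := fun k hk => C.pre (k + 1) hk
  have pre2 : ∀ k, k + 2 < p → a (2 * k + 5) = - a (2 * k + 4) := fun k hk => C.pre (k + 2) hk
  have hV : ∀ k, k + 2 < p → V (k + 1) = - a (2 * k) := fun k hk => by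
    have := (B k).1
    have := C.pre k (by omega)
    have := pre1 k (by omega)
    have := pre2 k hk
    omega
  have hW : ∀ k, k + 2 < p → W k = a (2 * k + 6) := fun k hk => by
    have := (B k).2
    have := pre1 k (by omega)
    have := pre2 k hk
    omega
  obtain ⟨r, rfl⟩ : ∃ r, p = r + 2 := ⟨p - 2, by omega⟩
  have brk : a (2 * r + 5) = a (2 * r + 4) := C.brk
  have q0 := C.pre r (by omega)
  have q1 := pre1 r (by omega)
  obtain ⟨Br1, Br2⟩ := B r
  have hs : a (2 * r) = a (2 * r + 4) ∧ V (r + 1) = a (2 * r + 4) := by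
    rcases sa (2 * r) with c | c <;> rcases sa (2 * r + 4) with c' | c' <;>
      rcases C.sv (r + 1) with c'' | c'' <;> omega
  obtain ⟨hs1, hs2⟩ := hs
  rcases sa (2 * r + 4) with s1 | s1
  · refine C.KV 1 r (by omega) ⟨fun i hi => ?_, ?_, ?_⟩
    · simp only [nrm, l2, hV i (by omega)]; ring
    · simp only [nrm, l2, hs2, s1]; ring
    · show a (2 * r) = 1
      omega
  have Kn := C.Kneg (show a (2 * (r + 2)) = -1 from s1)
  have cV : ∀ k, 0 < k → V k = -1 → V (k + 1) = -1 → V (k + 2) = -1 → False :=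
    fun k hk c0 c1 c2 => by
      obtain ⟨t, ht⟩ := cube C.sv hk (by omega) (by omega) (by omega)
      exact (Kn t 3).1 (cube_lt ht)
  have W0 : W 0 = 1 := by
    have := hW 0 (by omega)
    norm_num at this
    omega
  have cW : ∀ k, 0 < k → W k = -1 → W (k + 1) = -1 → W (k + 2) = -1 → False :=
    fun k hk c0 c1 c2 => by
      obtain ⟨t, ht⟩ := cube C.sw hk (by omega) (by omega) (by omega)
      exact (Kn t 3).2 (cube_lt ht)
  have hq : a (2 * r + 6) = 1 ∧ W r = -1 := by
    rcases sa (2 * r + 6) with c | c <;> rcases C.sw r with c' | c' <;> omega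
  obtain ⟨hq1, hq2⟩ := hq
  have r3 : 4 ≤ r := by
    obtain ⟨e, he, -, h2, h3⟩ := C.neg_lt (show a (2 * (r + 2)) = -1 from s1)
    have e0 : e ≠ 0 := by rintro rfl; omega
    have e1 : e ≠ 1 := by rintro rfl; norm_num at h3; omega
    have e2 : e ≠ 2 := by rintro rfl; norm_num at h3; omega
    have e3 : e ≠ 3 := by rintro rfl; omega
    have r3 : r ≠ 3 := by rintro rfl; norm_num at hs1 s1; omega
    omega
  obtain ⟨u, rfl⟩ : ∃ u, r = u + 4 := ⟨r - 4, by omega⟩
  have w1 : W (u + 1) = a (2 * (u + 4)) := hW (u + 1) (by omega)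
  have w2 : W (u + 2) = a (2 * (u + 4) + 2) := hW (u + 2) (by omega)
  have w3 : W (u + 3) = a (2 * (u + 4) + 4) := hW (u + 3) (by omega)
  rcases sa (2 * (u + 4) + 2) with c | c
  swap
  · exact cW (u + 1) (by omega) (by omega) (show W (u + 2) = -1 by omega)
      (show W (u + 3) = -1 by omega)
  have w5 : W (u + 5) = 1 := by
    rcases C.sw (u + 5) with c' | c'
    · exact c'
    · exact (cW (u + 3) (by omega) (by omega) (show W (u + 4) = -1 from hq2) c').elim
  have Bn1 : a (2 * (u + 4) + 3) + a (2 * (u + 4) + 4) + a (2 * (u + 4) + 5) + a (2 * (u + 4) + 6)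
      + a (2 * (u + 4) + 7) = V (u + 6) := (B (u + 5)).1
  have Bn2 : a (2 * (u + 4) + 4) + a (2 * (u + 4) + 5) + a (2 * (u + 4) + 6) + a (2 * (u + 4) + 7)
      + a (2 * (u + 4) + 8) = W (u + 5) := (B (u + 5)).2
  have v6 : V (u + 6) = -1 := by
    rcases sa (2 * (u + 4) + 7) with c1 | c1 <;> rcases sa (2 * (u + 4) + 8) with c2 | c2 <;> omega
  have v4 : V (u + 4) = 1 := by
    rcases C.sv (u + 4) with c' | c'
    · exact c'
    · exact (cV (u + 4) (by omega) c' (by omega) v6).elim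
  have v4' : V (u + 4) = - a (2 * (u + 3)) := hV (u + 3) (by omega)
  have w0 : W u = a (2 * (u + 3)) := hW u (by omega)
  have u0 : u ≠ 0 := by rintro rfl; omega
  obtain ⟨x, rfl⟩ : ∃ x, u = x + 1 := ⟨u - 1, by omega⟩
  have wx : W x = 1 := by
    rcases C.sw x with c' | c'
    · exact c'
    · have x0 : x ≠ 0 := by rintro rfl; omega
      exact (cW x (by omega) c' (by omega) (show W (x + 1 + 1) = -1 by omega)).elim
  have y1 : W (1 + x) = -1 := by rw [Nat.add_comm]; omega
  have y2 : W (2 + x) = -1 := by rw [show 2 + x = x + 1 + 1 by ring]; omega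
  have y3 : W (3 + x) = 1 := by rw [show 3 + x = x + 1 + 2 by ring]; omega
  have y4 : W (4 + x) = -1 := by rw [show 4 + x = x + 1 + 3 by ring]; omega
  have y5 : W (5 + x) = -1 := by rw [show 5 + x = x + 1 + 4 by ring]; omega
  refine (Kn x 5).2 ⟨fun i hi => ?_, ?_, t5⟩
  · interval_cases i <;> simp [nrm, wx, y1, y2, y3, y4, t0, t1, t2, t3, t4]
  · simp [nrm, wx, y5]

lemma B33_FCoreB {a V W : ℕ → ℤ} {S : (ℕ → ℤ) → Prop} {μ : (ℕ → ℤ) → ℕ} {p d : ℕ}
    (C : Core a V W S μ 3 3 p d) (k : ℕ) :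
    a (2 * k + 2) + a (2 * k + 3) + a (2 * k + 4) = V k ∧
    a (2 * k + 3) + a (2 * k + 4) + a (2 * k + 5) = W k := by
  have a0 := C.a0; have a1 := C.a1; have a2 := C.a2; have a3 := C.a3
  have even : ∀ k, a (2 * k + 5) - a (2 * k + 2) = W k - V k := fun k => by
    have e := C.eq' (2 * k + 2)
    rw [ow, if_neg (by omega), vw, if_neg (by omega), if_neg (by omega),
      show 2 * k + 2 + 1 - 3 = 2 * k by omega,
      show 2 * k + 2 + 3 - 3 - 1 = 2 * k + 1 by omega, phi_even, phi_odd] at e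
    rw [show 2 * k + 5 = 2 * k + 2 + 3 by ring]; omega
  have odd : ∀ k, a (2 * k + 6) - a (2 * k + 3) = V (k + 1) - W k := fun k => by
    have e := C.eq' (2 * k + 3)
    rw [ow, if_neg (by omega), vw, if_neg (by omega), if_neg (by omega),
      show 2 * k + 3 + 1 - 3 = 2 * k + 1 by omega,
      show 2 * k + 3 + 3 - 3 - 1 = 2 * (k + 1) by omega, phi_even, phi_odd] at e
    rw [show 2 * k + 6 = 2 * k + 3 + 3 by ring]; omega
  have first : ∀ k, a (2 * k + 2) + a (2 * k + 3) + a (2 * k + 4) = V k := by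
    intro k
    induction k with
    | zero =>
      have e := C.eq' 1
      rw [ow, if_pos (by omega), vw, if_neg (by omega), if_neg (by omega),
        show 1 + 3 - 3 - 1 = 2 * 0 by omega, phi_even] at e
      norm_num at e ⊢
      omega
    | succ k ih =>
      have e1 := odd k
      have e2 := even k
      rw [show 2 * (k + 1) + 2 = 2 * k + 4 by ring,
        show 2 * (k + 1) + 3 = 2 * k + 5 by ring, show 2 * (k + 1) + 4 = 2 * k + 6 by ring]
      omega
  have e1 := first k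
  have e2 := even k
  exact ⟨e1, by omega⟩

theorem Core.c33 {a V W : ℕ → ℤ} {S : (ℕ → ℤ) → Prop} {μ : (ℕ → ℤ) → ℕ} {p d : ℕ}
    (C : Core a V W S μ 3 3 p d) : False := by
  have a0 := C.a0; have a1 := C.a1; have a2 := C.a2; have a3 := C.a3
  have sa := C.sys.sa
  obtain ⟨t0, t1, t2, t3, t4, t5, t6, t7⟩ := tm_first
  have B := B33_FCoreB C
  have p2 := C.p2
  have pre1 : ∀ k, k + 1 < p → a (2 * k + 3) = - a (2 * k + 2) := fun k hk => C.pre (k + 1) hk
  have hV : ∀ k, k + 1 < p → V k = a (2 * k + 4) := fun k hk => by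
    have := (B k).1
    have := pre1 k hk
    omega
  obtain ⟨r, rfl⟩ : ∃ r, p = r + 2 := ⟨p - 2, by omega⟩
  have brk : a (2 * r + 5) = a (2 * r + 4) := C.brk
  have q1 := pre1 r (by omega)
  have Br2 := (B r).2
  have Bn : a (2 * r + 4) + a (2 * r + 5) + a (2 * r + 6) = V (r + 1) := (B (r + 1)).1
  have hs1 : a (2 * r + 2) = a (2 * r + 4) := by
    rcases sa (2 * r + 2) with c | c <;> rcases sa (2 * r + 4) with c' | c' <;>
      rcases C.sw r with c'' | c'' <;> omega
  have hs2 : V (r + 1) = a (2 * r + 4) := by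
    rcases sa (2 * r + 6) with c | c <;> rcases sa (2 * r + 4) with c' | c' <;>
      rcases C.sv (r + 1) with c'' | c'' <;> omega
  have v1 := hV r (by omega)
  rcases sa (2 * r + 4) with s1 | s1
  · have r0 : r ≠ 0 := by rintro rfl; norm_num at hs1 s1; omega
    obtain ⟨u, rfl⟩ : ∃ u, r = u + 1 := ⟨r - 1, by omega⟩
    have v0 : V u = a (2 * (u + 1) + 2) := hV u (by omega)
    have low : ∀ t, ¬ (nrm V t 0 = 1 ∧ nrm V t 1 = -1 ∧ nrm V t 2 = -1 ∧ nrm V t 3 = -1) := by
      rintro t ⟨y0, y1, y2, y3⟩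
      rcases sa 4 with c | c
      · refine C.KV t 2 (by omega) ⟨fun i hi => ?_, y2, c⟩
        interval_cases i <;> norm_num <;> omega
      · refine C.KV t 3 (by omega) ⟨fun i hi => ?_, y3, (C.a56 c).2⟩
        interval_cases i <;> norm_num <;> omega
    have all : ∀ i, i ≤ u + 1 → V i = 1 := fun i hi => by
      rcases C.sv i with c | c
      · exact c
      · have i1 : i ≠ u := by rintro rfl; omega
        have i2 : i ≠ u + 1 := by rintro rfl; omega
        obtain ⟨t, ht⟩ := cube C.sv (show i < u by omega) (by omega) (by omega)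
          (show V (u + 1 + 1) = V u by omega)
        exact (low t ht).elim
    have b2 : a 4 = 1 := by
      have := hV 0 (by omega)
      have := all 0 (by omega)
      norm_num only [le_add_iff_nonneg_left, zero_le, add_lt_add_iff_right, ne_eq, Nat.add_eq_zero_iff, and_false, not_false_eq_true, not_and] at *
      omega
    have b3 : a 6 = 1 := by
      have h1 := hV 1 (by omega)
      have h2 := all 1 (by omega)
      norm_num at h1
      omega
    obtain ⟨N, z, hz, hN⟩ := C.tV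
    have n0 : V N = z 0 := by simpa [phi] using hN 0
    have n1 : V (1 + N) = - z 0 := by simpa [phi] using hN 1
    have n2 : V (2 + N) = z 1 := by simpa [phi] using hN 2
    have n3 : V (3 + N) = - z 1 := by simpa [phi] using hN 3
    have y0 : nrm V N 0 = 1 := C.sv.nrm_zero N
    have y1 : nrm V N 1 = -1 := by
      rcases hz 0 with c | c <;> simp [nrm, n0, n1, c]
    have y3 : nrm V N 3 = - nrm V N 2 := by simp [nrm, n2, n3]
    rcases C.sv.nrm N 2 with c | c
    · refine C.KV N 3 (by omega) ⟨fun i hi => ?_, by omega, b3⟩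
      interval_cases i <;> norm_num <;> omega
    · refine C.KV N 2 (by omega) ⟨fun i hi => ?_, c, b2⟩
      interval_cases i <;> norm_num <;> omega
  · obtain ⟨e, he, -, h2, h3⟩ := C.neg_lt (show a (2 * (r + 2)) = -1 from s1)
    have e0 : e ≠ 0 := by rintro rfl; omega
    have e1 : e ≠ 1 := by rintro rfl; norm_num at h3; omega
    have e2 : e ≠ r + 1 := by
      rintro rfl
      have : a (2 * r + 2) = 1 := h3
      omega
    obtain ⟨f, rfl⟩ : ∃ f, e = f + 2 := ⟨e - 2, by omega⟩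
    have vf : V f = 1 := by
      have h4 : a (2 * f + 4) = 1 := h3
      rw [hV f (by omega), h4]
    obtain ⟨u, rfl⟩ : ∃ u, r = u + 1 := ⟨r - 1, by omega⟩
    have v0 : V u = a (2 * (u + 1) + 2) := hV u (by omega)
    obtain ⟨t, ht⟩ := cube C.sv (show f < u by omega) (by omega) (by omega)
      (show V (u + 1 + 1) = V u by omega)
    exact (C.Kneg (show a (2 * (u + 1 + 2)) = -1 from s1) t 3).1 (cube_lt ht)

theorem Core.c53 {a V W : ℕ → ℤ} {S : (ℕ → ℤ) → Prop} {μ : (ℕ → ℤ) → ℕ} {m p d : ℕ}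
    (C : Core a V W S μ m 3 p d) (hm : 5 ≤ m) : False := by
  have a1 := C.a1; have a2 := C.a2
  have e1 := C.eq' 1
  have e2 := C.eq' 2
  rw [ow, if_pos (by omega), vw, if_neg (by omega), if_pos (by omega)] at e1 e2
  norm_num at e1 e2
  have := C.a56 (by omega)
  omega

end Pool.Agent.KExp

end
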