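import Pool.Agent.MP_bd9604_nt.Mg.Inf_FCoreB

-- part MP_bd9604_nt.Inf.FCoreC
section

/-! Core case `m = 4, j = 3`. Notation: b i = a (2 i), s = a (2 p) = a (2 p + 1),
a (2 k + 1) = - b k for k < p. C.eq' : a (i + 3) - a i = ow 4 W i + vw 4 V (i + 3).

B i = a i + a (i+1) + a (i+2); B 0 = B 1 = B 2 = -1, B (2 k + 3) = V k, B (2 k + 4) = W k (induction), so no
three equal consecutive digits in a. a 4 = a 1 = -1, a 5 = a 6 = 1 (C.a56), b = + - - +, p >= 3.
V k = - b (k+1) for k + 1 <= p - 2, b (p-1) = s, V (p-2) = s, W k = b (k + 3) for k + 3 <= p,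
a (2 p + 2) = - s, W (p-2) = s. p = 3 is impossible (b 2 = -1, b 3 = 1). So W = s at p-4, p-3, p-2 and W 0 = 1.
s = -1: cube, cube_lt, C.Kneg. s = 1: a word starting + - - - is LtAt b at 3 <= p, so (cube, C.KV, C.KW)
no triple follows an opposite digit in V or W (call this NT); W k = 1 for k <= p - 2, b = + - - +^(p-2) up
to place p. V 0 = V 1 = 1, V k = -1 for 2 <= k <= p - 3, V (p-2) = 1. By KV, KW a normalised suffix of V or W
starting + - - continues with p - 2 digits +; for p >= 5 this contradicts NT, so no such suffix.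
p >= 6: V = + + - - ...: nrm V 1 starts + - -: false. p = 5: V = + + - +, V 4 = -1 (else nrm V 2 starts + - -),
a = + - - + - + + - + - + + - (places 0..12), a 13 = B 11 = V 4 = -1. The word v2 = nrm (sh a 1) 3 =
- sh a 4 is in S, LtAt v2 a 6, and om a v2 6 3 = a 9 + a 13 - a 3 = -3 is not a sign (C.sys.node): false.
p = 4: a = + - - + - + + - + + - (places 0..10); v2 = - sh a 4 has LtAt v2 a 5, so for all i,
a (i+5) + a (i+9) - a i is a sign (N4). A normalised suffix of V starting + - - continues + + (KV) and then,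
shifting by 2 and using NT, it is r = (+ - - +)^oo for ever (y (i+2) = - y i from place 1);
then phi r = nrm (phi V) (2 k) is in S, starts + - - + - + + - + -, so LtAt (phi r) a 9, and
sh (phi r) 8 = phi r, against C.sys.not_per. So no normalised suffix of V starts + - -; V is not
eventually constant (C.tV), so V (k+1) = - V k for large k. Same for W. So B (i + 2) = - B i for
large i, all B signs; with N4 this is impossible on a window of 15 digits (a has the tail
(+ + - -)^oo, for which a (i+5) = a (i+9) != a i for some i). -/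

namespace Pool.Agent.KExp

lemma win_FCoreC {c V W : ℕ → ℤ} (hc : Sg c) (hV : Sg V) (hW : Sg W)
    (HV : ∀ t, c (2 * t) + c (2 * t + 1) + c (2 * t + 2) = V t)
    (HW : ∀ t, c (2 * t + 1) + c (2 * t + 2) + c (2 * t + 3) = W t)
    (aV : ∀ t, V (t + 1) = - V t) (aW : ∀ t, W (t + 1) = - W t)
    (N : Sg fun i => c (i + 5) + c (i + 9) - c i) : False := by
  have b : ∀ i, -1 ≤ c i ∧ c i ≤ 1 := fun i => by rcases hc i with h | h <;> omega
  have n4 := N 4; have n5 := N 5
  have v0 := HV 0; have v1 := HV 1; have v2 := HV 2; have v3 := HV 3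
  have v4 := HV 4; have v5 := HV 5; have v6 := HV 6; have v7 := HV 7
  have w0 := HW 0; have w1 := HW 1; have w2 := HW 2; have w3 := HW 3
  have w4 := HW 4; have w5 := HW 5; have w6 := HW 6; have w7 := HW 7
  have x0 := aV 0; have x1 := aV 1; have x2 := aV 2; have x3 := aV 3
  have x4 := aV 4; have x5 := aV 5; have x6 := aV 6
  have y0 := aW 0; have y1 := aW 1; have y2 := aW 2; have y3 := aW 3
  have y4 := aW 4; have y5 := aW 5; have y6 := aW 6
  have b0 := b 0; have b1 := b 1; have b2 := b 2; have b3 := b 3; have b4 := b 4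
  have b5 := b 5; have b6 := b 6; have b7 := b 7; have b8 := b 8; have b9 := b 9
  have b10 := b 10; have b11 := b 11; have b12 := b 12; have b13 := b 13; have b14 := b 14
  have b15 := b 15; have b16 := b 16; have b17 := b 17
  norm_num only [] at n4 n5 v0 v1 v2 v3 v4 v5 v6 v7 w0 w1 w2 w3 w4 w5 w6 w7
  norm_num at x0 x1 x2 x3 x4 x5 x6 y0 y1 y2 y3 y4 y5 y6
  rcases hV 0 with h | h <;> rcases hW 0 with h' | h' <;> omega

/-- no triple after an opposite digit -/
lemma nt_FCoreC {U b : ℕ → ℤ} {p : ℕ} (hU : Sg U) (hp : 3 ≤ p)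
    (hb : b 0 = 1 ∧ b 1 = -1 ∧ b 2 = -1 ∧ b 3 = 1)
    (K : ∀ k e, e ≤ p → ¬ LtAt (nrm U k) b e) {i k : ℕ} (hik : i < k) (h0 : U i = - U k)
    (h1 : U (k + 1) = U k) (h2 : U (k + 2) = U k) : False := by
  obtain ⟨t, t0, t1, t2, t3⟩ := cube hU hik h0 h1 h2
  refine K t 3 hp ⟨fun i hi => ?_, t3, hb.2.2.2⟩
  interval_cases i <;> omega

/-- continuation of a suffix starting with `+ - -` -/
lemma cont_FCoreC {U b : ℕ → ℤ} {p : ℕ} (hU : Sg U)
    (hb : b 0 = 1 ∧ b 1 = -1 ∧ b 2 = -1) (hb' : ∀ e, 3 ≤ e → e ≤ p → b e = 1)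
    (K : ∀ k e, e ≤ p → ¬ LtAt (nrm U k) b e) {k : ℕ}
    (h1 : U (k + 1) = - U k) (h2 : U (k + 2) = - U k) :
    ∀ e, 3 ≤ e → e ≤ p → U (k + e) = U k := by
  have hn : ∀ i, nrm U k i = U k * U (k + i) := fun i => by simp [nrm, Nat.add_comm]
  intro e
  induction e using Nat.strong_induction_on with
  | _ e ih =>
    intro h3 hp
    by_contra hc
    refine K k e hp ⟨fun i hi => ?_, ?_, hb' e h3 hp⟩
    · rw [hn]
      by_cases hi3 : 3 ≤ i
      · rw [ih i hi hi3 (by omega), hb' i hi3 (by omega)]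
        rcases hU k with h | h <;> simp [h]
      · have : i < 3 := by omega
        interval_cases i
        · rw [hb.1]; rcases hU k with h | h <;> simp [h]
        · rw [hb.2.1, h1]; rcases hU k with h | h <;> simp [h]
        · rw [hb.2.2, h2]; rcases hU k with h | h <;> simp [h]
    · rw [hn]
      rcases hU k with h | h <;> rcases hU (k + e) with h' | h' <;> simp_all

/-- alternating tail -/
lemma alt_FCoreC {U : ℕ → ℤ} (hU : Sg U) (hT : TP U)
    (h : ∀ k, U (k + 1) = - U k → U (k + 2) = - U k → False) :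
    ∃ N, ∀ k, N ≤ k → U (k + 1) = - U k := by
  obtain ⟨N, z, -, hz⟩ := hT
  refine ⟨N, fun k hk => ?_⟩
  induction k, hk using Nat.le_induction with
  | base =>
    have h0 := hz 0
    have h1 := hz 1
    simp [phi] at h0 h1
    rw [Nat.add_comm, h0, h1]
  | succ k _ ih =>
    have : U (k + 2) ≠ - U k := h k ih
    rw [show k + 1 + 1 = k + 2 by ring]
    rcases hU k with c | c <;> rcases hU (k + 2) with c' | c' <;> omega

/-- the case of period four -/
lemma four_FCoreC {a U : ℕ → ℤ} {S : (ℕ → ℤ) → Prop} {μ : (ℕ → ℤ) → ℕ} (F : FSys a S μ)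
    (hU : Sg U) (SU : S (phi U))
    (ha : a 0 = 1 ∧ a 1 = -1 ∧ a 2 = -1 ∧ a 3 = 1 ∧ a 4 = -1 ∧ a 5 = 1 ∧ a 6 = 1 ∧ a 7 = -1 ∧
      a 8 = 1 ∧ a 9 = 1)
    (c : ∀ k, U (k + 1) = - U k → U (k + 2) = - U k → U (k + 3) = U k ∧ U (k + 4) = U k)
    (k : ℕ) (h1 : U (k + 1) = - U k) (h2 : U (k + 2) = - U k) : False := by
  have P : ∀ t, U (k + 2 * t + 1) = - U (k + 2 * t) ∧ U (k + 2 * t + 2) = - U (k + 2 * t) := by
    intro t
    induction t with
    | zero => exact ⟨h1, h2⟩
    | succ t ih =>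
      have := c _ ih.1 ih.2
      rw [show k + 2 * (t + 1) + 1 = k + 2 * t + 3 by ring,
        show k + 2 * (t + 1) + 2 = k + 2 * t + 4 by ring,
        show k + 2 * (t + 1) = k + 2 * t + 2 by ring]
      omega
  have per : ∀ n, U (k + n + 4) = U (k + n) := by
    intro n
    obtain ⟨t, rfl | rfl⟩ := Nat.even_or_odd' n
    · exact (c _ (P t).1 (P t).2).2
    · have e1 := (P t).1
      have e2 := (c _ (P t).1 (P t).2).2
      have e3 := (P (t + 2)).1
      rw [show k + 2 * (t + 2) + 1 = k + (2 * t + 1) + 4 by ring,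
        show k + 2 * (t + 2) = k + 2 * t + 4 by ring] at e3
      rw [show k + (2 * t + 1) = k + 2 * t + 1 by ring] at *
      omega
  have ze : ∀ n, nrm (phi U) (2 * k) (2 * n) = U k * U (k + n) := fun n => by
    unfold nrm
    rw [show 2 * n + 2 * k = 2 * (k + n) by ring, phi_even, phi_even]
  have zo : ∀ n, nrm (phi U) (2 * k) (2 * n + 1) = - (U k * U (k + n)) := fun n => by
    unfold nrm
    rw [show 2 * n + 1 + 2 * k = 2 * (k + n) + 1 by ring, phi_even, phi_odd]; ring
  obtain ⟨h3, h4⟩ := c k h1 h2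
  have sq : U k * U k = 1 := by rcases hU k with h | h <;> simp [h]
  have e0 := ze 0; have e1 := ze 1; have e2 := ze 2; have e3 := ze 3; have e4 := ze 4
  have o0 := zo 0; have o1 := zo 1; have o2 := zo 2; have o3 := zo 3; have o4 := zo 4
  simp only [Nat.add_zero, h1, h2, h3, h4, mul_neg, sq, neg_neg] at e0 e1 e2 e3 e4 o0 o1 o2 o3 o4
  norm_num at e0 e1 e2 e3 e4 o0 o1 o2 o3 o4
  obtain ⟨a0, a1, a2, a3, a4, a5, a6, a7, a8, a9⟩ := ha
  have lt : LtAt (nrm (phi U) (2 * k)) a 9 := by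
    refine ⟨fun i hi => ?_, o4, a9⟩
    interval_cases i <;> omega
  refine (F.not_per (F.nrms SU (2 * k)).1 e0 lt (n := 8) (by omega)).1 ?_
  funext i
  obtain ⟨n, rfl | rfl⟩ := Nat.even_or_odd' i
  · unfold sh
    rw [show 2 * n + 8 = 2 * (n + 4) by ring, ze, ze, ← per n, Nat.add_assoc]
  · unfold sh
    rw [show 2 * n + 1 + 8 = 2 * (n + 4) + 1 by ring, zo, zo, ← per n, Nat.add_assoc]

theorem Core.c43 {a V W : ℕ → ℤ} {S : (ℕ → ℤ) → Prop} {μ : (ℕ → ℤ) → ℕ} {p d : ℕ}
    (C : Core a V W S μ 4 3 p d) : False := by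
  have a0 := C.a0; have a1 := C.a1; have a2 := C.a2; have a3 := C.a3
  have sa := C.sys.sa
  have a4 : a 4 = -1 := by have := C.eq' 1; simp [ow, vw] at this; omega
  obtain ⟨a5, a6⟩ := C.a56 a4
  have q1 : ∀ k, a (2 * k + 6) - a (2 * k + 3) = W k - V k := fun k => by
    have := C.eq' (2 * k + 3)
    simp only [ow, vw] at this
    rw [if_neg (by omega), if_neg (by omega), if_neg (by omega),
      show 2 * k + 3 + 1 - 4 = 2 * k by omega, show 2 * k + 3 + 3 - 4 - 1 = 2 * k + 1 by omega,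
      phi_even, phi_odd, show 2 * k + 3 + 3 = 2 * k + 6 by ring] at this
    omega
  have q2 : ∀ k, a (2 * k + 7) - a (2 * k + 4) = - W k + V (k + 1) := fun k => by
    have := C.eq' (2 * k + 4)
    simp only [ow, vw] at this
    rw [if_neg (by omega), if_neg (by omega), if_neg (by omega),
      show 2 * k + 4 + 1 - 4 = 2 * k + 1 by omega,
      show 2 * k + 4 + 3 - 4 - 1 = 2 * (k + 1) by omega, phi_even, phi_odd,
      show 2 * k + 4 + 3 = 2 * k + 7 by ring] at this
    omega
  have HV : ∀ k, a (2 * k + 3) + a (2 * k + 4) + a (2 * k + 5) = V k := by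
    intro k
    induction k with
    | zero => have := C.eq' 2; simp only [Nat.reduceAdd, ow, Nat.lt_add_one, ↓ reduceIte, vw, OfNat.ofNat_ne_zero, Nat.reduceLeDiff, phi, Nat.reduceSub, tsub_self, Nat.zero_mod, Nat.zero_div, mul_zero, zero_add] at this ⊢; omega
    | succ k ih =>
      have := q1 k; have := q2 k
      rw [show 2 * (k + 1) + 3 = 2 * k + 5 by ring, show 2 * (k + 1) + 4 = 2 * k + 6 by ring,
        show 2 * (k + 1) + 5 = 2 * k + 7 by ring]
      omega
  have HW : ∀ k, a (2 * k + 4) + a (2 * k + 5) + a (2 * k + 6) = W k := fun k => by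
    have := q1 k; have := HV k; omega
  have brk := C.brk
  have p4 : 4 ≤ p := by
    have p2 := C.p2
    by_contra hc
    have h1 := HV 1
    have := C.sv 1
    interval_cases p <;> norm_num at brk h1 <;> omega
  obtain ⟨q, rfl⟩ : ∃ q, p = q + 4 := ⟨p - 4, by omega⟩
  have eV : ∀ k, k ≤ q + 1 → V k = - a (2 * (k + 1)) := fun k hk => by
    have h0 := HV k
    have h1 := C.pre (k + 1) (by omega)
    have h2 := C.pre (k + 2) (by omega)
    rw [show 2 * (k + 1) + 1 = 2 * k + 3 by ring] at h1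
    rw [show 2 * (k + 2) + 1 = 2 * k + 5 by ring, show 2 * (k + 2) = 2 * k + 4 by ring] at h2
    omega
  have eW : ∀ k, k ≤ q + 1 → W k = a (2 * (k + 3)) := fun k hk => by
    have h0 := HW k
    have h2 := C.pre (k + 2) (by omega)
    rw [show 2 * (k + 2) + 1 = 2 * k + 5 by ring, show 2 * (k + 2) = 2 * k + 4 by ring] at h2
    rw [show 2 * (k + 3) = 2 * k + 6 by ring]
    omega
  have hs : a (2 * (q + 3)) = a (2 * (q + 4)) ∧ V (q + 2) = a (2 * (q + 4)) := by
    have h0 := HV (q + 2)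
    have h1 := C.pre (q + 3) (by omega)
    rw [show 2 * (q + 2) + 3 = 2 * (q + 3) + 1 by ring, show 2 * (q + 2) + 4 = 2 * (q + 4) by ring,
      show 2 * (q + 2) + 5 = 2 * (q + 4) + 1 by ring] at h0
    rcases sa (2 * (q + 3)) with c | c <;> rcases sa (2 * (q + 4)) with c' | c' <;>
      rcases C.sv (q + 2) with c'' | c'' <;> omega
  have hs' : a (2 * (q + 4) + 2) = - a (2 * (q + 4)) ∧ W (q + 2) = a (2 * (q + 4)) := by
    have h0 := HW (q + 2)
    rw [show 2 * (q + 2) + 4 = 2 * (q + 4) by ring, show 2 * (q + 2) + 5 = 2 * (q + 4) + 1 by ring,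
      show 2 * (q + 2) + 6 = 2 * (q + 4) + 2 by ring] at h0
    rcases sa (2 * (q + 4) + 2) with c | c <;> rcases sa (2 * (q + 4)) with c' | c' <;>
      rcases C.sw (q + 2) with c'' | c'' <;> omega
  have w0 : W 0 = 1 := by rw [eW 0 (by omega)]; exact a6
  have wq : W q = a (2 * (q + 4)) := by rw [eW q (by omega), hs.1]
  have wq1 : W (q + 1) = a (2 * (q + 4)) := eW (q + 1) le_rfl
  rcases sa (2 * (q + 4)) with s | s
  swap
  · have hq : 0 < q := by
      rcases Nat.eq_zero_or_pos q with h | h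
      · rw [h] at wq s; omega
      · exact h
    obtain ⟨t, ht⟩ := cube C.sw hq (by omega) (by omega) (by omega)
    exact (C.Kneg s t 3).2 (cube_lt ht)
  have hb : (fun i => a (2 * i)) 0 = 1 ∧ (fun i => a (2 * i)) 1 = -1 ∧
      (fun i => a (2 * i)) 2 = -1 ∧ (fun i => a (2 * i)) 3 = 1 := ⟨a0, a2, a4, a6⟩
  have w1 : ∀ k, k ≤ q + 1 → W k = 1 := fun k hk => by
    rcases C.sw k with c | c
    · exact c
    · have hk' : k < q := by
        by_contra hc
        have : k = q ∨ k = q + 1 := by omega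
        rcases this with rfl | rfl <;> omega
      exact (nt_FCoreC C.sw (by omega) hb C.KW hk' (by omega) (by omega) (by omega)).elim
  have hb' : ∀ e, 3 ≤ e → e ≤ q + 4 → (fun i => a (2 * i)) e = 1 := fun e h1 h2 => by
    obtain ⟨k, rfl⟩ : ∃ k, e = k + 3 := ⟨e - 3, by omega⟩
    have := eW k (by omega)
    have := w1 k (by omega)
    show a (2 * (k + 3)) = 1
    omega
  have hb3 : (fun i => a (2 * i)) 0 = 1 ∧ (fun i => a (2 * i)) 1 = -1 ∧
      (fun i => a (2 * i)) 2 = -1 := ⟨a0, a2, a4⟩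
  have cV := fun k => cont_FCoreC C.sv hb3 hb' C.KV (k := k)
  have cW := fun k => cont_FCoreC C.sw hb3 hb' C.KW (k := k)
  have v1 : V 1 = 1 := by have := eV 1 (by omega); norm_num at this; omega
  have a7 : a 7 = -1 := by have := C.pre 3 (by omega); norm_num at this; omega
  have a8 : a 8 = 1 := hb' 4 (by omega) (by omega)
  have S2 := (C.sys.nrms C.sys.root 3).1
  have e2 : ∀ i, nrm (sh a 1) 3 i = - a (i + 4) := fun i => by
    simp [nrm, sh, a4, Nat.add_assoc]
  have z2 : nrm (sh a 1) 3 0 = 1 := by rw [e2]; simp [a4]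
  by_cases hq : q = 0
  · subst hq
    norm_num at brk hs'
    have lt : LtAt (nrm (sh a 1) 3) a 5 := by
      refine ⟨fun i hi => ?_, by rw [e2]; norm_num; omega, a5⟩
      rw [e2]; interval_cases i <;> norm_num <;> omega
    have N4 := (C.sys.node _ 5 S2 z2 lt).1
    have ha : a 0 = 1 ∧ a 1 = -1 ∧ a 2 = -1 ∧ a 3 = 1 ∧ a 4 = -1 ∧ a 5 = 1 ∧ a 6 = 1 ∧
        a 7 = -1 ∧ a 8 = 1 ∧ a 9 = 1 := ⟨a0, a1, a2, a3, a4, a5, a6, a7, a8, by omega⟩
    obtain ⟨N1, h1⟩ := alt_FCoreC C.sv C.tV (four_FCoreC C.sys C.sv C.SV ha fun k x y =>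
      ⟨cV k x y 3 (by omega) (by omega), cV k x y 4 (by omega) (by omega)⟩)
    obtain ⟨N2, h2⟩ := alt_FCoreC C.sw C.tW (four_FCoreC C.sys C.sw C.SW ha fun k x y =>
      ⟨cW k x y 3 (by omega) (by omega), cW k x y 4 (by omega) (by omega)⟩)
    refine win_FCoreC (c := fun i => a (i + (2 * (N1 + N2) + 3))) (V := fun t => V (t + (N1 + N2)))
      (W := fun t => W (t + (N1 + N2))) (sa.shift _) (C.sv.shift _) (C.sw.shift _)
      (fun t => ?_) (fun t => ?_) (fun t => ?_) (fun t => ?_) (fun i => ?_)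
    · rw [← HV (t + (N1 + N2))]; congr 2 <;> [congr 1; skip; skip] <;> ring_nf
    · rw [← HW (t + (N1 + N2))]; congr 2 <;> [congr 1; skip; skip] <;> ring_nf
    · have := h1 (t + (N1 + N2)) (by omega)
      rwa [show t + (N1 + N2) + 1 = t + 1 + (N1 + N2) by ring] at this
    · have := h2 (t + (N1 + N2)) (by omega)
      rwa [show t + (N1 + N2) + 1 = t + 1 + (N1 + N2) by ring] at this
    · have := N4 (i + (2 * (N1 + N2) + 3))
      simp only [om, e2] at this
      rw [show i + (2 * (N1 + N2) + 3) + 5 + 4 = i + 9 + (2 * (N1 + N2) + 3) by ring,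
        show i + (2 * (N1 + N2) + 3) + 5 = i + 5 + (2 * (N1 + N2) + 3) by ring] at this
      simpa only [Int.reduceNeg, sub_neg_eq_add] using this
  have no : ∀ k, V (k + 1) = - V k → V (k + 2) = - V k → False := fun k x y => by
    have c3 := cV k x y 3 (by omega) (by omega)
    have c4 := cV k x y 4 (by omega) (by omega)
    have c5 := cV k x y 5 (by omega) (by omega)
    exact nt_FCoreC C.sv (by omega) hb C.KV (i := k + 1) (k := k + 3) (by omega) (by omega)
      (by rw [c3]; exact c4) (by rw [c3]; exact c5)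
  have v2 : V 2 = -1 := by have := eV 2 (by omega); norm_num at this; omega
  by_cases hq1 : q = 1
  · subst hq1
    norm_num at brk hs hs' s
    have a9 : a 9 = -1 := by have := C.pre 4 (by omega); norm_num at this; omega
    have v4 : V 4 = -1 := by
      rcases C.sv 4 with c | c
      · exact (no 2 (by norm_num; omega) (by norm_num; omega)).elim
      · exact c
    have a13 : a 13 = -1 := by have := HV 4; norm_num at this; omega
    have lt : LtAt (nrm (sh a 1) 3) a 6 := by
      refine ⟨fun i hi => ?_, by rw [e2]; norm_num; omega, a6⟩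
      rw [e2]; interval_cases i <;> norm_num <;> omega
    have N4 := (C.sys.node _ 6 S2 z2 lt).1 3
    simp only [om, e2] at N4
    norm_num at N4
    omega
  · have v3 : V 3 = -1 := by
      have := eV 3 (by omega)
      have h8 := hb' 4 (by omega) (by omega)
      norm_num at this h8; omega
    exact no 1 (by norm_num; omega) (by norm_num; omega)

end Pool.Agent.KExp

end

-- part MP_bd9604_nt.Inf.FT
section

/-! The formal theorem. -/

namespace Pool.Agent.KExp

lemma phi_sh (u : ℕ → ℤ) (k : ℕ) : phi (sh u k) = sh (phi u) (2 * k) := by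
  funext i
  obtain ⟨t, rfl | rfl⟩ := Nat.even_or_odd' i
  · rw [phi_even]; unfold sh; rw [show 2 * t + 2 * k = 2 * (t + k) by ring, phi_even]
  · rw [phi_odd]; unfold sh; rw [show 2 * t + 1 + 2 * k = 2 * (t + k) + 1 by ring, phi_odd]

lemma phi_neg' (u : ℕ → ℤ) : phi (fun i => - u i) = fun i => - phi u i := by
  funext i; unfold phi; split_ifs <;> rfl

lemma LtAt.phi {v a : ℕ → ℤ} {j : ℕ} (h : LtAt v a j) : LtAt (phi v) (phi a) (2 * j) := by
  refine ⟨fun i hi => ?_, by rw [phi_even, h.2.1], by rw [phi_even, h.2.2]⟩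
  obtain ⟨t, rfl | rfl⟩ := Nat.even_or_odd' i
  · rw [phi_even, phi_even, h.1 t (by omega)]
  · rw [phi_odd, phi_odd, h.1 t (by omega)]

lemma om_phi (a v : ℕ → ℤ) (j : ℕ) : om (phi a) (phi v) (2 * j) = phi (om a v j) := by
  funext i
  obtain ⟨t, rfl | rfl⟩ := Nat.even_or_odd' i
  · unfold om; rw [phi_even, show 2 * t + 2 * j = 2 * (t + j) by ring, phi_even, phi_even, phi_even]
  · unfold om
    rw [phi_odd, show 2 * t + 1 + 2 * j = 2 * (t + j) + 1 by ring, phi_odd, phi_odd, phi_odd]; ring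

lemma Sg.of_phi {u : ℕ → ℤ} (h : Sg (KExp.phi u)) : Sg u := fun i => by
  have := h (2 * i); rwa [phi_even] at this

lemma FSys.renorm {a : ℕ → ℤ} {S : (ℕ → ℤ) → Prop} {μ : (ℕ → ℤ) → ℕ} (F : FSys (phi a) S μ) :
    FSys a (fun u => S (phi u)) (fun u => μ (phi u)) where
  sa := F.sa.of_phi
  sg u h := (F.sg _ h).of_phi
  neg u h := by simp only [phi_neg']; exact F.neg _ h
  root := by
    have := (F.shift _ F.root).1
    rw [sh_sh] at this
    simp only [phi_sh]; exact this
  shift u h := by simp only [phi_sh]; exact F.shifts h _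
  nota := F.nota
  node v j h h0 hj := by
    obtain ⟨n1, n2, n3, n4⟩ := F.node (phi v) (2 * j) h (by rw [← h0, ← phi_even v 0]) hj.phi
    rw [om_phi] at n1 n2 n3
    have s1 := F.shift _ n2
    have s2 := F.shift _ (F.shift _ h).1
    rw [sh_sh] at s1 s2
    simp only [phi_sh]
    exact ⟨n1.of_phi, s1.1, lt_of_le_of_lt s1.2 n3, lt_of_le_of_lt s2.2 n4⟩

theorem FT (d : ℕ) : ∀ {a : ℕ → ℤ} {S : (ℕ → ℤ) → Prop} {μ : (ℕ → ℤ) → ℕ}, FSys a S μ →
    LtAt tm a d → False := by
  induction d using Nat.strong_induction_on with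
  | _ d ih =>
  intro a S μ F hd
  by_cases hn : IsPhi a
  · have e : a = phi (fun i => a (2 * i)) := by
      funext i
      obtain ⟨t, rfl | rfl⟩ := Nat.even_or_odd' i
      · rw [phi_even]
      · rw [phi_odd, hn]
    have F' : FSys (phi (fun i => a (2 * i))) S μ := e ▸ F
    obtain ⟨h1, h2, h3⟩ := hd
    obtain ⟨t, rfl | rfl⟩ := Nat.even_or_odd' d
    · have t0 : t ≠ 0 := by rintro rfl; rw [tm_zero] at h2; omega
      refine ih t (by omega) F'.renorm ⟨fun i hi => ?_, by rw [← tm_even, h2], h3⟩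
      rw [← tm_even, h1 _ (by omega)]
    · have := hn t
      have := h1 (2 * t) (by omega)
      have := tm_even t
      have := tm_odd t
      omega
  · obtain ⟨V, W, m, j, p, C⟩ := F.exists_core hd hn
    rcases C.cases with ⟨rfl, rfl | rfl | rfl | rfl⟩ | ⟨hm, rfl⟩
    · exact C.c23
    · exact C.c24
    · exact C.c25
    · exact C.c26
    · rcases (by omega : m = 3 ∨ m = 4 ∨ 5 ≤ m) with rfl | rfl | h
      · exact C.c33
      · exact C.c43
      · exact C.c53 h

end Pool.Agent.KExp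

end
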