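import Pool.Agent.MP_bd9604_nt.Mg.Inf_ISound
import Pool.Agent.MP_bd9604_nt.Mg.Inf_ChkC

-- part MP_bd9604_nt.Inf.PartK3
section

/-! Soundness of the check at the Thue-Morse base.

famck_sound: induction on f with Cd.split, Cd.abs_le (environment e i = x).
twock_sound, formck_sound: environment e 0 = x, e i = v. In twock: v = ev x wa z1 = ev x wb z2 (unw_ev), SR.of_ev, code_of_nolow; E1 = P 3 hor ta + X 3 ^ |ta| sa z1
(Cd.cons, X 3 = x^8), v = hor wa + sa x^(n+e) (E1 - P 3 hor ta) (ev_lin, horR_ev), the same for wb; the polynomial identity gives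
sb x^n (E2 - kap) = sa x^(n+e) (E1 - kap); two_core with c = sa sb x^e, Cd.down.
In formck both branches of v lead to points of level two; form_core.
kck_sound: X1 / 2^S <= x, since otherwise kap x < kap a < g 6 a < R n a <= R n x for a = X1 / 2^S (kap_strict, g_lt_R', R_anti_x;
a <= 3/5 by qck_sound at a). Suppose kap has finitely
many expansions. By K_final it is enough to get Cd x 2 kap. If nothing reached from kap has |z| < g 3 use code_of_nolow and Cd.down. Else fin_ind gives v with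
|v| < g 3 <= kap, finitely many expansions and g 3 <= |z| for all z with SR x v z (SR.lt); replace v by |v|. By qck_sound for h2, |v| is in a gap of T.toG;
induction on T (a gap of the first kind: Gt.miss_sound, tck_sound). -/

namespace Pool.Agent.KExp

lemma famF_PartK3 {S : ℕ} {Q : Gt} {b m : ℕ} {iP iX B : Iv} {x : ℝ} (h0 : 0 < x) (h1 : x < 1)
    (hP : iP.mem S (P m x)) (hX : iX.mem S (X m x)) (hB : ∀ z, |z| ≤ R m x → B.mem S z) (f : ℕ) :
    ∀ (l0 l1 l2 : Iv) (a0 a1 a2 z z' : ℝ), famF S Q b iP iX B f l0 l1 l2 = true →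
      l0.mem S a0 → l1.mem S a1 → l2.mem S a2 → Cd x m z → Cd x m z' →
      |a0 + a1 * z + a2 * z'| ≤ (b : ℝ) / 2 ^ S ∧ ¬ Q.mem S |a0 + a1 * z + a2 * z'| := by
  induction f with
  | zero =>
    intro l0 l1 l2 a0 a1 a2 z z' h
    exact absurd (show false = true from h) (by simp)
  | succ f ih =>
    intro l0 l1 l2 a0 a1 a2 z z' h m0 m1 m2 hz hz'
    have h' : ((Iv.add l0 (Iv.add (Iv.mul S l1 B) (Iv.mul S l2 B))).out Q b ||
        (famF S Q b iP iX B f (Iv.add (Iv.add l0 (Iv.mul S l1 iP)) (Iv.mul S l2 iP))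
            (Iv.mul S l1 iX) (Iv.mul S l2 iX) &&
          famF S Q b iP iX B f (Iv.sub (Iv.add l0 (Iv.mul S l1 iP)) (Iv.mul S l2 iP))
            (Iv.mul S l1 iX) (Iv.mul S l2 iX) &&
          famF S Q b iP iX B f (Iv.add (Iv.sub l0 (Iv.mul S l1 iP)) (Iv.mul S l2 iP))
            (Iv.mul S l1 iX) (Iv.mul S l2 iX) &&
          famF S Q b iP iX B f (Iv.sub (Iv.sub l0 (Iv.mul S l1 iP)) (Iv.mul S l2 iP))
            (Iv.mul S l1 iX) (Iv.mul S l2 iX))) = true := h
    rw [Bool.or_eq_true] at h'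
    rcases h' with h' | h'
    · rw [add_assoc]
      exact Iv.out_sound (Iv.mem_add m0 (Iv.mem_add (Iv.mem_mul m1 (hB z (hz.abs_le h0 h1)))
        (Iv.mem_mul m2 (hB z' (hz'.abs_le h0 h1))))) h'
    · simp only [Bool.and_eq_true] at h'
      obtain ⟨⟨⟨k1, k2⟩, k3⟩, k4⟩ := h'
      obtain ⟨y, hy, e⟩ := hz.split h0 h1
      obtain ⟨y', hy', e'⟩ := hz'.split h0 h1
      have p1 := Iv.mem_mul m1 hP
      have p2 := Iv.mem_mul m2 hP
      have q1 := Iv.mem_mul m1 hX
      have q2 := Iv.mem_mul m2 hX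
      rcases e with e | e <;> rcases e' with e' | e'
      · have := ih _ _ _ _ _ _ _ _ k1 (Iv.mem_add (Iv.mem_add m0 p1) p2) q1 q2 hy hy'
        rwa [show a0 + a1 * z + a2 * z' = a0 + a1 * P m x + a2 * P m x + a1 * X m x * y +
          a2 * X m x * y' by rw [e, e']; ring]
      · have := ih _ _ _ _ _ _ _ _ k2 (Iv.mem_sub (Iv.mem_add m0 p1) p2) q1 q2 hy hy'
        rwa [show a0 + a1 * z + a2 * z' = a0 + a1 * P m x - a2 * P m x + a1 * X m x * y +
          a2 * X m x * y' by rw [e, e']; ring]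
      · have := ih _ _ _ _ _ _ _ _ k3 (Iv.mem_add (Iv.mem_sub m0 p1) p2) q1 q2 hy hy'
        rwa [show a0 + a1 * z + a2 * z' = a0 - a1 * P m x + a2 * P m x + a1 * X m x * y +
          a2 * X m x * y' by rw [e, e']; ring]
      · have := ih _ _ _ _ _ _ _ _ k4 (Iv.mem_sub (Iv.mem_sub m0 p1) p2) q1 q2 hy hy'
        rwa [show a0 + a1 * z + a2 * z' = a0 - a1 * P m x - a2 * P m x + a1 * X m x * y +
          a2 * X m x * y' by rw [e, e']; ring]

lemma env1_PartK3 {S : ℕ} {I : Iv} {x : ℝ} (hI : I.mem S x) :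
    ∀ i, (env2 I I i).mem S ((fun _ => x : ℕ → ℝ) i) := fun i => by
  cases i <;> exact hI

theorem famck_sound {S : ℕ} {I : Iv} {Q : Gt} {b f m : ℕ} {l0 l1 l2 : Ie}
    (h : famck S I Q b f m l0 l1 l2 = true) {x : ℝ} (h0 : 0 < x) (h1 : x < 1) (hI : I.mem S x)
    {z z' : ℝ} (hz : Cd x m z) (hz' : Cd x m z') :
    |l0.ev (fun _ => x) + l1.ev (fun _ => x) * z + l2.ev (fun _ => x) * z'| ≤ (b : ℝ) / 2 ^ S ∧
    ¬ Q.mem S |l0.ev (fun _ => x) + l1.ev (fun _ => x) * z + l2.ev (fun _ => x) * z'| := by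
  have hE := env1_PartK3 hI
  have h' : (((eR m).iv S (env2 I I)).ok &&
      famF S Q b ((eP m).iv S (env2 I I)) ((eX m).iv S (env2 I I))
        (Iv.ball ((eR m).iv S (env2 I I)).hi) f
        (l0.iv S (env2 I I)) (l1.iv S (env2 I I)) (l2.iv S (env2 I I))) = true := h
  rw [Bool.and_eq_true] at h'
  have hP := Ie.iv_sound hE (eP m)
  have hX := Ie.iv_sound hE (eX m)
  have hR := Ie.iv_sound hE (eR m)
  rw [eP_ev] at hP
  rw [eX_ev] at hX
  rw [eR_ev] at hR
  refine famF_PartK3 h0 h1 hP hX (fun y hy => Iv.mem_ball (hy.trans ?_)) f _ _ _ _ _ _ _ _ h'.2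
    (Ie.iv_sound hE l0) (Ie.iv_sound hE l1) (Ie.iv_sound hE l2) hz hz'
  exact (le_abs_self _).trans (Iv.abs_le_hi hR h'.1)

lemma flt_PartK3 {S l h : ℕ} {v : ℝ} (h1 : (l : ℝ) / 2 ^ S ≤ v) (h2 : v ≤ (h : ℝ) / 2 ^ S) (G : Gt)
    (hm : G.mem S v) : (G.flt l h).mem S v := by
  have hp : (0 : ℝ) < 2 ^ S := by positivity
  have key : ∀ (G acc : Gt), G.mem S v ∨ acc.mem S v →
      (Gt.rec (motive := fun _ => Gt → Gt) (fun acc => acc) (fun _ a b _ il ir acc =>
        il (cond (Nat.blt h a || Nat.blt b l) (ir acc) (Gt.node Gt.nil a b (ir acc)))) G acc).mem S v := by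
    intro G
    induction G with
    | nil => exact fun acc hm => hm.resolve_left id
    | node L a b R il ir =>
      intro acc hm
      refine il _ ?_
      have k2 : R.mem S v ∨ acc.mem S v → _ := ir acc
      cases hc : (Nat.blt h a || Nat.blt b l)
      · rcases hm with (hm | hm | hm) | hm
        · exact .inl hm
        · exact .inr (.inr (.inl hm))
        · exact .inr (.inr (.inr (k2 (.inl hm))))
        · exact .inr (.inr (.inr (k2 (.inr hm))))
      · rcases hm with (hm | hm | hm) | hm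
        · exact .inl hm
        · simp only [Bool.or_eq_true, Nat.blt_eq] at hc
          exfalso
          rcases hc with hc | hc
          · have : (h : ℝ) / 2 ^ S < a / 2 ^ S := by gcongr
            linarith only [hm.1, h2, this]
          · have : (b : ℝ) / 2 ^ S < l / 2 ^ S := by gcongr
            linarith only [hm.2, h1, this]
        · exact .inr (k2 (.inl hm))
        · exact .inr (k2 (.inr hm))
  exact key G Gt.nil (.inl hm)

lemma famG_PartK3 {S b m : ℕ} {iP iX B : Iv} {x : ℝ}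
    (hP : iP.mem S (P m x)) (hX : iX.mem S (X m x)) (hB : ∀ z, |z| ≤ 3 * R m x → B.mem S z) (f : ℕ) :
    ∀ (Q : Gt) (r : ℕ) (l0 l1 : Iv) (a0 a1 w : ℝ), famG S b iP iX B f Q r l0 l1 = true →
      l0.mem S a0 → l1.mem S a1 → Fm x m f r w →
      |a0 + a1 * w| ≤ (b : ℝ) / 2 ^ S ∧ ¬ Q.mem S |a0 + a1 * w| := by
  induction f with
  | zero =>
    intro Q r l0 l1 a0 a1 w h
    exact absurd (show false = true from h) (by simp)
  | succ f ih =>
    intro Q r l0 l1 a0 a1 w h m0 m1 ⟨hw, d, w', e, hw', hd⟩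
    obtain ⟨t, Q', a, l, ht, hQ, ha, hl, h'⟩ : ∃ (t : Iv) (Q' : Gt) (a l : Iv),
        t = Iv.add l0 (Iv.mul S l1 B) ∧ Q' = Q.flt t.lo t.hi ∧ a = Iv.mul S l1 iP ∧ l = Iv.mul S l1 iX ∧
        (t.ok && ((Nat.ble t.hi b && Q'.isNil) || cond (Nat.beq r 0)
        (famG S b iP iX B f Q' 0 (Iv.add l0 (Iv.add a a)) l && famG S b iP iX B f Q' 0 l0 l &&
          famG S b iP iX B f Q' 0 (Iv.sub l0 (Iv.add a a)) l)
        (famG S b iP iX B f Q' (r - 1) (Iv.add (Iv.add l0 (Iv.add a a)) a) l &&
          famG S b iP iX B f Q' (r - 1) (Iv.add l0 a) l && famG S b iP iX B f Q' (r - 1) (Iv.sub l0 a) l &&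
          famG S b iP iX B f Q' (r - 1) (Iv.sub (Iv.sub l0 (Iv.add a a)) a) l))) = true :=
      ⟨_, _, _, _, rfl, rfl, rfl, rfl, h⟩
    have mt : t.mem S (a0 + a1 * w) := ht ▸ Iv.mem_add m0 (Iv.mem_mul m1 (hB w hw))
    have ma : a.mem S (a1 * P m x) := ha ▸ Iv.mem_mul m1 hP
    have ml : l.mem S (a1 * X m x) := hl ▸ Iv.mem_mul m1 hX
    have m2 := Iv.mem_add ma ma
    rw [Bool.and_eq_true, Bool.or_eq_true] at h'
    have b1 := Iv.abs_le_hi mt h'.1
    have b2 := Iv.lo_le_abs mt h'.1
    have fin : (|a0 + a1 * w| ≤ (b : ℝ) / 2 ^ S ∧ ¬ Q'.mem S |a0 + a1 * w|) →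
        |a0 + a1 * w| ≤ (b : ℝ) / 2 ^ S ∧ ¬ Q.mem S |a0 + a1 * w| :=
      fun c => ⟨c.1, fun k => c.2 (hQ ▸ flt_PartK3 b2 b1 Q k)⟩
    apply fin
    rcases h'.2 with k | k
    · rw [Bool.and_eq_true, Nat.ble_eq] at k
      refine ⟨b1.trans (by gcongr; exact k.1), ?_⟩
      cases Q' with
      | nil => exact id
      | node => exact absurd (show false = true from k.2) (by simp)
    rcases hd with ⟨rfl, hd⟩ | ⟨hr, hd⟩
    · simp only [Nat.beq_refl, cond_true, Bool.and_eq_true] at k
      rcases hd with rfl | rfl | rfl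
      · convert ih _ _ _ _ _ _ _ k.1.1 (Iv.mem_add m0 m2) ml hw' using 3 <;> rw [e] <;> push_cast <;> ring_nf
      · convert ih _ _ _ _ _ _ _ k.1.2 m0 ml hw' using 3 <;> rw [e] <;> push_cast <;> ring_nf
      · convert ih _ _ _ _ _ _ _ k.2 (Iv.mem_sub m0 m2) ml hw' using 3 <;> rw [e] <;> push_cast <;> ring_nf
    · rw [show Nat.beq r 0 = false from Bool.eq_false_iff.2 fun c => hr (Nat.eq_of_beq_eq_true c),
        cond_false] at k
      simp only [Bool.and_eq_true] at k
      rcases hd with rfl | rfl | rfl | rfl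
      · convert ih _ _ _ _ _ _ _ k.1.1.1 (Iv.mem_add (Iv.mem_add m0 m2) ma) ml hw' using 3 <;> rw [e] <;>
          push_cast <;> ring_nf
      · convert ih _ _ _ _ _ _ _ k.1.1.2 (Iv.mem_add m0 ma) ml hw' using 3 <;> rw [e] <;> push_cast <;> ring_nf
      · convert ih _ _ _ _ _ _ _ k.1.2 (Iv.mem_sub m0 ma) ml hw' using 3 <;> rw [e] <;> push_cast <;> ring_nf
      · convert ih _ _ _ _ _ _ _ k.2 (Iv.mem_sub (Iv.mem_sub m0 m2) ma) ml hw' using 3 <;> rw [e] <;>
          push_cast <;> ring_nf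

theorem famgck_sound {S : ℕ} {I : Iv} {Q : Gt} {b f r : ℕ} {d : Ie}
    (h : famgck S I Q b f r d = true) {x : ℝ} (hI : I.mem S x) {w : ℝ} (hw : Fm x 2 f r w) :
    |(3 * P 2 x + X 2 x * w) * d.ev (fun _ => x)| ≤ (b : ℝ) / 2 ^ S ∧
    ¬ Q.mem S |(3 * P 2 x + X 2 x * w) * d.ev (fun _ => x)| := by
  have hE := env1_PartK3 hI
  unfold famgck at h
  simp only [Bool.and_eq_true] at h
  have hP := Ie.iv_sound hE (eP 2)
  have hX := Ie.iv_sound hE (eX 2)
  have hR := Ie.iv_sound hE (Ie.mul (.cst 3) (eR 2))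
  rw [eP_ev] at hP
  rw [eX_ev] at hX
  have := famG_PartK3 hP hX (fun y hy => Iv.mem_ball (hy.trans (le_trans ?_ (Iv.abs_le_hi hR h.1)))) f
    _ _ _ _ _ _ _ h.2 (Ie.iv_sound hE _) (Ie.iv_sound hE _) hw
  · simp only [Ie.ev, eP_ev, eX_ev] at this
    convert this using 3 <;> push_cast <;> ring_nf
  · simp only [Ie.ev, eR_ev]
    exact_mod_cast le_abs_self _

/-- the real environment: variable `0` is `x`, all others are `v` -/
noncomputable def renv_PartK3 (x v : ℝ) (i : ℕ) : ℝ := Nat.rec x (fun _ _ => v) i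

lemma renv0_PartK3 (x v : ℝ) : renv_PartK3 x v 0 = x := rfl
lemma renv1_PartK3 (x v : ℝ) : renv_PartK3 x v 1 = v := rfl

lemma env2_PartK3 {S : ℕ} {I J : Iv} {x v : ℝ} (hI : I.mem S x) (hJ : J.mem S v) :
    ∀ i, (env2 I J i).mem S (renv_PartK3 x v i) := fun i => by
  cases i
  · exact hI
  · exact hJ

lemma below_PartK3 {S : ℕ} {E : ℕ → Iv} {e : ℕ → ℝ} (hE : ∀ i, (E i).mem S (e i)) {m : ℕ} {z : Ie}
    (h : belowR S E m z = true) : |z.ev e| ≤ R m (e 0) := by
  unfold belowR at h
  rw [Bool.and_eq_true] at h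
  have a := Iv.pos_sound (Ie.iv_sound hE _) h.1
  have b := Iv.pos_sound (Ie.iv_sound hE _) h.2
  simp only [Ie.ev, eR_ev] at a b
  exact abs_le.2 ⟨by linarith, by linarith⟩

lemma code_PartK3 {x v z : ℝ} (h0 : 0 < x) (h1 : x < 1) (hv : ∀ z, SR x v z → g 3 x ≤ |z|)
    (hz : SR x v z) (hb : |z| ≤ R 3 x) : Cd x 3 z :=
  code_of_nolow h0 h1 hb fun _ h => hv _ (hz.trans_rch h)

lemma sgn_PartK3 {x z : ℝ} {m : ℕ} {s : ℤ} (hs : s = 1 ∨ s = -1) (h : Cd x m z) :
    Cd x m (s * z) := by
  rcases hs with rfl | rfl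
  · simpa using h
  · simpa using h.neg

/-- a word of length `n + 8 * |t|` that leads from `v` to a point of level three -/
lemma word_PartK3 {S : ℕ} {I J : Iv} {x v : ℝ} (h0 : 0 < x) (h1 : x < 1) (hI : I.mem S x)
    (hJ : J.mem S v) (hv : ∀ z, SR x v z → g 3 x ≤ |z|) {w t : List ℤ} {s : ℤ} {n : ℕ}
    (hw : ∀ r ∈ w, r = 1 ∨ r = -1) (ht : ∀ r ∈ t, r = 1 ∨ r = -1) (hs : s = 1 ∨ s = -1)
    (hl : 0 < w.length) (hn : w.length = n + 8 * t.length)
    (hb : belowR S (env2 I J) 3 (unw eQ w (.var 1)) = true) :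
    ∃ E, Cd x 3 E ∧ v = horR x w + s * x ^ n * (E - P 3 x * horR (X 3 x) t) := by
  have b1 := below_PartK3 (env2_PartK3 hI hJ) hb
  have e1 := unw_ev (e := renv_PartK3 x v) (x := x) h0.ne' (q := eQ) rfl w (.var 1)
  rw [renv0_PartK3] at b1
  generalize (unw eQ w (.var 1)).ev (renv_PartK3 x v) = z at b1 e1
  have e2 : ev x w z = v := e1
  have hsr : SR x v z := by
    cases w with
    | nil => simp at hl
    | cons r w => rw [← e2]; exact SR.of_ev h0 hw z
  refine ⟨_, (sgn_PartK3 hs (code_PartK3 h0 h1 hv hsr b1)).cons h0 h1 ht, ?_⟩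
  have hss : (s : ℝ) * s = 1 := by rcases hs with rfl | rfl <;> simp
  have hX : X 3 x = x ^ 8 := rfl
  rw [← e2, ev_lin, ← horR_ev, hn, add_sub_cancel_left, hX, ← pow_mul, pow_add]
  linear_combination (-(x ^ n * x ^ (8 * t.length) * z)) * hss

theorem twock_sound {S : ℕ} {I J : Iv} {Q : Gt} {b f : ℕ} {wa ta : List ℤ} {sa : ℤ}
    {wb tb : List ℤ} {sb : ℤ} {n e : ℕ} (h : twock S I J Q b f wa ta sa wb tb sb n e = true)
    {x v : ℝ} (h0 : 1 / 2 ≤ x) (h1 : x < 1) (hI : I.mem S x) (hJ : J.mem S v)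
    (hQ : ∀ y, |y| ≤ (b : ℝ) / 2 ^ S → ¬ Q.mem S |y| → Inft x y)
    (hv : ∀ z, SR x v z → g 3 x ≤ |z|) : Inft x (kap x) ∨ Cd x 2 (kap x) := by
  have hx : 0 < x := by linarith
  unfold twock at h
  simp only [Bool.and_eq_true, Nat.blt_eq, Nat.beq_eq] at h
  obtain ⟨⟨⟨⟨⟨⟨⟨⟨⟨⟨⟨s1, s2⟩, s3⟩, s4⟩, he⟩, hb⟩, la⟩, lb⟩, ba⟩, bb⟩, hp⟩, hf⟩ := h
  have s1' := sgs_sound s1
  have hsa : sa = 1 ∨ sa = -1 := s1' sa (by simp)
  have hsb : sb = 1 ∨ sb = -1 := s1' sb (by simp)
  obtain ⟨E1, c1, e1⟩ := word_PartK3 hx h1 hI hJ hv (fun r hr => s1' r (by simp [hr]))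
    (sgs_sound s3) hsa (by omega) la ba
  obtain ⟨E2, c2, e2⟩ := word_PartK3 hx h1 hI hJ hv (sgs_sound s2) (sgs_sound s4) hsb hb lb bb
  have hz := Ie.pz_sound hp (fun _ => x)
  simp only [Ie.ev, eP_ev, eX_ev] at hz
  push_cast at hz
  have hk := kap_mul h1
  have hbb : (sb : ℝ) * sb = 1 := by rcases hsb with rfl | rfl <;> simp
  have hxe : x ^ e < 1 := pow_lt_one₀ hx.le h1 he.ne'
  have hxe0 : 0 < x ^ e := pow_pos hx e
  have hc : ((sa * sb : ℤ) : ℝ) * x ^ e ≠ 1 := by
    rcases hsa with rfl | rfl <;> rcases hsb with rfl | rfl <;> push_cast <;> intro hc <;> linarith only [hxe, hc, h0, h1, hxe0]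
  have key : (sb : ℝ) * x ^ n * (E2 - kap x) = sa * x ^ (n + e) * (E1 - kap x) := by
    have h2 : (1 - x) ≠ 0 := by linarith only [h1]
    apply mul_left_cancel₀ h2
    linear_combination hz + (1 - x) * (e1 - e2) +
      ((sa : ℝ) * x ^ (n + e) - sb * x ^ n) * hk
  have key2 : kap x * (1 - ((sa * sb : ℤ) : ℝ) * x ^ e) = E2 - ((sa * sb : ℤ) : ℝ) * x ^ e * E1 := by
    have h2 : x ^ n ≠ 0 := (pow_pos hx n).ne'
    apply mul_left_cancel₀ h2
    rw [pow_add] at key
    push_cast
    linear_combination (-(sb : ℝ)) * key + (x ^ n * (E2 - kap x)) * hbb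
  refine (two_core hx h1 hc c1 c2 key2 fun z z' hz hz' => ?_).imp_right fun h => h.down hx h1
  obtain ⟨a1, a2⟩ := famck_sound hf hx h1 hI hz hz'
  have := hQ _ a1 a2
  simp only [Ie.ev, eP_ev, eX_ev] at this
  convert this using 1
  push_cast
  ring

theorem formck_sound {S : ℕ} {I J : Iv} {Q : Gt} {b f r : ℕ} (h : formck S I J Q b f r = true)
    {x v : ℝ} (h0 : 1 / 2 ≤ x) (h1 : x < 1) (hI : I.mem S x) (hJ : J.mem S v)
    (hQ : ∀ y, |y| ≤ (b : ℝ) / 2 ^ S → ¬ Q.mem S |y| → Inft x y)
    (hv : ∀ z, SR x v z → g 3 x ≤ |z|) : Inft x (kap x) ∨ Cd x 2 (kap x) := by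
  have hx : 0 < x := by linarith
  unfold formck at h
  simp only [Bool.and_eq_true, Nat.blt_eq] at h
  obtain ⟨⟨⟨hr, bV⟩, bW⟩, hf⟩ := h
  have hE := env2_PartK3 hI hJ
  have bV' := below_PartK3 hE bV
  have bW' := below_PartK3 hE bW
  simp only [Ie.ev, eP_ev, eX_ev, eK_ev, renv0_PartK3, renv1_PartK3] at bV' bW'
  have hY := X_pos hx 2
  obtain ⟨zV, eV, bV⟩ : ∃ zV, v = P 2 x + X 2 x * zV ∧ |zV| ≤ R 2 x := ⟨_, by field_simp; ring, bV'⟩
  obtain ⟨zW, eW, bW⟩ : ∃ zW, (kap x - v) * (X 2 x ^ r)⁻¹ - kap x = P 2 x + X 2 x * zW ∧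
      |zW| ≤ R 2 x := ⟨_, by rw [mul_comm (X 2 x), inv_mul_cancel_right₀ hY.ne']; ring, bW'⟩
  have bl : ∀ z, Rch x ((P 2 x + X 2 x * z - ((1 : ℤ) : ℝ)) / x) z := fun z => by
    simpa using blk hx 2 1 (Or.inl rfl) z
  have rV : SR x v zV := ⟨1, Or.inl rfl, eV ▸ bl zV⟩
  have rW : SR x v (-zW) := by
    have a1 := rch_scale hx h1 (4 * r) ((kap x - v) / x)
    have a2 := bl zW
    have hk : 1 / (1 - x) = (kap x + 1) / x := by rw [kap_add_one h1]; field_simp
    have hX : X 2 x = x ^ 4 := rfl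
    rw [← eW] at a2
    have a3 : -(1 / (1 - x)) + (kap x - v) / x / x ^ (4 * r) =
        ((kap x - v) * (X 2 x ^ r)⁻¹ - kap x - ((1 : ℤ) : ℝ)) / x := by
      rw [hk, hX, ← pow_mul]; push_cast; field_simp; ring
    have a4 : -(1 / (1 - x)) + (kap x - v) / x = (-v - ((1 : ℤ) : ℝ)) / x := by
      rw [hk]; push_cast; field_simp; ring
    rw [a3, a4] at a1
    have : SR x (-v) zW := ⟨1, Or.inl rfl, a1.trans a2⟩
    simpa using this.neg
  have cd : ∀ z, SR x v z → |z| ≤ R 2 x → Cd x 2 (P 2 x * horR (X 2 x) [1] + X 2 x ^ 1 * z) ∧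
      Cd x 2 (P 2 x * horR (X 2 x) [1] + X 2 x ^ 1 * (-z)) := fun z hz hb => by
    have := code_of_nolow hx h1 hb fun _ h => (g_le_succ hx h1 2).trans (hv _ (hz.trans_rch h))
    exact ⟨this.cons hx h1 (l := [1]) (by simp), this.neg.cons hx h1 (l := [1]) (by simp)⟩
  obtain ⟨V, hV, v1⟩ := (cd _ rV bV).1
  obtain ⟨W, hW, w1⟩ := (cd _ rW (by rwa [abs_neg])).2
  simp only [horR, Int.cast_one, mul_zero, add_zero, mul_one, pow_one, neg_neg] at v1 w1
  refine form_core hx h1 (m := 2) (r := r) hr hV hW ?_ (fun u z z' hu su hz hz' => ?_)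
  · rw [← v1, ← w1, ← eV, ← eW]
    field_simp
    ring
  · obtain ⟨a1, a2⟩ := famgck_sound hf hI (show Fm x 2 f (r - 1) _ by
      rw [← hu, Nat.add_sub_cancel]; exact Fm_list hx h1 u f su hz hz')
    have := hQ _ a1 a2
    simpa only [Ie.ev, eX_ev, Int.cast_one, div_eq_mul_inv] using this

lemma eG_PartK3 (e : ℕ → ℝ) (m : ℕ) : (eG m).ev e = g m (e 0) := by
  simp only [eG, Ie.ev, eP_ev, eX_ev, eR_ev, g]

lemma tree_PartK3 {S : ℕ} {I : Iv} {G Q : Gt} {b f : ℕ} {x v : ℝ} (h0 : 1 / 2 ≤ x) (h1 : x < 1)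
    (hI : I.mem S x) (hQ : ∀ y, |y| ≤ (b : ℝ) / 2 ^ S → ¬ Q.mem S |y| → Inft x y)
    (hv : ∀ z, SR x v z → g 3 x ≤ |z|) (hG : G.mem S v) (T : Kt) :
    T.ok S I G Q b f = true → T.toG.mem S v → Inft x (kap x) ∨ Cd x 2 (kap x) := by
  induction T with
  | nil => exact fun _ h => h.elim
  | trap L l h R il ir =>
    intro hk hm
    have hk' : (G.miss l h && L.ok S I G Q b f && R.ok S I G Q b f) = true := hk
    simp only [Bool.and_eq_true] at hk'
    rcases hm with hm | hm | hm
    · exact il hk'.1.2 hm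
    · exact absurd hG (Gt.miss_sound hk'.1.1 hm.1 hm.2)
    · exact ir hk'.2 hm
  | two L l h wa ta sa wb tb sb n e R il ir =>
    intro hk hm
    have hk' : (twock S I (Iv.ofN l h) Q b f wa ta sa wb tb sb n e && L.ok S I G Q b f &&
      R.ok S I G Q b f) = true := hk
    simp only [Bool.and_eq_true] at hk'
    rcases hm with hm | hm | hm
    · exact il hk'.1.2 hm
    · exact twock_sound hk'.1.1 h0 h1 hI (Iv.mem_ofN hm.1 hm.2) hQ hv
    · exact ir hk'.2 hm
  | form L l h r R il ir =>
    intro hk hm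
    have hk' : (formck S I (Iv.ofN l h) Q b f r && L.ok S I G Q b f &&
      R.ok S I G Q b f) = true := hk
    simp only [Bool.and_eq_true] at hk'
    rcases hm with hm | hm | hm
    · exact il hk'.1.2 hm
    · exact formck_sound hk'.1.1 h0 h1 hI (Iv.mem_ofN hm.1 hm.2) hQ hv
    · exact ir hk'.2 hm

/-- a low point with finitely many expansions gives a last low point -/
lemma last_PartK3 {x c : ℝ} (h0 : 1 / 2 ≤ x) (h1 : x < 1) (hc : c ≤ kap x) {y : ℝ}
    (hf : ¬ Inft x y) (hy : |y| < c) :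
    ∃ v, 0 ≤ v ∧ v < c ∧ ¬ Inft x v ∧ ∀ z, SR x v z → c ≤ |z| := by
  refine fin_ind (x := x) (Q := fun y => |y| < c →
    ∃ v, 0 ≤ v ∧ v < c ∧ ¬ Inft x v ∧ ∀ z, SR x v z → c ≤ |z|) (fun y hf ih hy => ?_) y hf hy
  by_cases ht : ∀ z, SR x y z → c ≤ |z|
  · refine ⟨|y|, abs_nonneg _, hy, fun h => hf (inft_abs.1 h), fun z hz => ?_⟩
    rcases abs_choice y with e | e <;> rw [e] at hz
    · exact ht z hz
    · have := ht (-z) (by simpa using hz.neg)
      rwa [abs_neg] at this
  · push Not at ht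
    obtain ⟨z, h2, h3⟩ := ht
    exact ih z (h2.lt h0 h1 (hy.le.trans hc) hf) h3

theorem kck_sound {S X1 X2 N1 k1 L1 w1 D1 N2 k2 L2 w2 D2 N3 k3 L3 w3 D3 gl u b2 b3 f : ℕ} {G Q : Gt}
    {T : Kt} (h1 : tck S X1 X2 N1 k1 L1 w1 D1 G = true)
    (h2 : qck S X1 X2 N2 k2 L2 w2 D2 (Gt.node Gt.nil gl u Gt.nil) T.toG b2 = true)
    (hu : Nat.beq u (2 ^ S) = true)
    (h3 : qck S X1 X2 N3 k3 L3 w3 D3 G Q b3 = true)
    (h4 : T.ok S (Iv.ofN X1 X2) G Q b3 f = true) (h5 : kck S X1 X2 gl b2 b3 f Q = true)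
    {x : ℝ} (x0 : 1 / 2 < x) (x2 : x ≤ (X2 : ℝ) / 2 ^ S) (x3 : x < 1) (hn : ∃ n, R n x ≤ kap x) :
    Inft x (kap x) := by
  have hx : 0 < x := by linarith
  unfold kck at h5
  simp only [Bool.and_eq_true, Nat.ble_eq] at h5
  obtain ⟨⟨⟨⟨⟨k1, k2⟩, k3⟩, k4⟩, k5⟩, k6⟩ := h5
  obtain ⟨n, hn'⟩ := id hn
  have x1 : (X1 : ℝ) / 2 ^ S ≤ x := by
    by_contra hc
    push Not at hc
    have a0 := (qck_sound h3 (x := (X1 : ℝ) / 2 ^ S) le_rfl (by gcongr)).1
    have a1 := Iv.pos_sound (Ie.iv_sound (env1_PartK3 (Iv.mem_ofN (l := X1) (h := X1)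
      (v := (X1 : ℝ) / 2 ^ S) le_rfl le_rfl)) _) k6
    simp only [Ie.ev, eG_PartK3, eK_ev] at a1
    generalize (X1 : ℝ) / 2 ^ S = a at hc a0 a1
    have a2 : a < 1 := by linarith only [a0.2, x0, hc]
    have a3 := kap_strict hc a2
    have a4 := g_lt_R' (hx.trans hc) a2 6 (n + 1)
    have a5 := R_anti_x hx hc.le a2 n
    have a6 := R_succ_lt hx x3 n
    linarith only [hn', a1, a3, a4, a5, a6]
  have hI : (Iv.ofN X1 X2).mem S x := Iv.mem_ofN x1 x2
  have hE := env1_PartK3 hI
  have b1 := Iv.pos_sound (Iv.mem_sub (Ie.iv_sound hE _) (Iv.mem_ofN le_rfl le_rfl)) k1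
  have b2' := Iv.pos_sound (Iv.mem_sub (Iv.mem_ofN le_rfl le_rfl) (Ie.iv_sound hE _)) k2
  have b3' := Iv.pos_sound (Ie.iv_sound hE _) k3
  simp only [Ie.ev, eG_PartK3, eK_ev, eR_ev] at b1 b2' b3'
  obtain ⟨⟨-, x5⟩, q3⟩ := qck_sound h3 x1 x2
  have q2 := (qck_sound h2 x1 x2).2
  have ht := tck_sound h1 x1 x2
  have hQ : ∀ y, |y| ≤ (b3 : ℝ) / 2 ^ S → ¬ Q.mem S |y| → Inft x y := fun y a b => by
    obtain ⟨z, c, d⟩ := q3 y a b
    exact d.inft hx x3 (ht z c)
  have hgk : g 3 x ≤ kap x := (g_lt_R' hx x3 3 n).le.trans hn'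
  have hk0 : 0 < kap x := (R_pos hx x3 n).trans_le hn'
  have hk1 : kap x ≤ 1 := by
    have := kap_mul x3
    nlinarith only [x5, this]
  by_contra hf
  have hcd : Cd x 2 (kap x) := by
    by_cases hlow : ∀ z, Rch x (kap x) z → g 3 x ≤ |z|
    · exact (code_of_nolow hx x3 (by rw [abs_of_pos hk0]; linarith only [b3']) hlow).down hx x3
    push Not at hlow
    obtain ⟨y, y1, y2⟩ := hlow
    obtain ⟨v, v0, v1, v2, v3⟩ := last_PartK3 x0.le x3 hgk (fun h => hf (y1.inft hx x3 h)) y2
    have hva : |v| = v := abs_of_nonneg v0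
    have hG : G.mem S v := by
      by_contra hc
      exact v2 (ht v ⟨by rw [hva]; linarith only [hgk, v1], by rwa [hva]⟩)
    have hT : T.toG.mem S v := by
      by_contra hc
      obtain ⟨z, ⟨z1, z2⟩, z3⟩ := q2 v (by rw [hva]; linarith only [b2', v1]) (by rwa [hva])
      refine z2 (Or.inr (Or.inl ⟨by linarith only [v3 z z3, b1], ?_⟩))
      rw [Nat.eq_of_beq_eq_true hu]
      push_cast
      rw [div_self (by positivity)]
      linarith only [hk1, z1]
    exact (tree_PartK3 x0.le x3 hI hQ v3 hG T h4 hT).resolve_left hf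
  refine hf (K_final x0.le x3 (m := 2) ?_ hn hcd fun z z' hz hz' => ?_)
  · have : X 2 x ≤ (3 / 5) ^ 4 := pow_le_pow_left₀ hx.le x5 4
    linarith only [this]
  · obtain ⟨a1, a2⟩ := famgck_sound k4 hI (Fm_three hx x3 f hz hz hz')
    have := hQ _ a1 a2
    simp only [Ie.ev] at this
    convert this using 1
    push_cast
    ring

end Pool.Agent.KExp

end

-- part MP_bd9604_nt.Inf.KData
section

/-! Data for the parameter interval at the Thue-Morse base. -/

namespace Pool.Agent.KExp

noncomputable def kG : Gt := gtOf (nat_lit 0x20000000000000000004502cf6aae9a9294d0227efed3e2e7bd0de4113f7cf138ccc3d3454892721fdc8433f79de449390198048d67b902184b0a7b1a33b661610c258537cb808d77d48091c7317dfdfce2264048e0bcf88c732ca91f2294ef5a8126fa930f914a638aee3ccafe47c3c90bbac99427a163e1e45820fe2af041d184984f08395a7a50c8c24c262a86fa70d01028fe29b7ea6d170232147f1374bcab1fcb9b000949)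
noncomputable def kQ : Gt := gtOf (nat_lit 0x1f95c1e1bd3dce518ecf2ac9b17fd7696f78176bf7ecd654e6e62fd38de77f74906260e48dbc9fd84f565f339ca0d44724a24ad65a529e69cbe48648b597ce16b4b273a6cbcc1ad63d1a4359dde745c4ac8ced139c88ada6ed1f3a66896ccc003d62997b73446a083d2d336200e9a21072db2ada85de9cd0f52ae8e677d4058068742c035d0b187f68b43977fca9456656bcda1c95c7e004ac322ead0cfd3c281a36bb049686713499d474b0ad73432ff3c2ebcf39f9d9a197215b8863d12fe8d0cb8a2be7e839b0ae6865a2fb0363075876b432d050f6ada667201a195d444c8daa07ca6d0cae5703db388e83a68656cc092f8dfb7e63432a8b33d6fb7a11b5a1954506ae394243aad0caa1eb23dc0018ad686550d0c29ce162e8b432a842547e486f2a5a195417f66adc8b422d0ca9b9ca7f5ac3e9668654dcdf8b5547a693432a6e69f27fc51371a195372aded2f00ff0d0ca9b8685efc0fd4868654dbfa6b1c6643d3432a6dc18fa756f389a19536afa46926f15ad0ca9b57d01f4a4ef368654da984abdb23633432a6aeb587fb12e89a19534f057691d1df6d0ca9a78299f4555bd68654cc7b2d61b3c453432a63dcc9d1b1f571a19531dff3d0708d8cd0ca98e1106e813c1268654c6c6b11a9a007b432a63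2bb9a257eeb1a1952f7f5e5ce38e0ad0ca929ca4531342cc68654727610a47b98eb432a267282c1ea3241a194fb5b11dd58c5d4d0c84f88d980a83d666864264ce1d21dd86b343211a2342217aa4c1a18fb48bb38cf1855cd0c7b67f3d6824731068636a63eba75788b4b4313642baaf99d2d55a18657c44b5d3c422cd0aa7c9c1ccf9f8086684eea68f17651b3be33eea767f8765be02159f72d7d879c086f3a6cfb6f3d827e8a0132967dae1124177cdace5b3ecc706e2f1ff55d559f654476df1d777fbacfb264480308179b0967d92328d59763441db3e761c4086d0cfed7d9f28a0a84719e25b12cf944a41bd6bd08b9567c65c252b5fddd627b3de0bfa6f37cbe02819ea258ebc69138a748cf4f2fdb7b13b2158767906d5a45d354d2b919209072c9848586f68c527d4943ed9b4c1984ebb52c2f7f79eea5f269c0b7c284e43298492c0bfdad5d82ba1f4893241f13c252b64b9046f89393e3ffe1a942237a17e66f0ccededb1167f9ca826232f41c08b3706c607450fc9c8000010c6f7a0b5ed8d002f49)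
def kT : Kt := (.trap (.two (.trap (.two (.trap .nil (nat_lit 0x10c6f7a0b5ed8d) (nat_lit 0x147f11c73d817400a7) .nil) (nat_lit 0x147f13a8ba17241ddd) (nat_lit 0x147f13a8be70385559) [1, -1, -1] [] (-1) [-1, 1, 1, 1, 1, -1, -1, 1] [1] (-1) 0 3 .nil) (nat_lit 0x147f16897460374c0d) (nat_lit 0x309307dd2294f06910) (.trap (.two .nil (nat_lit 0x3093099771f08d4f37) (nat_lit 0x30930997769c6bfc94) [1, -1, -1, 1, -1] [] (-1) [-1, 1, 1, 1, 1, 1, -1, 1] [1] (-1) 0 5 .nil) (nat_lit 0x30930b8e8654fb150d) (nat_lit 0x3e1e43d490b9033929) .nil)) (nat_lit 0x3e1e458904cf0a9c97) (nat_lit 0x3e1e458909a9e6d451) [1, -1, -1, 1, -1, 1, -1, 1, -1, 1, 1, -1, -1, 1] [1] (-1) [-1, 1, 1, 1, 1, 1, 1, 1, -1, 1, -1, 1, -1, 1, 1, -1] [1, -1] (-1) 0 6 (.trap (.two (.trap .nil (nat_lit 0x3e1e4a0b55764d07ff) (nat_lit 0x3e4527e0ac8f476105) .nil) (nat_lit 0x3e4529d7509bc81b8f) (nat_lit 0x3e4529d755778b9baf) [-1, 1, 1, 1, 1, 1, 1, 1, -1, 1, -1, 1, 1, -1] [1] (1) [1, -1, -1, 1, -1, 1, -1, 1] [1] (1) 0 6 .nil) (nat_lit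 0x3e452b8c342bf9c01a) (nat_lit 0x4048df0f7962c761b5) (.two .nil (nat_lit 0x4048e0c3ed78cec523) (nat_lit 0x4048e0c3f25c440859) [1, -1, -1, 1, -1, 1] [] (-1) [-1, 1, 1, 1, 1, 1, 1, 1] [1] (-1) 0 6 .nil))) (nat_lit 0x4048e5463e28aa3c07) (nat_lit 0x43095fa073b6779301) (.form (.trap (.two (.trap .nil (nat_lit 0x430962fce270229720) (nat_lit 0x44938e6c011f2ab09c) .nil) (nat_lit 0x449390fc4879ec30fa) (nat_lit 0x449390fc4d751130f2) [1, -1, -1, 1, -1, 1, 1, -1, -1, 1] [] (-1) [-1, 1, 1, 1, 1, 1, 1, 1, 1, 1, 1, 1, -1, 1, 1, -1] [1, -1] (-1) 0 10 .nil) (nat_lit 0x449392ac634b4b87e3) (nat_lit 0x44fdf2176409638221) (.trap .nil (nat_lit 0x44fdff5544f925e6bc) (nat_lit 0x4502cdbd2f70e6c9dc) .nil)) (nat_lit 0x450b50472ef83091c2) (nat_lit 0x450b504733f6a10e05) 3 (.form (.form (.form .nil (nat_lit 0x450b5867873efe2001) (nat_lit 0x450b58678c3d6f02be) 3 .nil) (nat_lit 0x450ef92ce0981ef9f3) (nat_lit 0x450ef92ce596ad48e4) 3 .nil) (nat_lit 0x45305485c87c8c6f54) (nat_lit 0x45305485cd7c53fd01) 5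 (.form .nil (nat_lit 0x4530a68bbcacd8c004) (nat_lit 0x4530a68bc067419712) 6 .nil))))

theorem k1 : tck (nat_lit 72) (nat_lit 0x8f3d00600d6226b761) (nat_lit 0x8f3d00600db69f3346) (nat_lit 35) (nat_lit 822) (nat_lit 10) (nat_lit 41) (nat_lit 0x600000000380000066696000003fff300000199a6200000fffce000006669600b32dfff440000199a480000b7ffd9000006669400002dfff140001699a400000b7ffc800005a669c00002dfff000001699a5a0000b7ffd800005a66920000cdfff300001699a40000337ffc500059a669c0000cdfff1000fffe9a58000337ffc8015fffa6988002cd334b800066fff8800bfff4d3100019bffec002fffd34e400066fff900b3334cd2d00019bffe400cfffd349400000000502fffd7ffc816669bffe00bfff5fff140000019a48000037ffc9000000669000000dfff040000019a58032cd7ffc600000066900000d5fff080000019a58032d57ffc40000006690000059fff200000019a4800005bffc000000066900000ccfff600000019a40000003ffcc000000669c000000fff380000019a58000003ffd10000006697000000fff640000019a5a000003ffcd00000066900000cb7ff2c0000019a7000032dffc8000665a6960000cb7ff000019969a7200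032dffd8000665a690000b4b7ff300019969a70002d2dffce000665a696000b4b7ff640019969a5c002d2dffc0665a65a698800b4b7ff001969969a72002d2dffce065a65a696800b4b7ff016969969a520000000020005a65a69280000b7ff240001969a5200002dffc6000065a69080000b7ff100001969a4c00002dffc8000065a69200000b7ff000001969a5000002dffc00059a5a69000000b7ff100000169a7000002dffc8000005a6988032d37ff000000169a5000000dffd8000005a6900000037ff040169669a7000000dffc500000006988032cd7ff240000001a40000015ffc1000000069c0000017ff180000001a4c000001ffc200000006920000007ff100000001a5000000affc8000000069c800b4b5ff30169699ea705a5a658d3105a5a67a96169699634e4169699ea420000000024196696bfe0000000034b0000000ffb00000000d200000065fe6000000034b80000017f9c0000000d280000599fe8800000034800000067fb20000000d2c0000019fe6800000034b80000067f960000000d310000019fe40000332d4e40000067f800000ccb5200019969fec0000332d48000065a7f980000ccb52c0001969fe70000332d4b800065a7fa20000ccb5240016969fec8000332d480005a5a7f8c00000000201966969fe28002d32d498059a5a7f9200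0b4cb5200166969fe08002d32d4805fff9a7f8c000b4cb5250000169fe20002d32d4a400005a7f80000b4cb5210000169fe18000032d49800005a7f9200000cb5240000169fe30000032d4a000005a7f8800000cb5200000169fe40000032d48c0000007f8000000cb5290000001fec0000032d4840000007f82000000b5260000001fe20000002d4900000007f80000000b5280000001fe0000002cd4800000007f9000000035380000001fe00000000d480000019bfb000000035200000006fe60000000d4b0000001bf9c00000035310000006fe88000000d4a0000016bfb20000003520000005afe58000000d4e0000016bf80000032d52c000005afec00000cb54b8000016bf98000032d539000005afe700000cb54ac000016bfa2000032d520000659afec80000cb54b0001966bf9a000032d52e000659afe00cccb4b54c4001966bf800332d2d539000659afe700ccb4b54b4001966bf802d32d2d5220000000013000cb4b5490016966bf880032d2d520005a59afe4000cb4b5498166966bf800032d2d529000059afe6000cb4b5484000166bf8c0002d2d526000059afe20000b4b5490000166bf800002d2d528000059afe0000b34b5480000166bf92000002d538000059afe0800000b54e0005a66bf8c000002d524000019afe1000000b54a0000066bf8800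0002d525000001afe4000000b54a0000006bf80000002d520000001afec000000b54e0000006bf9a000002d52c000001afec00000b354a8000006bf9800002cd52e000001afe4000cb3354c4000006bf900000ccd539000001afe00000333548000665abfb00000ccd520000196afe6000033354b000065abf9c0000ccd52e000196afe880003335490005a5abfb20000ccd520001696afe200000000080659a5abf8a000b4cd526016696afe48002d335480059a5abf82000b4cd52017ffe6afe30002d33549400005abf88000b4cd529000016afe00002d33548400005abf8600000cd526000016afe48000033549000005abf8c00000cd528000016afe20000033548000005abf9000000cd52d000666afe0000003354a000001abfb000000cd520000006afe28002cd354e000001abf82000000d52d00065aafe3000000354c4005a6abf84000000d52100001aafe2000000354a000002abf90000000d538000002afe0000000354a0000002bfb0000000d538000000afe7000000354b0000002bf8800000b552e000000afe4000002d54e400332cbf8000000b552000000b2fec000002d54e000002cbf9800000b552e00000b2fe7000002d54e400002cbfa200000b55240000b32fec800002d54a00002ccbf9a00000b55200000b32fe300002cd54e00002ccbf9000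00b355280003332fe000002cd54900000ccbfb00000b355280000332fec000cccd54800000ccbf8800003355380000332fe400000cd54a400000cbf8000003355240000032fe4800000d54a000000cbf8800000355200000032fe4000000d54e000000cbf8000000355210000002fec000000d5490000000bfb000000d55280000002fe600000155480000000bfb000000155380000002fec000001954b0000000bf880000005528000002cfe4000000154a00000033f8000000055290000000fec000000154900000003f9800000595280000000fe2000000054800000003f80000000152c0000000fec0000000549000000cdf98000000152800000037ec80000005480000000dfb0000001653800000037ec000001994b0000000df880000006528000002d7e4000000194a00000035f80000000652400000357ec000000194a00000155f98000000652800000157e8800000194800000055f90000005a53800000157e0000001694b00000055fb0000005a53900000157e6000001694800000595fb2000005a53800001657e4000016694b00000595f80000059a52800166657ec000016694a00001995f98000059a52000006657ec000166694e00001995f90000199a5200000fffc90000066694e00003fff246000000052100000657e2800000014800000195f9200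0000052800000057e0800000014800000015f8c000000053800000057e2000000014a00000005f900000000538000005a7e0000000014800000001fb0000000052c00000007e6000000014800000016f9c00000005380000005be8800000014900000066fb200000005380000019be6800000014b00000066f98001600052a0000019be2000199964b80000066f9000006659310000019be0000019964e40000066fb000006659280001969be6000019964e000065a6fa2000066592e0001969bec80001996490005a5a6f9a00006659280016969be001996996480005a5a6f800065a659380016969bec001969964b0005a5a6f8805a5a6592e0016969be4000000000e0659a5a6fb1fff9a6592c1966969be2800169964a0059a5a6f920005a659380166969be08001699649400005a6f880005a659290000169be40001699648400005a6f800005a659260000169be60001699649000005a6f8200000659280000169be2000001964b000005a6f9000000659290000001be0000001964840000006fb000000659260000001bec000016964880000006f9800005a59240000001be4000000164a00000006f8000000059200000001be0000001664e00000006f98000001992c0000001be0800000064b80000006f8c00000019310000001be1000000064e40000006f8800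000019290000006be400000006484000006af8000000019380000032bec00000006480000000af98000000192c0000002be7000000064c4000000afa20000001928000002cbec800000064e000000b2f8c000019692c000002cbe00000065a4a00000b32fb0000019692c00002ccbe60000065a4a00003332f9c00001969200000cccbec8000065a4e00003332f80001969692c0000cccbe300005a5a4b80003332f880001696920000b4ccbe400005a5a4a40000332f80000169692600000ccbec00005a5a4900000332f92000001692800000ccbe08000005a4800000332f880000016926000000cbe40000005a4a00000032f800000016920000000cbec0000005a4e00000032f9c000001692c000000cbe00000059a4c40000032fb00000166939000000cbe60000059a4a000032d2f9c00001669200000cb4bec8000059a4e000032d2f80001966692c0000cb4be30000599a4a00002fffc5000016669200000bfff100000599a4e00002fffc4800001697c400003fff14000005a5f600000fffc4000001697c5000000009080000005f24000000024800000017c1000000009400000005f18000000024000000017c4000000009c00000169f20000000024000000007c0000000009c0000001af6000000002500000000bcc000000009600000002f38000000025c00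00000bd100000000900000002cf64000000025000000333cd000000009c000000ccf100000332c5800000333d800000ccb18800000ccf300000332c5800332d33ca00000ccb14800c00004b80000332c5000032d33d100000ccb100000cb4cf640000332c7000032d33cd00000ccb160000cb4cf200032d32c6200032d33c0000cb4cb14000b4b4cf600032d32c40002d2d33cc000cb4cb1c000b4b4cf00000000005002cd2d33c50000b4cb1c00b34b4cf240002d32c4a00002d33c10000b4cb1480000b4cf100002d32c4200002d33c80000b4cb1200000b4cf600002d32c5000002d33c9000000cb1000000b4cf040000032c7000002d33c6000000cb1c0000b34cf080000032c482d2fffd3c819966699e2000000658840000006790000001962400000019e6000000658a00000006788000000162000000019e4000000058e00000006780000000162100000001ec0000000589000000007b0000000662800000001e40000000188000000007b0000000063800000001e4000000068b000000007b00000001a3100000001e6000000068e400000007b20000001a2d00000001e48000005a8ac00000007820000016a2c00018001e30000005a8a00000665b880000016a2400000196e40000005a8800000065b800000016a3900000196ec0000005a8840000005b9800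00016a2600000016e40000659a8880000005b9c0001966a2400000016e08000001a8a00000005b800000006a2000000016e60000001a8e00000005b80000001aa2c00000016e60000006a8b80000005b88000016aa3100000016e4000019aa8e40000005b88000006aa2d00000016e4000001aa8b00000659b80000006aa2400000166ec000001aa8a00000059b8800005aaa2000000166e400001aaa8e00000059b8000002aaa2c00000166e3000002aa8b80000059b8800000aaa3100000166e4000002aa8800000599b8000000aaa2000006666ec000002aa8900000199b9800000aaa2800000666e000002caa8800000199b80000032aa3800000666e0800000aa8b00000199b8c000002aa2e00000666e2000000aa8840000019b90000002aa2400000066e0000000aa8a00000019b9000000caa2000000066e40000002a8e00000019b80000000aa38000005a6ec0000002a8840000001b9000000b2a2600000006e2000000ca8900000001b900000002a2800000006e60000000a8800000001b880000000a3800000006e) kG = true := by decide +kernel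
theorem k2 : qck (nat_lit 72) (nat_lit 0x8f3d00600d6226b761) (nat_lit 0x8f3d00600db69f3346) (nat_lit 40) (nat_lit 80) (nat_lit 7) (nat_lit 46) (nat_lit 0x5a5ffffff80169696966900005ffffff80001696966900659ffffff80196696966905a59ffffff8e00000000010000005a59a560000000001000659fffff800019669669000059fffff800000001669000005a5fff80169699666998000000000400196697ffe00005a6599a400000017ffe0000000599a400019667ffe0005a65999a4600000000010065a599fff80000196666900000599fff80169696666968000000000400196667ffe00005a5999a400016667ffe0000005999a400000067ffe0000001999a400000007ffe2800000000040000000066948000000000400001696ffe0016969969a620000000001000659a5bff800005a65a6900000005bff8200000000010000000001a5c0000000001000005a5a7f80005a5a65a9300000000004001966969fe0000016996a540000000001000001966bf8001699696a990000000000400065a59afe0000065a5aa440000000001000005a5abf80005a5a66a960000000000400196696afe000001699aa680000000001000005a5a6f80002d2d32c9200000000004001966969be000000b4cb2500000000001000005a5a6780000b4b4cb105a659a5a67a00000000001000659a5a678000000b4cb10000000000040000000006e)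 (Gt.node Gt.nil (nat_lit 0x4530a759663f45dcf4) (nat_lit 0x1000000000000000000) Gt.nil) kT.toG (nat_lit 0x4530a75966af597c60) = true := by decide +kernel
theorem k3 : qck (nat_lit 72) (nat_lit 0x8f3d00600d6226b761) (nat_lit 0x8f3d00600db69f3346) (nat_lit 41) (nat_lit 108) (nat_lit 7) (nat_lit 48) (nat_lit 0x3bc00000000016000000000033c00000000013000000000035c000000000100000000002d9c000000000160000000002d1c000000000138000000002d6c000000000144000000002dac000000000164000000002d2c000000000134000000002d4c00000000016000000032cd8c00000000013000000032cd0c00000000013800000032cd7400000000014400000032cdb400000000016400000032cd3400000000013400000032cd5400000000012000080032cd00000b32d2cd9400000000013000080032cd44000b32d2cd3800080032cd32ccb332d2cd4400080032cd1000b332d2cd6400080032cd2000b332d2cd1400b00032cd0000b332d2cd2000b00032cd6000b332d2cd0000b00032cd14000000000118002d32d2cd64000000000110002d32d2cda4000000000120002d32d2cd24000000000100002d32d2cd44000000000160002d32d2cd84000000000124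000032d2cd04000000000104000032d2cd78000000000118000032d2cdb8000000000108000032d2cd38000000000110000032d2cd58000000000120000032d2cd98000000000100000032d2cd1800000000010c00000002cd6800000000011400000002cda800000000012400000002cd2800000000010400000002cd4800000000012000000002cd880000000001600000000ccd080000000001300000000ccd700000000001380000000ccdb00000000001440000000ccd3000000000010400000000cd5000000000011800000000cd9000000000011000000000cd1000000000012000000000cd600000000001600000000005a0000000000100000000001920000000000160000000001940000000000144000000001980000000000160000000016900000000000160000000006e) kG kQ (nat_lit 0x101df5652d6f0568db3) = true := by decide +kernel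
theorem k4 : kT.ok (nat_lit 72) (Iv.ofN (nat_lit 0x8f3d00600d6226b761) (nat_lit 0x8f3d00600db69f3346)) kG kQ (nat_lit 0x101df5652d6f0568db3) 15 = true := by decide +kernel
theorem k5 : kck (nat_lit 72) (nat_lit 0x8f3d00600d6226b761) (nat_lit 0x8f3d00600db69f3346) (nat_lit 0x4530a759663f45dcf4) (nat_lit 0x4530a75966af597c60) (nat_lit 0x101df5652d6f0568db3) 15 kQ = true := by decide +kernel

theorem partK {x : ℝ} (x0 : 1 / 2 < x) (x2 : x ≤ (190396341115761277108907282895040675840 : ℕ) / 2 ^ 128) (x3 : x < 1)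
    (hn : ∃ n, R n x ≤ kap x) : Inft x (kap x) :=
  kck_sound k1 k2 (by decide +kernel) k3 k4 k5 x0 (x2.trans (by norm_num)) x3 hn

end Pool.Agent.KExp

end
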