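import Pool.Agent.MP_bd9604_nt.Mg.Inf_PartK1
import Pool.Agent.MP_bd9604_nt.Mg.Inf_FT
import Pool.Agent.MP_bd9604_nt.Upper
import Pool.Agent.MP_bd9604_nt.Mg.Inf_EData2
import Pool.Agent.MP_bd9604_nt.Inf.CSpec

attribute [-instance] AddQuantale.instAddLeftMono IdemSemiring.toCanonicallyOrderedAdd
  IdemSemiring.toMulLeftMono covariant_swap_mul_of_covariant_mul RKHS.instFunLike
  AddQuantale.instAddRightMono NumberField.to_charZero instCoeHTCTOfCoeHTC
  Fintype.decidableForallFintype ContinuousSemilinearMapClass.toSemilinearMapClass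
  LinearOrderedCommMonoidWithZero.toIsBotZeroClass CoalgHomClass.toSemilinearMapClass
  IsOrderedMonoid.toMulLeftMono Quantale.instMulRightMono IsOrderedRing.toIsStrictOrderedRing
  instCoeTOfCoeDep MonTypeEquivalenceMon.monMonoid Quantale.instMulLeftMono instCoeT
  Invertible.toNeZero Group.IsPerfect.subsingleton_of_isMulCommutative
  Order.Coframe.toCompleteLattice TestFunctionClass.toDFunLike ContDiffMapSupportedInClass.toDFunLike
  NormedAlgebra.toAlgebra LinearOrderedCommMonoidWithZero.toPosMulStrictMono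
  AddGroupWithOne.toIntCast OmegaCompletePartialOrder.toPartialOrder
  SemilinearIsometryClass.toSemilinearMapClass RingHomClass.toLinearMapClassNNRat

-- part MP_bd9604_nt.Inf.PartK2
section

/-! If `kap` is a code of level `m` the formal theorem applies.

Suppose kap has finitely many expansions; kap = val a where val u = P m * T Y u, Y = X m x < 1/2. As kap >= R n > 0, a 0 = 1.
Put S u := Sg u and SR x kap (val u) or SR x kap (- val u); mu u := (Ex x (val u)).encard.toNat (finite for S u: SR.inft). Then FSys a S mu: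
root: blk; shift: rch_code, Rch.neg, Rch.encard_le; nota: loop_inft (0 <= kap).
node: 0 < val v < val a = kap (g_le_code and g_eq, T_lt_of_first), so val v is a node; SR (val v) (val (sh v 1)) by blk, SR.lt.
kap - val v = Y^j (kap + t) with t = P m * T Y (om a v j) (T_sub, T_split / T_zero_head; the digits of om are +-1, +-3, om 0 = 1). The child
(- val v - 1) / x = - 1 / (1 - x) + (kap - val v) / x reaches (t - 1) / x by rch_scale with x^r = Y^j (kap_add_one), then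
t' = P m * T Y (sh om 1) by blk; so SR (- val v) t'. If om is not a word of signs let i >= 1 be the first place with om i = 3 s; t' reaches
P m * T Y (sh om i) = s (3 P m + 2 Y z + Y z') (blk'; each digit d in +-1, +-3 is 2 u + u' with signs u, u'; T_add), which has infinitely many
expansions by h3: contradiction. Finally T x tm = val tm (T_tm) and T x tm <= R (n+1) < R n <= kap (abs_code_le), so lt_tri and T_lt_of_first give
LtAt tm a d, and FT gives False. -/

namespace Pool.Agent.KExp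

/-- the value of a word of blocks of level `m` -/
noncomputable def valK2 (x : ℝ) (m : ℕ) (u : ℕ → ℤ) : ℝ := P m x * T (X m x) u

lemma val_neg_K2 (x : ℝ) (m : ℕ) (u : ℕ → ℤ) : valK2 x m (fun i => - u i) = - valK2 x m u := by
  unfold valK2; rw [T_neg]; ring

lemma val_step_K2 {x : ℝ} (h0 : 0 < x) (h1 : x < 1) (m : ℕ) {u : ℕ → ℤ} {C : ℤ}
    (h : ∀ i, |u i| ≤ C) : valK2 x m u = u 0 * P m x + X m x * valK2 x m (sh u 1) := by
  unfold valK2
  rw [T_step (X_pos h0 m).le (X_lt_one h0 h1 m) h]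
  have : (fun i => u (i + 1)) = sh u 1 := rfl
  rw [this]; ring

lemma sr_step_K2 {x : ℝ} (h0 : 0 < x) (h1 : x < 1) (m : ℕ) {u : ℕ → ℤ} (h : Sg u) :
    SR x (valK2 x m u) (valK2 x m (sh u 1)) := by
  refine ⟨u 0, h 0, ?_⟩
  rw [val_step_K2 h0 h1 m h.abs_le]
  exact blk h0 m (u 0) (h 0) _

lemma toNat_lt_K2 {a b : ℕ∞} (h : a < b) (hb : b ≠ ⊤) : a.toNat < b.toNat := by
  lift b to ℕ using hb
  lift a to ℕ using h.ne_top
  simpa using h

lemma val_pos_K2 {x : ℝ} (h0 : 0 < x) (h1 : x < 1) {m : ℕ} (hY : X m x < 1 / 2) {u : ℕ → ℤ}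
    (h : Sg u) (hu : u 0 = 1) : 0 < valK2 x m u := by
  have a := g_le_code h0 h1 m h hu
  have b := g_eq h0 h1 m
  have c := mul_pos (R_pos h0 h1 m) (show 0 < 1 - 2 * X m x by linarith)
  unfold valK2
  linarith only [a, b, c]

lemma val_lt_K2 {x : ℝ} (h0 : 0 < x) (h1 : x < 1) {m : ℕ} (hY : X m x < 1 / 2) {u v : ℕ → ℤ}
    (hu : Sg u) (hv : Sg v) {j : ℕ} (h : LtAt u v j) : valK2 x m u < valK2 x m v :=
  mul_lt_mul_of_pos_left (T_lt_of_first (X_pos h0 m) hY hu hv h.1 h.2.1 h.2.2) (P_pos h0 h1 m)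

/-- words with digits `± 1`, `± 3` -/
lemma odd_split_K2 {x : ℝ} (h0 : 0 < x) (h1 : x < 1) (m : ℕ) {d : ℕ → ℤ}
    (hd : ∀ i, d i = 1 ∨ d i = -1 ∨ d i = 3 ∨ d i = -3) :
    ∃ z z', Cd x m z ∧ Cd x m z' ∧ valK2 x m d = 2 * z + z' := by
  have s1 : Sg fun i => if 0 < d i then (1 : ℤ) else -1 := fun i => by
    dsimp only; split_ifs <;> simp
  have s2 : Sg fun i => d i - 2 * if 0 < d i then (1 : ℤ) else -1 := fun i => by
    dsimp only
    rcases hd i with e | e | e | e <;> rw [e] <;> simp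
  refine ⟨_, _, ⟨_, s1, rfl⟩, ⟨_, s2, rfl⟩, ?_⟩
  have hX := (X_pos h0 m).le
  have hX1 := X_lt_one h0 h1 m
  have b2 : ∀ i, |(if 0 < d i then (1 : ℤ) else -1) + (if 0 < d i then (1 : ℤ) else -1)| ≤ 2 :=
    fun i => by split_ifs <;> simp
  have e1 := T_add hX hX1 s1.abs_le s1.abs_le
  have e2 := T_add hX hX1 b2 s2.abs_le
  have e3 : (fun i => (if 0 < d i then (1 : ℤ) else -1) + (if 0 < d i then (1 : ℤ) else -1) +
      (d i - 2 * if 0 < d i then (1 : ℤ) else -1)) = d := by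
    funext i; ring
  rw [e3, e1] at e2
  unfold valK2
  rw [e2]; ring

lemma om_dig_K2 {a v : ℕ → ℤ} (ha : Sg a) (hv : Sg v) (j i : ℕ) :
    om a v j i = 1 ∨ om a v j i = -1 ∨ om a v j i = 3 ∨ om a v j i = -3 := by
  unfold om
  rcases ha (i + j) with p | p <;> rcases hv (i + j) with q | q <;> rcases ha i with r | r <;>
    omega

lemma om_abs_K2 {a v : ℕ → ℤ} (ha : Sg a) (hv : Sg v) (j i : ℕ) : |om a v j i| ≤ 3 := by
  rcases om_dig_K2 ha hv j i with e | e | e | e <;> rw [e] <;> simp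

/-- the side branch of a node -/
lemma side_K2 {x : ℝ} (h0 : 0 < x) (h1 : x < 1) {m : ℕ} {a v : ℕ → ℤ} (ha : Sg a) (hv : Sg v)
    (hk : kap x = valK2 x m a) (a0 : a 0 = 1) {j : ℕ} (hj : LtAt v a j) :
    SR x (- valK2 x m v) (valK2 x m (sh (om a v j) 1)) := by
  have hX := X_pos h0 m
  have hX1 := X_lt_one h0 h1 m
  have o0 : om a v j 0 = 1 := by
    unfold om; rw [zero_add, hj.2.1, hj.2.2, a0]; rfl
  have e0 := val_step_K2 h0 h1 m (om_abs_K2 ha hv j)
  rw [o0] at e0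
  have b2 : ∀ i, |a (i + j) - v (i + j)| ≤ 2 := fun i => by
    rcases ha (i + j) with p | p <;> rcases hv (i + j) with q | q <;> simp [p, q]
  have e1 := T_sub hX.le hX1 (ha.shift j).abs_le (hv.shift j).abs_le
  have e2 := T_sub hX.le hX1 b2 ha.abs_le
  have e3 := T_split hX.le hX1 ha.abs_le j
  have e4 := T_split hX.le hX1 hv.abs_le j
  have e5 : ∑ i ∈ Finset.range j, (v i : ℝ) * X m x ^ i =
      ∑ i ∈ Finset.range j, (a i : ℝ) * X m x ^ i :=
    Finset.sum_congr rfl fun i hi => by rw [hj.1 i (Finset.mem_range.1 hi)]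
  have e6 : kap x - valK2 x m v = X m x ^ j * (valK2 x m (om a v j) + kap x) := by
    have e7 : T (X m x) (om a v j) = T (X m x) (fun i => a (i + j)) -
        T (X m x) (fun i => v (i + j)) - T (X m x) a := by rw [← e1, ← e2]; rfl
    rw [hk]
    unfold valK2
    rw [e7]
    linear_combination P m x * (e3 - e4 - e5)
  have hka := kap_add_one h1
  have r := rch_scale h0 h1 (2 ^ m * j) ((kap x - valK2 x m v) / x)
  have p1 : x ^ (2 ^ m * j) = X m x ^ j := by rw [pow_mul]; rfl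
  have hne : X m x ^ j ≠ 0 := (pow_pos hX j).ne'
  have q1 : -(1 / (1 - x)) + (kap x - valK2 x m v) / x = (- valK2 x m v - ((1 : ℤ) : ℝ)) / x := by
    rw [eq_div_iff h0.ne', add_mul, div_mul_cancel₀ _ h0.ne']
    push_cast
    linarith only [hka]
  have q2 : -(1 / (1 - x)) + (kap x - valK2 x m v) / x / x ^ (2 ^ m * j) =
      (((1 : ℤ) : ℝ) * P m x + X m x * valK2 x m (sh (om a v j) 1) - ((1 : ℤ) : ℝ)) / x := by
    rw [← e0, p1, e6, div_right_comm, mul_div_cancel_left₀ _ hne, eq_div_iff h0.ne', add_mul,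
      div_mul_cancel₀ _ h0.ne']
    push_cast
    linarith only [hka]
  rw [q1, q2] at r
  exact ⟨1, Or.inl rfl, r.trans (blk h0 m 1 (Or.inl rfl) _)⟩

/-- a word with a first digit `± 3` has infinitely many expansions -/
lemma three_K2 {x : ℝ} (h0 : 0 < x) (h1 : x < 1) {m : ℕ}
    (h3 : ∀ z z', Cd x m z → Cd x m z' → Inft x (3 * P m x + 2 * X m x * z + X m x * z'))
    (i : ℕ) : ∀ d : ℕ → ℤ, (∀ k, d k = 1 ∨ d k = -1 ∨ d k = 3 ∨ d k = -3) →
      ¬ (d i = 1 ∨ d i = -1) → Inft x (valK2 x m d) := by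
  induction i with
  | zero =>
    intro d hd hi
    have hb : ∀ k, |d k| ≤ 3 := fun k => by
      rcases hd k with e | e | e | e <;> rw [e] <;> simp
    obtain ⟨z, z', c1, c2, e⟩ := odd_split_K2 h0 h1 m (d := sh d 1) fun k => hd _
    rw [val_step_K2 h0 h1 m hb, e]
    rcases hd 0 with p | p | p | p
    · exact absurd (Or.inl p) hi
    · exact absurd (Or.inr p) hi
    · rw [p]
      convert h3 z z' c1 c2 using 1
      push_cast; ring
    · rw [p]
      convert (h3 _ _ c1.neg c2.neg).neg using 1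
      push_cast; ring
  | succ i ih =>
    intro d hd hi
    have hb : ∀ k, |d k| ≤ 3 := fun k => by
      rcases hd k with e | e | e | e <;> rw [e] <;> simp
    by_cases hs : d 0 = 1 ∨ d 0 = -1
    · exact (blk' h0 m hs (val_step_K2 h0 h1 m hb)).inft h0 h1 (ih (sh d 1) (fun k => hd _) hi)
    · obtain ⟨z, z', c1, c2, e⟩ := odd_split_K2 h0 h1 m (d := sh d 1) fun k => hd _
      rw [val_step_K2 h0 h1 m hb, e]
      rcases hd 0 with p | p | p | p
      · exact absurd (Or.inl p) hs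
      · exact absurd (Or.inr p) hs
      · rw [p]
        convert h3 z z' c1 c2 using 1
        push_cast; ring
      · rw [p]
        convert (h3 _ _ c1.neg c2.neg).neg using 1
        push_cast; ring

theorem K_final {x : ℝ} (h0 : 1 / 2 ≤ x) (h1 : x < 1) {m : ℕ} (hY : X m x < 1 / 2)
    (hn : ∃ n, R n x ≤ kap x) (hc : Cd x m (kap x))
    (h3 : ∀ z z', Cd x m z → Cd x m z' → Inft x (3 * P m x + 2 * X m x * z + X m x * z')) :
    Inft x (kap x) := by
  have hx : 0 < x := by linarith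
  obtain ⟨n, hn⟩ := hn
  obtain ⟨a, ha, hk⟩ := hc
  replace hk : kap x = valK2 x m a := hk
  have hkp : 0 < kap x := (R_pos hx h1 n).trans_le hn
  have a0 : a 0 = 1 := by
    rcases ha 0 with e | e
    · exact e
    · have := val_pos_K2 hx h1 hY ha.neg (by simp [e])
      rw [val_neg_K2] at this
      linarith only [hk, hkp, e, this]
  by_contra hf
  have fin : ∀ u, (SR x (kap x) (valK2 x m u) ∨ SR x (kap x) (- valK2 x m u)) →
      ¬ Inft x (valK2 x m u) := by
    rintro u (h | h) hu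
    · exact hf (h.inft hx h1 hu)
    · exact hf (h.inft hx h1 hu.neg)
  have F : FSys a (fun u => Sg u ∧ (SR x (kap x) (valK2 x m u) ∨ SR x (kap x) (- valK2 x m u)))
      (fun u => (Ex x (valK2 x m u)).encard.toNat) := by
    refine ⟨ha, fun u h => h.1, fun u h => ⟨⟨h.1.neg, ?_⟩, ?_⟩, ⟨ha.sh 1, Or.inl ?_⟩,
      fun u h => ⟨⟨h.1.sh 1, ?_⟩, ?_⟩, fun h => ?_, fun v j h v0 hj => ?_⟩
    · rw [val_neg_K2, neg_neg]
      exact h.2.symm
    · rw [val_neg_K2, encard_neg]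
    · rw [hk]
      exact sr_step_K2 hx h1 m ha
    · have r := (sr_step_K2 hx h1 m h.1).rch hx
      exact h.2.imp (fun t => t.trans_rch r) (fun t => t.trans_rch r.neg)
    · exact ENat.toNat_le_toNat (((sr_step_K2 hx h1 m h.1).rch hx).encard_le hx h1) (fin u h.2)
    · rw [← hk] at h
      exact hf (loop_inft h0 h1 (abs_of_pos hkp).le h.2)
    · have p1 := val_pos_K2 hx h1 hY h.1 v0
      have p2 := val_lt_K2 hx h1 hY h.1 ha hj
      have nd : |valK2 x m v| ≤ kap x := by rw [abs_of_pos p1, hk]; exact p2.le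
      have sd := side_K2 hx h1 ha h.1 hk a0 hj
      have fv := fin v h.2
      have so : Sg (om a v j) := fun i => by
        by_contra hi
        cases i with
        | zero =>
          refine hi (Or.inl ?_)
          unfold om; rw [zero_add, hj.2.1, hj.2.2, a0]; rfl
        | succ i =>
          exact fv (inft_neg.1 (sd.inft hx h1 (three_K2 hx h1 h3 i (sh (om a v j) 1)
            (fun k => om_dig_K2 ha h.1 j _) hi)))
      refine ⟨so, ⟨so.sh 1, ?_⟩, ?_, ?_⟩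
      · rcases h.2 with t | t
        · right
          have := sd.neg
          rw [neg_neg] at this
          exact t.trans_rch (this.rch hx)
        · exact Or.inl (t.trans_rch (sd.rch hx))
      · have := sd.lt h0 h1 (by rwa [abs_neg]) (by rwa [inft_neg])
        rw [encard_neg] at this
        exact toNat_lt_K2 this fv
      · exact toNat_lt_K2 ((sr_step_K2 hx h1 m h.1).lt h0 h1 nd fv) fv
  have t1 : valK2 x m tm < valK2 x m a := by
    have b := abs_code_le hx h1 (n + 1) sg_tm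
    rw [← T_tm hx h1] at b
    have c : valK2 x m tm = T x tm := (T_tm hx h1 m).symm
    have := R_succ_lt hx h1 n
    linarith only [le_abs_self (T x tm), hn, hk, b, c, this]
  rcases lt_tri sg_tm ha with e | ⟨d, hd⟩ | ⟨d, hd⟩
  · rw [e] at t1; exact lt_irrefl _ t1
  · exact FT d F hd
  · exact lt_asymm t1 (val_lt_K2 hx h1 hY ha sg_tm hd)

end Pool.Agent.KExp

end

-- part MP_bd9604_nt.Inf.ISound
section

/-! Soundness of interval evaluation and of the test for polynomial identities. -/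

namespace Pool.Agent.KExp

variable {S : ℕ} {a b : Iv} {v w : ℝ}

lemma natAbs_ISound (z : ℤ) : ((z.natAbs : ℕ) : ℝ) = |(z : ℝ)| := by
  rw [← Int.cast_abs, Int.abs_eq_natAbs, Int.cast_natCast]

lemma ndiv_ISound (n d : ℕ) (hd : 0 < d) : (n : ℝ) / d ≤ ((n / d : ℕ) : ℝ) + 1 := by
  have h : (0 : ℝ) < d := by exact_mod_cast hd
  rw [div_le_iff₀ h]
  exact_mod_cast (Nat.lt_mul_div_succ n hd).le.trans (by rw [mul_comm])

theorem Iv.mem_cst (S : ℕ) (z : ℤ) : (Iv.cst S z).mem S z := by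
  intro _
  have : (Iv.cst S z).m = z * 2 ^ S := by
    show z * ((1 <<< S : ℕ) : ℤ) = _
    simp [Nat.shiftLeft_eq]
  rw [this]
  simp
theorem Iv.mem_add (ha : a.mem S v) (hb : b.mem S w) : (a.add b).mem S (v + w) := by
  intro h
  obtain ⟨h1, h2⟩ := Bool.and_eq_true_iff.1 h
  have h3 := abs_le.1 (ha h1)
  have h4 := abs_le.1 (hb h2)
  show |(v + w) * 2 ^ S - ((a.m + b.m : ℤ) : ℝ)| ≤ ((a.r + b.r : ℕ) : ℝ)
  push_cast
  rw [abs_le]
  constructor <;> linarith only [h3.1, h3.2, h4.1, h4.2]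
theorem Iv.mem_neg (ha : a.mem S v) : a.neg.mem S (-v) := by
  intro h
  have h3 := abs_le.1 (ha h)
  show |(-v) * 2 ^ S - ((-a.m : ℤ) : ℝ)| ≤ (a.r : ℝ)
  push_cast
  rw [abs_le]
  constructor <;> linarith only [h3.1, h3.2]
theorem Iv.mem_sub (ha : a.mem S v) (hb : b.mem S w) : (a.sub b).mem S (v - w) := by
  intro h
  obtain ⟨h1, h2⟩ := Bool.and_eq_true_iff.1 h
  have h3 := abs_le.1 (ha h1)
  have h4 := abs_le.1 (hb h2)
  show |(v - w) * 2 ^ S - ((a.m - b.m : ℤ) : ℝ)| ≤ ((a.r + b.r : ℕ) : ℝ)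
  push_cast
  rw [abs_le]
  constructor <;> linarith only [h3.1, h3.2, h4.1, h4.2]
theorem Iv.mem_mul (ha : a.mem S v) (hb : b.mem S w) : (a.mul S b).mem S (v * w) := by
  intro h
  obtain ⟨h1, h2⟩ := Bool.and_eq_true_iff.1 h
  have h3 := ha h1
  have h4 := hb h2
  have hp : (0 : ℝ) < 2 ^ S := by positivity
  show |v * w * 2 ^ S - (((a.m * b.m) >>> S : ℤ) : ℝ)| ≤
    (((a.m.natAbs * b.r + (b.m.natAbs + b.r) * a.r) >>> S + 2 : ℕ) : ℝ)
  rw [Int.shiftRight_eq_div_pow, Nat.shiftRight_eq_div_pow]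
  have h5 := ndiv_ISound (a.m.natAbs * b.r + (b.m.natAbs + b.r) * a.r) (2 ^ S) (by positivity)
  have h6 : |((a.m * b.m : ℤ) : ℝ) / 2 ^ S - ((a.m * b.m / ((2 ^ S : ℕ) : ℤ) : ℤ) : ℝ)| ≤ 1 := by
    have hz : (0 : ℤ) < ((2 ^ S : ℕ) : ℤ) := by positivity
    have e1 := Int.ediv_mul_le (a.m * b.m) hz.ne'
    have e2 := (Int.lt_ediv_add_one_mul_self (a.m * b.m) hz).le
    generalize a.m * b.m / ((2 ^ S : ℕ) : ℤ) = q at *
    have e3 : (q : ℝ) * 2 ^ S ≤ ((a.m * b.m : ℤ) : ℝ) := by exact_mod_cast e1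
    have e4 : ((a.m * b.m : ℤ) : ℝ) ≤ (q + 1) * 2 ^ S := by exact_mod_cast e2
    rw [← le_div_iff₀ hp] at e3
    rw [← div_le_iff₀ hp] at e4
    rw [abs_le]
    constructor <;> linarith only [e3, e4]
  have h7 : |v * w * 2 ^ S - ((a.m * b.m : ℤ) : ℝ) / 2 ^ S| ≤
      (|(a.m : ℝ)| * b.r + (|(b.m : ℝ)| + b.r) * a.r) / 2 ^ S := by
    have e : v * w * 2 ^ S - ((a.m * b.m : ℤ) : ℝ) / 2 ^ S =
        (a.m * (w * 2 ^ S - b.m) + w * 2 ^ S * (v * 2 ^ S - a.m)) / 2 ^ S := by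
      push_cast
      field_simp
      ring
    rw [e, abs_div, abs_of_pos hp]
    refine div_le_div_of_nonneg_right ((abs_add_le _ _).trans ?_) hp.le
    rw [abs_mul, abs_mul (w * 2 ^ S)]
    have e5 : |w * 2 ^ S| ≤ |(b.m : ℝ)| + b.r := by
      linarith only [abs_sub_abs_le_abs_sub (w * 2 ^ S) b.m, h4]
    gcongr
  have h8 := abs_sub_le (v * w * 2 ^ S) (((a.m * b.m : ℤ) : ℝ) / 2 ^ S)
    ((a.m * b.m / ((2 ^ S : ℕ) : ℤ) : ℤ) : ℝ)
  rw [Nat.cast_add _ 2]
  generalize (a.m.natAbs * b.r + (b.m.natAbs + b.r) * a.r) / 2 ^ S = q at *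
  push_cast [natAbs_ISound] at h5
  norm_num only [Nat.cast_ofNat]
  linarith
theorem Iv.mem_inv (ha : a.mem S v) : (a.inv S).mem S v⁻¹ := by
  intro h
  obtain ⟨h1, h2⟩ := Bool.and_eq_true_iff.1 h
  have h3 := ha h1
  have hlt : a.r < a.m.natAbs := Nat.blt_eq.mp h2
  have hp : (0 : ℝ) < 2 ^ S := by positivity
  show |v⁻¹ * 2 ^ S - ((Int.tdiv ((1 <<< (2 * S) : ℕ) : ℤ) a.m : ℤ) : ℝ)| ≤
    ((a.r <<< (2 * S) / (a.m.natAbs * (a.m.natAbs - a.r)) + 2 : ℕ) : ℝ)
  rw [Nat.shiftLeft_eq, Nat.shiftLeft_eq, one_mul]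
  have h5 := ndiv_ISound (a.r * 2 ^ (2 * S)) (a.m.natAbs * (a.m.natAbs - a.r))
    (Nat.mul_pos (by omega) (by omega))
  have hr : (a.r : ℝ) < |(a.m : ℝ)| := by rw [← natAbs_ISound]; exact_mod_cast hlt
  have hm : 0 < |(a.m : ℝ)| := lt_of_le_of_lt (Nat.cast_nonneg _) hr
  have hm0 : (a.m : ℝ) ≠ 0 := abs_pos.1 hm
  have hV : |(a.m : ℝ)| - a.r ≤ |v * 2 ^ S| := by
    linarith only [abs_sub_abs_le_abs_sub (a.m : ℝ) (v * 2 ^ S), abs_sub_comm (a.m : ℝ) (v * 2 ^ S), h3]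
  have hv0 : v ≠ 0 := by
    rintro rfl
    simp only [zero_mul, abs_zero] at hV
    linarith only [hr, hV]
  have h6 : |(2 : ℝ) ^ (2 * S) / a.m - ((Int.tdiv ((2 ^ (2 * S) : ℕ) : ℤ) a.m : ℤ) : ℝ)| ≤ 1 := by
    have e1 := Int.mul_tdiv_add_tmod ((2 ^ (2 * S) : ℕ) : ℤ) a.m
    have e2 : (Int.tmod ((2 ^ (2 * S) : ℕ) : ℤ) a.m).natAbs ≤ a.m.natAbs := by
      rw [Int.natAbs_tmod]
      exact (Nat.mod_lt _ (by omega)).le
    generalize Int.tdiv ((2 ^ (2 * S) : ℕ) : ℤ) a.m = q at *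
    generalize Int.tmod ((2 ^ (2 * S) : ℕ) : ℤ) a.m = r at *
    have e3 : (a.m : ℝ) * q + r = 2 ^ (2 * S) := by exact_mod_cast e1
    have e4 : |(r : ℝ)| ≤ |(a.m : ℝ)| := by
      rw [← natAbs_ISound, ← natAbs_ISound]
      exact_mod_cast e2
    have e5 : (2 : ℝ) ^ (2 * S) / a.m - q = r / a.m := by
      rw [← e3]
      field_simp
      ring
    rw [e5, abs_div, div_le_one hm]
    exact e4
  have h7 : |v⁻¹ * 2 ^ S - (2 : ℝ) ^ (2 * S) / a.m| ≤
      a.r * 2 ^ (2 * S) / (|(a.m : ℝ)| * (|(a.m : ℝ)| - a.r)) := by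
    have e : v⁻¹ * 2 ^ S - (2 : ℝ) ^ (2 * S) / a.m =
        -(v * 2 ^ S - a.m) * 2 ^ (2 * S) / (a.m * (v * 2 ^ S)) := by
      rw [two_mul, pow_add]
      field_simp
      ring
    rw [e, abs_div, abs_mul, abs_mul, abs_neg, abs_of_pos (by positivity : (0 : ℝ) < 2 ^ (2 * S))]
    have : 0 < |(a.m : ℝ)| - a.r := by linarith only [hr]
    gcongr
  have h8 := abs_sub_le (v⁻¹ * 2 ^ S) ((2 : ℝ) ^ (2 * S) / a.m)
    ((Int.tdiv ((2 ^ (2 * S) : ℕ) : ℤ) a.m : ℤ) : ℝ)
  generalize a.r * 2 ^ (2 * S) / (a.m.natAbs * (a.m.natAbs - a.r)) = q at *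
  push_cast [natAbs_ISound, Nat.cast_sub hlt.le] at h5
  rw [Nat.cast_add q 2]
  norm_num only [Nat.cast_ofNat]
  linarith

lemma powF_ISound (f : ℕ) : ∀ {a : Iv} {v : ℝ}, a.mem S v → ∀ n, (Iv.powF S f a n).mem S (v ^ n) := by
  induction f with
  | zero => intro a v _ n h; exact absurd h (by simp [Iv.powF])
  | succ f ih =>
    intro a v ha n
    have e : Iv.powF S (f + 1) a n = cond (Nat.beq n 0) (Iv.cst S 1) (cond (Nat.beq n 1) a
        (cond (Nat.beq (n % 2) 0) (Iv.powF S f (Iv.mul S a a) (n / 2))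
          (Iv.mul S a (Iv.powF S f (Iv.mul S a a) (n / 2))))) := rfl
    have h := ih (Iv.mem_mul ha ha) (n / 2)
    rw [e]
    cases h0 : Nat.beq n 0
    · cases h1 : Nat.beq n 1
      · cases h2 : Nat.beq (n % 2) 0
        · have h3 := Nat.ne_of_beq_eq_false h2
          have : v ^ n = v * (v * v) ^ (n / 2) := by
            rw [← pow_two, ← pow_mul, ← pow_succ']
            congr 1
            omega
          rw [this]
          exact Iv.mem_mul ha h
        · have h3 := Nat.eq_of_beq_eq_true h2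
          have : v ^ n = (v * v) ^ (n / 2) := by
            rw [← pow_two, ← pow_mul]
            congr 1
            omega
          rw [this]
          exact h
      · rw [Nat.eq_of_beq_eq_true h1, pow_one]
        exact ha
    · rw [Nat.eq_of_beq_eq_true h0, pow_zero]
      simpa using Iv.mem_cst S 1

theorem Iv.mem_pow (ha : a.mem S v) (n : ℕ) : (a.pow S n).mem S (v ^ n) :=
  powF_ISound 12 ha n
theorem Iv.mem_ofN {l h : ℕ} (h1 : (l : ℝ) / 2 ^ S ≤ v) (h2 : v ≤ (h : ℝ) / 2 ^ S) :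
    (Iv.ofN l h).mem S v := by
  intro _
  have hp : (0 : ℝ) < 2 ^ S := by positivity
  rw [div_le_iff₀ hp] at h1
  rw [le_div_iff₀ hp] at h2
  show |v * 2 ^ S - ((((l + h) / 2 : ℕ) : ℤ) : ℝ)| ≤ (((h - l) / 2 + 1 : ℕ) : ℝ)
  have h3 : l ≤ h := by exact_mod_cast h1.trans h2
  have h4 : (l + h) / 2 ≤ l + ((h - l) / 2 + 1) := by omega
  have h5 : h ≤ (l + h) / 2 + ((h - l) / 2 + 1) := by omega
  generalize (l + h) / 2 = m at *
  generalize (h - l) / 2 + 1 = r at *
  have h6 : (m : ℝ) ≤ l + r := by exact_mod_cast h4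
  have h7 : (h : ℝ) ≤ m + r := by exact_mod_cast h5
  rw [Int.cast_natCast, abs_le]
  constructor <;> linarith only [h1, h6, h2, h7]
theorem Iv.mem_ball {r : ℕ} (h : |v| ≤ (r : ℝ) / 2 ^ S) : (Iv.ball r).mem S v := by
  intro _
  have hp : (0 : ℝ) < 2 ^ S := by positivity
  rw [le_div_iff₀ hp] at h
  show |v * 2 ^ S - ((0 : ℤ) : ℝ)| ≤ (r : ℝ)
  rwa [Int.cast_zero, sub_zero, abs_mul, abs_of_pos hp]
theorem Iv.pos_sound (ha : a.mem S v) (h : a.pos = true) : 0 < v := by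
  obtain ⟨h1, h2⟩ := Bool.and_eq_true_iff.1 h
  have h3 := abs_le.1 (ha h1)
  have hlt : a.r < a.m.toNat := Nat.blt_eq.mp h2
  have h4 : (a.r : ℤ) < a.m := by omega
  have h5 : (a.r : ℝ) < a.m := by exact_mod_cast h4
  exact (mul_pos_iff_of_pos_right (show (0 : ℝ) < 2 ^ S by positivity)).1 (by linarith only [h3.1, h5])
theorem Iv.nz_sound (ha : a.mem S v) (h : a.nz = true) : v ≠ 0 := by
  obtain ⟨h1, h2⟩ := Bool.and_eq_true_iff.1 h
  have h3 := ha h1
  have hlt : a.r < a.m.natAbs := Nat.blt_eq.mp h2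
  have hr : (a.r : ℝ) < |(a.m : ℝ)| := by rw [← natAbs_ISound]; exact_mod_cast hlt
  rintro rfl
  rw [zero_mul, zero_sub, abs_neg] at h3
  linarith only [hr, h3]
theorem Iv.abs_le_hi (ha : a.mem S v) (h : a.ok = true) : |v| ≤ (a.hi : ℝ) / 2 ^ S := by
  have hp : (0 : ℝ) < 2 ^ S := by positivity
  have h3 := ha h
  have h4 := abs_sub_abs_le_abs_sub (v * 2 ^ S) a.m
  rw [abs_mul, abs_of_pos hp] at h4
  rw [le_div_iff₀ hp]
  show _ ≤ ((a.m.natAbs + a.r : ℕ) : ℝ)
  push_cast [natAbs_ISound]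
  linarith
theorem Iv.lo_le_abs (ha : a.mem S v) (h : a.ok = true) : (a.lo : ℝ) / 2 ^ S ≤ |v| := by
  have hp : (0 : ℝ) < 2 ^ S := by positivity
  have h3 := ha h
  have h4 := abs_sub_abs_le_abs_sub (a.m : ℝ) (v * 2 ^ S)
  rw [abs_mul, abs_of_pos hp, abs_sub_comm] at h4
  rw [div_le_iff₀ hp]
  show ((a.m.natAbs - a.r : ℕ) : ℝ) ≤ _
  rcases le_total a.r a.m.natAbs with h5 | h5
  · rw [Nat.cast_sub h5, natAbs_ISound]
    linarith only [h3, h4]
  · rw [Nat.sub_eq_zero_of_le h5, Nat.cast_zero]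
    positivity
theorem Gt.miss_sound {G : Gt} {l h : ℕ} (hm : G.miss l h = true) (h1 : (l : ℝ) / 2 ^ S ≤ v)
    (h2 : v ≤ (h : ℝ) / 2 ^ S) : ¬ G.mem S v := by
  have hp : (0 : ℝ) < 2 ^ S := by positivity
  induction G with
  | nil => exact id
  | node L x y R ihl ihr =>
    have hm' : ((Nat.blt h x || Nat.blt y l) && L.miss l h && R.miss l h) = true := hm
    simp only [Bool.and_eq_true, Bool.or_eq_true, Nat.blt_eq] at hm'
    rintro (h3 | ⟨h3, h4⟩ | h3)
    · exact ihl hm'.1.2 h3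
    · have h5 := (div_le_div_iff_of_pos_right hp).1 (h3.trans h2)
      have h6 := (div_le_div_iff_of_pos_right hp).1 (h1.trans h4)
      rw [Nat.cast_le] at h5 h6
      omega
    · exact ihr hm'.2 h3
theorem Iv.out_sound {G : Gt} {c : ℕ} (ha : a.mem S v) (h : a.out G c = true) :
    |v| ≤ (c : ℝ) / 2 ^ S ∧ ¬ G.mem S |v| := by
  simp only [Iv.out, Bool.and_eq_true, Nat.ble_eq] at h
  obtain ⟨⟨h1, h2⟩, h3⟩ := h
  refine ⟨(Iv.abs_le_hi ha h1).trans ?_,
    Gt.miss_sound h3 (Iv.lo_le_abs ha h1) (Iv.abs_le_hi ha h1)⟩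
  gcongr
theorem horI_sound (ha : a.mem S v) (l : List ℤ) : (horI S a l).mem S (horR v l) := by
  induction l with
  | nil =>
    have := Iv.mem_cst S 0
    rwa [Int.cast_zero] at this
  | cons c l ih => exact Iv.mem_add (Iv.mem_cst S c) (Iv.mem_mul ha ih)
theorem Ie.iv_sound {E : ℕ → Iv} {e : ℕ → ℝ} (h : ∀ i, (E i).mem S (e i)) (t : Ie) :
    (t.iv S E).mem S (t.ev e) := by
  induction t with
  | var i => exact h i
  | cst z => exact Iv.mem_cst S z
  | add a b ha hb => exact Iv.mem_add ha hb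
  | sub a b ha hb => exact Iv.mem_sub ha hb
  | mul a b ha hb => exact Iv.mem_mul ha hb
  | inv a ha => exact Iv.mem_inv ha
  | pow a n ha => exact Iv.mem_pow ha n
  | hor l a ha => exact horI_sound ha l

section
open Polynomial

/-- the coefficients of `p` are dominated by those of a polynomial with value `n` at `1` -/
def Dom_ISound (p : ℤ[X]) (n : ℕ) : Prop :=
  ∃ q : ℤ[X], (∀ i, |p.coeff i| ≤ q.coeff i) ∧ q.eval 1 = n

lemma domC_ISound (c : ℤ) : Dom_ISound (C c) c.natAbs :=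
  ⟨C |c|, fun i => by rw [coeff_C, coeff_C]; split_ifs <;> simp, by simp only [eq_intCast, eval_intCast, Int.cast_abs, Int.cast_eq, Nat.cast_natAbs]⟩

lemma domX_ISound : Dom_ISound Polynomial.X 1 :=
  ⟨Polynomial.X, fun i => by rw [coeff_X]; split_ifs <;> simp, by simp⟩

lemma domA_ISound {p p' : ℤ[X]} {n n' : ℕ} (h : Dom_ISound p n) (h' : Dom_ISound p' n') :
    Dom_ISound (p + p') (n + n') ∧ Dom_ISound (p - p') (n + n') := by
  obtain ⟨q, h1, h2⟩ := h
  obtain ⟨q', h3, h4⟩ := h'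
  refine ⟨⟨q + q', fun i => ?_, by simp [h2, h4]⟩, ⟨q + q', fun i => ?_, by simp [h2, h4]⟩⟩
  · rw [coeff_add, coeff_add]
    exact (abs_add_le _ _).trans (add_le_add (h1 i) (h3 i))
  · rw [coeff_sub, coeff_add]
    exact (abs_sub _ _).trans (add_le_add (h1 i) (h3 i))

lemma domM_ISound {p p' : ℤ[X]} {n n' : ℕ} (h : Dom_ISound p n) (h' : Dom_ISound p' n') :
    Dom_ISound (p * p') (n * n') := by
  obtain ⟨q, h1, h2⟩ := h
  obtain ⟨q', h3, h4⟩ := h'
  refine ⟨q * q', fun i => ?_, by simp [h2, h4]⟩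
  rw [coeff_mul, coeff_mul]
  refine (Finset.abs_sum_le_sum_abs _ _).trans (Finset.sum_le_sum fun x _ => ?_)
  rw [abs_mul]
  exact mul_le_mul (h1 _) (h3 _) (abs_nonneg _) ((abs_nonneg _).trans (h1 _))

lemma domP_ISound {p : ℤ[X]} {n : ℕ} (h : Dom_ISound p n) (k : ℕ) :
    Dom_ISound (p ^ k) (n ^ k) := by
  induction k with
  | zero => simpa using domC_ISound 1
  | succ k ih => rw [pow_succ, pow_succ]; exact domM_ISound ih h

lemma domZ_ISound {p : ℤ[X]} {n : ℕ} (h : Dom_ISound p n) (h0 : p.eval ((n + 1 : ℕ) : ℤ) = 0) :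
    p = 0 := by
  obtain ⟨q, h1, h2⟩ := h
  have h3 : ∀ i, |p.coeff i| ≤ n := fun i => by
    rw [← h2, eval_eq_sum_range' (n := q.natDegree + i + 1) (by omega)]
    simp only [one_pow, mul_one]
    exact (h1 i).trans (Finset.single_le_sum (f := fun i => q.coeff i)
      (fun j _ => (abs_nonneg _).trans (h1 j)) (Finset.mem_range.2 (by omega)))
  obtain ⟨r, hr⟩ := dvd_iff_isRoot.2 h0
  have key : ∀ z : ℤ, |-(((n + 1 : ℕ) : ℤ) * z)| ≤ n → z = 0 := fun z hz => by
    rw [abs_neg, abs_mul, abs_of_nonneg (Int.natCast_nonneg _)] at hz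
    by_contra hne
    have := Int.one_le_abs hne
    push_cast at hz
    nlinarith only [this, hz]
  have h4 : ∀ i, r.coeff i = 0 := fun i => by
    induction i with
    | zero =>
      have := h3 0
      rw [hr, sub_mul, coeff_sub, coeff_C_mul, coeff_X_mul_zero, zero_sub] at this
      exact key _ this
    | succ i ih =>
      have := h3 (i + 1)
      rw [hr, sub_mul, coeff_sub, coeff_C_mul, coeff_X_mul, ih, zero_sub] at this
      exact key _ this
  rw [hr, show r = 0 from Polynomial.ext h4, mul_zero]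

lemma kpow_ISound (z : ℤ) (n : ℕ) :
    cond (Nat.beq (n % 2) 0) 1 z.sign * ((z.natAbs ^ n : ℕ) : ℤ) = z ^ n := by
  push_cast
  cases h : Nat.beq (n % 2) 0
  · have := Nat.ne_of_beq_eq_false h
    obtain ⟨k, rfl⟩ : ∃ k, n = 2 * k + 1 := ⟨n / 2, by omega⟩
    rw [cond_false, pow_succ, pow_succ, pow_mul, pow_mul, sq_abs, mul_left_comm, Int.sign_mul_abs]
  · rw [cond_true, one_mul, (Nat.even_iff.2 (Nat.eq_of_beq_eq_true h)).pow_abs]

lemma rep_ISound (t : Ie) (h : t.pol = true) : ∃ p : ℤ[X], Dom_ISound p t.nm ∧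
    (∀ b, t.kev b = p.eval b) ∧ ∀ e : ℕ → ℝ, t.ev e = aeval (e 0) p := by
  induction t with
  | var i =>
    obtain rfl : i = 0 := Nat.eq_of_beq_eq_true h
    exact ⟨Polynomial.X, domX_ISound, fun b => eval_X.symm, fun e => by simp [Ie.ev]⟩
  | cst z => exact ⟨C z, domC_ISound z, fun b => eval_C.symm, fun e => by simp [Ie.ev]⟩
  | add a b ha hb =>
    obtain ⟨p, h1, h2, h3⟩ := ha (Bool.and_eq_true_iff.1 h).1
    obtain ⟨q, h4, h5, h6⟩ := hb (Bool.and_eq_true_iff.1 h).2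
    refine ⟨p + q, (domA_ISound h1 h4).1, fun x => ?_, fun e => by simp [Ie.ev, h3, h6]⟩
    rw [eval_add, ← h2, ← h5]
    rfl
  | sub a b ha hb =>
    obtain ⟨p, h1, h2, h3⟩ := ha (Bool.and_eq_true_iff.1 h).1
    obtain ⟨q, h4, h5, h6⟩ := hb (Bool.and_eq_true_iff.1 h).2
    refine ⟨p - q, (domA_ISound h1 h4).2, fun x => ?_, fun e => by simp [Ie.ev, h3, h6]⟩
    rw [eval_sub, ← h2, ← h5]
    rfl
  | mul a b ha hb =>
    obtain ⟨p, h1, h2, h3⟩ := ha (Bool.and_eq_true_iff.1 h).1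
    obtain ⟨q, h4, h5, h6⟩ := hb (Bool.and_eq_true_iff.1 h).2
    refine ⟨p * q, domM_ISound h1 h4, fun x => ?_, fun e => by simp [Ie.ev, h3, h6]⟩
    rw [eval_mul, ← h2, ← h5]
    rfl
  | inv a _ => exact absurd h Bool.false_ne_true
  | pow a n ha =>
    obtain ⟨p, h1, h2, h3⟩ := ha h
    refine ⟨p ^ n, domP_ISound h1 n, fun x => ?_, fun e => by simp [Ie.ev, h3]⟩
    rw [eval_pow, ← h2]
    exact kpow_ISound _ n
  | hor l a ha =>
    obtain ⟨p, h1, h2, h3⟩ := ha h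
    clear ha h
    induction l with
    | nil => exact ⟨C 0, domC_ISound 0, fun x => eval_C.symm, fun e => by simp [Ie.ev, horR]⟩
    | cons c l ih =>
      obtain ⟨q, h4, h5, h6⟩ := ih
      refine ⟨C c + p * q, (domA_ISound (domC_ISound c) (domM_ISound h1 h4)).1, fun x => ?_,
        fun e => ?_⟩
      · rw [eval_add, eval_C, eval_mul, ← h2, ← h5]
        rfl
      · rw [map_add, map_mul, ← h3, ← h6]
        simp [Ie.ev, horR]

end

theorem Ie.pz_sound {t : Ie} (h : t.pz = true) (e : ℕ → ℝ) : t.ev e = 0 := by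
  obtain ⟨h1, h2⟩ := Bool.and_eq_true_iff.1 h
  obtain ⟨p, h3, h4, h5⟩ := rep_ISound t h1
  have h6 := Int.natAbs_eq_zero.1 (Nat.eq_of_beq_eq_true h2)
  rw [h4] at h6
  rw [h5, domZ_ISound h3 h6, map_zero]
/-- a polynomial expression only depends on the variable `0` -/
theorem Ie.pol_ev {t : Ie} (h : t.pol = true) {e e' : ℕ → ℝ} (h0 : e 0 = e' 0) :
    t.ev e = t.ev e' := by
  obtain ⟨p, -, -, h5⟩ := rep_ISound t h
  rw [h5, h5, h0]
theorem sgs_sound {l : List ℤ} (h : sgs l = true) : ∀ s ∈ l, s = 1 ∨ s = -1 := by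
  induction l with
  | nil => simp
  | cons c l ih =>
    obtain ⟨h1, h2⟩ := Bool.and_eq_true_iff.1 h
    have h3 := Nat.eq_of_beq_eq_true h1
    intro s hs
    rcases List.mem_cons.1 hs with rfl | hs
    · omega
    · exact ih h2 s hs
theorem horR_ev (x : ℝ) (l : List ℤ) : horR x l = ev x l 0 := by
  induction l with
  | nil => rfl
  | cons c l ih => rw [horR, ev, ih]
theorem unw_ev {e : ℕ → ℝ} {x : ℝ} (hx : x ≠ 0) {q : Ie} (hq : q.ev e = x⁻¹) (l : List ℤ) (t : Ie) :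
    ev x l ((unw q l t).ev e) = t.ev e := by
  induction l generalizing t with
  | nil => rfl
  | cons c l ih =>
    have : unw q (c :: l) t = unw q l (Ie.mul (Ie.sub t (Ie.cst c)) q) := rfl
    rw [this, ev, ih]
    simp only [Ie.ev, hq]
    field_simp
    ring
theorem eX_ev (e : ℕ → ℝ) (m : ℕ) : (eX m).ev e = X m (e 0) := rfl
theorem eP_ev (e : ℕ → ℝ) (m : ℕ) : (eP m).ev e = P m (e 0) := by
  induction m with
  | zero => simp [eP, Ie.ev]
  | succ m ih =>
    have : eP (m + 1) = .mul (eP m) (.sub (.cst 1) (eX m)) := rfl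
    rw [this, P_succ]
    simp only [Ie.ev, ih, eX_ev, Int.cast_one]
theorem eR_ev (e : ℕ → ℝ) (m : ℕ) : (eR m).ev e = R m (e 0) := by
  simp only [eR, R, Ie.ev, eP_ev, eX_ev, Int.cast_one, div_eq_mul_inv]
theorem eK_ev (e : ℕ → ℝ) : eK.ev e = kap (e 0) := by
  simp [eK, kap, Ie.ev, div_eq_mul_inv]

end Pool.Agent.KExp

end
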