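import Pool.Agent.MP_bd9604_nt.Mg.Inf_EData2
import Pool.Agent.MP_bd9604_nt.Mg.Inf_ISound
import Pool.Agent.MP_bd9604_nt.Mg.Inf_ChkC
import Pool.Agent.MP_bd9604_nt.Inf.PartC1

attribute [-instance] AddQuantale.instAddLeftMono NumberField.to_charZero
  IdemSemiring.toCanonicallyOrderedAdd invertibleTwo RKHS.instFunLike AddQuantale.instAddRightMono
  NeZero.of_gt' Quantale.instMulRightMono Invertible.toNeZero
  Group.IsPerfect.subsingleton_of_isMulCommutative ContDiffMapSupportedInClass.toDFunLike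
  Fintype.decidableForallFintype LinearOrderedCommMonoidWithZero.toPosMulStrictMono instCoeTOfCoeDep
  TestFunctionClass.toDFunLike IsOrderedMonoid.toMulLeftMono

-- part MP_bd9604_nt.Inf.PartD
section

/-! Terminal nodes and isolated loops.

uq_exact: if z <= R (n+1) use top_uq. Otherwise z = P n + X n * z' with z' = - R (n+1) + (z - R (n+1)) / X n (R_succ), Rch x z z' (blk'),
|z'| < R (n+1), against top_uq.
top_gap: if v <= R (n+1), code_of_branch (t = 0) gives v = R (n+1) or v = g (n+1); in the first case the child reaches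
- R (n+1) (blk, R_succ), which is in the branching interval, against Uq.out. If v > R (n+1) the child reaches (blk) z' as above with
- R (n+1) < z' <= R (n+1), so z' = R (n+1) < kap (top_uq), against Uq.out.
termck_sound: qck_sound with Gt.nil: a terminal point reaches no node (Term.sr_uq, Uq.out), so v is in a gap of T.toG. Induction on T.
For a gap with certificate: environment e 0 = x, e i = v; v = ev x w1 z (unw_ev), SR.of_ev, so z and s1 * z are unique (Uq.neg), s1 * z = R (n+1)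
(uq_exact); same for w2; ev_lin and horR_ev give gapP = 0 at x; then Iv.nz_sound or Ie.pz_sound. F is evaluated at the constant environment.
dck_sound: by contradiction, exists_term; top_gap excludes the special gaps; loopP = 0 says z = ev x wl (s * z) for z with
kap = ev x w0 z; loop_inft, rch_ev. -/

namespace Pool.Agent.KExp

theorem uq_exact {x z : ℝ} (h0 : 1 / 2 ≤ x) (h1 : x < 1) {n : ℕ} (hn : R (n + 2) x ≤ kap x)
    (hu : Uq x z) (h2 : - R (n + 1) x < z) (h3 : z < R (n + 1) x * (1 + 2 * X n x)) :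
    z = R (n + 1) x := by
  have hx : 0 < x := by linarith
  have hX := X_pos hx n
  have hR := R_succ hx h1 n
  rcases le_or_gt z (R (n + 1) x) with c | c
  · rcases top_uq h0 h1 hn hu (abs_le.2 ⟨h2.le, c⟩) with e | e
    · exact e
    · exact absurd e h2.ne'
  · exfalso
    have e1 : z = ((1 : ℤ) : ℝ) * P n x + X n x * ((z - P n x) / X n x) := by
      push_cast; field_simp; ring
    have u1 : Uq x ((z - P n x) / X n x) := (blk' hx n (Or.inl rfl) e1).uq hx h1 hu
    have b1 : - R (n + 1) x < (z - P n x) / X n x := by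
      rw [lt_div_iff₀ hX]; linarith only [hR, c]
    have b2 : (z - P n x) / X n x < R (n + 1) x := by
      rw [div_lt_iff₀ hX]; linarith only [h3, hR]
    rcases top_uq h0 h1 hn u1 (abs_le.2 ⟨b1.le, b2.le⟩) with e | e
    · exact absurd e b2.ne
    · exact absurd e b1.ne'

theorem top_gap {x v : ℝ} (h0 : 1 / 2 ≤ x) (h1 : x < 1) {n : ℕ} (hn : R (n + 2) x ≤ kap x)
    (hk : kap x ≤ R (n + 1) x * (1 + 2 * X n x)) (h2 : g (n + 1) x < v) (h3 : v ≤ kap x)
    (hu : Uq x ((v - 1) / x)) : False := by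
  have hx : 0 < x := by linarith
  have hRp := R_pos hx h1 (n + 1)
  have key : ∀ m : ℕ, Uq x ((v - P m x) / X m x) := fun m => by
    have hX := X_pos hx m
    have e1 : v = ((1 : ℤ) : ℝ) * P m x + X m x * ((v - P m x) / X m x) := by
      push_cast; field_simp; ring
    have := blk hx m 1 (Or.inl rfl) ((v - P m x) / X m x)
    rw [← e1] at this
    exact this.uq hx h1 (by simpa using hu)
  rcases le_or_gt v (R (n + 1) x) with c | c
  · have hX := X_pos hx (n + 1)
    have hR := R_eq hx h1 (n + 1)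
    have hg : g (n + 1) x = P (n + 1) x - X (n + 1) x * R (n + 1) x := rfl
    have b1 : - R (n + 1) x < (v - P (n + 1) x) / X (n + 1) x := by
      rw [lt_div_iff₀ hX]; linarith only [h2, hg]
    have b2 : (v - P (n + 1) x) / X (n + 1) x ≤ R (n + 1) x := by
      rw [div_le_iff₀ hX]; linarith only [c, hR]
    rcases top_uq h0 h1 hn (key (n + 1)) (abs_le.2 ⟨b1.le, b2⟩) with e | e
    · have o := (key (n + 1)).out h0 h1
      rw [e, abs_of_pos hRp] at o
      rw [div_eq_iff hX.ne'] at e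
      linarith only [h3, hR, e, o]
    · exact absurd e b1.ne'
  · have hX := X_pos hx n
    have hR := R_succ hx h1 n
    have b1 : - R (n + 1) x < (v - P n x) / X n x := by
      rw [lt_div_iff₀ hX]; linarith only [c, hR]
    have b2 : (v - P n x) / X n x ≤ R (n + 1) x := by
      rw [div_le_iff₀ hX]; linarith only [hk, h3, hR]
    rcases top_uq h0 h1 hn (key n) (abs_le.2 ⟨b1.le, b2⟩) with e | e
    · have o := (key n).out h0 h1
      rw [e, abs_of_pos hRp] at o
      linarith only [h3, c, o]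
    · exact absurd e b1.ne'

lemma env2_PartD {S : ℕ} {a b : Iv} {x v : ℝ} (ha : a.mem S x) (hb : b.mem S v) (i : ℕ) :
    (env2 a b i).mem S ((fun j : ℕ => if j = 0 then x else v) i) := by
  cases i with
  | zero => exact ha
  | succ i => exact hb

lemma env2c_PartD {S : ℕ} {a : Iv} {x : ℝ} (ha : a.mem S x) (i : ℕ) :
    (env2 a a i).mem S ((fun _ : ℕ => x) i) := by
  cases i with
  | zero => exact ha
  | succ i => exact ha

lemma eG_PartD (e : ℕ → ℝ) (m : ℕ) : (eG m).ev e = g m (e 0) := by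
  simp only [eG, g, Ie.ev, eP_ev, eX_ev, eR_ev]

lemma land_PartD {S n : ℕ} {E : ℕ → Iv} {e : ℕ → ℝ} {w : List ℤ} {s : ℤ}
    (h : landck S E n w s = true) (hE : ∀ i, (E i).mem S (e i)) (h0 : 1 / 2 ≤ e 0) (h1 : e 0 < 1)
    (hn : R (n + 2) (e 0) ≤ kap (e 0)) (ht : Term (e 0) (e 1)) :
    e 1 = horR (e 0) w + s * e 0 ^ w.length * R (n + 1) (e 0) := by
  have hx : 0 < e 0 := by linarith
  simp only [landck, Bool.and_eq_true, Nat.blt_eq] at h
  obtain ⟨⟨a1, a2⟩, a3, a4⟩ := h
  have s1 := sgs_sound a1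
  have p1 := Iv.pos_sound (Ie.iv_sound hE _) a3
  have p2 := Iv.pos_sound (Ie.iv_sound hE _) a4
  simp only [Ie.ev, eR_ev, eX_ev] at p1 p2
  have e1 : ev (e 0) w ((unw eQ w (.var 1)).ev e) = e 1 := unw_ev hx.ne' rfl w (.var 1)
  generalize (unw eQ w (.var 1)).ev e = z at p1 p2 e1
  have u : Uq (e 0) z := by
    cases w with
    | nil => simp at a2
    | cons c w =>
      refine ht.sr_uq hx h1 ?_
      rw [← e1]
      exact SR.of_ev hx (fun r hr => s1 r (List.mem_cons_of_mem _ hr)) z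
  rw [ev_lin, ← horR_ev] at e1
  push_cast at p2
  rcases s1 s (by simp) with rfl | rfl
  · have := uq_exact h0 h1 hn u (by push_cast at p1; linarith only [p1]) (by push_cast at p2; linarith only [p2])
    rw [← e1, this]; push_cast; ring
  · have := uq_exact h0 h1 hn u.neg (by push_cast at p1; linarith only [p1]) (by push_cast at p2; linarith only [p2])
    rw [← e1, ← this]; push_cast; ring

lemma ok_PartD {S n : ℕ} {I : Iv} {F : Ie} {p : ℕ → ℕ → Bool} {x v : ℝ} (hI : I.mem S x)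
    (h0 : 1 / 2 ≤ x) (h1 : x < 1) (hn : R (n + 2) x ≤ kap x) (ht : Term x v) (T : Dt)
    (h : T.ok S I n F p = true) (hm : T.toG.mem S v) : F.ev (fun _ => x) = 0 ∨
      ∃ l h : ℕ, p l h = true ∧ (l : ℝ) / 2 ^ S ≤ v ∧ v ≤ (h : ℝ) / 2 ^ S := by
  induction T with
  | nil => exact hm.elim
  | gap L l u w1 s1 w2 s2 A H R' ihl ihr =>
    have h' : (landck S (env2 I (Iv.ofN l u)) n w1 s1 && landck S (env2 I (Iv.ofN l u)) n w2 s2 &&
        (((gapP n w1 s1 w2 s2).iv S (env2 I I)).nz ||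
          ((Ie.sub (.mul (gapP n w1 s1 w2 s2) (.hor A (.var 0))) (.mul F (.hor H (.var 0)))).pz &&
            ((Ie.hor H (.var 0)).iv S (env2 I I)).nz)) && L.ok S I n F p && R'.ok S I n F p) =
        true := h
    simp only [Bool.and_eq_true, Bool.or_eq_true] at h'
    obtain ⟨⟨⟨⟨a1, a2⟩, a3⟩, a4⟩, a5⟩ := h'
    have hm' : L.toG.mem S v ∨ ((l : ℝ) / 2 ^ S ≤ v ∧ v ≤ (u : ℝ) / 2 ^ S) ∨ R'.toG.mem S v := hm
    rcases hm' with c | c | c
    · exact ihl a4 c
    · have hE := env2_PartD hI (Iv.mem_ofN c.1 c.2)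
      have e1 : v = horR x w1 + s1 * x ^ w1.length * R (n + 1) x :=
        land_PartD a1 hE h0 h1 hn ht
      have e2 : v = horR x w2 + s2 * x ^ w2.length * R (n + 1) x :=
        land_PartD a2 hE h0 h1 hn ht
      have hR := R_eq (by linarith only [h0]) h1 (n + 1)
      have z : (gapP n w1 s1 w2 s2).ev (fun _ => x) = 0 := by
        simp only [gapP, Ie.ev, eX_ev, eP_ev]
        have hP : P (n + 1) x = R (n + 1) x * (1 - X (n + 1) x) := by linarith only [hR]
        rw [hP]
        push_cast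
        linear_combination (1 - X (n + 1) x) * (e2 - e1)
      rcases a3 with a3 | ⟨a3, a6⟩
      · exact absurd z (Iv.nz_sound (Ie.iv_sound (env2c_PartD hI) _) a3)
      · left
        have z1 := Ie.pz_sound a3 (fun _ => x)
        have z2 := Iv.nz_sound (Ie.iv_sound (env2c_PartD hI) _) a6
        rw [Ie.ev, Ie.ev, Ie.ev, z, zero_mul, zero_sub, neg_eq_zero] at z1
        exact (mul_eq_zero.1 z1).resolve_right z2
    · exact ihr a5 c
  | spec L l u R' ihl ihr =>
    have h' : (p l u && L.ok S I n F p && R'.ok S I n F p) = true := h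
    simp only [Bool.and_eq_true] at h'
    obtain ⟨⟨a1, a4⟩, a5⟩ := h'
    have hm' : L.toG.mem S v ∨ ((l : ℝ) / 2 ^ S ≤ v ∧ v ≤ (u : ℝ) / 2 ^ S) ∨ R'.toG.mem S v := hm
    rcases hm' with c | c | c
    · exact ihl a4 c
    · exact Or.inr ⟨l, u, a1, c.1, c.2⟩
    · exact ihr a5 c

theorem termck_sound {S X1 X2 N k L w D n b : ℕ} {T : Dt} {F : Ie} {p : ℕ → ℕ → Bool}
    (h : termck S X1 X2 N k L w D n b T F p = true) {x : ℝ} (x1 : (X1 : ℝ) / 2 ^ S ≤ x)
    (x2 : x ≤ (X2 : ℝ) / 2 ^ S) : (1 / 2 ≤ x ∧ x ≤ 3 / 5 ∧ R (n + 2) x ≤ kap x) ∧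
      ∀ v, 0 ≤ v → v ≤ kap x → Term x v → F.ev (fun _ => x) = 0 ∨
        ∃ l h : ℕ, p l h = true ∧ (l : ℝ) / 2 ^ S ≤ v ∧ v ≤ (h : ℝ) / 2 ^ S := by
  simp only [termck, Bool.and_eq_true] at h
  obtain ⟨⟨⟨a1, a2⟩, a3⟩, a4⟩ := h
  obtain ⟨⟨h0, h2⟩, hq⟩ := qck_sound a1 x1 x2
  have hI : (Iv.ofN X1 X2).mem S x := Iv.mem_ofN x1 x2
  have p1 := Iv.pos_sound (Iv.mem_sub (Iv.mem_ofN le_rfl le_rfl) (Ie.iv_sound (env2c_PartD hI) _)) a2
  have p2 := Iv.pos_sound (Ie.iv_sound (env2c_PartD hI) _) a3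
  simp only [Ie.ev, eK_ev, eR_ev] at p1 p2
  have h1 : x < 1 := by linarith only [h2]
  have hn : R (n + 2) x ≤ kap x := by linarith only [p2]
  refine ⟨⟨h0, h2, hn⟩, fun v v0 v1 ht => ok_PartD hI h0 h1 hn ht T a4 ?_⟩
  by_contra hm
  obtain ⟨z, z1, z2⟩ := hq v (by rw [abs_of_nonneg v0]; linarith only [p1, v1]) (by rwa [abs_of_nonneg v0])
  exact absurd ((ht.sr_uq (by linarith only [h0, h1]) h1 z2).out h0 h1) (not_lt.2 z1.1)

theorem topck_sound {S X1 X2 n l : ℕ} (h : topck S X1 X2 n l = true) {x : ℝ}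
    (x1 : (X1 : ℝ) / 2 ^ S ≤ x) (x2 : x ≤ (X2 : ℝ) / 2 ^ S) :
    g (n + 1) x < (l : ℝ) / 2 ^ S ∧ kap x ≤ R (n + 1) x * (1 + 2 * X n x) := by
  simp only [topck, Bool.and_eq_true] at h
  have hI : (Iv.ofN X1 X2).mem S x := Iv.mem_ofN x1 x2
  have p1 := Iv.pos_sound (Iv.mem_sub (Iv.mem_ofN le_rfl le_rfl) (Ie.iv_sound (env2c_PartD hI) _)) h.1
  have p2 := Iv.pos_sound (Ie.iv_sound (env2c_PartD hI) _) h.2
  simp only [Ie.ev, eG_PartD, eK_ev, eR_ev, eX_ev] at p1 p2
  push_cast at p2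
  constructor <;> linarith only [p1, p2]

theorem dck_sound {S X1 X2 N k L w D n b : ℕ} {T : Dt} {w0 wl : List ℤ} {s : ℤ}
    (h : dck S X1 X2 N k L w D n b T w0 wl s = true) {x : ℝ} (x1 : (X1 : ℝ) / 2 ^ S ≤ x)
    (x2 : x ≤ (X2 : ℝ) / 2 ^ S) : Inft x (kap x) := by
  simp only [dck, Bool.and_eq_true, Bool.or_eq_true, Nat.blt_eq, Nat.beq_eq] at h
  obtain ⟨⟨⟨⟨a1, a2⟩, a3⟩, a4⟩, a5⟩ := h
  obtain ⟨⟨h0, h2, hn⟩, hT⟩ := termck_sound a1 x1 x2
  have hx : 0 < x := by linarith only [h0]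
  have h1 : x < 1 := by linarith only [h2, hx]
  have hI : (Iv.ofN X1 X2).mem S x := Iv.mem_ofN x1 x2
  have hk : 0 ≤ kap x := (R_pos hx h1 _).le.trans hn
  by_contra hf
  obtain ⟨v, v0, v1, ht⟩ := exists_term h0 h1 (abs_of_nonneg hk).le hf
  rcases hT v v0 v1 ht with c | ⟨l, u, c1, c2, -⟩
  · have e1 : ev x w0 ((unw eQ w0 eK).ev fun _ => x) = kap x := by
      rw [unw_ev (e := fun _ => x) hx.ne' rfl w0 eK, eK_ev]
    have hz : |(unw eQ w0 eK).ev fun _ => x| ≤ kap x := by
      rcases a5 with a5 | ⟨a5, a6⟩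
      · obtain rfl := List.length_eq_zero_iff.1 a5
        have e2 : ((unw eQ [] eK).ev fun _ => x) = kap x := e1
        rw [e2, abs_of_nonneg hk]
      · have p1 := Iv.pos_sound (Ie.iv_sound (env2c_PartD hI) _) a5
        have p2 := Iv.pos_sound (Ie.iv_sound (env2c_PartD hI) _) a6
        simp only [Ie.ev, eK_ev] at p1 p2
        exact abs_le.2 ⟨by linarith only [p2], by linarith only [p1]⟩
    generalize ((unw eQ w0 eK).ev fun _ => x) = z at e1 hz
    have r1 : Rch x (kap x) z := e1 ▸ rch_ev x z w0 (sgs_sound a2)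
    have s1 := sgs_sound a3
    simp only [loopP, Ie.ev] at c
    push_cast at c
    rw [ev_lin, ← horR_ev] at e1
    have hkm := kap_mul h1
    have e3 : ev x wl (s * z) = z := by
      rw [ev_lin, ← horR_ev]
      have hne : (1 - x) * x ^ w0.length ≠ 0 :=
        mul_ne_zero (by linarith only [h2, hx]) (pow_pos hx _).ne'
      apply mul_left_cancel₀ hne
      linear_combination (-1 : ℝ) * c - (1 - s * x ^ wl.length) * hkm -
        (1 - x) * (1 - s * x ^ wl.length) * e1
    have r2 : SR x z (s * z) := by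
      cases wl with
      | nil => simp at a4
      | cons d wl =>
        have := SR.of_ev hx (s := d) (w := wl) (fun r hr => s1 r (List.mem_cons_of_mem _ hr)) (s * z)
        rwa [e3] at this
    refine hf (r1.inft hx h1 (loop_inft h0 h1 hz ?_))
    rcases s1 s (by simp) with rfl | rfl
    · left; simpa using r2
    · right; simpa using r2
  · obtain ⟨t1, t2⟩ := topck_sound c1 x1 x2
    exact top_gap h0 h1 hn t2 (t1.trans_le c2) v1 ht.1

end Pool.Agent.KExp

end

-- part MP_bd9604_nt.Inf.PartC2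
section

/-! The parameter intervals around the roots of `kap = R (m + 2)`.

By contradiction: exists_term gives a terminal v; termck_sound (n = m + 1): F = 0 means kap = R (m+2) (loop_top); a special gap is
excluded by top_gap (topck_sound) or gives the hypotheses of cluster_eq (Ie.iv_sound with e 0 = x, e i = v; X m <= X 1 = x^2 < 1/2).
So d (1 - Y^4) = (R (m+1) - R (m+2)) Y^i f. As f >= 1 - Y^2 the numerical check gives i >= 4. If c = 4: loop_four
(d / Y^4 = (R (m+1) - R (m+2)) Y^(i-4) <= R (m+1) - R (m+2) = Y^2 (R (m+1) + R (m+2)), which is at most kap + R (m+2): use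
R (m+1) = P m / (1 + Y), R (m+2) = P m (1 - Y) / (1 + Y^2), Y <= 0.36, kap >= 0). Otherwise write i = 4 (k + 1) + i', i' < 4; chainck gives
j < 5 with chainP m i' j f outside Q (for c >= C0 or f = 1 put variable 1 equal to f - 1, |f - 1| <= Y^C0); chainP evaluates to
R (m+2) - (-1)^J d / Y^(2 J) for J = 2 k + j. Iv.out_sound, qck_sound, tck_sound, SR.inft, root_chain. -/

namespace Pool.Agent.KExp

lemma env_PartC2 {S : ℕ} {a b : Iv} {u v : ℝ} (ha : a.mem S u) (hb : b.mem S v) (i : ℕ) :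
    (env2 a b i).mem S ((fun i => if i = 0 then u else v) i) := by
  cases i with
  | zero => exact ha
  | succ i => exact hb

lemma chain_PartC2 {S m b i : ℕ} {E : ℕ → Iv} {e : ℕ → ℝ} {Q : Gt} {f : Ie} {x : ℝ}
    (h0 : 0 < x) (h1 : x < 1) (he : e 0 = x) (hE : ∀ i, (E i).mem S (e i))
    (h : chainck S E m Q b f = true) (hi : 4 ≤ i)
    (hd : (R (m + 2) x - kap x) * (1 - X m x ^ 4) =
      (R (m + 1) x - R (m + 2) x) * X m x ^ i * f.ev e)
    (hQ : ∀ y, |y| ≤ (b : ℝ) / 2 ^ S → ¬ Q.mem S |y| → Inft x y) : Inft x (kap x) := by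
  obtain ⟨k, i', hi', rfl⟩ : ∃ k i', i' < 4 ∧ i = 4 * k + (i' + 4) :=
    ⟨(i - 4) / 4, (i - 4) % 4, by omega, by omega⟩
  simp only [chainck, List.all_eq_true, List.any_eq_true, List.mem_range] at h
  obtain ⟨j, -, hj⟩ := h i' hi'
  obtain ⟨o1, o2⟩ := Iv.out_sound (Ie.iv_sound hE _) hj
  refine root_chain h0 h1 m (2 * k + j) ?_
  have hy := hQ _ o1 o2
  have hY := X_pos h0 m
  have hY1 : X m x ^ 4 < 1 := pow_lt_one₀ hY.le (X_lt_one h0 h1 m) (by norm_num)
  have hne : 1 - X m x ^ 4 ≠ 0 := by linarith only [hY1]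
  have ed : R (m + 2) x - kap x = (R (m + 1) x - R (m + 2) x) * X m x ^ (4 * k + (i' + 4)) * f.ev e /
      (1 - X m x ^ 4) := by rw [eq_div_iff hne, hd]
  have key : (chainP m i' j f).ev e =
      R (m + 2) x - (-1) ^ (2 * k + j) * (R (m + 2) x - kap x) / X m x ^ (2 * (2 * k + j)) := by
    rw [ed]
    simp only [chainP, Ie.ev, eR_ev, eX_ev, he, Int.cast_neg, Int.cast_one]
    rw [pow_add (-1 : ℝ), pow_mul (-1 : ℝ) 2 k, neg_one_sq, one_pow, one_mul,
      show 2 * (2 * k + j) = 4 * k + 2 * j by ring, pow_add (X m x) (4 * k), pow_add (X m x) (4 * k)]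
    field_simp
  rwa [key] at hy

lemma pw_PartC2 {Y : ℝ} (h0 : 0 < Y) (h1 : Y < 1) {c : ℕ} (hc : 1 ≤ c) : (-Y) ^ c ≤ Y ^ 2 := by
  rcases hc.eq_or_lt with rfl | h
  · nlinarith only [h0]
  · refine (le_abs_self _).trans ?_
    rw [abs_pow, abs_neg, abs_of_pos h0]
    exact pow_le_pow_of_le_one h0.le h1.le h

theorem cluster_eq2 {x v : ℝ} (h0 : 1 / 2 ≤ x) (h1 : x < 1) {m : ℕ} (hn : R (m + 3) x ≤ kap x)
    (hY : X m x < 1 / 2) (ht : Term x v)
    (a1 : - R (m + 2) x < (P (m + 2) x - v) / X (m + 2) x)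
    (a2 : (P (m + 2) x - v) / X (m + 2) x < R (m + 2) x * (1 + 2 * X (m + 1) x))
    (b1 : 0 < (P (m + 1) x - ((kap x - v) / X (m + 2) x - kap x)) / X (m + 1) x)
    (b2 : (P (m + 1) x - ((kap x - v) / X (m + 2) x - kap x)) / X (m + 1) x ≤ P m x) :
    kap x = R (m + 2) x ∨ (kap x < R (m + 2) x ∧ ∃ (i : ℕ) (f : ℝ),
      (f = 1 ∨ ∃ c : ℕ, 1 ≤ c ∧ f = 1 - (- X m x) ^ c) ∧
      (R (m + 2) x - kap x) * (1 - X m x ^ 4) = (R (m + 1) x - R (m + 2) x) * X m x ^ i * f) := by
  have hx : 0 < x := by linarith only [h0]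
  have hX := X_pos hx m
  have hX1 := X_pos hx (m + 1)
  have hX2 := X_pos hx (m + 2)
  have hXl := X_lt_one hx h1 m
  set z1 := (P (m + 2) x - v) / X (m + 2) x with hz1
  set t := (kap x - v) / X (m + 2) x - kap x with hdt
  set z2 := (P (m + 1) x - t) / X (m + 1) x with hz2
  have e1 : v = ((1 : ℤ) : ℝ) * P (m + 2) x + X (m + 2) x * (-z1) := by
    rw [hz1]; push_cast; field_simp; ring
  have e2 : t = ((1 : ℤ) : ℝ) * P (m + 1) x + X (m + 1) x * (-z2) := by
    rw [hz2]; push_cast; field_simp; ring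
  have e3 : kap x - v = X (m + 2) x * (kap x + t) := by rw [hdt]; field_simp; ring
  have u1 : Uq x z1 := by
    have := blk hx (m + 2) 1 (Or.inl rfl) (-z1)
    rw [← e1] at this
    simpa using (this.uq hx h1 (by simpa using ht.1)).neg
  have u2 : Uq x z2 := by
    have h2 : Uq x ((-kap x + (kap x - v) - 1) / x) := by
      have := ht.neg.1
      rwa [show -v = -kap x + (kap x - v) by ring] at this
    have h3 := uq_scale hx h1 (2 ^ (m + 2)) h2
    have h4 : -kap x + (kap x - v) / x ^ 2 ^ (m + 2) = t := by rw [hdt]; unfold X; ring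
    rw [h4] at h3
    have := blk hx (m + 1) 1 (Or.inl rfl) (-z2)
    rw [← e2] at this
    simpa using (this.uq hx h1 (by simpa using h3)).neg
  have c1 : z1 = R (m + 2) x := uq_exact h0 h1 (n := m + 1) hn u1 a1 a2
  have c2 := uq_cluster h0 h1 hn hY u2 b1 b2
  have r2 := R_eq hx h1 (m + 2)
  have r3 : R (m + 2) x = P (m + 1) x - X (m + 1) x * R (m + 2) x := R_succ hx h1 (m + 1)
  have r4 : X (m + 2) x = X m x ^ 4 := by
    rw [show m + 2 = m + 1 + 1 from rfl, X_succ, X_succ]; ring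
  have hlt : R (m + 2) x < R (m + 1) x := R_succ_lt hx h1 (m + 1)
  rw [c1] at e1
  rw [r4] at e1 e3 r2
  rw [X_succ] at e2 r3
  push_cast at e1 e2
  have h4 : 0 < 1 - X m x ^ 4 := by linarith only [pow_lt_one₀ hX.le hXl (n := 4) (by norm_num)]
  have key : (R (m + 2) x - kap x) * (1 - X m x ^ 4) = X m x ^ 6 * (z2 - R (m + 2) x) := by
    linear_combination -e3 - e1 - X m x ^ 4 * e2 + X m x ^ 4 * r3 + r2
  have pos : ∀ f : ℝ, 0 < f → (R (m + 2) x - kap x) * (1 - X m x ^ 4) =
      (R (m + 1) x - R (m + 2) x) * X m x ^ 6 * f → kap x < R (m + 2) x := by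
    intro f hf e
    have : 0 < (R (m + 2) x - kap x) * (1 - X m x ^ 4) := by
      rw [e]; exact mul_pos (mul_pos (sub_pos.2 hlt) (pow_pos hX 6)) hf
    exact sub_pos.1 ((mul_pos_iff_of_pos_right h4).1 this)
  rcases c2 with c2 | ⟨h6, k, c2⟩
  · have e : (R (m + 2) x - kap x) * (1 - X m x ^ 4) =
        (R (m + 1) x - R (m + 2) x) * X m x ^ 6 * 1 := by rw [key, c2]; ring
    exact Or.inr ⟨pos 1 one_pos e, 6, 1, Or.inl rfl, e⟩
  · rcases Nat.eq_zero_or_pos k with rfl | hk
    · left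
      rw [c2, pow_zero, one_mul, add_sub_cancel, sub_self, mul_zero, mul_eq_zero] at key
      rcases key with key | key
      · linarith only [h6, key]
      · exact absurd key h4.ne'
    · exact Or.inr ⟨h6, 6, _, Or.inr ⟨k, hk, rfl⟩, by rw [key, c2]; ring⟩

theorem cck_sound {S X1 X2 m C0 N1 k1 L1 w1 D1 : ℕ} {G : Gt} {N2 k2 L2 w2 D2 b2 : ℕ} {T : Dt}
    {N3 k3 L3 w3 D3 b3 : ℕ} {Q : Gt}
    (h : cck S X1 X2 m C0 N1 k1 L1 w1 D1 G N2 k2 L2 w2 D2 b2 T N3 k3 L3 w3 D3 b3 Q = true) {x : ℝ}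
    (x1 : (X1 : ℝ) / 2 ^ S ≤ x) (x2 : x ≤ (X2 : ℝ) / 2 ^ S) : Inft x (kap x) := by
  simp only [cck, Bool.and_eq_true, Nat.ble_eq] at h
  obtain ⟨⟨⟨⟨⟨⟨⟨c1, c2⟩, c3⟩, c4⟩, c5⟩, c6⟩, c7⟩, c8⟩ := h
  obtain ⟨⟨h0, h35, hn⟩, hterm⟩ := termck_sound c2 x1 x2
  have hx0 : 0 < x := by linarith only [h0]
  have h1 : x < 1 := by linarith only [h35, hx0]
  have hI : (Iv.ofN X1 X2).mem S x := Iv.mem_ofN x1 x2
  have hE := env_PartC2 hI hI
  have k0 := (kap_ChkC h0 h35).1
  have hQ : ∀ y, |y| ≤ (b3 : ℝ) / 2 ^ S → ¬ Q.mem S |y| → Inft x y := fun y y1 y2 => by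
    obtain ⟨z, z1, z2⟩ := (qck_sound c3 x1 x2).2 y y1 y2
    exact z2.inft hx0 h1 (tck_sound c1 x1 x2 z z1)
  have hY0 := X_pos hx0 m
  have hY : X m x < 1 / 2 := by
    have := X_anti hx0 h1 c4
    rw [X_succ, X_zero] at this
    nlinarith only [h0, h35, this]
  by_contra hf
  obtain ⟨v, v0, v1, vt⟩ := exists_term h0 h1 (abs_of_nonneg k0).le hf
  rcases hterm v v0 v1 vt with hF | ⟨l, u, hp, l1, l2⟩
  · simp only [Ie.ev, eP_ev, eX_ev, Int.cast_one, Int.cast_ofNat] at hF
    refine hf (loop_top h0 h1 (n := m + 1) ?_)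
    have a1 : 1 - x ≠ 0 := by linarith only [h35, hY0, hY]
    have a2 : 1 - X (m + 2) x ≠ 0 := by linarith only [X_lt_one hx0 h1 (m + 2)]
    show kap x = R (m + 2) x
    unfold kap R
    rw [div_eq_div_iff a1 a2]
    linarith only [hF]
  have hcl : kap x = R (m + 2) x ∨ (kap x < R (m + 2) x ∧ ∃ (i : ℕ) (f : ℝ),
      (f = 1 ∨ ∃ c : ℕ, 1 ≤ c ∧ f = 1 - (- X m x) ^ c) ∧
      (R (m + 2) x - kap x) * (1 - X m x ^ 4) = (R (m + 1) x - R (m + 2) x) * X m x ^ i * f) := by
    simp only [Bool.or_eq_true] at hp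
    rcases hp with (hp | hp) | hp
    · obtain ⟨t1, t2⟩ := topck_sound hp x1 x2
      exact (top_gap h0 h1 hn t2 (t1.trans_le l1) v1 vt.1).elim
    · simp only [clck, Bool.and_eq_true] at hp
      obtain ⟨⟨⟨p1, p2⟩, p3⟩, p4⟩ := hp
      have hE' := env_PartC2 hI (Iv.mem_ofN l1 l2)
      have q1 := Iv.pos_sound (Ie.iv_sound hE' _) p1
      have q2 := Iv.pos_sound (Ie.iv_sound hE' _) p2
      have q3 := Iv.pos_sound (Ie.iv_sound hE' _) p3
      have q4 := Iv.pos_sound (Ie.iv_sound hE' _) p4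
      simp only [Ie.ev, eP_ev, eX_ev, eK_ev, if_true, one_ne_zero, if_false, ← div_eq_mul_inv]
        at q1 q2 q3 q4
      exact cluster_eq h0 h1 hn hY vt q1 (by linarith only [q2]) q3 (by linarith only [q4])
    · simp only [clck2, Bool.and_eq_true] at hp
      obtain ⟨p0, ⟨⟨p1, p2⟩, p3⟩, p4⟩ := hp
      obtain ⟨t1, t2⟩ := topck_sound p0 x1 x2
      generalize Nat.add ((eG (m + 2)).iv S (env2 (Iv.ofN X1 X2) (Iv.ofN X1 X2))).hi 4 = t
        at t1 p1 p2 p3 p4
      rcases le_total ((t : ℝ) / 2 ^ S) v with l3 | l3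
      · exact (top_gap h0 h1 hn t2 (t1.trans_le l3) v1 vt.1).elim
      have hE' := env_PartC2 hI (Iv.mem_ofN l1 l3)
      have q1 := Iv.pos_sound (Ie.iv_sound hE' _) p1
      have q2 := Iv.pos_sound (Ie.iv_sound hE' _) p2
      have q3 := Iv.pos_sound (Ie.iv_sound hE' _) p3
      have q4 := Iv.pos_sound (Ie.iv_sound hE' _) p4
      simp only [Ie.ev, eP_ev, eX_ev, eK_ev, eR_ev, if_true, one_ne_zero, if_false, ← div_eq_mul_inv,
        Int.cast_one, Int.cast_ofNat] at q1 q2 q3 q4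
      exact cluster_eq2 h0 h1 hn hY vt (by linarith only [q1]) (by linarith only [q2]) q3 (by linarith only [q4])
  rcases hcl with hk | ⟨hk, i, f, hfc, hd⟩
  · exact hf (loop_top h0 h1 (n := m + 1) hk)
  have q5 := Iv.pos_sound (Ie.iv_sound hE _) c5
  simp only [Ie.ev, eR_ev, eX_ev, eK_ev, if_true, Int.cast_one] at q5
  have hD : 0 < R (m + 1) x - R (m + 2) x := by linarith only [R_succ_lt hx0 h1 (m + 1)]
  have hf2 : 1 - X m x ^ 2 ≤ f := by
    rcases hfc with rfl | ⟨c, hc, rfl⟩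
    · nlinarith only []
    · linarith only [pw_PartC2 hY0 (by linarith only [hY0, hY]) hc]
  have hi : 4 ≤ i := by
    by_contra hi
    have a1 : X m x ^ 3 ≤ X m x ^ i := pow_le_pow_of_le_one hY0.le (by linarith only [hY0, hY]) (by omega)
    have a2 : 0 ≤ 1 - X m x ^ 2 := by nlinarith only [hY0, hY]
    have a3 : X m x ^ 3 * (1 - X m x ^ 2) ≤ X m x ^ i * f := by gcongr
    have a4 := mul_le_mul_of_nonneg_left a3 hD.le
    rw [hd] at q5
    linarith only [q5, a4]
  have hb := Iv.abs_le_hi (Ie.iv_sound hE _) c7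
  simp only [Ie.ev, eX_ev, if_true] at hb
  have ball : ∀ t : ℝ, |t| ≤ |X m x ^ C0| → f = 1 + t → False := fun t ht e => by
    refine hf (chain_PartC2 hx0 h1 (by simp) (env_PartC2 hI (Iv.mem_ball (ht.trans hb))) c8 hi ?_ hQ)
    simp only [Ie.ev, one_ne_zero, if_false, Int.cast_one]
    rw [hd, e]
  rcases hfc with rfl | ⟨c, hc, rfl⟩
  · exact ball 0 (by simp) (by simp)
  rcases le_or_gt C0 c with hc0 | hc0
  · refine ball (-(-X m x) ^ c) ?_ (by ring)
    rw [abs_neg, abs_pow, abs_neg, abs_pow, abs_of_pos hY0]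
    exact pow_le_pow_of_le_one hY0.le (by linarith only [hY0, hY]) hc0
  simp only [List.all_eq_true, List.mem_range, Bool.or_eq_true, Nat.beq_eq] at c6
  rcases c6 c hc0 with (rfl | rfl) | c6
  · omega
  · have a0 : X m x ^ 4 < 1 := pow_lt_one₀ hY0.le (by linarith only [hY0, hY]) (by norm_num)
    have a1 : R (m + 2) x - kap x = (R (m + 1) x - R (m + 2) x) * X m x ^ i := by
      rw [show (-X m x) ^ 4 = X m x ^ 4 by ring] at hd
      exact mul_right_cancel₀ (by linarith only [a0]) hd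
    refine hf (loop_four h0 h1 (by omega) a1 ?_)
    have a2 : (R (m + 2) x - kap x) / X m x ^ 4 ≤ R (m + 1) x - R (m + 2) x := by
      rw [a1, div_le_iff₀ (by positivity)]
      exact mul_le_mul_of_nonneg_left (pow_le_pow_of_le_one hY0.le (by linarith only [hY0, hY]) hi) hD.le
    have a3 := R_succ hx0 h1 m
    have a4 : R (m + 2) x = P (m + 1) x - X (m + 1) x * R (m + 2) x := R_succ hx0 h1 (m + 1)
    rw [P_succ, X_succ] at a4
    have a5 := R_pos hx0 h1 (m + 1)
    have a6 := R_pos hx0 h1 (m + 2)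
    have a7 : X m x ^ 2 ≤ 1 / 4 := by nlinarith only [hY0, hY]
    have a8 : R (m + 1) x * (1 - X m x ^ 2) = R (m + 2) x * (1 + X m x ^ 2) := by
      have : P m x = R (m + 1) x * (1 + X m x) := by linarith only [a3]
      rw [this] at a4
      linarith only [a4]
    nlinarith only [k0, hD, a2, a7, a8]
  · refine hf (chain_PartC2 hx0 h1 (by simp) hE c6 hi ?_ hQ)
    simp only [Ie.ev, eX_ev, if_true, Int.cast_one, Int.cast_zero, zero_sub]
    exact hd

end Pool.Agent.KExp

end

-- part MP_bd9604_nt.Inf.PartE2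
section

/-! The symbolic checker: polynomials, intervals, windows.

All definitions are by `List.rec` / `Nat.rec`, so the cons and succ equations hold by rfl.
scan_sound: induction on the list with the offset n0 (the entry number i contains G * y ^ (n0 + i), every entry has ok = true, t = 0 or t = y ^ m with
m >= n0); |y| < 1, so |G y^m| is antitone in m; Iv.abs_le_hi, Iv.lo_le_abs, Iv.nz_sound.
winL_sound: for t = y ^ j with j < 0, |G t| >= |G| > |T|.
ust_sound: s A + u (V + s B) = 0 for T = A + u B; divide by s and use win_sound with t = u / s.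
red_sound: trim_ev, lead_ev. -/

namespace Pool.Agent.KExp

theorem lall_iff {α : Type} {p : α → Bool} {l : List α} : lall p l = true ↔ ∀ a ∈ l, p a = true := by
  induction l with
  | nil => simp [lall]
  | cons a l ih =>
    have : lall p (a :: l) = (p a && lall p l) := rfl
    rw [this, Bool.and_eq_true, ih]; simp only [List.mem_cons, forall_eq_or_imp]
theorem lany_iff {α : Type} {p : α → Bool} {l : List α} : lany p l = true ↔ ∃ a ∈ l, p a = true := by
  induction l with
  | nil => simp only [lany, Bool.false_eq_true, List.not_mem_nil, false_and, exists_false]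
  | cons a l ih =>
    have : lany p (a :: l) = (p a || lany p l) := rfl
    rw [this, Bool.or_eq_true, ih]; simp only [List.mem_cons, exists_eq_or_imp]
theorem lmap_eq {α β : Type} (f : α → β) (l : List α) : lmap f l = l.map f := by
  induction l with
  | nil => rfl
  | cons a l ih =>
    have : lmap f (a :: l) = f a :: lmap f l := rfl
    rw [this, ih]; rfl
theorem nall_iff {p : ℕ → Bool} {k : ℕ} : nall p k = true ↔ ∀ n < k, p n = true := by
  induction k with
  | zero => simp [nall]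
  | succ k ih =>
    have : nall p (k + 1) = (p k && nall p k) := rfl
    rw [this, Bool.and_eq_true, ih, Nat.forall_lt_succ_right]; tauto

theorem padd_ev (y : ℝ) (a b : List ℤ) : horR y (padd a b) = horR y a + horR y b := by
  induction a generalizing b with
  | nil =>
    have : padd [] b = b := rfl
    rw [this]; simp [horR]
  | cons c a ih =>
    cases b with
    | nil =>
      have : padd (c :: a) [] = c :: padd a [] := rfl
      rw [this]; simp only [horR, ih]; ring
    | cons d b =>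
      have : padd (c :: a) (d :: b) = (c + d) :: padd a b := rfl
      rw [this]; simp only [horR, ih]; push_cast; ring
theorem psm_ev (y : ℝ) (c : ℤ) (a : List ℤ) : horR y (psm c a) = c * horR y a := by
  induction a with
  | nil => simp [psm, horR]
  | cons d a ih =>
    have : psm c (d :: a) = (c * d) :: psm c a := rfl
    rw [this]; simp only [horR, ih]; push_cast; ring
theorem pmul_ev (y : ℝ) (a b : List ℤ) : horR y (pmul a b) = horR y a * horR y b := by
  induction a with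
  | nil => simp [pmul, horR]
  | cons d a ih =>
    have : pmul (d :: a) b = padd (psm d b) (0 :: pmul a b) := rfl
    rw [this, padd_ev, psm_ev]; simp only [horR, ih]; push_cast; ring
theorem psh_ev (y : ℝ) (n : ℕ) (a : List ℤ) : horR y (psh n a) = y ^ n * horR y a := by
  induction n with
  | zero =>
    have : psh 0 a = a := rfl
    rw [this]; simp
  | succ n ih =>
    have : psh (n + 1) a = 0 :: psh n a := rfl
    rw [this]; simp only [horR, ih]; push_cast; ring
theorem pz0_ev (y : ℝ) {a : List ℤ} (h : pz0 a = true) : horR y a = 0 := by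
  induction a with
  | nil => rfl
  | cons d a ih =>
    have : pz0 (d :: a) = (Nat.beq (Int.natAbs d) 0 && pz0 a) := rfl
    rw [this, Bool.and_eq_true] at h
    have h0 : d = 0 := Int.natAbs_eq_zero.1 (Nat.eq_of_beq_eq_true h.1)
    simp [horR, h0, ih h.2]
theorem xp_ev (y : ℝ) (r : ℕ) : horR y (xp r) = (-y) ^ r := by
  unfold xp
  rw [psh_ev]
  rcases Nat.mod_two_eq_zero_or_one r with h | h
  · have h1 : Nat.beq (Nat.mod r 2) 0 = true := by
      show Nat.beq (r % 2) 0 = true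
      rw [h]; rfl
    rw [h1, (Nat.even_iff.2 h).neg_pow]; simp [horR]
  · have h1 : Nat.beq (Nat.mod r 2) 0 = false := by
      show Nat.beq (r % 2) 0 = false
      rw [h]; rfl
    rw [h1, (Nat.odd_iff.2 h).neg_pow]; simp [horR]
theorem pW_ev (y : ℝ) (r : ℕ) : horR y (pW r) = (1 + y) * y ^ 3 * (-y) ^ r := by
  unfold pW
  rw [pmul_ev, xp_ev]; simp only [horR]; push_cast; ring
theorem pL_ev (y : ℝ) (r r' : ℕ) : horR y (pL r r') =
    -(y ^ 8 * ((1 + y) * (y ^ 2 - 1 + ((-y) ^ r + (-y) ^ r')) +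
      (2 - ((-y) ^ r + (-y) ^ r')) * (1 - y) * (1 + 2 * y + y ^ 2 + y ^ 3))) := by
  unfold pL
  simp only [psh_ev, psm_ev, padd_ev, pmul_ev, xp_ev, pp, horR]; push_cast; ring

lemma sadd_PartE2 (y s : ℝ) (a b : List (List ℤ)) : sev y s (sadd a b) = sev y s a + sev y s b := by
  induction a generalizing b with
  | nil =>
    have : sadd [] b = b := rfl
    rw [this]; simp [sev]
  | cons c a ih =>
    cases b with
    | nil =>
      have : sadd (c :: a) [] = c :: sadd a [] := rfl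
      rw [this]; simp only [sev, ih]; ring
    | cons d b =>
      have : sadd (c :: a) (d :: b) = padd c d :: sadd a b := rfl
      rw [this]; simp only [sev, ih, padd_ev]; ring

lemma smul_PartE2 (y s : ℝ) (f : List ℤ → List ℤ) (x : ℝ) (h : ∀ b, horR y (f b) = x * horR y b)
    (a : List (List ℤ)) : sev y s (lmap f a) = x * sev y s a := by
  induction a with
  | nil => simp [lmap, sev]
  | cons c a ih =>
    have : lmap f (c :: a) = f c :: lmap f a := rfl
    rw [this]; simp only [sev, ih, h]; ring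

lemma sz_PartE2 (y s : ℝ) {a : List (List ℤ)} (h : lall pz0 a = true) : sev y s a = 0 := by
  induction a with
  | nil => rfl
  | cons c a ih =>
    have h1 : (pz0 c && lall pz0 a) = true := h
    obtain ⟨h2, h3⟩ := Bool.and_eq_true_iff.1 h1
    simp [sev, pz0_ev y h2, ih h3]

lemma hz_PartE2 (y s : ℝ) {a : List (List ℤ)} (h : hz a = true) :
    sev y s a = y * sev y s (lmap ptl a) := by
  induction a with
  | nil => simp [lmap, sev]
  | cons c a ih =>
    have e : lmap ptl (c :: a) = ptl c :: lmap ptl a := rfl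
    cases c with
    | nil =>
      have h1 : (true && hz a) = true := h
      have e1 : ptl [] = [] := rfl
      rw [e, e1]; simp only [sev, horR]
      rw [ih (by simpa using h1)]; ring
    | cons d p =>
      have h1 : (Nat.beq (Int.natAbs d) 0 && hz a) = true := h
      obtain ⟨h2, h3⟩ := Bool.and_eq_true_iff.1 h1
      have h0 : d = 0 := Int.natAbs_eq_zero.1 (Nat.eq_of_beq_eq_true h2)
      have e1 : ptl (d :: p) = p := rfl
      rw [e, e1]; simp only [sev, horR]
      rw [ih h3, h0]; push_cast; ring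

lemma hd_PartE2 (y s : ℝ) (a : List (List ℤ)) : sev y s a = horR y (hdl a) + s * sev y s (tll a) := by
  cases a with
  | nil => simp [hdl, tll, sev, horR]
  | cons c a => rfl

theorem madd_ev (y s u : ℝ) (F G : MP) : (madd F G).ev y s u = F.ev y s u + G.ev y s u := by
  simp only [MP.ev, madd, sadd_PartE2]; ring
theorem msm_ev (y s u : ℝ) (a : List ℤ) (F : MP) : (msm a F).ev y s u = horR y a * F.ev y s u := by
  simp only [MP.ev, msm, smul_PartE2 y s _ (horR y a) (pmul_ev y a)]; ring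
theorem msh_ev (y s u : ℝ) (n : ℕ) (F : MP) : (msh n F).ev y s u = y ^ n * F.ev y s u := by
  simp only [MP.ev, msh, smul_PartE2 y s _ (y ^ n) (psh_ev y n)]; ring
theorem mss_ev (y s u : ℝ) (F : MP) : (mss F).ev y s u = s * F.ev y s u := by
  simp only [MP.ev, mss, sev, horR]; ring
theorem mp_ev (y s u : ℝ) (a : List ℤ) : (mp a).ev y s u = horR y a := by
  simp [MP.ev, mp, sev]
theorem mz0_ev (y s u : ℝ) {F : MP} (h : mz0 F = true) : F.ev y s u = 0 := by
  obtain ⟨h1, h2⟩ := Bool.and_eq_true_iff.1 h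
  simp [MP.ev, sz_PartE2 y s h1, sz_PartE2 y s h2]
theorem trim_ev (y s u : ℝ) (f : ℕ) (F : MP) : ∃ k : ℕ, F.ev y s u = y ^ k * (trim f F).ev y s u := by
  induction f generalizing F with
  | zero => exact ⟨0, by simp [trim]⟩
  | succ f ih =>
    have e : trim (f + 1) F = cond (hz F.a && hz F.b) (trim f ⟨lmap ptl F.a, lmap ptl F.b⟩) F := rfl
    rw [e]
    cases h : (hz F.a && hz F.b)
    · exact ⟨0, by simp⟩
    · obtain ⟨h1, h2⟩ := Bool.and_eq_true_iff.1 h
      obtain ⟨k, hk⟩ := ih ⟨lmap ptl F.a, lmap ptl F.b⟩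
      refine ⟨k + 1, ?_⟩
      rw [cond_true, pow_succ', mul_assoc, ← hk]
      simp only [MP.ev]
      rw [hz_PartE2 y s h1, hz_PartE2 y s h2]; ring

theorem Iv.mem_blp {S : ℕ} {a : Iv} {v w : ℝ} (ha : a.mem S v) (h : |w| ≤ |v|) : a.blp.mem S w := by
  intro h1
  have hp : (0 : ℝ) < 2 ^ S := by positivity
  have h2 := h.trans (Iv.abs_le_hi ha h1)
  rw [le_div_iff₀ hp] at h2
  show |w * 2 ^ S - ((0 : ℤ) : ℝ)| ≤ (a.hi : ℝ)
  rw [Int.cast_zero, sub_zero, abs_mul, abs_of_pos hp]; exact h2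

lemma lt_PartE2 {S : ℕ} {a b : Iv} {v w : ℝ} (ha : a.mem S v) (ha' : a.ok = true) (hb : b.mem S w)
    (hb' : b.ok = true) (h : a.hi < b.lo) : |v| < |w| := by
  have hp : (0 : ℝ) < 2 ^ S := by positivity
  have h1 : (a.hi : ℝ) < b.lo := by exact_mod_cast h
  exact (Iv.abs_le_hi ha ha').trans_lt
    ((div_lt_div_of_pos_right h1 hp).trans_le (Iv.lo_le_abs hb hb'))

lemma geo_PartE2 {S : ℕ} {iy : Iv} {y : ℝ} (hy : iy.mem S y) (hy' : iy.ok = true) (N : ℕ) :
    ∀ {g : Iv} {G : ℝ}, g.mem S G → g.ok = true →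
    (Nat.rec (motive := fun _ => Iv → List Iv) (fun _ => [])
      (fun _ ih h => h :: ih (Iv.mul S h iy)) N g).length = N ∧
    ∀ i (hi : i < (Nat.rec (motive := fun _ => Iv → List Iv) (fun _ => [])
      (fun _ ih h => h :: ih (Iv.mul S h iy)) N g).length),
      ((Nat.rec (motive := fun _ => Iv → List Iv) (fun _ => [])
        (fun _ ih h => h :: ih (Iv.mul S h iy)) N g)[i]).ok = true ∧
      ((Nat.rec (motive := fun _ => Iv → List Iv) (fun _ => [])
        (fun _ ih h => h :: ih (Iv.mul S h iy)) N g)[i]).mem S (G * y ^ i) := by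
  induction N with
  | zero => exact fun _ _ => ⟨rfl, fun i hi => absurd hi (Nat.not_lt_zero i)⟩
  | succ N ih =>
    intro g G hg hg'
    obtain ⟨h1, h2⟩ := ih (Iv.mem_mul hg hy) (Bool.and_eq_true_iff.2 ⟨hg', hy'⟩)
    refine ⟨congrArg Nat.succ h1, fun i hi => ?_⟩
    cases i with
    | zero => exact ⟨hg', by rw [pow_zero, mul_one]; exact hg⟩
    | succ i =>
      have := h2 i (Nat.lt_of_succ_lt_succ hi)
      rw [pow_succ', ← mul_assoc]
      exact this

/-- the inner recursion of `scan` -/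
noncomputable def scanI_PartE2 (T : Iv) (k : ℕ → Bool) (kt : Bool) (hs : List Iv) : ℕ → Bool :=
  List.rec (motive := fun _ => ℕ → Bool) (fun _ => false) (fun h rest ih n =>
    List.rec (Nat.blt h.hi T.lo || (Iv.add T h.blp).nz || kt)
      (fun _ _ _ => cond (Nat.blt T.hi h.lo) (ih (Nat.succ n))
        (Nat.blt h.hi T.lo || (((Iv.add T h).nz || k n) && ih (Nat.succ n)))) rest) hs

lemma scan_PartE2 {S : ℕ} {iT : Iv} {y T G t : ℝ} {k : ℕ → Bool} {kt : Bool} (hy : |y| ≤ 1)
    (hT : iT.mem S T) (hT' : iT.ok = true) (e : T + G * t = 0) (hs : List Iv) :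
    ∀ (M n0 : ℕ), hs.length = M + 1 →
    (∀ i (hi : i < hs.length), (hs[i]).ok = true ∧ (hs[i]).mem S (G * y ^ (n0 + i))) →
    (t = 0 ∨ ∃ m, n0 ≤ m ∧ t = y ^ m) → scanI_PartE2 iT k kt hs n0 = true →
    (∃ n < n0 + M, t = y ^ n ∧ k n = true) ∨ (kt = true ∧ |t| ≤ |y| ^ (n0 + M)) := by
  induction hs with
  | nil => intro M n0 h; simp at h
  | cons a l ih =>
    intro M n0 hl hm ht h
    obtain ⟨ha', ha⟩ := hm 0 (by simp)
    simp only [List.getElem_cons_zero, add_zero] at ha ha'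
    have h1 : |t| ≤ |y| ^ n0 := by
      rcases ht with rfl | ⟨m, h2, rfl⟩
      · rw [abs_zero]; positivity
      · rw [abs_pow]; exact pow_le_pow_of_le_one (abs_nonneg y) hy h2
    have h2 : |G * t| ≤ |G * y ^ n0| := by
      rw [abs_mul, abs_mul, abs_pow]; exact mul_le_mul_of_nonneg_left h1 (abs_nonneg G)
    have h3 : |T| = |G * t| := by
      rw [← abs_neg (G * t)]; congr 1; linarith only [e]
    have h4 : ¬ Nat.blt a.hi iT.lo = true := fun h5 => by
      have := lt_PartE2 ha ha' hT hT' (Nat.blt_eq.mp h5)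
      linarith only [h2, h3, this]
    cases l with
    | nil =>
      have h5 : (Nat.blt a.hi iT.lo || (Iv.add iT a.blp).nz || kt) = true := h
      have hM : M = 0 := by simpa using hl.symm
      subst hM
      simp only [Bool.or_eq_true] at h5
      rcases h5 with (h5 | h5) | h5
      · exact absurd h5 h4
      · exact absurd e (Iv.nz_sound (Iv.mem_add hT (Iv.mem_blp ha h2)) h5)
      · exact Or.inr ⟨h5, h1⟩
    | cons b l =>
      have h5 : cond (Nat.blt iT.hi a.lo) (scanI_PartE2 iT k kt (b :: l) (n0 + 1))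
          (Nat.blt a.hi iT.lo || (((Iv.add iT a).nz || k n0) &&
            scanI_PartE2 iT k kt (b :: l) (n0 + 1))) = true := h
      obtain ⟨M, rfl⟩ : ∃ M', M = M' + 1 := ⟨l.length, by simpa using hl.symm⟩
      have h6 : scanI_PartE2 iT k kt (b :: l) (n0 + 1) = true := by
        cases h7 : Nat.blt iT.hi a.lo
        · rw [h7, cond_false] at h5
          rcases Bool.or_eq_true_iff.1 h5 with h8 | h8
          · exact absurd h8 h4
          · exact (Bool.and_eq_true_iff.1 h8).2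
        · rw [h7, cond_true] at h5; exact h5
      by_cases h7 : t = y ^ n0
      · cases h8 : Nat.blt iT.hi a.lo
        · rw [h8, cond_false] at h5
          rcases Bool.or_eq_true_iff.1 h5 with h9 | h9
          · exact absurd h9 h4
          rcases Bool.or_eq_true_iff.1 (Bool.and_eq_true_iff.1 h9).1 with h10 | h10
          · exact absurd (h7 ▸ e) (Iv.nz_sound (Iv.mem_add hT ha) h10)
          · exact Or.inl ⟨n0, by omega, h7, h10⟩
        · have := lt_PartE2 hT hT' ha ha' (Nat.blt_eq.mp h8)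
          rw [h3, h7] at this
          exact absurd this (lt_irrefl _)
      · have h8 := ih M (n0 + 1) (by simpa using hl) (fun i hi => by
          have := hm (i + 1) (Nat.succ_lt_succ hi)
          rw [show n0 + (i + 1) = n0 + 1 + i by omega] at this
          exact this) (by
            rcases ht with ht | ⟨m, h9, ht⟩
            · exact Or.inl ht
            · refine Or.inr ⟨m, ?_, ht⟩
              rcases h9.lt_or_eq with h9 | h9
              · exact h9
              · exact absurd (h9 ▸ ht) h7) h6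
        rw [show n0 + (M + 1) = n0 + 1 + M by omega]
        exact h8

theorem Pw.mul {y a b : ℝ} (hy : y ≠ 0) (ha : Pw y a) (hb : Pw y b) : Pw y (a * b) := by
  rcases ha with rfl | ⟨i, rfl⟩
  · exact Or.inl (zero_mul _)
  rcases hb with rfl | ⟨j, rfl⟩
  · exact Or.inl (mul_zero _)
  exact Or.inr ⟨i + j, (zpow_add₀ hy i j).symm⟩
theorem Pw.inv {y a : ℝ} (ha : Pw y a) : Pw y a⁻¹ := by
  rcases ha with rfl | ⟨i, rfl⟩
  · exact Or.inl _root_.inv_zero
  exact Or.inr ⟨-i, (zpow_neg y i).symm⟩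
theorem Pn.pw {y a : ℝ} (ha : Pn y a) : Pw y a := by
  rcases ha with rfl | ⟨i, rfl⟩
  · exact Or.inl rfl
  exact Or.inr ⟨i, (zpow_natCast y i).symm⟩

section
variable {c : Cx} {y s u : ℝ} (H : c.H y s u)
include H

theorem piv_mem (a : List ℤ) : (piv c a).mem c.S (horR y a) := by
  exact horI_sound H.hy a
theorem siv_mem (a : List (List ℤ)) : (siv c a).mem c.S (sev y s a) := by
  induction a with
  | nil =>
    have := Iv.mem_cst c.S 0
    rw [Int.cast_zero] at this
    exact this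
  | cons t a ih => exact Iv.mem_add (piv_mem H t) (Iv.mem_mul H.hs ih)
theorem miv_mem (F : MP) : (miv c F).mem c.S (F.ev y s u) := by
  exact Iv.mem_add (siv_mem H F.a) (Iv.mem_mul H.hu (siv_mem H F.b))
theorem ypw_mem (n : ℕ) : (ypw c n).mem c.S (y ^ n) := by
  exact Iv.mem_pow H.hy n

theorem lead_ev {F : MP} (h : ldok F = true) :
    horR y c.Qt * F.ev y s u = s * (ldT c F).ev y s u + u * horR y (ldV c F) := by
  have h1 := pz0_ev y h
  rw [padd_ev, psm_ev, pmul_ev] at h1
  have h2 := H.rel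
  unfold ldT ldV
  rw [madd_ev, msm_ev, msm_ev, pmul_ev]
  simp only [MP.ev] at h2 ⊢
  rw [hd_PartE2 y s F.a, hd_PartE2 y s F.b]
  push_cast at h1
  linear_combination horR y c.Qt * h1 + horR y (pdiv (hdl F.a)) * h2

theorem geo_mem {N : ℕ} {g : Iv} {G : ℝ} (hg : g.mem c.S G) :
    (geo c N g = [] ∨ (geo c N g).length = N) ∧
      ∀ i (hi : i < (geo c N g).length), ((geo c N g)[i]).ok = true ∧ ((geo c N g)[i]).mem c.S (G * y ^ i) := by
  unfold geo
  cases h : (g.ok && c.iy.ok)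
  · exact ⟨Or.inl rfl, fun i hi => absurd hi (Nat.not_lt_zero i)⟩
  · obtain ⟨h1, h2⟩ := Bool.and_eq_true_iff.1 h
    obtain ⟨h3, h4⟩ := geo_PartE2 H.hy h2 N hg h1
    exact ⟨Or.inr h3, h4⟩

theorem scan_sound {N : ℕ} {iT g : Iv} {T G t : ℝ} {k : ℕ → Bool} {kt : Bool}
    (h : scan iT k kt (geo c (N + 1) g) = true) (hT : iT.mem c.S T) (hg : g.mem c.S G) (ht : Pn y t)
    (e : T + G * t = 0) : (∃ n < N, t = y ^ n ∧ k n = true) ∨ (kt = true ∧ |t| ≤ |y| ^ N) := by
  obtain ⟨h1, h2⟩ := geo_mem H (N := N + 1) hg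
  obtain ⟨h3, h4⟩ := Bool.and_eq_true_iff.1 h
  have hy : |y| ≤ 1 := abs_le.2 ⟨H.y0.le, H.y1.le.trans zero_le_one⟩
  rcases h1 with h1 | h1
  · rw [h1] at h4; exact absurd h4 (by simp)
  have := scan_PartE2 (k := k) (kt := kt) hy hT h3 e (geo c (N + 1) g) N 0 h1
    (fun i hi => by simpa using h2 i hi) (by
      rcases ht with ht | ⟨m, ht⟩
      · exact Or.inl ht
      · exact Or.inr ⟨m, Nat.zero_le m, ht⟩) h4
  simpa only [zero_add] using this

theorem winL_sound {N : ℕ} {iT g : Iv} {T G t : ℝ} {k : ℕ → Bool} {kt : Bool}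
    (h : winL iT k kt (geo c (N + 1) g) = true) (hT : iT.mem c.S T) (hg : g.mem c.S G) (ht : Pw y t)
    (e : T + G * t = 0) : (∃ n < N, t = y ^ n ∧ k n = true) ∨ (kt = true ∧ |t| ≤ |y| ^ N) := by
  obtain ⟨h1, h2⟩ := Bool.and_eq_true_iff.1 h
  refine scan_sound H h2 hT hg ?_ e
  rcases ht with ht | ⟨j, ht⟩
  · exact Or.inl ht
  rcases le_or_gt 0 j with hj | hj
  · exact Or.inr ⟨j.toNat, by rw [ht, ← zpow_natCast, Int.toNat_of_nonneg hj]⟩
  exfalso
  obtain ⟨-, h4⟩ := geo_mem H (N := N + 1) hg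
  have h3 : iT.ok = true := (Bool.and_eq_true_iff.1 h2).1
  generalize geo c (N + 1) g = hs at h1 h4
  cases hs with
  | nil => exact absurd h1 (by simp)
  | cons a l =>
    have h5 : iT.hi < a.lo := Nat.blt_eq.mp h1
    obtain ⟨h6, h7⟩ := h4 0 (by simp)
    simp only [List.getElem_cons_zero, pow_zero, mul_one] at h6 h7
    have h8 := lt_PartE2 hT h3 h7 h6 h5
    have hy : |y| ≤ 1 := abs_le.2 ⟨H.y0.le, H.y1.le.trans zero_le_one⟩
    have h9 : 1 ≤ |t| := by
      rw [ht, abs_zpow]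
      exact one_le_zpow_of_nonpos₀ (abs_pos.2 H.y1.ne) hy hj.le
    have h10 : |T| = |G| * |t| := by
      rw [← abs_mul, ← abs_neg (G * t)]; congr 1; linarith only [e]
    nlinarith only [abs_nonneg G, h8, h9, h10]

theorem win_sound {J1 J2 : ℕ} {iT g : Iv} {T G t : ℝ} {k : ℕ → Bool} {kt : Bool}
    (h : win c J1 J2 iT g k kt = true) (hT : iT.mem c.S T) (hg : g.mem c.S G) (ht : Pw y t)
    (e : T + G * t = 0) : (∃ n, t * y ^ J1 = y ^ n ∧ k n = true) ∨ kt = true := by
  have h1 : winL (Iv.mul c.S iT (ypw c J1)) k kt (geo c (J1 + J2 + 1 + 1) g) = true := h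
  have h2 : Pw y (t * y ^ J1) := Pw.mul H.y1.ne ht (Pn.pw (Or.inr ⟨J1, rfl⟩))
  rcases winL_sound H h1 (Iv.mem_mul hT (ypw_mem H J1)) hg h2 (by linear_combination y ^ J1 * e) with
    ⟨n, -, h3, h4⟩ | h3
  · exact Or.inl ⟨n, h3, h4⟩
  · exact Or.inr h3.1

theorem ust_sound {T : MP} {V : List ℤ} (h : ust c T V = true) :
    s * T.ev y s u + u * horR y V ≠ 0 := by
  have hV := Iv.mem_add (piv_mem H V) (Iv.mem_mul H.hs (siv_mem H T.b))
  have h1 : cond (c.unz && lall pz0 T.a) (Iv.add (piv c V) (Iv.mul c.S c.iS (siv c T.b))).nz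
      (win c 10 10 (siv c T.a) (Iv.add (piv c V) (Iv.mul c.S c.iS (siv c T.b)))
        (fun n => lany (Nat.beq n) c.excl) false) = true := h
  intro e
  simp only [MP.ev] at e
  cases h2 : (c.unz && lall pz0 T.a)
  · rw [h2, cond_false] at h1
    have hs := H.s0
    rcases win_sound H h1 (siv_mem H T.a) hV H.pu (by field_simp; linear_combination e) with
      ⟨n, h3, h4⟩ | h3
    · obtain ⟨m, h5, h6⟩ := lany_iff.1 h4
      have h7 : n = m := Nat.eq_of_beq_eq_true h6
      refine H.excl m h5 ?_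
      rw [← h7, ← h3]; field_simp
    · exact absurd h3 (by simp)
  · rw [h2, cond_true] at h1
    obtain ⟨h3, h4⟩ := Bool.and_eq_true_iff.1 h2
    rw [sz_PartE2 y s h4] at e
    exact mul_ne_zero (H.unz h3) (Iv.nz_sound hV h1) (by linear_combination e)

theorem red_sound {f : ℕ} {F : MP} (h : red c f F = true) : F.ev y s u ≠ 0 := by
  induction f generalizing F with
  | zero => exact absurd h (by simp [red])
  | succ f ih =>
    have h1 : ((miv c (trim 60 F)).nz || (ldok (trim 60 F) && cond (pz0 (ldV c (trim 60 F)))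
        (red c f (ldT c (trim 60 F))) (ust c (ldT c (trim 60 F)) (ldV c (trim 60 F))))) = true := h
    obtain ⟨k, hk⟩ := trim_ev y s u 60 F
    rw [hk]
    refine mul_ne_zero (pow_ne_zero k H.y1.ne) ?_
    generalize trim 60 F = F1 at h1
    rcases Bool.or_eq_true_iff.1 h1 with h2 | h2
    · exact Iv.nz_sound (miv_mem H F1) h2
    obtain ⟨h3, h4⟩ := Bool.and_eq_true_iff.1 h2
    have h5 := lead_ev H h3
    intro e
    rw [e, mul_zero] at h5
    cases h6 : pz0 (ldV c F1)
    · rw [h6, cond_false] at h4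
      exact ust_sound H h4 h5.symm
    · rw [h6, cond_true] at h4
      rw [pz0_ev y h6, mul_zero, add_zero] at h5
      exact mul_ne_zero H.s0 (ih h4) h5.symm

omit H in
theorem acc_sound {n : ℕ} {F : MP} (h : acc c n F = true) :
    ∃ N ∈ c.nodes, F.ev y s u = y ^ n * N.ev y s u := by
  obtain ⟨N, h1, h2⟩ := lany_iff.1 h
  have h3 := mz0_ev y s u h2
  rw [madd_ev, msm_ev, msh_ev] at h3
  simp only [horR] at h3
  push_cast at h3
  exact ⟨N, h1, by linear_combination h3⟩

end

end Pool.Agent.KExp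

end
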