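import Pool.Agent.MP_bd9604_nt.Mg.Inf_PartE2
import Pool.Agent.MP_bd9604_nt.Inf.PartE1
import Pool.Agent.MP_bd9604_nt.Inf.PartC1

attribute [-instance] AddQuantale.instAddLeftMono IdemSemiring.toCanonicallyOrderedAdd
  NumberField.to_charZero AddQuantale.instAddRightMono RKHS.instFunLike Quantale.instMulRightMono
  Group.IsPerfect.subsingleton_of_isMulCommutative NeZero.of_gt'
  LinearOrderedCommMonoidWithZero.toPosMulStrictMono DivisionRing.toRing CommRing.toRing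
  Invertible.toNeZero IdemSemiring.toSemiring

-- part MP_bd9604_nt.Inf.PartE3
section

/-! The symbolic checker: the first level.

NE times y^8 reads pL + pW r * (y^8 f) + pW r' * (y^8 f') = 0 (pL_ev, pW_ev). Write y^8 f = t E, y^8 f' = t' E'.
cls_mem: t = y^m with m <= 8 (outR is false because of the bounds on f, y^8 > 0), or |t| <= |y|^9 (Iv.mem_blp).
lev0_sound: scan_sound with N = 9.
one_sound, third_sound: lead_ev with ldV = 0 gives s (T + Qt G (t / s) E) = 0; win_sound for t / s (Pw.mul, Pw.inv). -/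

namespace Pool.Agent.KExp

/-- `v = t * E` belongs to the class `d` -/
def Cl.rel (d : Cl) (y s u v : ℝ) : Prop :=
  ∃ t, Pn y t ∧ v = t * d.E.ev y s u ∧ (d.sm = false → t = y ^ d.m) ∧ (d.sm = true → |t| ≤ |y| ^ 9)

noncomputable def clsR_E3 (c : Cx) (E : MP) (ih : List Cl) (j : ℕ) : ℕ → Iv → List Cl :=
  Nat.rec (motive := fun _ => ℕ → Iv → List Cl)
    (fun _ h => ⟨h.blp, true, 0, E⟩ :: ih)
    (fun _ r n h => cond (outR c h) (r (Nat.succ n) (Iv.mul c.S h c.iy))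
      (⟨h, false, n, E⟩ :: r (Nat.succ n) (Iv.mul c.S h c.iy))) j

lemma clsR_sub_E3 (c : Cx) (E : MP) (ih : List Cl) (j : ℕ) :
    ∀ n h, ∀ d ∈ ih, d ∈ clsR_E3 c E ih j n h := by
  induction j with
  | zero => exact fun n h d hd => List.mem_cons_of_mem _ hd
  | succ j k =>
    intro n h d hd
    show d ∈ cond (outR c h) (clsR_E3 c E ih j (n + 1) (Iv.mul c.S h c.iy))
      (⟨h, false, n, E⟩ :: clsR_E3 c E ih j (n + 1) (Iv.mul c.S h c.iy))
    cases outR c h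
    · exact List.mem_cons_of_mem _ (k _ _ d hd)
    · exact k _ _ d hd

lemma NE_ev_E3 {y f f' : ℝ} {r r' : ℕ} (e : NE y r r' f f') :
    horR y (pL r r') + horR y (pW r) * (y ^ 8 * f) + horR y (pW r') * (y ^ 8 * f') = 0 := by
  rw [pL_ev, pW_ev, pW_ev]
  unfold NE at e
  linear_combination y ^ 8 * e

section
variable {c : Cx} {y s u : ℝ} (H : c.H y s u)
include H

lemma outR_E3 {f : ℝ} (h1 : -5 / 4 ≤ f) (h2 : f ≤ 2) {h : Iv} (hh : h.mem c.S (y ^ 8 * f)) :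
    outR c h = false := by
  have p : 0 ≤ y ^ 8 := by positivity
  refine Bool.or_eq_false_iff.2 ⟨Bool.eq_false_iff.2 fun k => ?_, Bool.eq_false_iff.2 fun k => ?_⟩
  · have := Iv.pos_sound (Iv.mem_sub (Iv.mem_mul (ypw_mem H 8) (Iv.mem_mul (Iv.mem_cst c.S (-5))
      (Iv.mem_inv (Iv.mem_cst c.S 4)))) hh) k
    push_cast at this
    linarith only [mul_nonneg p (sub_nonneg.2 h1), this]
  · have := Iv.pos_sound (Iv.mem_sub hh (Iv.mem_mul (ypw_mem H 8) (Iv.mem_cst c.S 2))) k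
    push_cast at this
    linarith only [mul_nonneg p (sub_nonneg.2 h2), this]

lemma clsR_mem_E3 {f t : ℝ} (h1 : -5 / 4 ≤ f) (h2 : f ≤ 2) {E : MP} (e : y ^ 8 * f = t * E.ev y s u)
    (ht : Pn y t) (ih : List Cl) (j : ℕ) : ∀ n h, n + j = 9 → h.mem c.S (E.ev y s u * y ^ n) →
      (t = 0 ∨ ∃ m, n ≤ m ∧ t = y ^ m) →
      ∃ d ∈ clsR_E3 c E ih j n h, d.iv.mem c.S (y ^ 8 * f) ∧ d.rel y s u (y ^ 8 * f) := by
  induction j with
  | zero =>
    rintro n h rfl hh k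
    have hy : |y| ≤ 1 := abs_le.2 ⟨H.y0.le, by linarith only [H.y1]⟩
    have k2 : |t| ≤ |y| ^ 9 := by
      rcases k with rfl | ⟨m, hm, rfl⟩
      · rw [abs_zero]; positivity
      · rw [abs_pow]; exact pow_le_pow_of_le_one (abs_nonneg _) hy hm
    refine ⟨⟨h.blp, true, 0, E⟩, List.mem_cons_self, Iv.mem_blp hh ?_, t, ht, e, by simp, fun _ => k2⟩
    rw [e, abs_mul, abs_mul, abs_pow, mul_comm]
    exact mul_le_mul_of_nonneg_left k2 (abs_nonneg _)
  | succ j k =>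
    intro n h hn hh k1
    show ∃ d ∈ cond (outR c h) (clsR_E3 c E ih j (n + 1) (Iv.mul c.S h c.iy))
      (⟨h, false, n, E⟩ :: clsR_E3 c E ih j (n + 1) (Iv.mul c.S h c.iy)), _
    by_cases hc : t = y ^ n
    · have hm : h.mem c.S (y ^ 8 * f) := by rwa [e, hc, mul_comm]
      rw [outR_E3 H h1 h2 hm]
      exact ⟨⟨h, false, n, E⟩, List.mem_cons_self, hm, t, ht, e, fun _ => hc, by simp⟩
    · obtain ⟨d, hd, k2⟩ := k (n + 1) (Iv.mul c.S h c.iy) (by omega)
        (by rw [pow_succ, ← mul_assoc]; exact Iv.mem_mul hh H.hy)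
        (k1.imp id fun ⟨m, hm, e⟩ => ⟨m, lt_of_le_of_ne hm fun h => hc (h ▸ e), e⟩)
      refine ⟨d, ?_, k2⟩
      cases outR c h
      · exact List.mem_cons_of_mem _ hd
      · exact hd

theorem cls_mem {f : ℝ} (hf : FE c y s u f) (h1 : -5 / 4 ≤ f) (h2 : f ≤ 2) :
    ∃ d ∈ cls c, d.iv.mem c.S (y ^ 8 * f) ∧ d.rel y s u (y ^ 8 * f) := by
  obtain ⟨E, hE, t, ht, e⟩ := hf
  have key : ∀ l : List MP, E ∈ l → ∃ d ∈ (List.rec [] (fun E _ ih => clsR_E3 c E ih 9 0 (miv c E)) l :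
      List Cl), d.iv.mem c.S (y ^ 8 * f) ∧ d.rel y s u (y ^ 8 * f) := by
    intro l
    induction l with
    | nil => simp only [List.not_mem_nil, false_and, exists_false, imp_self]
    | cons E' l ih =>
      intro hl
      rcases List.mem_cons.1 hl with rfl | hl
      · exact clsR_mem_E3 H h1 h2 e ht _ 9 0 _ rfl (by simpa using miv_mem H E)
          (ht.imp id fun ⟨m, hm⟩ => ⟨m, m.zero_le, hm⟩)
      · obtain ⟨d, hd, k⟩ := ih hl
        exact ⟨d, clsR_sub_E3 c E' _ 9 0 _ d hd, k⟩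
  exact key _ hE

theorem lev0_sound {k : ℕ → ℕ → Cl → Cl → Bool} (h : lev0 c k = true) {r r' : ℕ} {f f' : ℝ}
    (r1 : 2 ≤ r) (r2 : r ≤ 9) (r3 : 1 ≤ r') (r4 : r' ≤ 2) (hf : FE c y s u f) (hf' : FE c y s u f')
    (h1 : -5 / 4 ≤ f) (h2 : f ≤ 2) (h3 : -5 / 4 ≤ f') (h4 : f' ≤ 2) (e : NE y r r' f f') :
    (r = 4 ∧ r' = 1) ∨ ∃ d d' : Cl, k r r' d d' = true ∧ d.rel y s u (y ^ 8 * f) ∧
      d'.rel y s u (y ^ 8 * f') := by
  obtain ⟨i, rfl⟩ : ∃ i, r = i + 2 := ⟨r - 2, by omega⟩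
  obtain ⟨j, rfl⟩ : ∃ j, r' = j + 1 := ⟨r' - 1, by omega⟩
  unfold lev0 at h
  beta_reduce at h
  have g0 := nall_iff.1 h j (by omega)
  beta_reduce at g0
  have g1 := nall_iff.1 g0 i (by omega)
  beta_reduce at g1
  rcases Bool.or_eq_true_iff.1 g1 with g2 | g2
  · obtain ⟨g3, g4⟩ := Bool.and_eq_true_iff.1 g2
    exact .inl ⟨by rw [Nat.eq_of_beq_eq_true g3], by rw [Nat.eq_of_beq_eq_true g4]⟩
  right
  obtain ⟨d, hd, m1, m2⟩ := cls_mem H hf h1 h2
  obtain ⟨E, hE, t, ht, e'⟩ := hf'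
  have g3 := lall_iff.1 (lall_iff.1 g2 d hd)
    (E, geo c 10 (Iv.mul c.S (piv c (pW (j + 1))) (miv c E)))
    (by rw [lmap_eq]; exact List.mem_map.2 ⟨E, hE, rfl⟩)
  rcases scan_sound H (N := 9) g3 (Iv.mem_add (piv_mem H _) (Iv.mem_mul (piv_mem H _) m1))
    (Iv.mem_mul (piv_mem H _) (miv_mem H E)) ht
    (by have := NE_ev_E3 e; rw [e'] at this; linear_combination this) with ⟨n, -, g4, g5⟩ | ⟨g4, g5⟩
  · rw [outR_E3 H h3 h4 (by
      rw [e', g4, mul_comm]; exact Iv.mem_mul (miv_mem H E) (ypw_mem H n)), Bool.false_or] at g5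
    exact ⟨d, _, g5, m2, t, ht, e', fun _ => g4, by simp⟩
  · exact ⟨d, _, g4, m2, t, ht, e', by simp, fun _ => g5⟩

theorem third_sound (hs : Pw y s) {n : ℕ} {F E : MP} {G : List ℤ} (h : third c n F G E = true) {t : ℝ}
    (ht : Pw y t) : F.ev y s u + y ^ n * horR y G * t * E.ev y s u ≠ 0 := by
  intro e
  obtain ⟨g1, g3⟩ := Bool.and_eq_true_iff.1 h
  obtain ⟨g1, g2⟩ := Bool.and_eq_true_iff.1 g1
  have g4 := lead_ev H g1
  rw [pz0_ev y g2] at g4
  have := win_sound H g3 (miv_mem H _) (Iv.mem_mul (piv_mem H _) (miv_mem H E))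
    (ht.mul H.y1.ne hs.inv) (by
      have := H.s0
      rw [psh_ev, pmul_ev]
      field_simp
      linear_combination horR y c.Qt * e - g4)
  simp at this

theorem one_sound (hs : Pw y s) {F E : MP} {G : List ℤ} {isp : Bool} (h : one c F G E isp = true)
    {t : ℝ} (ht : Pw y t) (ht' : |t| ≤ |y| ^ 9) (e : F.ev y s u + horR y G * t * E.ev y s u = 0) :
    isp = true ∧ ∃ N ∈ c.nodes, t * E.ev y s u = N.ev y s u := by
  rcases Bool.or_eq_true_iff.1 h with g | g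
  · exact absurd (by linear_combination e) (Iv.nz_sound (Iv.mem_add (miv_mem H F) (Iv.mem_mul
      (Iv.mem_mul (piv_mem H G) (miv_mem H E))
      (Iv.mem_blp (w := t) (ypw_mem H 9) (by rwa [abs_pow])))) g)
  obtain ⟨g1, g3⟩ := Bool.and_eq_true_iff.1 g
  obtain ⟨g1, g2⟩ := Bool.and_eq_true_iff.1 g1
  have g4 := lead_ev H g1
  rw [pz0_ev y g2] at g4
  have s0 := H.s0
  have g5 : (ldT c F).ev y s u + horR y (pmul c.Qt G) * E.ev y s u * (t * s⁻¹) = 0 := by
    rw [pmul_ev]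
    field_simp
    linear_combination horR y c.Qt * e - g4
  rcases win_sound H g3 (miv_mem H _) (Iv.mem_mul (piv_mem H _) (miv_mem H E))
    (ht.mul H.y1.ne hs.inv) g5 with ⟨n, g6, g7⟩ | g6
  · rcases Bool.or_eq_true_iff.1 g7 with g8 | g8
    · obtain ⟨g8, g9⟩ := Bool.and_eq_true_iff.1 g8
      obtain ⟨N, hN, g10⟩ := acc_sound (y := y) (s := s) (u := u) g9
      refine ⟨g8, N, hN, mul_left_cancel₀ (pow_ne_zero 14 H.y1.ne) ?_⟩
      rw [← g10, mss_ev, msh_ev, ← g6]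
      field_simp
    · refine absurd ?_ (red_sound H g8)
      rw [madd_ev, msh_ev, msm_ev, psh_ev, ← g6]
      linear_combination y ^ 14 * g5
  · simp at g6

theorem kss_sound {r r' : ℕ} {d d' : Cl} (h : kss c r r' d d' = true) {f f' : ℝ}
    (hd : d.rel y s u (y ^ 8 * f)) (hd' : d'.rel y s u (y ^ 8 * f')) (s1 : d.sm = false)
    (s2 : d'.sm = false) : ¬ NE y r r' f f' := by
  intro e
  obtain ⟨t, -, e1, e2, -⟩ := hd
  obtain ⟨t', -, e3, e4, -⟩ := hd'
  have := NE_ev_E3 e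
  rw [e1, e3, e2 s1, e4 s2] at this
  refine red_sound H h ?_
  rw [madd_ev, madd_ev, mp_ev, msm_ev, msm_ev, psh_ev, psh_ev]
  linear_combination this

theorem kall_sound (hs : Pw y s) {r r' : ℕ} {d d' : Cl} (h : kall c r r' d d' = true) {f f' : ℝ}
    (hd : d.rel y s u (y ^ 8 * f)) (hd' : d'.rel y s u (y ^ 8 * f')) (e : NE y r r' f f') :
    r' = 1 ∧ ∃ N ∈ c.nodes, y ^ 8 * f' = N.ev y s u := by
  have g := NE_ev_E3 e
  obtain ⟨t, p1, e1, e2, e2'⟩ := id hd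
  obtain ⟨t', p2, e3, e4, e4'⟩ := id hd'
  rw [e1, e3] at g
  unfold kall at h
  cases s2 : d'.sm
  · rw [s2, cond_false] at h
    rcases Bool.or_eq_true_iff.1 h with g1 | g1
    · obtain ⟨g1, g2⟩ := Bool.and_eq_true_iff.1 g1
      obtain ⟨N, hN, g3⟩ := acc_sound (y := y) (s := s) (u := u) g2
      refine ⟨Nat.eq_of_beq_eq_true g1, N, hN, ?_⟩
      rwa [msh_ev, pow_zero, one_mul, ← e4 s2, ← e3] at g3
    · cases s1 : d.sm
      · rw [s1, cond_false] at g1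
        exact absurd e (kss_sound H g1 hd hd' s1 s2)
      · rw [s1, cond_true] at g1
        refine absurd (one_sound H hs g1 p1.pw (e2' s1) ?_).1 (by simp)
        rw [madd_ev, mp_ev, msm_ev, psh_ev, ← e4 s2]
        linear_combination g
  · rw [s2, cond_true] at h
    obtain ⟨g1, g2⟩ := Bool.and_eq_true_iff.1 h
    obtain ⟨g3, N, hN, g4⟩ := one_sound H hs g2 p2.pw (e4' s2) (by
      rw [madd_ev, mp_ev, msm_ev, psh_ev, ← e2 (by simpa using g1)]
      linear_combination g)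
    exact ⟨Nat.eq_of_beq_eq_true g3, N, hN, e3.trans g4⟩

theorem engT_sound (h : engT c = true) {r r' : ℕ} {f f' : ℝ}
    (r1 : 2 ≤ r) (r2 : r ≤ 9) (r3 : 1 ≤ r') (r4 : r' ≤ 2) (hf : FE c y s u f) (hf' : FE c y s u f')
    (h1 : -5 / 4 ≤ f) (h2 : f ≤ 2) (h3 : -5 / 4 ≤ f') (h4 : f' ≤ 2) (e : NE y r r' f f') :
    r = 4 ∧ r' = 1 := by
  refine (lev0_sound H h r1 r2 r3 r4 hf hf' h1 h2 h3 h4 e).resolve_right ?_
  rintro ⟨d, d', g, hd, hd'⟩
  obtain ⟨g1, g3⟩ := Bool.and_eq_true_iff.1 g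
  obtain ⟨g1, g2⟩ := Bool.and_eq_true_iff.1 g1
  exact kss_sound H g3 hd hd' (by simpa using g1) (by simpa using g2) e

omit H in
theorem FE_of_FF {x f : ℝ} (hx : x ≠ 0)
    (h : FF x (fun φ => ∃ N ∈ c.nodes, (-x) ^ 8 * φ = N.ev (-x) s u) f) : FE c (-x) s u f := by
  have key : ∀ l : List MP, ∀ N ∈ l, ∀ L : List MP, L = List.rec [] (fun N _ ih =>
      madd (mp (psh 8 [1, 0, 1])) (msm [0, 0, -1] N) ::
      madd (mp (psh 6 [1, 0, 0, 0, -1])) (msm [0, 0, 1] N) :: ih) l →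
      madd (mp (psh 8 [1, 0, 1])) (msm [0, 0, -1] N) ∈ L ∧
      madd (mp (psh 6 [1, 0, 0, 0, -1])) (msm [0, 0, 1] N) ∈ L := by
    intro l
    induction l with
    | nil => simp
    | cons M l ih =>
      rintro N hN L rfl
      rcases List.mem_cons.1 hN with rfl | hN
      · exact ⟨List.mem_cons_self, List.mem_cons_of_mem _ List.mem_cons_self⟩
      · exact (ih N hN _ rfl).imp (fun k => List.mem_cons_of_mem _ (List.mem_cons_of_mem _ k))
          fun k => List.mem_cons_of_mem _ (List.mem_cons_of_mem _ k)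
  obtain ⟨t, E, ht, hE, rfl⟩ := h
  rcases hE with rfl | ⟨φ, ⟨N, hN, e⟩, rfl | rfl⟩
  · refine ⟨_, List.mem_cons_self, t, ht, ?_⟩
    simp only [mp_ev, psh_ev, horR]
    push_cast
    ring
  · refine ⟨_, List.mem_cons_of_mem _ (key _ N hN _ rfl).1, t, ht, ?_⟩
    simp only [madd_ev, msm_ev, mp_ev, psh_ev, horR, ← e]
    push_cast
    ring
  · refine ⟨_, List.mem_cons_of_mem _ (key _ N hN _ rfl).2, t, ht, ?_⟩
    simp only [madd_ev, msm_ev, mp_ev, psh_ev, horR, ← e]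
    push_cast
    field_simp
    ring

end

end Pool.Agent.KExp

end

-- part MP_bd9604_nt.Inf.PartE4
section

/-! The symbolic checker: the cluster `r = 4`, `r' = 1`.

Write y^8 f = t E, y^8 f' = t' E', a = t / s, a' = t' / s (Pw). With T = ldT (mp (pL 4 1)), G1 = Qt * pW 4, G2 = Qt * pW 1, lead_ev (ldV of mp is pmul Qt [] = 0)
gives T + G1 a E + G2 a' E' = 0. Three cases for a' (Pw_split).
clA: a' y^17 = y^n, n < 22; F = y^17 T + y^n G2 E', F + y^17 G1 a E = 0; multiply by y^28 and use winL_sound (N = 30) with t = a y^28; geo_mem for ks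
(length 22 is forced by the final test); acc gives s y^n E' = y^17 N, so t' E' = N.
clB: |a'| <= |y|^5; win_sound; F = y^27 T + y^n2 G1 E = - y^27 G2 a' E'; if s F + y^27 G2 N = 0 then t' E' = N as G2 is not zero.
clC: a' is not zero, w = 1 / a', |w| <= |y|^18; G2 E' + T w + G1 E (a w) = 0; win_sound; F + y^7 T w = 0; lead_ev and s = t' w give
T1 + T2 t' = 0 with |t'| <= 1; win_sound again; if t' y^6 = y^n3 and a w y^7 = y^n2 then t y^13 = y^(n3 + n2) and |t| <= 1 give n3 + n2 >= 13. -/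

namespace Pool.Agent.KExp

lemma zpow_le_E4 {y : ℝ} (y0 : -1 < y) (y1 : y < 0) {n : ℕ} {j : ℤ} (h : (n : ℤ) ≤ j) :
    |y ^ j| ≤ |y| ^ n := by
  obtain ⟨k, rfl⟩ : ∃ k : ℕ, j = (k : ℤ) := ⟨j.toNat, by omega⟩
  rw [zpow_natCast, abs_pow]
  exact pow_le_pow_of_le_one (abs_nonneg _) (abs_le.2 ⟨y0.le, by linarith only [y0, y1]⟩) (by omega)

lemma pn_le_E4 {y t : ℝ} (y0 : -1 < y) (y1 : y < 0) (h : Pn y t) : |t| ≤ 1 := by
  rcases h with rfl | ⟨m, rfl⟩
  · simp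
  · rw [abs_pow]
    exact pow_le_one₀ (abs_nonneg _) (abs_le.2 ⟨y0.le, by linarith⟩)

lemma pw_pow_E4 (y : ℝ) (n : ℕ) : Pw y (y ^ n) := .inr ⟨n, (zpow_natCast y n).symm⟩

lemma rec_E4 {α : Type} (p : α → ℕ → Bool) (N : ℕ) : ∀ (ks : List α) (n0 : ℕ),
    List.rec (motive := fun _ => ℕ → Bool) (fun n => Nat.beq n N)
      (fun h _ ih n => p h n && ih (Nat.succ n)) ks n0 = true →
    n0 + ks.length = N ∧ ∀ i (hi : i < ks.length), p ks[i] (n0 + i) = true
  | [], n0, h => ⟨Nat.eq_of_beq_eq_true h, fun i hi => absurd hi (Nat.not_lt_zero _)⟩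
  | a :: ks, n0, h => by
    obtain ⟨h1, h2⟩ := Bool.and_eq_true_iff.1 h
    obtain ⟨h3, h4⟩ := rec_E4 p N ks (n0 + 1) h2
    refine ⟨by rw [List.length_cons]; omega, fun i hi => ?_⟩
    cases i with
    | zero => exact h1
    | succ i =>
      have := h4 i (by simpa using hi)
      rwa [show n0 + 1 + i = n0 + (i + 1) by omega] at this

theorem Pw_split {y a : ℝ} (y0 : -1 < y) (y1 : y < 0) (h : Pw y a) :
    (∃ n < 22, a * y ^ 17 = y ^ n) ∨ |a| ≤ |y| ^ 5 ∨ (a ≠ 0 ∧ |a⁻¹| ≤ |y| ^ 18) := by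
  have hy : y ≠ 0 := y1.ne
  rcases h with rfl | ⟨j, rfl⟩
  · exact .inr (.inl (by rw [abs_zero]; positivity))
  rcases le_or_gt 5 j with h | h
  · exact .inr (.inl (zpow_le_E4 y0 y1 (by exact_mod_cast h)))
  rcases le_or_gt j (-18) with h' | h'
  · refine .inr (.inr ⟨zpow_ne_zero _ hy, ?_⟩)
    rw [← zpow_neg]
    exact zpow_le_E4 y0 y1 (by push_cast; omega)
  · refine .inl ⟨(j + 17).toNat, by omega, ?_⟩
    rw [← zpow_natCast, ← zpow_natCast, ← zpow_add₀ hy]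
    congr 1
    push_cast
    omega

section
variable {c : Cx} {y s u : ℝ} (H : c.H y s u) (hs : Pw y s) {T E E' : MP} {G1 G2 : List ℤ} {t t' : ℝ}
  (ht : Pn y t) (ht' : Pn y t')
  (e : T.ev y s u + horR y G1 * (t / s) * E.ev y s u + horR y G2 * (t' / s) * E'.ev y s u = 0)
include H hs ht ht' e

theorem clA_sound {T1 h1 h2 : Iv} (h : clA c T G1 G2 E E' T1 (geo c 31 h1) (geo c 22 h2) = true)
    (m0 : T1.mem c.S (T.ev y s u * y ^ 45)) (m1 : h1.mem c.S (horR y G1 * E.ev y s u * y ^ 17))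
    (m2 : h2.mem c.S (horR y G2 * E'.ev y s u * y ^ 28)) {n : ℕ} (hn : n < 22)
    (hn' : t' / s * y ^ 17 = y ^ n) : ∃ N ∈ c.nodes, t' * E'.ev y s u = N.ev y s u := by
  have hy : y ≠ 0 := H.y1.ne
  have s0 := H.s0
  have ha : Pw y (t / s) := by rw [div_eq_mul_inv]; exact Pw.mul hy ht.pw hs.inv
  obtain ⟨h3, h4⟩ := rec_E4 (fun h n => winL (Iv.add T1 h)
    (fun n2 => acc c 17 (mss (msh n E')) || red c 4 (madd (msh 28 (madd (msh 17 T) (msm (psh n G2) E')))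
      (msm (psh (Nat.add n2 17) G1) E)))
    (acc c 17 (mss (msh n E')) || third c 17 (madd (msh 17 T) (msm (psh n G2) E')) G1 E) (geo c 31 h1))
    22 (geo c 22 h2) 0 h
  have hi : n < (geo c 22 h2).length := by omega
  have h5 := h4 n hi
  rw [Nat.zero_add] at h5
  have h6 := ((geo_mem H m2).2 n hi).2
  have eF : (madd (msh 17 T) (msm (psh n G2) E')).ev y s u +
      y ^ 17 * horR y G1 * (t / s) * E.ev y s u = 0 := by
    rw [madd_ev, msh_ev, msm_ev, psh_ev, ← hn']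
    linear_combination y ^ 17 * e
  have hacc : acc c 17 (mss (msh n E')) = true → ∃ N ∈ c.nodes, t' * E'.ev y s u = N.ev y s u := by
    intro k
    obtain ⟨N, hN, k⟩ := acc_sound (y := y) (s := s) (u := u) k
    refine ⟨N, hN, mul_left_cancel₀ (pow_ne_zero 17 hy) ?_⟩
    rw [mss_ev, msh_ev, ← hn'] at k
    rw [← k]
    field_simp
  rcases winL_sound H (N := 30) (t := t / s * y ^ 28) h5 (Iv.mem_add m0 h6) m1
    (Pw.mul hy ha (pw_pow_E4 y 28)) (by rw [← hn']; linear_combination y ^ 45 * e) with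
    ⟨n2, -, k1, k2⟩ | ⟨k2, -⟩
  · rcases Bool.or_eq_true_iff.1 k2 with k | k
    · exact hacc k
    · refine absurd ?_ (red_sound H k)
      rw [madd_ev, msh_ev, msm_ev _ _ _ _ E, psh_ev, show Nat.add n2 17 = n2 + 17 from rfl, pow_add,
        ← k1]
      linear_combination y ^ 28 * eF
  · rcases Bool.or_eq_true_iff.1 k2 with k | k
    · exact hacc k
    · exact absurd eF (third_sound H hs k ha)

theorem clB_sound {iT g1 g2 : Iv} (h : clB c T G1 G2 E E' iT g1 g2 = true) (hG : horR y G2 ≠ 0)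
    (m0 : iT.mem c.S (T.ev y s u)) (m1 : g1.mem c.S (horR y G1 * E.ev y s u))
    (m2 : g2.mem c.S (horR y G2 * E'.ev y s u)) (hn : |t' / s| ≤ |y| ^ 5) :
    ∃ N ∈ c.nodes, t' * E'.ev y s u = N.ev y s u := by
  have hy : y ≠ 0 := H.y1.ne
  have s0 := H.s0
  have ha : Pw y (t / s) := by rw [div_eq_mul_inv]; exact Pw.mul hy ht.pw hs.inv
  have ha' : Pw y (t' / s) := by rw [div_eq_mul_inv]; exact Pw.mul hy ht'.pw hs.inv
  rcases win_sound H h (Iv.mem_add m0 (Iv.mem_mul m2 (Iv.mem_blp (ypw_mem H 5) (w := t' / s)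
    (by rwa [abs_pow])))) m1 ha (by linear_combination e) with ⟨n2, k1, k2⟩ | k
  · have eF : (madd (msh 27 T) (msm (psh n2 G1) E)).ev y s u +
        y ^ 27 * horR y G2 * (t' / s) * E'.ev y s u = 0 := by
      rw [madd_ev, msh_ev, msm_ev, psh_ev, ← k1]
      linear_combination y ^ 27 * e
    rcases Bool.or_eq_true_iff.1 k2 with k | k
    · obtain ⟨N, hN, k⟩ := lany_iff.1 k
      have k := mz0_ev y s u k
      rw [madd_ev, mss_ev, msm_ev, psh_ev] at k
      refine ⟨N, hN, mul_left_cancel₀ (mul_ne_zero (pow_ne_zero 27 hy) hG) ?_⟩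
      have e2 : s * (t' / s) = t' := by field_simp
      linear_combination s * eF - k - y ^ 27 * horR y G2 * E'.ev y s u * e2
    · exact absurd eF (third_sound H hs k ha')
  · cases k

theorem clC_sound {iT g1 g2 : Iv} (h : clC c T G1 G2 E E' iT g1 g2 = true)
    (m0 : iT.mem c.S (T.ev y s u)) (m1 : g1.mem c.S (horR y G1 * E.ev y s u))
    (m2 : g2.mem c.S (horR y G2 * E'.ev y s u)) (hn : t' / s ≠ 0) (hn' : |(t' / s)⁻¹| ≤ |y| ^ 18) :
    False := by
  have hy : y ≠ 0 := H.y1.ne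
  have s0 := H.s0
  have t0 : t' ≠ 0 := fun k => hn (by rw [k, zero_div])
  have ha : Pw y (t / s) := by rw [div_eq_mul_inv]; exact Pw.mul hy ht.pw hs.inv
  have ha' : Pw y (t' / s) := by rw [div_eq_mul_inv]; exact Pw.mul hy ht'.pw hs.inv
  have ew : t' / s * (t' / s)⁻¹ = 1 := mul_inv_cancel₀ hn
  have es : t' * (t' / s)⁻¹ = s := by field_simp
  have et : t / s * (t' / s)⁻¹ * t' = t := by field_simp
  have hw := Pw.mul hy ha ha'.inv
  generalize (t' / s)⁻¹ = w at *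
  have e1 : horR y G2 * E'.ev y s u + T.ev y s u * w + horR y G1 * E.ev y s u * (t / s * w) = 0 := by
    linear_combination w * e - horR y G2 * E'.ev y s u * ew
  rcases win_sound H h (Iv.mem_add m2 (Iv.mem_mul m0 (Iv.mem_blp (ypw_mem H 18) (w := w)
    (by rwa [abs_pow])))) m1 hw e1 with ⟨n2, k1, k2⟩ | k
  swap
  · cases k
  obtain ⟨k2, k4⟩ := Bool.and_eq_true_iff.1 k2
  obtain ⟨k2, k3⟩ := Bool.and_eq_true_iff.1 k2
  have e2 := lead_ev H k2
  rw [pz0_ev y k3, mul_zero, add_zero, madd_ev, msm_ev, msm_ev, psh_ev, psh_ev, ← k1] at e2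
  generalize ldT c (madd (msm (psh 7 G2) E') (msm (psh n2 G1) E)) = T2 at e2 k4
  have e3 : (msm (psh 7 c.Qt) T).ev y s u + T2.ev y s u * t' = 0 := by
    rw [msm_ev, psh_ev]
    refine mul_left_cancel₀ s0 ?_
    linear_combination (-t') * e2 + t' * horR y c.Qt * y ^ 7 * e1
      - y ^ 7 * horR y c.Qt * T.ev y s u * es
  generalize msm (psh 7 c.Qt) T = T1 at e3 k4
  rcases Bool.or_eq_true_iff.1 k4 with k | k
  · refine Iv.nz_sound (Iv.mem_add (miv_mem H T1) (Iv.mem_blp (miv_mem H T2) ?_)) k e3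
    rw [abs_mul]
    exact mul_le_of_le_one_right (abs_nonneg _) (pn_le_E4 H.y0 H.y1 ht')
  rcases win_sound H k (miv_mem H T1) (miv_mem H T2) ht'.pw e3 with ⟨n3, k5, k6⟩ | k
  swap
  · cases k
  rcases Bool.or_eq_true_iff.1 k6 with k | k
  · have k : n3 + n2 < 13 := Nat.blt_eq.mp k
    have e4 : t * y ^ 13 = y ^ (n3 + n2) := by
      rw [pow_add, ← k5, ← k1]
      linear_combination (-y ^ 13) * et
    have e5 : |y| ^ (n3 + n2) ≤ |y| ^ 13 := by
      rw [← abs_pow, ← e4, abs_mul, abs_pow]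
      exact mul_le_of_le_one_left (by positivity) (pn_le_E4 H.y0 H.y1 ht)
    exact absurd (pow_lt_pow_right_of_lt_one₀ (abs_pos.2 hy) (abs_lt.2 ⟨H.y0, by linarith only [H.y1]⟩) k)
      (not_lt.2 e5)
  · refine red_sound H k ?_
    rw [madd_ev, msh_ev, msh_ev, ← k5]
    linear_combination y ^ 6 * e3

end

theorem clus_sound {c : Cx} {y s u : ℝ} (H : c.H y s u) (hs : Pw y s) (h : clus c = true) {f f' : ℝ}
    (hf : FE c y s u f) (hf' : FE c y s u f') (e : NE y 4 1 f f') :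
    ∃ N ∈ c.nodes, y ^ 8 * f' = N.ev y s u := by
  have hy : y ≠ 0 := H.y1.ne
  have s0 := H.s0
  obtain ⟨E, hE, t, ht, e1⟩ := hf
  obtain ⟨E', hE', t', ht', e2⟩ := hf'
  obtain ⟨h1, h3⟩ := Bool.and_eq_true_iff.1 h
  obtain ⟨h1, h2⟩ := Bool.and_eq_true_iff.1 h1
  have h4 := lall_iff.1 (lall_iff.1 h3 E hE) _ (by rw [lmap_eq]; exact List.mem_map_of_mem hE')
  obtain ⟨h4, hC⟩ := Bool.and_eq_true_iff.1 h4
  obtain ⟨hA, hB⟩ := Bool.and_eq_true_iff.1 h4
  have e3 := lead_ev H h1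
  have e4 : horR y (ldV c (mp (pL 4 1))) = 0 := by
    rw [show ldV c (mp (pL 4 1)) = pmul c.Qt [] from rfl, pmul_ev, horR, mul_zero]
  rw [e4, mul_zero, add_zero, mp_ev, pL_ev] at e3
  have e5 : (ldT c (mp (pL 4 1))).ev y s u + horR y (pmul c.Qt (pW 4)) * (t / s) * E.ev y s u +
      horR y (pmul c.Qt (pW 1)) * (t' / s) * E'.ev y s u = 0 := by
    refine mul_left_cancel₀ s0 ?_
    have a1 : s * (t / s) = t := by field_simp
    have a2 : s * (t' / s) = t' := by field_simp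
    unfold NE at e
    rw [pmul_ev, pmul_ev, pW_ev, pW_ev]
    linear_combination -e3 + horR y c.Qt * y ^ 8 * e
      + horR y c.Qt * ((1 + y) * y ^ 3 * (-y) ^ 4) * (E.ev y s u * a1 - e1)
      + horR y c.Qt * ((1 + y) * y ^ 3 * (-y) ^ 1) * (E'.ev y s u * a2 - e2)
  have m0 := miv_mem H (ldT c (mp (pL 4 1)))
  have m1 := Iv.mem_mul (piv_mem H (pmul c.Qt (pW 4))) (miv_mem H E)
  have m2 := Iv.mem_mul (piv_mem H (pmul c.Qt (pW 1))) (miv_mem H E')
  rw [e2]
  rcases Pw_split H.y0 H.y1 (a := t' / s) (by rw [div_eq_mul_inv]; exact Pw.mul hy ht'.pw hs.inv) with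
    ⟨n, k1, k2⟩ | k | ⟨k1, k2⟩
  · exact clA_sound H hs ht ht' e5 hA (Iv.mem_mul m0 (ypw_mem H 45)) (Iv.mem_mul m1 (ypw_mem H 17))
      (Iv.mem_mul m2 (ypw_mem H 28)) k1 k2
  · exact clB_sound H hs ht ht' e5 hB (Iv.nz_sound (piv_mem H _) h2) m0 m1 m2 k
  · exact (clC_sound H hs ht ht' e5 hC m0 m1 m2 k1 k2).elim

theorem eng_sound {c : Cx} {x s u : ℝ} (H : c.H (-x) s u) (hs : Pw (-x) s) (h : eng c = true)
    (xa : 0.5698 ≤ x) (xb : x ≤ 0.5699) (hk : kap x < R 2 x) (hk' : R 2 x < kap x + 0.0001) :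
    Inft x (kap x) := by
  obtain ⟨h1, h3⟩ := Bool.and_eq_true_iff.1 h
  obtain ⟨h1, h2⟩ := Bool.and_eq_true_iff.1 h1
  have hx : x ≠ 0 := (by linarith only [xa] : 0 < x).ne'
  refine E_ind xa xb hk hk' (Φ := fun φ => ∃ N ∈ c.nodes, (-x) ^ 8 * φ = N.ev (-x) s u) ?_ ?_
  · rintro φ ⟨N, hN, e⟩
    have := Iv.pos_sound (Iv.mem_sub (ypw_mem H 8) (Iv.mem_mul (Iv.mem_cst c.S 10) (miv_mem H N)))
      (lall_iff.1 h1 N hN)
    rw [← e] at this
    have h8 : 0 < (-x) ^ 8 := Even.pow_pos (by decide) (neg_ne_zero.2 hx)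
    push_cast at this
    by_contra k
    linarith only [mul_pos h8 (sub_pos.2 (not_le.1 k)), this]
  · intro r r' f f' r1 r2 r3 r4 hf hf' a1 a2 a3 a4 e
    have hf := FE_of_FF hx hf
    have hf' := FE_of_FF hx hf'
    rcases lev0_sound H h2 r1 r2 r3 r4 hf hf' a1 a2 a3 a4 e with ⟨rfl, rfl⟩ | ⟨d, d', k1, k2, k3⟩
    · exact ⟨rfl, clus_sound H hs h3 hf hf' e⟩
    · exact kall_sound H hs k1 k2 k3 e

end Pool.Agent.KExp

end

-- part MP_bd9604_nt.Inf.PartE5
section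

/-! The bases just above the second level: the regimes.

p = 1 - 2 x + x^2 - x^3 = horR y pp for y = - x, R 2 - kap = 2 p / ((1 + x^2) (1 - x)); p is decreasing with root 0.56984029..., so kap < R 2 gives x <= 0.5698403, and
0 < p <= 0.000005. horR y pQ = (1 + x)^2 (1 + x^2) < 3.3.
mkC_H: first the context with iS = ball 2^70 (|s| <= 2^(-10)); its piv / miv soundness only needs hy, hs, hu (reprove the three easy lemmas or build the H of the
auxiliary context); if the inverse is ok then rho is not zero and s = pp * Qt / rho.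
partE: by contradiction. regT with s = p, u = 0, engT_sound, FE_of_FF (nodes = []) and E_term give p Q = B - A > 0. If A = y^a and (B = 0 or B = y^b, a < b) put s = y^a,
u = B / s (zero or y^c, c >= 1), p Q = s (u - 1); |u - 1| >= 1 - x^2 gives |s| <= 2^(-10). c = 4: loop_four with m = 0, i = a - 2
(R 2 - kap = (R 1 - R 2) x^(a-2), a >= 6 as x^a is small); c in 1..8: regA c with u := 0; else |u| <= |y|^9: if u y^4 = s use regA4 (u := 0), if u y^2 = s use regA2, else regA0.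
If B = y^b and (A = 0 or A = y^a, b < a): s = y^b, u = A / s, p Q = s (1 - u): c = 4 loop_four, c in 1..8 regB c, c >= 9 regB0, A = 0 regB1. a = b and A = B = 0 contradict p > 0. -/

namespace Pool.Agent.KExp

lemma iyE_PartE5 {x : ℝ} (xa : 0.569838 ≤ x) (xb : x ≤ 0.5698403) : iyE.mem 80 (-x) := by
  refine Iv.mem_neg (Iv.mem_ofN ?_ ?_)
  · refine le_trans ?_ xa
    norm_num
  · refine le_trans xb ?_
    norm_num

theorem mkC_H {Qt : List ℤ} {rho : MP} {nodes : List MP} {hasu unz : Bool} {excl : List ℕ} {x s u : ℝ}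
    (xa : 0.569838 ≤ x) (xb : x ≤ 0.5698403) (hs : |s| ≤ 1 / 2 ^ 10) (s0 : s ≠ 0)
    (hu : u = 0 ∨ (hasu = true ∧ |u| ≤ x ^ 9))
    (rel : horR (-x) pp * horR (-x) Qt = s * rho.ev (-x) s u) (pu : Pw (-x) (u / s))
    (h1 : unz = true → u ≠ 0) (h2 : ∀ n ∈ excl, u * (-x) ^ 10 ≠ s * (-x) ^ n) :
    (mkC Qt rho nodes hasu unz excl).H (-x) s u := by
  have hy := iyE_PartE5 xa xb
  have x0 : 0 < x := by linarith only [xa]
  have hiu : (cond hasu (Iv.pow 80 iyE 9).blp (Iv.ball 0)).mem 80 u := by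
    cases hasu with
    | false =>
      rcases hu with rfl | ⟨h, -⟩
      · exact Iv.mem_ball (by simp)
      · exact absurd h (by simp)
    | true =>
      refine Iv.mem_blp (Iv.mem_pow hy 9) ?_
      rw [abs_pow, abs_neg, abs_of_pos x0]
      rcases hu with rfl | ⟨-, h⟩
      · rw [abs_zero]; positivity
      · exact h
  have H0 : (⟨80, iyE, Iv.ball (Nat.shiftLeft 1 70), cond hasu (Iv.pow 80 iyE 9).blp (Iv.ball 0), Qt, rho,
      nodes, unz, excl⟩ : Cx).H (-x) s u := by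
    refine ⟨by linarith only [xb, x0], by linarith only [x0], hy, Iv.mem_ball (hs.trans (le_of_eq ?_)), hiu, rel, s0, pu, h1, h2⟩
    show (1 : ℝ) / 2 ^ 10 = ((1 <<< 70 : ℕ) : ℝ) / 2 ^ 80
    rw [Nat.shiftLeft_eq]
    norm_num
  refine ⟨by linarith only [xb, x0], by linarith only [x0], hy, ?_, hiu, rel, s0, pu, h1, h2⟩
  have m1 := piv_mem H0 pp
  have m2 := piv_mem H0 Qt
  have m3 := miv_mem H0 rho
  have m4 := Iv.mem_mul (Iv.mem_mul m1 m2) (Iv.mem_inv m3)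
  intro hok
  have hnz := (Bool.and_eq_true_iff.1 hok).2
  have r0 : rho.ev (-x) s u ≠ 0 := Iv.nz_sound m3 hnz
  refine Iv.mem_blp m4 (le_of_eq ?_) hok
  rw [rel, mul_inv_cancel_right₀ r0]

lemma R1_PartE5 {x : ℝ} (h0 : 0 < x) (h1 : x < 1) : R 1 x = 1 / (1 + x) := by
  simpa using R_succ' h0 h1 0

lemma R2_PartE5 {x : ℝ} (h0 : 0 < x) (h1 : x < 1) : R 2 x = (1 - x) / (1 + x ^ 2) := by
  have := R_succ' h0 h1 1
  rw [P_succ, X_succ] at this
  simpa using this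

lemma gap_PartE5 {x : ℝ} (h0 : 0 < x) (h1 : x < 1) :
    R 2 x - kap x = 2 * (1 - 2 * x + x ^ 2 - x ^ 3) / ((1 + x ^ 2) * (1 - x)) := by
  have a : 1 - x ≠ 0 := by linarith
  have b : 1 + x ^ 2 ≠ 0 := by positivity
  rw [R2_PartE5 h0 h1, kap]
  field_simp
  ring

lemma pp_PartE5 (x : ℝ) : horR (-x) pp = 1 - 2 * x + x ^ 2 - x ^ 3 := by
  simp only [pp, horR]
  push_cast
  ring

lemma pQ_PartE5 (x : ℝ) : horR (-x) pQ = (1 + x) ^ 2 * (1 + x ^ 2) := by
  simp only [pQ, horR]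
  push_cast
  ring

/-- the standing facts -/
structure St_PartE5 (x : ℝ) : Prop where
  xa : 0.569838 ≤ x
  xb : x ≤ 0.5698403
  hk : kap x < R 2 x
  hk' : R 2 x < kap x + 0.0001
  p0 : 0 < horR (-x) pp
  p1 : horR (-x) pp ≤ 0.000005
  q0 : 0 < horR (-x) pp * horR (-x) pQ
  q1 : horR (-x) pp * horR (-x) pQ ≤ 0.00002

lemma st_PartE5 {x : ℝ} (xa : 0.569838 ≤ x) (x1 : x < 1) (hk : kap x < R 2 x) : St_PartE5 x := by
  have x0 : 0 < x := by linarith
  have hg := gap_PartE5 x0 x1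
  have d0 : 0 < (1 + x ^ 2) * (1 - x) := mul_pos (by positivity) (by linarith only [x1])
  have p0 : 0 < 1 - 2 * x + x ^ 2 - x ^ 3 := by
    have : 0 < 2 * (1 - 2 * x + x ^ 2 - x ^ 3) / ((1 + x ^ 2) * (1 - x)) := by rw [← hg]; linarith only [hk]
    have := (div_pos_iff_of_pos_right d0).1 this
    linarith only [this]
  have xb : x ≤ 0.5698403 := by
    by_contra hc
    push Not at hc
    have : 0 < (x - 0.5698403) * (2 - x - 0.5698403 + x ^ 2 + 0.5698403 * x + 0.5698403 ^ 2) :=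
      mul_pos (by linarith only [hc]) (by nlinarith only [])
    linarith only [p0, this]
  have p1 : 1 - 2 * x + x ^ 2 - x ^ 3 ≤ 0.000005 := by
    have : 0 ≤ (x - 0.569838) * (2 - x - 0.569838 + x ^ 2 + 0.569838 * x + 0.569838 ^ 2) :=
      mul_nonneg (by linarith only [xa]) (by nlinarith only [])
    linarith only [this]
  have x2 : x ^ 2 ≤ 0.33 := by nlinarith only [xb, p1]
  have q0 : 0 < (1 + x) ^ 2 * (1 + x ^ 2) := by positivity
  have q1 : (1 + x) ^ 2 * (1 + x ^ 2) ≤ 4 := by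
    have : (1 + x) ^ 2 ≤ 2.5 := by linarith only [xb, x2]
    nlinarith only [p1, x2]
  refine ⟨xa, xb, hk, ?_, ?_, ?_, ?_, ?_⟩
  · have : R 2 x - kap x < 0.0001 := by
      rw [hg, div_lt_iff₀ d0]
      have : 0.4 ≤ (1 + x ^ 2) * (1 - x) := by linarith only [xa, p0]
      linarith only [xa, p1]
    linarith only [this]
  · rwa [pp_PartE5]
  · rwa [pp_PartE5]
  · rw [pp_PartE5, pQ_PartE5]; exact mul_pos p0 q0
  · rw [pp_PartE5, pQ_PartE5]; nlinarith only [p0, p1, q1]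

lemma loop_PartE5 {x : ℝ} (h : St_PartE5 x) {a : ℕ}
    (e : horR (-x) pp * horR (-x) pQ = x ^ a * (1 - x ^ 4)) : Inft x (kap x) := by
  have xa := h.xa
  have xb := h.xb
  have x0 : 0 < x := by linarith only [xa]
  have x1 : x < 1 := by linarith only [xb, x0]
  have x2 : 0.32 ≤ x ^ 2 := by nlinarith only [xa]
  have x2' : x ^ 2 ≤ 0.33 := by nlinarith only [xa, xb]
  have x4 : 0.1 ≤ x ^ 4 := by nlinarith only [x2]
  have x4' : x ^ 4 ≤ 0.2 := by nlinarith only [x2']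
  have ha : 4 ≤ a := by
    by_contra hc
    have h1 : x ^ 4 ≤ x ^ a := pow_le_pow_of_le_one x0.le x1.le (by omega)
    have h2 := h.q1
    rw [e] at h2
    nlinarith only [x4, x4', h1, h2]
  obtain ⟨j, rfl⟩ : ∃ j, a = j + 2 := ⟨a - 2, by omega⟩
  refine loop_four (m := 0) (i := j) (by linarith only [xa, x1]) x1 (by omega) ?_ ?_
  · rw [X_zero, show 0 + 2 = 2 from rfl, show 0 + 1 = 1 from rfl, gap_PartE5 x0 x1, R1_PartE5 x0 x1,
      R2_PartE5 x0 x1]
    rw [pp_PartE5, pQ_PartE5] at e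
    have a : 1 - x ≠ 0 := by linarith only [x1]
    have b : 1 + x ^ 2 ≠ 0 := by positivity
    have c : 1 + x ≠ 0 := by positivity
    have f : (1 - 2 * x + x ^ 2 - x ^ 3) * (1 + x) = x ^ (j + 2) * (1 - x) := by
      apply mul_right_cancel₀ (mul_ne_zero c b)
      linear_combination e
    field_simp
    linear_combination 2 * f
  · rw [X_zero, show 0 + 2 = 2 from rfl]
    have h1 : (R 2 x - kap x) / x ^ 4 ≤ 0.001 := by
      rw [div_le_iff₀ (by positivity)]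
      linarith only [h.hk', x4]
    have h2 : 0.1 ≤ kap x := by
      rw [kap, le_div_iff₀ (by linarith only [x1])]
      linarith only [xa]
    linarith only [h.hk, h1, h2]

lemma small_PartE5 {x s u : ℝ} (h : St_PartE5 x) (hu : |u| ≤ x)
    (e : |horR (-x) pp * horR (-x) pQ| = |s| * |u - 1|) : |s| ≤ 1 / 2 ^ 10 := by
  rw [abs_of_pos h.q0] at e
  have h1 := h.q1
  have h2 : 0.4 ≤ |u - 1| := by
    rw [abs_sub_comm]
    refine le_trans ?_ (le_abs_self _)
    linarith [(abs_le.1 hu).2, h.xb]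
  have h3 := abs_nonneg s
  nlinarith only [e, h1, h2]

lemma go_PartE5 {x s u : ℝ} (h : St_PartE5 x) {c : Cx} (H : c.H (-x) s u) {a : ℕ} (hs : s = (-x) ^ a)
    (he : eng c = true) : Inft x (kap x) :=
  eng_sound H (Or.inr ⟨a, by rw [hs, zpow_natCast]⟩) he (by linarith [h.xa]) (by linarith only [h.xb])
    h.hk h.hk'

lemma pw0_PartE5 (y s : ℝ) : Pw y (0 / s) := Or.inl (zero_div s)

lemma abs_PartE5 {x : ℝ} (h : St_PartE5 x) {c k : ℕ} (hc : k ≤ c) : |(-x) ^ c| ≤ x ^ k := by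
  have x0 : 0 < x := by linarith only [h.xa]
  rw [abs_pow, abs_neg, abs_of_pos x0]
  exact pow_le_pow_of_le_one x0.le (by linarith only [h.xb]) hc

lemma four_PartE5 {x : ℝ} (h : St_PartE5 x) {a : ℕ}
    (e : |horR (-x) pp * horR (-x) pQ| = |(-x) ^ a| * |(-x) ^ 4 - 1|) : Inft x (kap x) := by
  have x0 : 0 < x := by linarith [h.xa]
  refine loop_PartE5 h (a := a) ?_
  have x4 : x ^ 4 ≤ 1 := pow_le_one₀ x0.le (by linarith only [h.xb])
  rwa [abs_of_pos h.q0, abs_pow, abs_neg, abs_of_pos x0, show (-x) ^ 4 = x ^ 4 by ring, abs_sub_comm,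
    abs_of_nonneg (by linarith)] at e

lemma caseA_PartE5 (hA : ∀ c, 1 ≤ c → c ≤ 8 → c ≠ 4 → eng (regA c) = true)
    (hA0 : eng regA0 = true) (hA4 : eng regA4 = true) (hA2 : eng regA2 = true)
    {x u : ℝ} (h : St_PartE5 x) {a : ℕ} (hu : u = 0 ∨ ∃ c, 1 ≤ c ∧ u = (-x) ^ c)
    (e : horR (-x) pp * horR (-x) pQ = (-x) ^ a * (u - 1)) : Inft x (kap x) := by
  have x0 : 0 < x := by linarith [h.xa]
  have y0 : -x ≠ 0 := by linarith
  have s0 : (-x) ^ a ≠ 0 := pow_ne_zero _ y0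
  have hs : |(-x) ^ a| ≤ 1 / 2 ^ 10 := by
    refine small_PartE5 h (u := u) ?_ (by rw [e, abs_mul])
    rcases hu with rfl | ⟨c, hc, rfl⟩
    · rw [abs_zero]; exact x0.le
    · simpa only [abs_pow, abs_neg, pow_one] using abs_PartE5 h hc
  by_cases hc : ∃ c, 1 ≤ c ∧ c ≤ 8 ∧ u = (-x) ^ c
  · obtain ⟨c, c1, c8, rfl⟩ := hc
    by_cases c4 : c = 4
    · subst c4
      exact four_PartE5 h (a := a) (by rw [e, abs_mul])
    · refine go_PartE5 h (u := 0) (mkC_H h.xa h.xb hs s0 (Or.inl rfl) ?_ (pw0_PartE5 _ _) (by simp)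
        (by simp only [List.not_mem_nil, zero_mul, ne_eq, zero_eq_mul, pow_eq_zero_iff', neg_eq_zero, not_or, not_and, Decidable.not_not, IsEmpty.forall_iff, implies_true])) rfl (hA c c1 c8 c4)
      rw [e, mp_ev, padd_ev, psh_ev]
      simp only [horR]
      push_cast
      ring
  have hu9 : |u| ≤ x ^ 9 := by
    rcases hu with rfl | ⟨c, c1, rfl⟩
    · rw [abs_zero]; positivity
    · exact abs_PartE5 h (by by_contra h9; exact hc ⟨c, c1, by omega, rfl⟩)
  by_cases e4 : u * (-x) ^ 4 = (-x) ^ a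
  · refine go_PartE5 h (u := 0) (mkC_H h.xa h.xb hs s0 (Or.inl rfl) ?_ (pw0_PartE5 _ _) (by simp)
      (by simp only [List.not_mem_nil, zero_mul, ne_eq, zero_eq_mul, pow_eq_zero_iff', neg_eq_zero, not_or, not_and, Decidable.not_not, IsEmpty.forall_iff, implies_true])) rfl hA4
    simp only [MP.ev, sev, psh_ev, horR]
    push_cast
    linear_combination (-x) ^ 4 * e + (-x) ^ a * e4
  by_cases e2 : u * (-x) ^ 2 = (-x) ^ a
  · refine go_PartE5 h (u := 0) (mkC_H h.xa h.xb hs s0 (Or.inl rfl) ?_ (pw0_PartE5 _ _) (by simp)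
      (by simp only [List.not_mem_nil, zero_mul, ne_eq, zero_eq_mul, pow_eq_zero_iff', neg_eq_zero, not_or, not_and, Decidable.not_not, IsEmpty.forall_iff, implies_true])) rfl hA2
    simp only [MP.ev, sev, psh_ev, horR]
    push_cast
    linear_combination (-x) ^ 2 * e + (-x) ^ a * e2
  refine go_PartE5 h (u := u) (mkC_H h.xa h.xb hs s0 (Or.inr ⟨rfl, hu9⟩) ?_ ?_ (by simp) ?_) rfl hA0
  · simp only [MP.ev, sev, horR]
    push_cast
    linear_combination e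
  · rcases hu with rfl | ⟨c, -, rfl⟩
    · exact pw0_PartE5 _ _
    · exact Or.inr ⟨(c : ℤ) - a, by rw [zpow_sub₀ y0, zpow_natCast, zpow_natCast]⟩
  · intro n hn
    simp only [List.mem_cons, List.not_mem_nil, or_false] at hn
    rcases hn with rfl | rfl
    · intro f
      exact e4 (mul_right_cancel₀ (pow_ne_zero 6 y0) (by linear_combination f))
    · intro f
      exact e2 (mul_right_cancel₀ (pow_ne_zero 8 y0) (by linear_combination f))

lemma caseB_PartE5 (hB : ∀ c, 1 ≤ c → c ≤ 8 → c ≠ 4 → eng (regB c) = true)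
    (hB0 : eng regB0 = true) (hB1 : eng regB1 = true)
    {x u : ℝ} (h : St_PartE5 x) {a : ℕ} (hu : u = 0 ∨ ∃ c, 1 ≤ c ∧ u = (-x) ^ c)
    (e : horR (-x) pp * horR (-x) pQ = (-x) ^ a * (1 - u)) : Inft x (kap x) := by
  have x0 : 0 < x := by linarith [h.xa]
  have y0 : -x ≠ 0 := by linarith
  have s0 : (-x) ^ a ≠ 0 := pow_ne_zero _ y0
  have hs : |(-x) ^ a| ≤ 1 / 2 ^ 10 := by
    refine small_PartE5 h (u := u) ?_ (by rw [e, abs_mul, abs_sub_comm])
    rcases hu with rfl | ⟨c, hc, rfl⟩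
    · rw [abs_zero]; exact x0.le
    · simpa only [abs_pow, abs_neg, pow_one] using abs_PartE5 h hc
  rcases hu with rfl | ⟨c, c1, rfl⟩
  · refine go_PartE5 h (u := 0) (mkC_H h.xa h.xb hs s0 (Or.inl rfl) ?_ (pw0_PartE5 _ _) (by simp)
      (by simp only [List.not_mem_nil, zero_mul, ne_eq, zero_eq_mul, pow_eq_zero_iff', neg_eq_zero, not_or, not_and, Decidable.not_not, IsEmpty.forall_iff, implies_true])) rfl hB1
    rw [e, mp_ev]
    simp only [horR]
    push_cast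
    ring
  by_cases c8 : c ≤ 8
  · by_cases c4 : c = 4
    · subst c4
      exact four_PartE5 h (a := a) (by rw [e, abs_mul, abs_sub_comm])
    · refine go_PartE5 h (u := 0) (mkC_H h.xa h.xb hs s0 (Or.inl rfl) ?_ (pw0_PartE5 _ _) (by simp)
        (by simp only [List.not_mem_nil, zero_mul, ne_eq, zero_eq_mul, pow_eq_zero_iff', neg_eq_zero, not_or, not_and, Decidable.not_not, IsEmpty.forall_iff, implies_true])) rfl (hB c c1 c8 c4)
      rw [e, mp_ev, padd_ev, psh_ev]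
      simp only [horR]
      push_cast
      ring
  refine go_PartE5 h (u := (-x) ^ c) (mkC_H h.xa h.xb hs s0
    (Or.inr ⟨rfl, abs_PartE5 h (by omega)⟩) ?_ ?_ (fun _ => pow_ne_zero _ y0) (by simp only [List.not_mem_nil, ne_eq, IsEmpty.forall_iff, implies_true])) rfl hB0
  · simp only [MP.ev, sev, horR]
    push_cast
    linear_combination e
  · exact Or.inr ⟨(c : ℤ) - a, by rw [zpow_sub₀ y0, zpow_natCast, zpow_natCast]⟩

lemma FF_PartE5 {x f : ℝ} {Φ : ℝ → Prop} (h : FF x (fun _ => False) f) : FF x Φ f := by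
  obtain ⟨t, E, h1, h2, h3⟩ := h
  refine ⟨t, E, h1, ?_, h3⟩
  rcases h2 with h2 | ⟨_, h2, -⟩
  · exact Or.inl h2
  · exact h2.elim

theorem partE (hT : engT regT = true)
    (hA : ∀ c, 1 ≤ c → c ≤ 8 → c ≠ 4 → eng (regA c) = true)
    (hB : ∀ c, 1 ≤ c → c ≤ 8 → c ≠ 4 → eng (regB c) = true)
    (hA0 : eng regA0 = true) (hA4 : eng regA4 = true) (hA2 : eng regA2 = true)
    (hB0 : eng regB0 = true) (hB1 : eng regB1 = true)
    {x : ℝ} (xa : 0.569838 ≤ x) (x1 : x < 1) (hk : kap x < R 2 x) : Inft x (kap x) := by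
  have h := st_PartE5 xa x1 hk
  have x0 : 0 < x := by linarith
  by_contra hf
  have HT : regT.H (-x) (horR (-x) pp) 0 := by
    refine mkC_H h.xa h.xb ?_ h.p0.ne' (Or.inl rfl) ?_ (pw0_PartE5 _ _) (by simp) (by simp only [List.not_mem_nil, zero_mul, ne_eq, zero_eq_mul, pow_eq_zero_iff', neg_eq_zero, not_or, not_and, Decidable.not_not, IsEmpty.forall_iff, implies_true])
    · rw [abs_of_pos h.p0]
      linarith only [h.p1]
    · rw [mp_ev]
  obtain ⟨A, B, hA', hB', e⟩ := E_term (by linarith) (by linarith only [h.xb, x1]) h.hk h.hk' hf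
    fun r r' f f' r1 r2 r3 r4 g1 g2 h1 h2 h3 h4 e =>
      engT_sound HT hT r1 r2 r3 r4 (FE_of_FF x0.ne' (FF_PartE5 g1)) (FE_of_FF x0.ne' (FF_PartE5 g2))
        h1 h2 h3 h4 e
  rw [← pp_PartE5, ← pQ_PartE5] at e
  have q0 := h.q0
  apply hf
  rcases hA' with rfl | ⟨a, rfl⟩ <;> rcases hB' with rfl | ⟨b, rfl⟩
  · linarith only [q0, e]
  · exact caseB_PartE5 hB hB0 hB1 h (a := b) (Or.inl rfl) (by rw [e]; ring)
  · exact caseA_PartE5 hA hA0 hA4 hA2 h (a := a) (Or.inl rfl) (by rw [e]; ring)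
  · rcases lt_trichotomy a b with c | rfl | c
    · obtain ⟨k, rfl⟩ := Nat.exists_eq_add_of_lt c
      exact caseA_PartE5 hA hA0 hA4 hA2 h (a := a) (Or.inr ⟨k + 1, by omega, rfl⟩) (by rw [e]; ring)
    · linarith only [q0, e]
    · obtain ⟨k, rfl⟩ := Nat.exists_eq_add_of_lt c
      exact caseB_PartE5 hB hB0 hB1 h (a := b) (Or.inr ⟨k + 1, by omega, rfl⟩) (by rw [e]; ring)

end Pool.Agent.KExp

end
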