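import Pool.Agent.MP_bd9604_nt.Inf.VData1
import Pool.Agent.MP_bd9604_nt.Inf.VData2
import Pool.Agent.MP_bd9604_nt.Inf.VData3
import Pool.Agent.MP_bd9604_nt.Inf.VData4
import Pool.Agent.MP_bd9604_nt.Inf.VData5
import Pool.Agent.MP_bd9604_nt.Mg.Inf_EData2
import Pool.Agent.MP_bd9604_nt.Mg.Inf_EData3
import Pool.Agent.MP_bd9604_nt.Mg.Inf_KData
import Pool.Agent.MP_bd9604_nt.Mg.Inf_PartE2
import Pool.Agent.MP_bd9604_nt.Mg.Inf_PartE5
import Pool.Agent.MP_bd9604_nt.Inf.PartF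
import Pool.Agent.MP_bd9604_nt.Bridge

/-! Below the Komornik-Loreti constant the number `1` has infinitely many expansions. -/

namespace Pool.Agent.KExp

/-- all parameters in `(a / 2 ^ 128, b / 2 ^ 128]` are settled -/
def Cov (a b : ℕ) : Prop := ∀ x : ℝ, (a : ℝ) / 2 ^ 128 < x → x ≤ (b : ℝ) / 2 ^ 128 → Inft x (kap x)

lemma Cov.trans {a b c d : ℕ} (h1 : Cov a b) (h2 : Cov c d) (h : Nat.ble c b = true) : Cov a d := by
  intro x x1 x2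
  rcases le_or_gt x ((b : ℝ) / 2 ^ 128) with h3 | h3
  · exact h1 x x1 h3
  · refine h2 x (lt_of_le_of_lt ?_ h3) x2
    have : (c : ℝ) ≤ b := by exact_mod_cast Nat.le_of_ble_eq_true h
    gcongr

lemma Cov.ofV {a b : ℕ} (h : ∃ l, vall l a b = true) : Cov a b := by
  obtain ⟨l, h⟩ := h
  exact fun _ x1 x2 => vall_sound h x1 x2

lemma Cov.ofS (a b : ℕ) {S X1 X2 : ℕ}
    (h : ∀ x : ℝ, (X1 : ℝ) / 2 ^ S ≤ x → x ≤ (X2 : ℝ) / 2 ^ S → Inft x (kap x))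
    (e : X1 * 2 ^ 128 = a * 2 ^ S ∧ X2 * 2 ^ 128 = b * 2 ^ S) : Cov a b := by
  intro x x1 x2
  have e1 : (X1 : ℝ) * 2 ^ 128 = a * 2 ^ S := by exact_mod_cast e.1
  have e2 : (X2 : ℝ) * 2 ^ 128 = b * 2 ^ S := by exact_mod_cast e.2
  refine h x ?_ ?_
  · rw [(div_eq_div_iff (by positivity) (by positivity)).2 e1]; exact x1.le
  · rw [(div_eq_div_iff (by positivity) (by positivity)).2 e2]; exact x2

theorem cov0 : Cov (nat_lit 0x8f3d00600db696000000000000000000) (nat_lit 0x8f3da3b67a0000000000000000000000) :=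
  (Cov.trans (Cov.trans (Cov.trans (Cov.trans (Cov.trans (Cov.ofV vd0) (Cov.ofS (nat_lit 0x8f3d00631d4d96e860de000000000000) (nat_lit 0x8f3d00631d4db3bb1377000000000000) (fun _ => cck_sound cd1) (by decide +kernel)) rfl) (Cov.trans (Cov.ofV vd2) (Cov.trans (Cov.ofS (nat_lit 0x8f3d00631d6007cf5100000000000000) (nat_lit 0x8f3d00631d604ca0af00000000000000) (fun _ => dck_sound cd3) (by decide +kernel)) (Cov.ofS (nat_lit 0x8f3d00631d6035c4a100000000000000) (nat_lit 0x8f3d00631d607a960000000000000000) (fun _ => dck_sound cd4) (by decide +kernel)) rfl) rfl) rfl) (Cov.trans (Cov.trans (Cov.ofV vd5) (Cov.ofV vd6) rfl) (Cov.trans (Cov.ofV vd7) (Cov.trans (Cov.ofV vd8) (Cov.ofV vd9) rfl) rfl) rfl) rfl) (Cov.trans (Cov.trans (Cov.trans (Cov.ofV vd10) (Cov.ofV vd11) rfl) (Cov.trans (Cov.ofV vd12) (Cov.trans (Cov.ofV vd13) (Cov.ofV vd14) rfl) rfl) rfl) (Cov.trans (Cov.trans (Cov.ofV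 vd15) (Cov.ofV vd16) rfl) (Cov.trans (Cov.ofV vd17) (Cov.trans (Cov.ofV vd18) (Cov.ofV vd19) rfl) rfl) rfl) rfl) rfl) (Cov.trans (Cov.trans (Cov.trans (Cov.trans (Cov.ofV vd20) (Cov.ofV vd21) rfl) (Cov.trans (Cov.ofV vd22) (Cov.trans (Cov.ofV vd23) (Cov.ofV vd24) rfl) rfl) rfl) (Cov.trans (Cov.trans (Cov.ofV vd25) (Cov.ofV vd26) rfl) (Cov.trans (Cov.ofV vd27) (Cov.trans (Cov.ofV vd28) (Cov.ofV vd29) rfl) rfl) rfl) rfl) (Cov.trans (Cov.trans (Cov.trans (Cov.ofV vd30) (Cov.ofS (nat_lit 0x8f3d82087af4b8c0c000000000000000) (nat_lit 0x8f3d82087b0f657b0000000000000000) (fun _ => dck_sound cd31) (by decide +kernel)) rfl) (Cov.trans (Cov.ofV vd32) (Cov.trans (Cov.ofS (nat_lit 0x8f3d820b51272f5d0000000000000000) (nat_lit 0x8f3d820bd5182ea70000000000000000) (fun _ => cck_sound cd33) (by decide +kernel)) (Cov.ofV vd34) rfl) rfl) rfl) (Cov.trans (Cov.trans (Cov.ofV vd35) (Cov.ofV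 vd36) rfl) (Cov.trans (Cov.ofV vd37) (Cov.trans (Cov.ofV vd38) (Cov.ofV vd39) rfl) rfl) rfl) rfl) rfl) rfl)
theorem cov40 : Cov (nat_lit 0x8f3da3b67a0000000000000000000000) (nat_lit 0x8f3eb910f80000000000000000000000) :=
  (Cov.trans (Cov.trans (Cov.trans (Cov.trans (Cov.trans (Cov.ofV vd40) (Cov.ofV vd41) rfl) (Cov.trans (Cov.ofV vd42) (Cov.trans (Cov.ofV vd43) (Cov.ofV vd44) rfl) rfl) rfl) (Cov.trans (Cov.trans (Cov.ofV vd45) (Cov.ofV vd46) rfl) (Cov.trans (Cov.ofV vd47) (Cov.trans (Cov.ofV vd48) (Cov.ofV vd49) rfl) rfl) rfl) rfl) (Cov.trans (Cov.trans (Cov.trans (Cov.ofV vd50) (Cov.ofV vd51) rfl) (Cov.trans (Cov.ofV vd52) (Cov.trans (Cov.ofV vd53) (Cov.ofV vd54) rfl) rfl) rfl) (Cov.trans (Cov.trans (Cov.ofV vd55) (Cov.ofV vd56) rfl) (Cov.trans (Cov.ofV vd57) (Cov.trans (Cov.ofV vd58) (Cov.ofV vd59) rfl) rfl) rfl) rfl) rfl) (Cov.trans (Cov.trans (Cov.trans (Cov.trans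 (Cov.ofV vd60) (Cov.ofV vd61) rfl) (Cov.trans (Cov.ofV vd62) (Cov.trans (Cov.ofV vd63) (Cov.ofV vd64) rfl) rfl) rfl) (Cov.trans (Cov.trans (Cov.ofV vd65) (Cov.ofV vd66) rfl) (Cov.trans (Cov.ofV vd67) (Cov.trans (Cov.ofV vd68) (Cov.ofV vd69) rfl) rfl) rfl) rfl) (Cov.trans (Cov.trans (Cov.trans (Cov.ofV vd70) (Cov.ofV vd71) rfl) (Cov.trans (Cov.ofV vd72) (Cov.trans (Cov.ofV vd73) (Cov.ofV vd74) rfl) rfl) rfl) (Cov.trans (Cov.trans (Cov.ofV vd75) (Cov.ofV vd76) rfl) (Cov.trans (Cov.ofV vd77) (Cov.trans (Cov.ofV vd78) (Cov.ofV vd79) rfl) rfl) rfl) rfl) rfl) rfl)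
theorem cov80 : Cov (nat_lit 0x8f3eb910f80000000000000000000000) (nat_lit 0x8f3fa998f80000000000000000000000) :=
  (Cov.trans (Cov.trans (Cov.trans (Cov.trans (Cov.trans (Cov.ofV vd80) (Cov.ofV vd81) rfl) (Cov.trans (Cov.ofV vd82) (Cov.trans (Cov.ofV vd83) (Cov.ofV vd84) rfl) rfl) rfl) (Cov.trans (Cov.trans (Cov.ofV vd85) (Cov.ofV vd86) rfl) (Cov.trans (Cov.ofV vd87) (Cov.trans (Cov.ofV vd88) (Cov.ofV vd89) rfl) rfl) rfl) rfl) (Cov.trans (Cov.trans (Cov.trans (Cov.ofV vd90) (Cov.ofV vd91) rfl) (Cov.trans (Cov.ofV vd92) (Cov.trans (Cov.ofV vd93) (Cov.ofV vd94) rfl) rfl) rfl) (Cov.trans (Cov.trans (Cov.ofV vd95) (Cov.ofV vd96) rfl) (Cov.trans (Cov.ofV vd97) (Cov.trans (Cov.ofV vd98) (Cov.ofV vd99) rfl) rfl) rfl) rfl) rfl) (Cov.trans (Cov.trans (Cov.trans (Cov.trans (Cov.ofV vd100) (Cov.ofV vd101) rfl) (Cov.trans (Cov.ofV vd102) (Cov.trans (Cov.ofV vd103) (Cov.ofV vd104)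 rfl) rfl) rfl) (Cov.trans (Cov.trans (Cov.ofV vd105) (Cov.ofV vd106) rfl) (Cov.trans (Cov.ofV vd107) (Cov.trans (Cov.ofV vd108) (Cov.ofV vd109) rfl) rfl) rfl) rfl) (Cov.trans (Cov.trans (Cov.trans (Cov.ofV vd110) (Cov.ofV vd111) rfl) (Cov.trans (Cov.ofV vd112) (Cov.trans (Cov.ofV vd113) (Cov.ofV vd114) rfl) rfl) rfl) (Cov.trans (Cov.trans (Cov.ofV vd115) (Cov.ofV vd116) rfl) (Cov.trans (Cov.ofV vd117) (Cov.trans (Cov.ofV vd118) (Cov.ofV vd119) rfl) rfl) rfl) rfl) rfl) rfl)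
theorem cov120 : Cov (nat_lit 0x8f3fa998f80000000000000000000000) (nat_lit 0x8f409e8cf80000000000000000000000) :=
  (Cov.trans (Cov.trans (Cov.trans (Cov.trans (Cov.trans (Cov.ofV vd120) (Cov.ofV vd121) rfl) (Cov.trans (Cov.ofV vd122) (Cov.trans (Cov.ofV vd123) (Cov.ofV vd124) rfl) rfl) rfl) (Cov.trans (Cov.trans (Cov.ofV vd125) (Cov.ofV vd126) rfl) (Cov.trans (Cov.ofV vd127) (Cov.trans (Cov.ofV vd128) (Cov.ofV vd129) rfl) rfl) rfl) rfl) (Cov.trans (Cov.trans (Cov.trans (Cov.ofV vd130) (Cov.ofV vd131) rfl) (Cov.trans (Cov.ofV vd132) (Cov.trans (Cov.ofV vd133) (Cov.ofV vd134) rfl) rfl) rfl) (Cov.trans (Cov.trans (Cov.ofV vd135) (Cov.ofV vd136) rfl) (Cov.trans (Cov.ofV vd137) (Cov.trans (Cov.ofV vd138) (Cov.ofV vd139) rfl) rfl) rfl) rfl) rfl) (Cov.trans (Cov.trans (Cov.trans (Cov.trans (Cov.ofV vd140) (Cov.ofV vd141) rfl) (Cov.trans (Cov.ofV vd142) (Cov.trans (Cov.ofV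 vd143) (Cov.ofV vd144) rfl) rfl) rfl) (Cov.trans (Cov.trans (Cov.ofV vd145) (Cov.ofV vd146) rfl) (Cov.trans (Cov.ofV vd147) (Cov.trans (Cov.ofV vd148) (Cov.ofV vd149) rfl) rfl) rfl) rfl) (Cov.trans (Cov.trans (Cov.trans (Cov.ofV vd150) (Cov.ofV vd151) rfl) (Cov.trans (Cov.ofV vd152) (Cov.trans (Cov.ofV vd153) (Cov.ofV vd154) rfl) rfl) rfl) (Cov.trans (Cov.trans (Cov.ofV vd155) (Cov.ofV vd156) rfl) (Cov.trans (Cov.ofV vd157) (Cov.trans (Cov.ofV vd158) (Cov.ofV vd159) rfl) rfl) rfl) rfl) rfl) rfl)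
theorem cov160 : Cov (nat_lit 0x8f409e8cf80000000000000000000000) (nat_lit 0x8f43df37600000000000000000000000) :=
  (Cov.trans (Cov.trans (Cov.trans (Cov.trans (Cov.trans (Cov.ofV vd160) (Cov.ofV vd161) rfl) (Cov.trans (Cov.ofV vd162) (Cov.trans (Cov.ofV vd163) (Cov.ofV vd164) rfl) rfl) rfl) (Cov.trans (Cov.trans (Cov.ofV vd165) (Cov.ofV vd166) rfl) (Cov.trans (Cov.ofV vd167) (Cov.trans (Cov.ofV vd168) (Cov.ofV vd169) rfl) rfl) rfl) rfl) (Cov.trans (Cov.trans (Cov.trans (Cov.ofV vd170) (Cov.ofV vd171) rfl) (Cov.trans (Cov.ofV vd172) (Cov.trans (Cov.ofV vd173) (Cov.ofV vd174) rfl) rfl) rfl) (Cov.trans (Cov.trans (Cov.ofV vd175) (Cov.ofV vd176) rfl) (Cov.trans (Cov.ofV vd177) (Cov.trans (Cov.ofV vd178) (Cov.ofV vd179) rfl) rfl) rfl) rfl) rfl) (Cov.trans (Cov.trans (Cov.trans (Cov.trans (Cov.ofV vd180) (Cov.ofV vd181) rfl) (Cov.trans (Cov.ofV vd182) (Cov.trans (Cov.ofV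 vd183) (Cov.ofV vd184) rfl) rfl) rfl) (Cov.trans (Cov.trans (Cov.ofV vd185) (Cov.ofV vd186) rfl) (Cov.trans (Cov.ofV vd187) (Cov.trans (Cov.ofV vd188) (Cov.ofV vd189) rfl) rfl) rfl) rfl) (Cov.trans (Cov.trans (Cov.trans (Cov.ofV vd190) (Cov.ofV vd191) rfl) (Cov.trans (Cov.ofV vd192) (Cov.trans (Cov.ofV vd193) (Cov.ofV vd194) rfl) rfl) rfl) (Cov.trans (Cov.trans (Cov.ofV vd195) (Cov.ofV vd196) rfl) (Cov.trans (Cov.ofV vd197) (Cov.trans (Cov.ofV vd198) (Cov.ofV vd199) rfl) rfl) rfl) rfl) rfl) rfl)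
theorem cov200 : Cov (nat_lit 0x8f43df37600000000000000000000000) (nat_lit 0x8f475eaf600000000000000000000000) :=
  (Cov.trans (Cov.trans (Cov.trans (Cov.trans (Cov.trans (Cov.ofV vd200) (Cov.ofV vd201) rfl) (Cov.trans (Cov.ofV vd202) (Cov.trans (Cov.ofV vd203) (Cov.ofV vd204) rfl) rfl) rfl) (Cov.trans (Cov.trans (Cov.ofV vd205) (Cov.ofV vd206) rfl) (Cov.trans (Cov.ofV vd207) (Cov.trans (Cov.ofV vd208) (Cov.ofV vd209) rfl) rfl) rfl) rfl) (Cov.trans (Cov.trans (Cov.trans (Cov.ofV vd210) (Cov.ofV vd211) rfl) (Cov.trans (Cov.ofV vd212) (Cov.trans (Cov.ofV vd213) (Cov.ofV vd214) rfl) rfl) rfl) (Cov.trans (Cov.trans (Cov.ofV vd215) (Cov.ofV vd216) rfl) (Cov.trans (Cov.ofV vd217) (Cov.trans (Cov.ofV vd218) (Cov.ofV vd219) rfl) rfl) rfl) rfl) rfl) (Cov.trans (Cov.trans (Cov.trans (Cov.trans (Cov.ofV vd220) (Cov.ofV vd221) rfl) (Cov.trans (Cov.ofV vd222) (Cov.trans (Cov.ofV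 vd223) (Cov.ofV vd224) rfl) rfl) rfl) (Cov.trans (Cov.trans (Cov.ofV vd225) (Cov.ofV vd226) rfl) (Cov.trans (Cov.ofV vd227) (Cov.trans (Cov.ofV vd228) (Cov.ofV vd229) rfl) rfl) rfl) rfl) (Cov.trans (Cov.trans (Cov.trans (Cov.ofV vd230) (Cov.ofV vd231) rfl) (Cov.trans (Cov.ofV vd232) (Cov.trans (Cov.ofV vd233) (Cov.ofV vd234) rfl) rfl) rfl) (Cov.trans (Cov.trans (Cov.ofV vd235) (Cov.ofV vd236) rfl) (Cov.trans (Cov.ofV vd237) (Cov.trans (Cov.ofV vd238) (Cov.ofV vd239) rfl) rfl) rfl) rfl) rfl) rfl)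
theorem cov240 : Cov (nat_lit 0x8f475eaf600000000000000000000000) (nat_lit 0x8f521879800000000000000000000000) :=
  (Cov.trans (Cov.trans (Cov.trans (Cov.trans (Cov.trans (Cov.ofV vd240) (Cov.ofV vd241) rfl) (Cov.trans (Cov.ofV vd242) (Cov.trans (Cov.ofV vd243) (Cov.ofV vd244) rfl) rfl) rfl) (Cov.trans (Cov.trans (Cov.ofV vd245) (Cov.ofV vd246) rfl) (Cov.trans (Cov.ofV vd247) (Cov.trans (Cov.ofV vd248) (Cov.ofV vd249) rfl) rfl) rfl) rfl) (Cov.trans (Cov.trans (Cov.trans (Cov.ofV vd250) (Cov.ofV vd251) rfl) (Cov.trans (Cov.ofV vd252) (Cov.trans (Cov.ofV vd253) (Cov.ofV vd254) rfl) rfl) rfl) (Cov.trans (Cov.trans (Cov.ofV vd255) (Cov.ofV vd256) rfl) (Cov.trans (Cov.ofV vd257) (Cov.trans (Cov.ofV vd258) (Cov.ofV vd259) rfl) rfl) rfl) rfl) rfl) (Cov.trans (Cov.trans (Cov.trans (Cov.trans (Cov.ofV vd260) (Cov.ofV vd261) rfl) (Cov.trans (Cov.ofV vd262) (Cov.trans (Cov.ofV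 vd263) (Cov.ofV vd264) rfl) rfl) rfl) (Cov.trans (Cov.trans (Cov.ofV vd265) (Cov.ofV vd266) rfl) (Cov.trans (Cov.ofV vd267) (Cov.trans (Cov.ofV vd268) (Cov.ofV vd269) rfl) rfl) rfl) rfl) (Cov.trans (Cov.trans (Cov.trans (Cov.ofV vd270) (Cov.ofV vd271) rfl) (Cov.trans (Cov.ofV vd272) (Cov.trans (Cov.ofV vd273) (Cov.ofV vd274) rfl) rfl) rfl) (Cov.trans (Cov.trans (Cov.ofV vd275) (Cov.ofV vd276) rfl) (Cov.trans (Cov.ofV vd277) (Cov.trans (Cov.ofV vd278) (Cov.ofV vd279) rfl) rfl) rfl) rfl) rfl) rfl)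
theorem cov280 : Cov (nat_lit 0x8f521879800000000000000000000000) (nat_lit 0x8f53e25c000000000000000000000000) :=
  (Cov.trans (Cov.trans (Cov.trans (Cov.trans (Cov.trans (Cov.ofV vd280) (Cov.ofV vd281) rfl) (Cov.trans (Cov.ofV vd282) (Cov.trans (Cov.ofV vd283) (Cov.ofV vd284) rfl) rfl) rfl) (Cov.trans (Cov.trans (Cov.ofV vd285) (Cov.ofV vd286) rfl) (Cov.trans (Cov.ofV vd287) (Cov.trans (Cov.ofV vd288) (Cov.ofV vd289) rfl) rfl) rfl) rfl) (Cov.trans (Cov.trans (Cov.trans (Cov.ofV vd290) (Cov.ofV vd291) rfl) (Cov.trans (Cov.ofV vd292) (Cov.trans (Cov.ofV vd293) (Cov.ofV vd294) rfl) rfl) rfl) (Cov.trans (Cov.trans (Cov.ofV vd295) (Cov.ofV vd296) rfl) (Cov.trans (Cov.ofV vd297) (Cov.trans (Cov.ofV vd298) (Cov.ofV vd299) rfl) rfl) rfl) rfl) rfl) (Cov.trans (Cov.trans (Cov.trans (Cov.trans (Cov.ofV vd300) (Cov.ofV vd301) rfl) (Cov.trans (Cov.ofV vd302) (Cov.trans (Cov.ofV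 vd303) (Cov.ofV vd304) rfl) rfl) rfl) (Cov.trans (Cov.trans (Cov.ofV vd305) (Cov.ofV vd306) rfl) (Cov.trans (Cov.ofV vd307) (Cov.trans (Cov.ofV vd308) (Cov.ofV vd309) rfl) rfl) rfl) rfl) (Cov.trans (Cov.trans (Cov.trans (Cov.ofV vd310) (Cov.ofV vd311) rfl) (Cov.trans (Cov.ofV vd312) (Cov.trans (Cov.ofV vd313) (Cov.ofV vd314) rfl) rfl) rfl) (Cov.trans (Cov.trans (Cov.ofV vd315) (Cov.ofV vd316) rfl) (Cov.trans (Cov.ofV vd317) (Cov.trans (Cov.ofV vd318) (Cov.ofV vd319) rfl) rfl) rfl) rfl) rfl) rfl)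
theorem cov320 : Cov (nat_lit 0x8f53e25c000000000000000000000000) (nat_lit 0x8f56193c000000000000000000000000) :=
  (Cov.trans (Cov.trans (Cov.trans (Cov.trans (Cov.trans (Cov.ofV vd320) (Cov.ofV vd321) rfl) (Cov.trans (Cov.ofV vd322) (Cov.trans (Cov.ofV vd323) (Cov.ofV vd324) rfl) rfl) rfl) (Cov.trans (Cov.trans (Cov.ofV vd325) (Cov.ofV vd326) rfl) (Cov.trans (Cov.ofV vd327) (Cov.trans (Cov.ofV vd328) (Cov.ofV vd329) rfl) rfl) rfl) rfl) (Cov.trans (Cov.trans (Cov.trans (Cov.ofV vd330) (Cov.ofV vd331) rfl) (Cov.trans (Cov.ofV vd332) (Cov.trans (Cov.ofV vd333) (Cov.ofV vd334) rfl) rfl) rfl) (Cov.trans (Cov.trans (Cov.ofV vd335) (Cov.ofV vd336) rfl) (Cov.trans (Cov.ofV vd337) (Cov.trans (Cov.ofV vd338) (Cov.ofV vd339) rfl) rfl) rfl) rfl) rfl) (Cov.trans (Cov.trans (Cov.trans (Cov.trans (Cov.ofV vd340) (Cov.ofV vd341) rfl) (Cov.trans (Cov.ofV vd342) (Cov.trans (Cov.ofV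 vd343) (Cov.ofV vd344) rfl) rfl) rfl) (Cov.trans (Cov.trans (Cov.ofV vd345) (Cov.ofV vd346) rfl) (Cov.trans (Cov.ofV vd347) (Cov.trans (Cov.ofV vd348) (Cov.ofV vd349) rfl) rfl) rfl) rfl) (Cov.trans (Cov.trans (Cov.trans (Cov.ofV vd350) (Cov.ofV vd351) rfl) (Cov.trans (Cov.ofV vd352) (Cov.trans (Cov.ofV vd353) (Cov.ofV vd354) rfl) rfl) rfl) (Cov.trans (Cov.trans (Cov.ofV vd355) (Cov.ofV vd356) rfl) (Cov.trans (Cov.ofV vd357) (Cov.trans (Cov.ofV vd358) (Cov.ofV vd359) rfl) rfl) rfl) rfl) rfl) rfl)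
theorem cov360 : Cov (nat_lit 0x8f56193c000000000000000000000000) (nat_lit 0x8f591f01640000000000000000000000) :=
  (Cov.trans (Cov.trans (Cov.trans (Cov.trans (Cov.trans (Cov.ofV vd360) (Cov.ofV vd361) rfl) (Cov.trans (Cov.ofV vd362) (Cov.trans (Cov.ofV vd363) (Cov.ofV vd364) rfl) rfl) rfl) (Cov.trans (Cov.trans (Cov.ofV vd365) (Cov.ofV vd366) rfl) (Cov.trans (Cov.ofV vd367) (Cov.trans (Cov.ofV vd368) (Cov.ofV vd369) rfl) rfl) rfl) rfl) (Cov.trans (Cov.trans (Cov.trans (Cov.ofV vd370) (Cov.ofV vd371) rfl) (Cov.trans (Cov.ofV vd372) (Cov.trans (Cov.ofV vd373) (Cov.ofV vd374) rfl) rfl) rfl) (Cov.trans (Cov.trans (Cov.ofV vd375) (Cov.ofV vd376) rfl) (Cov.trans (Cov.ofV vd377) (Cov.trans (Cov.ofV vd378) (Cov.ofV vd379) rfl) rfl) rfl) rfl) rfl) (Cov.trans (Cov.trans (Cov.trans (Cov.trans (Cov.ofV vd380) (Cov.ofV vd381) rfl) (Cov.trans (Cov.ofV vd382) (Cov.trans (Cov.ofV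 vd383) (Cov.ofV vd384) rfl) rfl) rfl) (Cov.trans (Cov.trans (Cov.ofV vd385) (Cov.ofV vd386) rfl) (Cov.trans (Cov.ofV vd387) (Cov.trans (Cov.ofV vd388) (Cov.ofV vd389) rfl) rfl) rfl) rfl) (Cov.trans (Cov.trans (Cov.trans (Cov.ofV vd390) (Cov.ofV vd391) rfl) (Cov.trans (Cov.ofV vd392) (Cov.trans (Cov.ofV vd393) (Cov.ofV vd394) rfl) rfl) rfl) (Cov.trans (Cov.trans (Cov.ofV vd395) (Cov.ofV vd396) rfl) (Cov.trans (Cov.ofV vd397) (Cov.trans (Cov.ofV vd398) (Cov.ofV vd399) rfl) rfl) rfl) rfl) rfl) rfl)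
theorem cov400 : Cov (nat_lit 0x8f591f01640000000000000000000000) (nat_lit 0x8f5d2251600000000000000000000000) :=
  (Cov.trans (Cov.trans (Cov.trans (Cov.trans (Cov.trans (Cov.ofV vd400) (Cov.ofV vd401) rfl) (Cov.trans (Cov.ofV vd402) (Cov.trans (Cov.ofV vd403) (Cov.ofV vd404) rfl) rfl) rfl) (Cov.trans (Cov.trans (Cov.ofV vd405) (Cov.ofV vd406) rfl) (Cov.trans (Cov.ofV vd407) (Cov.trans (Cov.ofV vd408) (Cov.ofV vd409) rfl) rfl) rfl) rfl) (Cov.trans (Cov.trans (Cov.trans (Cov.ofV vd410) (Cov.ofV vd411) rfl) (Cov.trans (Cov.ofV vd412) (Cov.trans (Cov.ofV vd413) (Cov.ofV vd414) rfl) rfl) rfl) (Cov.trans (Cov.trans (Cov.ofV vd415) (Cov.ofV vd416) rfl) (Cov.trans (Cov.ofV vd417) (Cov.trans (Cov.ofV vd418) (Cov.ofV vd419) rfl) rfl) rfl) rfl) rfl) (Cov.trans (Cov.trans (Cov.trans (Cov.trans (Cov.ofV vd420) (Cov.ofV vd421) rfl) (Cov.trans (Cov.ofV vd422) (Cov.trans (Cov.ofV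 vd423) (Cov.ofV vd424) rfl) rfl) rfl) (Cov.trans (Cov.trans (Cov.ofV vd425) (Cov.ofV vd426) rfl) (Cov.trans (Cov.ofV vd427) (Cov.trans (Cov.ofV vd428) (Cov.ofV vd429) rfl) rfl) rfl) rfl) (Cov.trans (Cov.trans (Cov.trans (Cov.ofV vd430) (Cov.ofV vd431) rfl) (Cov.trans (Cov.ofV vd432) (Cov.trans (Cov.ofV vd433) (Cov.ofV vd434) rfl) rfl) rfl) (Cov.trans (Cov.trans (Cov.ofV vd435) (Cov.ofV vd436) rfl) (Cov.trans (Cov.ofV vd437) (Cov.trans (Cov.ofV vd438) (Cov.ofV vd439) rfl) rfl) rfl) rfl) rfl) rfl)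
theorem cov440 : Cov (nat_lit 0x8f5d2251600000000000000000000000) (nat_lit 0x8f696b51400000000000000000000000) :=
  (Cov.trans (Cov.trans (Cov.trans (Cov.trans (Cov.trans (Cov.ofV vd440) (Cov.ofV vd441) rfl) (Cov.trans (Cov.ofV vd442) (Cov.trans (Cov.ofV vd443) (Cov.ofV vd444) rfl) rfl) rfl) (Cov.trans (Cov.trans (Cov.ofV vd445) (Cov.ofV vd446) rfl) (Cov.trans (Cov.ofV vd447) (Cov.trans (Cov.ofV vd448) (Cov.ofV vd449) rfl) rfl) rfl) rfl) (Cov.trans (Cov.trans (Cov.trans (Cov.ofV vd450) (Cov.ofV vd451) rfl) (Cov.trans (Cov.ofV vd452) (Cov.trans (Cov.ofV vd453) (Cov.ofV vd454) rfl) rfl) rfl) (Cov.trans (Cov.trans (Cov.ofV vd455) (Cov.ofV vd456) rfl) (Cov.trans (Cov.ofV vd457) (Cov.trans (Cov.ofV vd458) (Cov.ofV vd459) rfl) rfl) rfl) rfl) rfl) (Cov.trans (Cov.trans (Cov.trans (Cov.trans (Cov.ofV vd460) (Cov.ofV vd461) rfl) (Cov.trans (Cov.ofV vd462) (Cov.trans (Cov.ofV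 vd463) (Cov.ofV vd464) rfl) rfl) rfl) (Cov.trans (Cov.trans (Cov.ofV vd465) (Cov.ofV vd466) rfl) (Cov.trans (Cov.ofV vd467) (Cov.trans (Cov.ofV vd468) (Cov.ofV vd469) rfl) rfl) rfl) rfl) (Cov.trans (Cov.trans (Cov.trans (Cov.ofV vd470) (Cov.ofV vd471) rfl) (Cov.trans (Cov.ofV vd472) (Cov.trans (Cov.ofV vd473) (Cov.ofV vd474) rfl) rfl) rfl) (Cov.trans (Cov.trans (Cov.ofV vd475) (Cov.ofV vd476) rfl) (Cov.trans (Cov.ofV vd477) (Cov.trans (Cov.ofV vd478) (Cov.ofV vd479) rfl) rfl) rfl) rfl) rfl) rfl)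
theorem cov480 : Cov (nat_lit 0x8f696b51400000000000000000000000) (nat_lit 0x8f74e5f2400000000000000000000000) :=
  (Cov.trans (Cov.trans (Cov.trans (Cov.trans (Cov.trans (Cov.ofV vd480) (Cov.ofV vd481) rfl) (Cov.trans (Cov.ofV vd482) (Cov.trans (Cov.ofV vd483) (Cov.ofV vd484) rfl) rfl) rfl) (Cov.trans (Cov.trans (Cov.ofV vd485) (Cov.ofV vd486) rfl) (Cov.trans (Cov.ofV vd487) (Cov.trans (Cov.ofV vd488) (Cov.ofV vd489) rfl) rfl) rfl) rfl) (Cov.trans (Cov.trans (Cov.trans (Cov.ofV vd490) (Cov.ofV vd491) rfl) (Cov.trans (Cov.ofV vd492) (Cov.trans (Cov.ofV vd493) (Cov.ofV vd494) rfl) rfl) rfl) (Cov.trans (Cov.trans (Cov.ofV vd495) (Cov.ofV vd496) rfl) (Cov.trans (Cov.ofV vd497) (Cov.trans (Cov.ofV vd498) (Cov.ofV vd499) rfl) rfl) rfl) rfl) rfl) (Cov.trans (Cov.trans (Cov.trans (Cov.trans (Cov.ofV vd500) (Cov.ofV vd501) rfl) (Cov.trans (Cov.ofS (nat_lit 0x8f728263b298c0000000000000000000)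 (nat_lit 0x8f7282b998d480000000000000000000) (fun _ => dck_sound cd502) (by decide +kernel)) (Cov.trans (Cov.ofV vd503) (Cov.ofV vd504) rfl) rfl) rfl) (Cov.trans (Cov.trans (Cov.ofV vd505) (Cov.ofS (nat_lit 0x8f73176690fa70000000000000000000) (nat_lit 0x8f73176a92f470000000000000000000) (fun _ => dck_sound cd506) (by decide +kernel)) rfl) (Cov.trans (Cov.ofV vd507) (Cov.trans (Cov.ofV vd508) (Cov.ofS (nat_lit 0x8f7318db05eea7400000000000000000) (nat_lit 0x8f7318db10458f600000000000000000) (fun _ => dck_sound cd509) (by decide +kernel)) rfl) rfl) rfl) rfl) (Cov.trans (Cov.trans (Cov.trans (Cov.ofV vd510) (Cov.ofV vd511) rfl) (Cov.trans (Cov.ofS (nat_lit 0x8f7318dea4ed5b9d8000000000000000) (nat_lit 0x8f7318dea5080857c000000000000000) (fun _ => dck_sound cd512) (by decide +kernel)) (Cov.trans (Cov.ofV vd513) (Cov.ofS (nat_lit 0x8f7318deaabac2410000000000000000) (nat_lit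 0x8f7318deb1539bd20000000000000000) (fun _ => cck_sound cd514) (by decide +kernel)) rfl) rfl) rfl) (Cov.trans (Cov.trans (Cov.ofV vd515) (Cov.ofV vd516) rfl) (Cov.trans (Cov.ofV vd517) (Cov.trans (Cov.ofV vd518) (Cov.ofV vd519) rfl) rfl) rfl) rfl) rfl) rfl)
theorem cov520 : Cov (nat_lit 0x8f74e5f2400000000000000000000000) (nat_lit 0x900964ad400000000000000000000000) :=
  (Cov.trans (Cov.trans (Cov.trans (Cov.trans (Cov.trans (Cov.ofV vd520) (Cov.ofV vd521) rfl) (Cov.trans (Cov.ofV vd522) (Cov.trans (Cov.ofV vd523) (Cov.ofV vd524) rfl) rfl) rfl) (Cov.trans (Cov.trans (Cov.ofV vd525) (Cov.ofV vd526) rfl) (Cov.trans (Cov.ofV vd527) (Cov.trans (Cov.ofV vd528) (Cov.ofV vd529) rfl) rfl) rfl) rfl) (Cov.trans (Cov.trans (Cov.trans (Cov.ofV vd530) (Cov.ofV vd531) rfl) (Cov.trans (Cov.ofV vd532) (Cov.trans (Cov.ofV vd533) (Cov.ofV vd534) rfl) rfl) rfl) (Cov.trans (Cov.trans (Cov.ofV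 vd535) (Cov.ofV vd536) rfl) (Cov.trans (Cov.ofV vd537) (Cov.trans (Cov.ofV vd538) (Cov.ofV vd539) rfl) rfl) rfl) rfl) rfl) (Cov.trans (Cov.trans (Cov.trans (Cov.trans (Cov.ofV vd540) (Cov.ofV vd541) rfl) (Cov.trans (Cov.ofS (nat_lit 0x8fb002f978ffc0000000000000000000) (nat_lit 0x8fb0034f5f3b80000000000000000000) (fun _ => dck_sound cd542) (by decide +kernel)) (Cov.trans (Cov.ofV vd543) (Cov.ofV vd544) rfl) rfl) rfl) (Cov.trans (Cov.trans (Cov.ofV vd545) (Cov.ofV vd546) rfl) (Cov.trans (Cov.ofV vd547) (Cov.trans (Cov.ofV vd548) (Cov.ofV vd549) rfl) rfl) rfl) rfl) (Cov.trans (Cov.trans (Cov.trans (Cov.ofV vd550) (Cov.ofV vd551) rfl) (Cov.trans (Cov.ofV vd552) (Cov.trans (Cov.ofV vd553) (Cov.ofV vd554) rfl) rfl) rfl) (Cov.trans (Cov.trans (Cov.ofV vd555) (Cov.ofV vd556) rfl) (Cov.trans (Cov.ofV vd557) (Cov.trans (Cov.ofV vd558) (Cov.ofV vd559) rfl) rfl) rfl) rfl) rfl) rfl)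
theorem cov560 : Cov (nat_lit 0x900964ad400000000000000000000000) (nat_lit 0x90f38e41800000000000000000000000) :=
  (Cov.trans (Cov.trans (Cov.trans (Cov.trans (Cov.trans (Cov.ofV vd560) (Cov.ofV vd561) rfl) (Cov.trans (Cov.ofV vd562) (Cov.trans (Cov.ofV vd563) (Cov.ofV vd564) rfl) rfl) rfl) (Cov.trans (Cov.trans (Cov.ofV vd565) (Cov.ofV vd566) rfl) (Cov.trans (Cov.ofV vd567) (Cov.trans (Cov.ofV vd568) (Cov.ofV vd569) rfl) rfl) rfl) rfl) (Cov.trans (Cov.trans (Cov.trans (Cov.ofV vd570) (Cov.ofV vd571) rfl) (Cov.trans (Cov.ofV vd572) (Cov.trans (Cov.ofV vd573) (Cov.ofV vd574) rfl) rfl) rfl) (Cov.trans (Cov.trans (Cov.ofV vd575) (Cov.ofV vd576) rfl) (Cov.trans (Cov.ofV vd577) (Cov.trans (Cov.ofV vd578) (Cov.ofV vd579) rfl) rfl) rfl) rfl) rfl) (Cov.trans (Cov.trans (Cov.trans (Cov.trans (Cov.ofS (nat_lit 0x9043ace8824d40000000000000000000) (nat_lit 0x9043ad3e688900000000000000000000)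 (fun _ => dck_sound cd580) (by decide +kernel)) (Cov.ofV vd581) rfl) (Cov.trans (Cov.ofV vd582) (Cov.trans (Cov.ofV vd583) (Cov.ofV vd584) rfl) rfl) rfl) (Cov.trans (Cov.trans (Cov.ofV vd585) (Cov.ofV vd586) rfl) (Cov.trans (Cov.ofV vd587) (Cov.trans (Cov.ofV vd588) (Cov.ofV vd589) rfl) rfl) rfl) rfl) (Cov.trans (Cov.trans (Cov.trans (Cov.ofV vd590) (Cov.ofV vd591) rfl) (Cov.trans (Cov.ofV vd592) (Cov.trans (Cov.ofV vd593) (Cov.ofV vd594) rfl) rfl) rfl) (Cov.trans (Cov.trans (Cov.ofV vd595) (Cov.ofV vd596) rfl) (Cov.trans (Cov.ofV vd597) (Cov.trans (Cov.ofV vd598) (Cov.ofV vd599) rfl) rfl) rfl) rfl) rfl) rfl)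
theorem cov600 : Cov (nat_lit 0x90f38e41800000000000000000000000) (nat_lit 0x91e0e815800000000000000000000000) :=
  (Cov.trans (Cov.trans (Cov.trans (Cov.trans (Cov.ofV vd600) (Cov.trans (Cov.ofV vd601) (Cov.ofV vd602) rfl) rfl) (Cov.trans (Cov.trans (Cov.ofV vd603) (Cov.ofV vd604) rfl) (Cov.trans (Cov.ofV vd605) (Cov.ofV vd606) rfl) rfl) rfl) (Cov.trans (Cov.trans (Cov.trans (Cov.ofV vd607) (Cov.ofS (nat_lit 0x91761aba7b8700000000000000000000) (nat_lit 0x91761b1061c2c0000000000000000000) (fun _ => dck_sound cd608) (by decide +kernel)) rfl) (Cov.trans (Cov.ofV vd609) (Cov.ofV vd610) rfl) rfl) (Cov.trans (Cov.trans (Cov.ofV vd611) (Cov.ofV vd612) rfl) (Cov.trans (Cov.ofV vd613) (Cov.ofV vd614) rfl) rfl) rfl) rfl) (Cov.trans (Cov.trans (Cov.trans (Cov.trans (Cov.ofV vd615) (Cov.ofV vd616) rfl) (Cov.trans (Cov.ofS (nat_lit 0x91d59cc2d3df40000000000000000000) (nat_lit 0x91d59d18ba1b00000000000000000000)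 (fun _ => dck_sound cd617) (by decide +kernel)) (Cov.ofV vd618) rfl) rfl) (Cov.trans (Cov.trans (Cov.ofV vd619) (Cov.ofV vd620) rfl) (Cov.trans (Cov.ofV vd621) (Cov.ofV vd622) rfl) rfl) rfl) (Cov.trans (Cov.trans (Cov.trans (Cov.ofV vd623) (Cov.ofS (nat_lit 0x91dfd802a030b0000000000000000000) (nat_lit 0x91dfd8094e26a0000000000000000000) (fun _ => dck_sound cd624) (by decide +kernel)) rfl) (Cov.trans (Cov.ofV vd625) (Cov.ofV vd626) rfl) rfl) (Cov.trans (Cov.trans (Cov.ofV vd627) (Cov.ofV vd628) rfl) (Cov.trans (Cov.ofV vd629) (Cov.ofV vd630) rfl) rfl) rfl) rfl) rfl)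
theorem covAll : Cov (nat_lit 0x8f3d00600db696000000000000000000) (nat_lit 0x91e0e815800000000000000000000000) :=
  (Cov.trans (Cov.trans (Cov.trans (Cov.trans cov0 cov40 rfl) (Cov.trans cov80 cov120 rfl) rfl) (Cov.trans (Cov.trans cov160 cov200 rfl) (Cov.trans cov240 cov280 rfl) rfl) rfl) (Cov.trans (Cov.trans (Cov.trans cov320 cov360 rfl) (Cov.trans cov400 cov440 rfl) rfl) (Cov.trans (Cov.trans cov480 cov520 rfl) (Cov.trans cov560 cov600 rfl) rfl) rfl) rfl)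

theorem inf_all {x : ℝ} (h0 : 1 / 2 < x) (h1 : x < 1) (hn : ∃ n, R n x ≤ kap x) : Inft x (kap x) := by
  rcases le_or_gt x ((190396341115761277108907282895040675840 : ℕ) / 2 ^ 128) with c | c
  · exact partK h0 c h1 hn
  rcases le_or_gt x 0.569838 with d | d
  · exact covAll x (lt_of_le_of_lt (by norm_num) c) (d.trans (by norm_num))
  rcases le_or_gt (R 2 x) (kap x) with e | e
  · exact partF h0 h1 e fun s1 s2 =>
      Cov.ofV vds x (lt_of_lt_of_le (by norm_num) s1) (s2.trans (by norm_num))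
  · refine partE eT (fun c c1 c2 c3 => ?_) (fun c c1 c2 c3 => ?_) eA0 eA4 eAA eB0 eBB d.le h1 e
    · interval_cases c
      exacts [eA1, eA2, eA3, absurd rfl c3, eA5, eA6, eA7, eA8]
    · interval_cases c
      exacts [eB1, eB2, eB3, absurd rfl c3, eB5, eB6, eB7, eB8]

/-- the left end of the range has one expansion -/
lemma uq_end {x : ℝ} (h0 : 0 < x) (h1 : x < 1) : Uq x (-(1 / (1 - x))) := by
  have key : ∀ i : ℕ, ∀ w ∈ Ex x (-(1 / (1 - x))), w i = -1 := by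
    have hR : 1 / (1 - x) = 1 + x * (1 / (1 - x)) := by
      have : 1 - x ≠ 0 := by linarith
      field_simp; ring
    have hd : ∀ w ∈ Ex x (-(1 / (1 - x))), w 0 = -1 := fun w hw => by
      rcases hw.1 0 with e | e
      · exfalso
        have a := T_step h0.le h1 hw.1.abs_le
        have b := abs_T_le h0.le h1 (hw.1.shift 1).abs_le
        rw [hw.2, e] at a
        push_cast at a b
        have c := mul_le_mul_of_nonneg_left (abs_le.1 b).1 h0.le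
        linarith
      · exact e
    intro i
    induction i with
    | zero => exact hd
    | succ i ih =>
      intro w hw
      refine ih (fun j => w (j + 1)) (tail_mem h0 h1 hw ?_)
      rw [hd w hw]; push_cast; linarith
  intro v hv w hw
  funext i
  rw [key i v hv, key i w hw]

theorem inf_one {x : ℝ} (h0 : 1 / 2 < x) (h1 : x < 1) (hn : ∃ n, R n x ≤ kap x) :
    (Ex x (y1 x)).encard = ⊤ := by
  have x0 : 0 < x := by linarith
  have h := (inf_all h0 h1 hn).neg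
  unfold Inft at h
  rw [encard_split x0 h1] at h
  have e : (-kap x - 1) / x = -(1 / (1 - x)) := by
    rw [div_eq_iff x0.ne']; linarith only [kap_add_one h1]
  have u := Uq_iff.1 (uq_end x0 h1)
  rw [e] at h
  rcases WithTop.add_eq_top.1 h with h | h
  · rw [h] at u
    exact absurd u (by decide)
  · exact h

theorem KL_full : ∃ c : ℝ, c ∈ bases 1 ∧
    (∀ q, 1 < q → q < c → (expansionsOfOne q).encard = ⊤) ∧
    ∀ k, 2 ≤ k → ∀ ε > 0, ∃ q ∈ bases k, c < q ∧ q < c + ε := by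
  obtain ⟨x, hx0, hx1, hx⟩ := exists_KL
  have x0 : 0 < x := by linarith only [hx0]
  have x1 : x < 1 := by linarith only [hx1, x0]
  have c0 : 1.7869 < x⁻¹ := by rw [lt_inv_comm₀ (by norm_num) x0]; norm_num; linarith only [hx1, x1]
  have c1 : x⁻¹ < 1.7874 := by rw [inv_lt_comm₀ x0 (by norm_num)]; norm_num; linarith only [hx0, x1]
  refine ⟨x⁻¹, ⟨by linarith only [c0], by linarith only [c1], ?_⟩, fun q hq1 hq => ?_, fun k hk ε hε => ?_⟩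
  · rw [encard_bridge (by linarith only [c0]), inv_inv]
    exact KL_unique (by linarith only [hx0, x1]) x1 hx
  · have q0 : 0 < q := by linarith only [hq1]
    have h1 : x < q⁻¹ := by rwa [lt_inv_comm₀ x0 q0]
    rw [encard_bridge hq1]
    exact inf_one (by linarith only [hx0, h1]) (inv_lt_one_of_one_lt₀ hq1)
      (above_KL x0 h1 (inv_lt_one_of_one_lt₀ hq1) hx)
  · set δ := min ε 0.1 with hδ
    have d0 : 0 < δ := lt_min hε (by norm_num)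
    have d1 : δ ≤ ε := min_le_left _ _
    have d2 : δ ≤ 0.1 := min_le_right _ _
    have p0 : 0 < x⁻¹ + δ / 2 := by linarith only [c0, d0]
    obtain ⟨z, z0, z1, hz⟩ := upper hx0 hx1 hx hk (a := (x⁻¹ + δ / 2)⁻¹)
      (by rw [lt_inv_comm₀ (by norm_num) p0]; norm_num; linarith only [c1, d2])
      (by rw [inv_lt_comm₀ p0 x0]; linarith only [d0])
    have zp : 0 < z := (inv_pos.2 p0).trans_le z0
    have u1 : x⁻¹ < z⁻¹ := by rwa [inv_lt_inv₀ x0 zp]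
    have u2 : z⁻¹ ≤ x⁻¹ + δ / 2 := by rwa [inv_le_comm₀ zp p0]
    refine ⟨z⁻¹, ⟨by linarith only [c0, u1], by linarith only [c1, d2, u2], ?_⟩, u1, by linarith only [d1, u1, u2]⟩
    rw [encard_bridge (by linarith only [c0, u1]), inv_inv]
    exact hz

end Pool.Agent.KExp
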