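import Pool.Agent.MP_bd9604_nt.Mg.Inf_EData2
import Pool.Agent.MP_bd9604_nt.Levels

/-! The parameter interval at the Thue-Morse base: definitions. -/

namespace Pool.Agent.KExp

/-- `z` has an expansion made of blocks of level `m` -/
def Cd (x : ℝ) (m : ℕ) (z : ℝ) : Prop := ∃ A, Sg A ∧ z = P m x * T (X m x) A

/-- all points `l0 + l1 * z + l2 * z'` with `z`, `z'` made of blocks lie outside the gaps `Q`;
`iP`, `iX` contain `P m`, `X m` and `B` contains `[- R m, R m]` -/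
noncomputable def famF (S : ℕ) (Q : Gt) (b : ℕ) (iP iX B : Iv) (f : ℕ) : Iv → Iv → Iv → Bool :=
  Nat.rec (fun _ _ _ => false) (fun _ ih l0 l1 l2 =>
    (Iv.add l0 (Iv.add (Iv.mul S l1 B) (Iv.mul S l2 B))).out Q b ||
    (fun a c l1' l2' => ih (Iv.add (Iv.add l0 a) c) l1' l2' && ih (Iv.sub (Iv.add l0 a) c) l1' l2' &&
        ih (Iv.add (Iv.sub l0 a) c) l1' l2' && ih (Iv.sub (Iv.sub l0 a) c) l1' l2')
      (Iv.mul S l1 iP) (Iv.mul S l2 iP) (Iv.mul S l1 iX) (Iv.mul S l2 iX)) f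

noncomputable def famck (S : ℕ) (I : Iv) (Q : Gt) (b f m : ℕ) (l0 l1 l2 : Ie) : Bool :=
  (fun E => ((eR m).iv S E).ok &&
    famF S Q b ((eP m).iv S E) ((eX m).iv S E) (Iv.ball ((eR m).iv S E).hi) f
      (l0.iv S E) (l1.iv S E) (l2.iv S E)) (env2 I I)

/-- the gaps that meet `[l / 2 ^ S, h / 2 ^ S]` -/
noncomputable def Gt.flt (G : Gt) (l h : ℕ) : Gt :=
  Gt.rec (motive := fun _ => Gt → Gt) (fun acc => acc) (fun _ a b _ il ir acc =>
    il (cond (Nat.blt h a || Nat.blt b l) (ir acc) (Gt.node Gt.nil a b (ir acc)))) G Gt.nil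

noncomputable def Gt.isNil (G : Gt) : Bool := Gt.rec true (fun _ _ _ _ _ _ => false) G

/-- `w` is a series in blocks of level `m` with `r` digits `± 1, ± 3` followed by digits `0, ± 2` -/
def Fm (x : ℝ) (m : ℕ) : ℕ → ℕ → ℝ → Prop
  | 0, _, _ => True
  | f + 1, r, w => |w| ≤ 3 * R m x ∧ ∃ (d : ℤ) (w' : ℝ), w = d * P m x + X m x * w' ∧ Fm x m f (r - 1) w' ∧
      ((r = 0 ∧ (d = 2 ∨ d = 0 ∨ d = -2)) ∨ (r ≠ 0 ∧ (d = 3 ∨ d = 1 ∨ d = -1 ∨ d = -3)))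

/-- all points `l0 + l1 * w` with `w` as in `Fm` lie outside the gaps `Q` -/
noncomputable def famG (S b : ℕ) (iP iX B : Iv) (f : ℕ) : Gt → ℕ → Iv → Iv → Bool :=
  Nat.rec (fun _ _ _ _ => false) (fun _ ih Q r l0 l1 =>
    (fun t => t.ok && (fun Q' => (Nat.ble t.hi b && Q'.isNil) ||
      (fun a l => (fun a2 => cond (Nat.beq r 0)
        (ih Q' 0 (Iv.add l0 a2) l && ih Q' 0 l0 l && ih Q' 0 (Iv.sub l0 a2) l)
        (ih Q' (Nat.sub r 1) (Iv.add (Iv.add l0 a2) a) l && ih Q' (Nat.sub r 1) (Iv.add l0 a) l &&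
          ih Q' (Nat.sub r 1) (Iv.sub l0 a) l && ih Q' (Nat.sub r 1) (Iv.sub (Iv.sub l0 a2) a) l))
        (Iv.add a a)) (Iv.mul S l1 iP) (Iv.mul S l1 iX)) (Q.flt t.lo t.hi))
      (Iv.add l0 (Iv.mul S l1 B))) f

/-- all points `(3 * P 2 + X 2 * w) * d` lie outside the gaps `Q` -/
noncomputable def famgck (S : ℕ) (I : Iv) (Q : Gt) (b f r : ℕ) (d : Ie) : Bool :=
  (fun E => ((Ie.mul (.cst 3) (eR 2)).iv S E).ok &&
    famG S b ((eP 2).iv S E) ((eX 2).iv S E) (Iv.ball ((Ie.mul (.cst 3) (eR 2)).iv S E).hi) f Q r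
      ((Ie.mul (.mul (.cst 3) (eP 2)) d).iv S E) ((Ie.mul (eX 2) d).iv S E)) (env2 I I)

/-- `|z| < R m` -/
noncomputable def belowR (S : ℕ) (E : ℕ → Iv) (m : ℕ) (z : Ie) : Bool :=
  ((Ie.sub (eR m) z).iv S E).pos && ((Ie.add (eR m) z).iv S E).pos

/-- a gap with two words `wa`, `wb` leading to points of level three, related to `kap` -/
noncomputable def twock (S : ℕ) (I J : Iv) (Q : Gt) (b f : ℕ) (wa ta : List ℤ) (sa : ℤ)
    (wb tb : List ℤ) (sb : ℤ) (n e : ℕ) : Bool :=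
  sgs (sa :: sb :: wa) && sgs wb && sgs ta && sgs tb && Nat.blt 0 e && Nat.blt 0 wb.length &&
  Nat.beq wa.length (n + e + 8 * ta.length) && Nat.beq wb.length (n + 8 * tb.length) &&
  belowR S (env2 I J) 3 (unw eQ wa (.var 1)) && belowR S (env2 I J) 3 (unw eQ wb (.var 1)) &&
  (fun pa pb => (Ie.add
      (.mul (.sub (.cst 1) (.var 0))
        (.sub (.sub (.hor wa (.var 0)) (.mul pa (.mul (eP 3) (.hor ta (eX 3)))))
          (.sub (.hor wb (.var 0)) (.mul pb (.mul (eP 3) (.hor tb (eX 3)))))))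
      (.mul (.sub pa pb) (.sub (.mul (.cst 2) (.var 0)) (.cst 1)))).pz)
    (Ie.mul (.cst sa) (.pow (.var 0) (n + e))) (Ie.mul (.cst sb) (.pow (.var 0) n)) &&
  (fun c => (fun d => famck S I Q b f 3 (.mul (.mul (eP 3) (.add (.cst 1) c)) d) (.mul (eX 3) d)
      (.mul (.mul c (eX 3)) d)) (Ie.inv (.sub (.cst 1) c)))
    (Ie.mul (.cst (sa * sb)) (.pow (.var 0) e))

/-- a gap of nodes with both branches of level two -/
noncomputable def formck (S : ℕ) (I J : Iv) (Q : Gt) (b f r : ℕ) : Bool :=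
  Nat.blt 0 r && belowR S (env2 I J) 2 (.mul (.sub (.var 1) (eP 2)) (.inv (eX 2))) &&
  belowR S (env2 I J) 2 (.mul (.sub (.sub (.mul (.sub eK (.var 1)) (.inv (.pow (eX 2) r))) eK) (eP 2))
    (.inv (eX 2))) &&
  famgck S I Q b f (r - 1) (Ie.inv (.sub (.cst 1) (.pow (eX 2) r)))

/-- gaps of the cover for low nodes -/
inductive Kt : Type
  | nil : Kt
  | trap (L : Kt) (l h : ℕ) (R : Kt) : Kt
  | two (L : Kt) (l h : ℕ) (wa ta : List ℤ) (sa : ℤ) (wb tb : List ℤ) (sb : ℤ) (n e : ℕ) (R : Kt) : Kt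
  | form (L : Kt) (l h : ℕ) (r : ℕ) (R : Kt) : Kt

noncomputable def Kt.toG (T : Kt) : Gt :=
  Kt.rec Gt.nil (fun _ l h _ a b => Gt.node a l h b)
    (fun _ l h _ _ _ _ _ _ _ _ _ a b => Gt.node a l h b) (fun _ l h _ _ a b => Gt.node a l h b) T

noncomputable def Kt.ok (S : ℕ) (I : Iv) (G Q : Gt) (b f : ℕ) (T : Kt) : Bool :=
  Kt.rec true (fun _ l h _ a c => G.miss l h && a && c)
    (fun _ l h wa ta sa wb tb sb n e _ a c =>
      twock S I (Iv.ofN l h) Q b f wa ta sa wb tb sb n e && a && c)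
    (fun _ l h r _ a c => formck S I (Iv.ofN l h) Q b f r && a && c) T

/-- the numerical conditions at the Thue-Morse base -/
noncomputable def kck (S X1 X2 gl b2 b3 f : ℕ) (Q : Gt) : Bool :=
  (fun I =>
    (Iv.sub ((eG 3).iv S (env2 I I)) (Iv.ofN gl gl)).pos &&
    (Iv.sub (Iv.ofN b2 b2) ((eG 3).iv S (env2 I I))).pos &&
    ((Ie.sub (eR 3) eK).iv S (env2 I I)).pos &&
    famgck S I Q b3 f f (.cst 1)) (Iv.ofN X1 X2) &&
  Nat.ble X1 X2 && ((Ie.sub (eG 6) eK).iv S (env2 (Iv.ofN X1 X1) (Iv.ofN X1 X1))).pos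

end Pool.Agent.KExp
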