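import Pool.Agent.MP_bd9604_nt.Mg.Inf_KDefs
import Pool.Agent.MP_bd9604_nt.Inf.CSpec

/-! Codes of level `m` and two ways to show that `kap` is a code.

Notation Y = X m x. Tools: blk, blk', rch_code, abs_code_le, T_step, T_split, T_phi, T_add, Rch.inft, Inft.neg.
code_of_nolow: z 0 = z, s i = sign (z i), z (i+1) = (z i - s i * P m) / Y; g m <= |z i| <= R m gives |z (i+1)| <= R m (g = P - Y R, R_eq), blk' gives
Rch; z = P m * (sum over i < n of s i Y^i) + Y^n z n for all n, then let n go to infinity (T_split, or uniqueness of a bounded solution).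
two_core: E1 = P T A, E2 = P T B. If A = B then kap = E1. Else let j be the first difference; kap = P (sum over i < j of A i Y^i) + Y^j t where
t (1 - c) = P T (sh B j) - c P T (sh A j) = s (P (1 + c) + Y z + c Y z') with s = B j = - A j, z = s P T (sh B (j+1)), z' = - s P T (sh A (j+1)).
kap reaches t (blk' j times).
form_core: define a i = V i + (if r <= i then a (i - r) + W (i - r) else 0). If all a i are signs then kap = P T a; else take the first i
with a i not a sign, then a (i - r) = V i = W (i - r). -/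

namespace Pool.Agent.KExp

open Finset

def shK1 (u : ℕ → ℤ) (j : ℕ) : ℕ → ℤ := fun i => u (i + j)
lemma shK1_sh (u : ℕ → ℤ) (j k : ℕ) : shK1 (shK1 u j) k = shK1 u (k + j) := by
  funext i; simp [shK1, Nat.add_assoc]
lemma shK1_zero (u : ℕ → ℤ) : shK1 u 0 = u := rfl
lemma Sg.shK1 {u : ℕ → ℤ} (h : Sg u) (j : ℕ) : Sg (shK1 u j) := fun _ => h _

lemma step_K1 {x : ℝ} (h0 : 0 < x) (h1 : x < 1) (m : ℕ) {A : ℕ → ℤ} (h : ∀ i, |A i| ≤ 1) (j : ℕ) :
    P m x * T (X m x) (shK1 A j) =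
      A j * P m x + X m x * (P m x * T (X m x) (shK1 A (j + 1))) := by
  have e := T_step (X_pos h0 m).le (X_lt_one h0 h1 m) (w := shK1 A j) (C := 1) fun i => h _
  have e2 : (fun i => shK1 A j (i + 1)) = shK1 A (j + 1) := by
    funext i; simp only [shK1]; congr 1; omega
  rw [e, e2]
  simp only [shK1, zero_add]
  ring

lemma phi_K1 {x : ℝ} (h0 : 0 < x) (h1 : x < 1) (m : ℕ) {A : ℕ → ℤ} (h : Sg A) :
    P m x * T (X m x) (phi A) = P (m + 1) x * T (X (m + 1) x) A := by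
  rw [T_phi (X_pos h0 m).le (X_lt_one h0 h1 m) h, P_succ, X_succ]
  ring

lemma seq_K1 {x : ℝ} (h0 : 0 < x) (h1 : x < 1) {m : ℕ} {z : ℕ → ℝ} {s : ℕ → ℤ} (hs : Sg s)
    (hz : ∀ n, z n = s n * P m x + X m x * z (n + 1)) {C : ℝ} (hb : ∀ n, |z n| ≤ C) :
    Cd x m (z 0) := by
  refine ⟨s, hs, ?_⟩
  have hY := X_pos h0 m
  have e : ∀ n, z 0 - P m x * T (X m x) s =
      X m x ^ n * (z n - P m x * T (X m x) (shK1 s n)) := by
    intro n
    induction n with
    | zero => rw [shK1_zero]; simp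
    | succ n ih => rw [ih, step_K1 h0 h1 m hs.abs_le n, hz n]; ring
  have t : Filter.Tendsto (fun n : ℕ => X m x ^ n * (C + R m x)) Filter.atTop (nhds 0) := by
    simpa using (tendsto_pow_atTop_nhds_zero_of_lt_one hY.le (X_lt_one h0 h1 m)).mul_const
      (C + R m x)
  have b : |z 0 - P m x * T (X m x) s| ≤ 0 := ge_of_tendsto' t fun n => by
    rw [e n, abs_mul, abs_of_pos (pow_pos hY n)]
    exact mul_le_mul_of_nonneg_left
      ((abs_sub _ _).trans (add_le_add (hb n) (abs_code_le h0 h1 m (hs.shK1 n)))) (pow_pos hY n).le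
  exact sub_eq_zero.1 (abs_nonpos_iff.1 b)

lemma rch_K1 {x : ℝ} (h0 : 0 < x) {m : ℕ} {t : ℕ → ℝ} {a : ℕ → ℤ} (j : ℕ)
    (h : ∀ i < j, (a i = 1 ∨ a i = -1) ∧ t i = a i * P m x + X m x * t (i + 1)) :
    Rch x (t 0) (t j) := by
  induction j with
  | zero => exact Rch.refl _ _
  | succ j ih =>
    exact (ih fun i hi => h i (by omega)).trans (blk' h0 m (h j (by omega)).1 (h j (by omega)).2)

lemma first_K1 {p : ℕ → Prop} (h : ¬ ∀ i, p i) : ∃ j, ¬ p j ∧ ∀ i < j, p i := by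
  classical
  have hex := not_forall.1 h
  exact ⟨Nat.find hex, Nat.find_spec hex, fun i hi => not_not.1 (Nat.find_min hex hi)⟩

theorem Cd.neg {x z : ℝ} {m : ℕ} (h : Cd x m z) : Cd x m (-z) := by
  obtain ⟨A, hA, rfl⟩ := h
  exact ⟨_, hA.neg, by rw [T_neg]; ring⟩

theorem Cd.abs_le {x z : ℝ} (h0 : 0 < x) (h1 : x < 1) {m : ℕ} (h : Cd x m z) : |z| ≤ R m x := by
  obtain ⟨A, hA, rfl⟩ := h
  exact abs_code_le h0 h1 m hA

theorem Cd.split {x z : ℝ} (h0 : 0 < x) (h1 : x < 1) {m : ℕ} (h : Cd x m z) :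
    ∃ z', Cd x m z' ∧ (z = P m x + X m x * z' ∨ z = - P m x + X m x * z') := by
  obtain ⟨A, hA, rfl⟩ := h
  have e := step_K1 h0 h1 m hA.abs_le 0
  rw [shK1_zero] at e
  refine ⟨_, ⟨_, hA.shK1 (0 + 1), rfl⟩, (hA 0).imp (fun a => ?_) fun a => ?_⟩ <;>
    rw [e, a] <;> push_cast <;> ring

theorem Cd.cons {x z : ℝ} (h0 : 0 < x) (h1 : x < 1) {m : ℕ} (h : Cd x m z) {l : List ℤ}
    (hl : ∀ s ∈ l, s = 1 ∨ s = -1) : Cd x m (P m x * horR (X m x) l + X m x ^ l.length * z) := by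
  induction l with
  | nil => simpa [horR] using h
  | cons c l ih =>
    obtain ⟨A, hA, e⟩ := ih fun s hs => hl s (List.mem_cons_of_mem _ hs)
    have hc := hl c List.mem_cons_self
    refine ⟨_, hA.cons hc, ?_⟩
    rw [T_cons (X_pos h0 m).le (X_lt_one h0 h1 m) hA hc, horR, List.length_cons]
    linear_combination X m x * e

theorem Cd.down {x z : ℝ} (h0 : 0 < x) (h1 : x < 1) {m : ℕ} (h : Cd x (m + 1) z) : Cd x m z := by
  obtain ⟨A, hA, rfl⟩ := h
  exact ⟨_, hA.phi, (phi_K1 h0 h1 m hA).symm⟩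

theorem code_of_nolow {x z : ℝ} (h0 : 0 < x) (h1 : x < 1) {m : ℕ} (hz : |z| ≤ R m x)
    (h : ∀ z', Rch x z z' → g m x ≤ |z'|) : Cd x m z := by
  have hY := X_pos h0 m
  have key : ∀ y : {y // Rch x z y ∧ |y| ≤ R m x}, ∃ s : ℤ, ∃ y' : {y // Rch x z y ∧ |y| ≤ R m x},
      (s = 1 ∨ s = -1) ∧ y.1 = s * P m x + X m x * y'.1 := by
    rintro ⟨y, r, b⟩
    have a := h y r
    have e := R_eq h0 h1 m
    unfold g at a
    have : ∃ s : ℤ, (s = 1 ∨ s = -1) ∧ |y - s * P m x| ≤ R m x * X m x := by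
      rcases abs_cases y with ⟨c, -⟩ | ⟨c, -⟩ <;> rw [c] at a b
      · exact ⟨1, .inl rfl, abs_le.2 ⟨by push_cast; linarith, by push_cast; linarith⟩⟩
      · exact ⟨-1, .inr rfl, abs_le.2 ⟨by push_cast; linarith, by push_cast; linarith⟩⟩
    obtain ⟨s, hs, c⟩ := this
    have e2 : y = s * P m x + X m x * ((y - s * P m x) / X m x) := by field_simp; ring
    exact ⟨s, ⟨_, r.trans (blk' h0 m hs e2), by
      rwa [abs_div, abs_of_pos hY, div_le_iff₀ hY]⟩, hs, e2⟩
  choose s f hs hf using key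
  exact seq_K1 h0 h1 (z := fun n => (f^[n] ⟨z, Rch.refl _ _, hz⟩).1)
    (s := fun n => s (f^[n] ⟨z, Rch.refl _ _, hz⟩)) (fun n => hs _)
    (fun n => by rw [Function.iterate_succ_apply']; exact hf _) fun n => (f^[n] _).2.2

lemma sgn_K1 {x z : ℝ} {m : ℕ} (h : Cd x m z) {s : ℤ} (hs : s = 1 ∨ s = -1) : Cd x m (s * z) := by
  rcases hs with rfl | rfl
  · simpa using h
  · simpa using h.neg

lemma inft_K1 {x z : ℝ} (h : Inft x z) {s : ℤ} (hs : s = 1 ∨ s = -1) : Inft x (s * z) := by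
  rcases hs with rfl | rfl
  · simpa using h
  · simpa using h.neg

theorem two_core {x c E1 E2 : ℝ} (h0 : 0 < x) (h1 : x < 1) {m : ℕ} (hc : c ≠ 1)
    (c1 : Cd x m E1) (c2 : Cd x m E2) (he : kap x * (1 - c) = E2 - c * E1)
    (hf : ∀ z z', Cd x m z → Cd x m z' →
      Inft x ((P m x * (1 + c) + X m x * z + c * X m x * z') / (1 - c))) :
    Inft x (kap x) ∨ Cd x m (kap x) := by
  obtain ⟨A, hA, rfl⟩ := c1
  obtain ⟨B, hB, rfl⟩ := c2
  have hc' : 1 - c ≠ 0 := sub_ne_zero.2 hc.symm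
  by_cases hAB : ∀ i, A i = B i
  · refine .inr ⟨A, hA, mul_right_cancel₀ hc' ?_⟩
    rw [he, ← funext hAB]
    ring
  obtain ⟨j, hj, hl⟩ := first_K1 hAB
  have r := rch_K1 h0 (m := m) (a := A) (t := fun i =>
    (P m x * T (X m x) (shK1 B i) - c * (P m x * T (X m x) (shK1 A i))) / (1 - c)) j fun i hi => ⟨hA i, by
      rw [step_K1 h0 h1 m hA.abs_le i, step_K1 h0 h1 m hB.abs_le i, ← hl i hi]
      field_simp
      ring⟩
  simp only [shK1_zero] at r
  rw [← he, mul_div_cancel_right₀ _ hc'] at r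
  refine .inl (r.inft h0 h1 ?_)
  have := inft_K1 (hf _ _ (sgn_K1 ⟨_, hB.shK1 (j + 1), rfl⟩ (hB j))
    (sgn_K1 ⟨_, hA.shK1 (j + 1), rfl⟩ (hA j))) (hB j)
  convert this using 1
  rw [step_K1 h0 h1 m hA.abs_le j, step_K1 h0 h1 m hB.abs_le j]
  rcases hA j with a | a <;> rcases hB j with b | b
  · exact absurd (a.trans b.symm) hj
  · rw [a, b]; push_cast; ring
  · rw [a, b]; push_cast; ring
  · exact absurd (a.trans b.symm) hj

def a_K1 (r : ℕ) (V W : ℕ → ℤ) (i : ℕ) : ℤ :=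
  V i + if r + 1 ≤ i then a_K1 r V W (i - (r + 1)) + W (i - (r + 1)) else 0
  termination_by i
  decreasing_by omega

lemma hor_K1 (Y : ℝ) (n : ℕ) : ∀ f : ℕ → ℤ, (∀ k < n, f k = 1 ∨ f k = -1) → ∃ u : List ℤ,
    u.length = n ∧ (∀ s ∈ u, s = 1 ∨ s = -1) ∧ horR Y u = ∑ k ∈ range n, (f k : ℝ) * Y ^ k := by
  induction n with
  | zero => exact fun _ _ => ⟨[], rfl, by simp, by simp [horR]⟩
  | succ n ih =>
    intro f hf
    obtain ⟨u, e1, e2, e3⟩ := ih (fun k => f (k + 1)) fun k hk => hf _ (by omega)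
    refine ⟨f 0 :: u, by simp [e1], ?_, ?_⟩
    · intro s hs
      rcases List.mem_cons.1 hs with rfl | hs
      · exact hf 0 (by omega)
      · exact e2 s hs
    · rw [horR, e3, sum_range_succ', mul_sum, add_comm]
      simp only [pow_zero, mul_one, add_left_inj]
      exact sum_congr rfl fun k _ => by ring

theorem form_core {x : ℝ} (h0 : 0 < x) (h1 : x < 1) {m r : ℕ} (hr : 1 ≤ r)
    {V W : ℕ → ℤ} (hV : Sg V) (hW : Sg W)
    (he : kap x * (1 - X m x ^ r) = P m x * T (X m x) V + X m x ^ r * (P m x * T (X m x) W))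
    (hf : ∀ (u : List ℤ) (z z' : ℝ), u.length + 1 = r → (∀ s ∈ u, s = 1 ∨ s = -1) →
      Cd x m z → Cd x m z' → Inft x ((3 * P m x + X m x * (P m x * horR (X m x) u + z + z')) /
        (1 - X m x ^ r))) :
    Inft x (kap x) ∨ Cd x m (kap x) := by
  obtain ⟨q, rfl⟩ : ∃ q, r = q + 1 := ⟨r - 1, by omega⟩
  have hY := X_pos h0 m
  have hY1 := X_lt_one h0 h1 m
  have hP := P_pos h0 h1 m
  have hd : 0 < 1 - X m x ^ (q + 1) := sub_pos.2 (pow_lt_one₀ hY.le hY1 (by omega))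
  obtain ⟨a, ha⟩ : ∃ a : ℕ → ℤ, ∀ i, a i =
      V i + if q + 1 ≤ i then a (i - (q + 1)) + W (i - (q + 1)) else 0 :=
    ⟨a_K1 q V W, fun i => by rw [a_K1]⟩
  obtain ⟨b, hb⟩ : ∃ b : ℕ → ℤ, ∀ i, b i = if q + 1 ≤ i then a (i - (q + 1)) else 0 :=
    ⟨_, fun _ => rfl⟩
  obtain ⟨W', hW'⟩ : ∃ b : ℕ → ℤ, ∀ i, b i = if q + 1 ≤ i then W (i - (q + 1)) else 0 :=
    ⟨_, fun _ => rfl⟩
  have w1 : ∀ i, |W' i| ≤ 1 := fun i => by
    rw [hW']
    split_ifs
    exacts [hW.abs_le _, by simp]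
  have w2 : ∀ i, q + 1 ≤ i → shK1 W' i = shK1 W (i - (q + 1)) := fun i hi => by
    funext k
    simp only [shK1]
    rw [hW', if_pos (by omega)]
    congr 1
    omega
  obtain ⟨t, ht⟩ : ∃ t : ℕ → ℝ, ∀ l, t l * (1 - X m x ^ (q + 1)) =
      P m x * ∑ k ∈ range (q + 1), (b (k + l) : ℝ) * X m x ^ k + P m x * T (X m x) (shK1 V l) +
        P m x * T (X m x) (shK1 W' l) := ⟨fun l => _ / _, fun l => div_mul_cancel₀ _ hd.ne'⟩
  have t0 : t 0 = kap x := by
    refine mul_right_cancel₀ hd.ne' ?_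
    rw [ht, he, shK1_zero, shK1_zero, sum_eq_zero fun k hk => by
      rw [hb, if_neg (by have := mem_range.1 hk; omega)]; simp,
      T_zero_head hY.le hY1 w1 (L := q + 1) fun i hi => by rw [hW', if_neg (by omega)]]
    have := w2 (q + 1) le_rfl
    rw [Nat.sub_self, shK1_zero] at this
    rw [← this]
    unfold shK1
    ring
  have ts : ∀ l, t l = a l * P m x + X m x * t (l + 1) := fun l => by
    refine mul_right_cancel₀ hd.ne' ?_
    have e1 : a l = V l + b l + W' l := by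
      rw [ha, hb, hW']
      split_ifs <;> ring
    have e2 : b (q + (l + 1)) = a l := by
      rw [hb, if_pos (by omega)]
      congr 1
      omega
    have e3 : X m x * ∑ k ∈ range q, (b (k + (l + 1)) : ℝ) * X m x ^ k =
        ∑ k ∈ range q, (b (k + 1 + l) : ℝ) * X m x ^ (k + 1) := by
      rw [mul_sum]
      exact sum_congr rfl fun k _ => by rw [show k + (l + 1) = k + 1 + l by omega]; ring
    rw [add_mul, mul_assoc (X m x), ht, ht, step_K1 h0 h1 m hV.abs_le l, step_K1 h0 h1 m w1 l,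
      sum_range_succ', ← e3, sum_range_succ, e2, zero_add]
    have e4 : (a l : ℝ) = V l + b l + W' l := by exact_mod_cast e1
    linear_combination (- P m x) * e4
  by_cases hs : ∀ i, a i = 1 ∨ a i = -1
  · right
    rw [← t0]
    refine seq_K1 h0 h1 hs ts (C := (P m x * (q + 1) + R m x + R m x) / (1 - X m x ^ (q + 1)))
      fun l => ?_
    rw [le_div_iff₀ hd, ← abs_of_pos hd, ← abs_mul, ht]
    refine (abs_add_three _ _ _).trans (add_le_add (add_le_add ?_ (abs_code_le h0 h1 m (hV.shK1 l))) ?_)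
    · rw [abs_mul, abs_of_pos hP]
      refine mul_le_mul_of_nonneg_left ((abs_sum_le_sum_abs _ _).trans ?_) hP.le
      refine (sum_le_card_nsmul _ _ 1 fun k _ => ?_).trans (by simp)
      have : |b (k + l)| ≤ 1 := by
        rw [hb]
        split_ifs
        exacts [Sg.abs_le hs _, by simp]
      rw [abs_mul, abs_of_pos (pow_pos hY k)]
      exact mul_le_one₀ (by exact_mod_cast this) (pow_pos hY k).le (pow_le_one₀ hY.le hY1.le)
    · have := abs_T_le hY.le hY1 (w := shK1 W' l) fun i => w1 _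
      rw [abs_mul, abs_of_pos hP, R, div_eq_mul_one_div]
      exact mul_le_mul_of_nonneg_left (by simpa using this) hP.le
  obtain ⟨j, hj, hl⟩ := first_K1 hs
  have r := rch_K1 h0 j fun i hi => ⟨hl i hi, ts i⟩
  rw [t0] at r
  refine .inl (r.inft h0 h1 ?_)
  have hM' : q + 1 ≤ j := by
    by_contra c
    have := ha j
    rw [if_neg c, add_zero] at this
    exact hj (this ▸ hV j)
  have e1 := ha j
  rw [if_pos (by omega)] at e1
  have e2 := hl (j - (q + 1)) (by omega)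
  have e3 := hV j
  have e4 := hW (j - (q + 1))
  have e5 : a (j - (q + 1)) = V j ∧ W (j - (q + 1)) = V j := by omega
  have c1 : Cd x m (P m x * T (X m x) (shK1 V (j + 1))) := ⟨_, hV.shK1 _, rfl⟩
  have c2 : Cd x m (P m x * T (X m x) (shK1 W (j - (q + 1) + 1))) := ⟨_, hW.shK1 _, rfl⟩
  obtain ⟨u, u1, u2, u3⟩ := hor_K1 (X m x) q (fun k => V j * b (k + 1 + j)) fun k hk => by
    rw [hb, if_pos (by omega)]
    rcases e3 with c | c <;> rcases hl (k + 1 + j - (q + 1)) (by omega) with d | d <;> simp only [c, d, mul_one, Int.reduceNeg, reduceCtorEq, or_false, mul_neg, or_true, neg_neg]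
  have := inft_K1 (hf u _ _ (by omega) u2 (sgn_K1 c1 e3) (sgn_K1 c2 e3)) e3
  convert this using 1
  have e6 : b (0 + j) = V j := by rw [zero_add, hb, if_pos (by omega), e5.1]
  have e7 : (V j : ℝ) * V j = 1 := by rcases e3 with c | c <;> simp [c]
  have e8 : V j * (X m x * horR (X m x) u) =
      ∑ k ∈ range q, (b (k + 1 + j) : ℝ) * X m x ^ (k + 1) := by
    rw [u3, mul_sum, mul_sum]
    refine sum_congr rfl fun k _ => ?_
    push_cast
    linear_combination (b (k + 1 + j) : ℝ) * X m x ^ (k + 1) * e7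
  rw [← mul_div_assoc, eq_div_iff hd.ne', ht, w2 j (by omega), step_K1 h0 h1 m hV.abs_le j,
    step_K1 h0 h1 m hW.abs_le (j - (q + 1)), sum_range_succ', ← e8, e6, e5.2]
  linear_combination (- X m x * (P m x * T (X m x) (shK1 V (j + 1))) -
    X m x * (P m x * T (X m x) (shK1 W (j - (q + 1) + 1)))) * e7

lemma Fm_two {x : ℝ} (h0 : 0 < x) (h1 : x < 1) {m : ℕ} (f : ℕ) : ∀ {z z' : ℝ}, Cd x m z → Cd x m z' →
    Fm x m f 0 (z + z') := by
  induction f with
  | zero => exact fun _ _ => trivial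
  | succ f ih =>
    intro z z' hz hz'
    have a := hz.abs_le h0 h1
    have b := hz'.abs_le h0 h1
    refine ⟨(abs_add_le _ _).trans (by linarith [R_pos h0 h1 m]), ?_⟩
    obtain ⟨y, hy, e⟩ := hz.split h0 h1
    obtain ⟨y', hy', e'⟩ := hz'.split h0 h1
    rcases e with e | e <;> rcases e' with e' | e'
    · exact ⟨2, _, by rw [e, e']; push_cast; ring, ih hy hy', by simp⟩
    · exact ⟨0, _, by rw [e, e']; push_cast; ring, ih hy hy', by simp⟩
    · exact ⟨0, _, by rw [e, e']; push_cast; ring, ih hy hy', by simp⟩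
    · exact ⟨-2, _, by rw [e, e']; push_cast; ring, ih hy hy', by simp⟩

lemma Fm_step {x : ℝ} (h0 : 0 < x) (h1 : x < 1) {m f r : ℕ} {v v' z z' : ℝ} (hv : |v| ≤ R m x)
    (e0 : v = P m x + X m x * v' ∨ v = - P m x + X m x * v') (hz : Cd x m z) (hz' : Cd x m z')
    (ih : ∀ y y', Cd x m y → Cd x m y' → Fm x m f r (v' + y + y')) :
    Fm x m (f + 1) (r + 1) (v + z + z') := by
  have a := hz.abs_le h0 h1
  have b := hz'.abs_le h0 h1
  refine ⟨(abs_add_three _ _ _).trans (by linarith), ?_⟩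
  obtain ⟨y, hy, e⟩ := hz.split h0 h1
  obtain ⟨y', hy', e'⟩ := hz'.split h0 h1
  have := ih y y' hy hy'
  rcases e0 with e0 | e0 <;> rcases e with e | e <;> rcases e' with e' | e'
  · exact ⟨3, _, by rw [e0, e, e']; push_cast; ring, this, by simp⟩
  · exact ⟨1, _, by rw [e0, e, e']; push_cast; ring, this, by simp⟩
  · exact ⟨1, _, by rw [e0, e, e']; push_cast; ring, this, by simp⟩
  · exact ⟨-1, _, by rw [e0, e, e']; push_cast; ring, this, by simp⟩
  · exact ⟨1, _, by rw [e0, e, e']; push_cast; ring, this, by simp⟩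
  · exact ⟨-1, _, by rw [e0, e, e']; push_cast; ring, this, by simp⟩
  · exact ⟨-1, _, by rw [e0, e, e']; push_cast; ring, this, by simp⟩
  · exact ⟨-3, _, by rw [e0, e, e']; push_cast; ring, this, by simp⟩

lemma Fm_three {x : ℝ} (h0 : 0 < x) (h1 : x < 1) {m : ℕ} (f : ℕ) : ∀ {v z z' : ℝ}, Cd x m v →
    Cd x m z → Cd x m z' → Fm x m f f (v + z + z') := by
  induction f with
  | zero => exact fun _ _ _ => trivial
  | succ f ih =>
    intro v z z' hv hz hz'
    obtain ⟨v', hv', e⟩ := hv.split h0 h1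
    exact Fm_step h0 h1 (hv.abs_le h0 h1) e hz hz' fun y y' => ih hv'

lemma hor_le_K1 {x : ℝ} (h0 : 0 < x) (h1 : x < 1) (m : ℕ) : ∀ u : List ℤ, (∀ s ∈ u, s = 1 ∨ s = -1) →
    |P m x * horR (X m x) u| ≤ R m x
  | [], _ => by simpa only [horR, mul_zero, abs_zero] using (R_pos h0 h1 m).le
  | s :: u, h => by
    have a := abs_le.1 (hor_le_K1 h0 h1 m u fun t ht => h t (by simp [ht]))
    have b := R_eq h0 h1 m
    have c := X_pos h0 m
    have d := P_pos h0 h1 m
    have e1 := mul_le_mul_of_nonneg_left a.1 c.le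
    have e2 := mul_le_mul_of_nonneg_left a.2 c.le
    rw [horR, abs_le]
    rcases h s (by simp) with rfl | rfl <;> push_cast <;> constructor <;> linarith only [b, d, e1, e2]

lemma Fm_list {x : ℝ} (h0 : 0 < x) (h1 : x < 1) {m : ℕ} : ∀ (u : List ℤ) (f : ℕ) {z z' : ℝ},
    (∀ s ∈ u, s = 1 ∨ s = -1) → Cd x m z → Cd x m z' →
    Fm x m f u.length (P m x * horR (X m x) u + z + z')
  | [], f, _, _, _, hz, hz' => by simpa [horR] using Fm_two h0 h1 f hz hz'
  | _ :: _, 0, _, _, _, _, _ => trivial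
  | s :: u, f + 1, _, _, h, hz, hz' => by
    refine Fm_step h0 h1 (hor_le_K1 h0 h1 m _ h) (v' := P m x * horR (X m x) u) ?_ hz hz'
      fun y y' => Fm_list h0 h1 u f fun t ht => h t (by simp [ht])
    rw [horR]
    rcases h s (by simp) with rfl | rfl
    · left; push_cast; ring
    · right; push_cast; ring

end Pool.Agent.KExp
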